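import Pool.Agent.Helper25.SCurve.Reflect

/-!
# The equilibrium measure of a max-min continuum lives in the rectangle spanned by `z₁` and `z₂`
-/

namespace Pool.Agent.Helper25.SCurve

open MeasureTheory Set Filter Topology
open scoped ENNReal

section

variable {D k₁ k₂ ε₁ ε₂ : ℝ} {Γ : Set ℂ} {μ : Measure ℂ}

theorem phi_nonpos (hk₁ : 0 ≤ k₁) (hk₂ : 0 ≤ k₂) (z : ℂ) : phi k₁ k₂ z ≤ 0 := by
  rw [phi_eq]
  have h1 : 0 ≤ max z.re 0 := le_max_right _ _
  have h2 : min z.re 0 ≤ 0 := min_le_right _ _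
  nlinarith [mul_nonneg hk₁ h1, mul_nonneg_of_nonpos_of_nonpos (neg_nonpos.2 hk₂) h2]

/-- The energy of the equilibrium measure of a continuum of the class is at most `1`. -/
theorem ren_le (hJ : IsJoining ε₁ ε₂ Γ) (hD : 2 ≤ D) (hk₁ : 0 ≤ k₁)
    (hk₂ : 0 ≤ k₂) (hμ : IsMinim D k₁ k₂ Γ μ) : ren D k₁ k₂ μ ≤ Real.log D + 1 := by
  have h1 := isProbOn_sel hJ.isCompact (by norm_num : (-1 : ℝ) < 1) hJ.exists_im
  have h2 := ener_sel_le (D := D) hJ.isCompact (by norm_num : (-1 : ℝ) < 1) (by linarith)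
  have h3 : Real.log D + 1 - Real.log ((1 - (-1)) / 2) = Real.log D + 1 := by norm_num
  rw [h3] at h2
  have h4 : 0 ≤ Real.log D + 1 := by
    have := Real.log_nonneg (by linarith : (1 : ℝ) ≤ D)
    linarith
  have hfin := ne_top_of_le_ne_top ENNReal.ofReal_ne_top h2
  have h5 := hμ.le _ h1 hfin
  have h6 : ∫ z, phi k₁ k₂ z ∂(sel Γ (-1) 1) ≤ 0 :=
    integral_nonpos fun z => phi_nonpos hk₁ hk₂ z
  have h7 := ENNReal.toReal_mono ENNReal.ofReal_ne_top h2
  rw [ENNReal.toReal_ofReal h4] at h7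
  unfold ren at h5 ⊢
  linarith

theorem kerV_nonpos {h : ℂ → ℂ} (hh : ∀ z w, dot (z - w) (h z - h w) ≤ 0) (p : ℂ × ℂ) :
    kerV h p ≤ 0 := by
  unfold kerV
  exact div_nonpos_of_nonpos_of_nonneg (hh _ _) (by positivity)

/-- No mass to the right of `z₂`. -/
theorem right_null (hM : IsMaxMin k₁ k₂ ε₁ ε₂ Γ) (hB : Box D Γ) (hμ : IsMinim D k₁ k₂ Γ μ)
    (hk₁ : 0 < k₁) (hε₁ : 0 < ε₁) (hε₂ : 0 < ε₂) : μ {z | ε₂ < z.re} = 0 := by
  have := hμ.mem.isProb
  have hLip : ∀ z w : ℂ, ‖((-(max (z.re - ε₂) 0) : ℝ) : ℂ) - ((-(max (w.re - ε₂) 0) : ℝ) : ℂ)‖ ≤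
      1 * ‖z - w‖ := by
    intro z w
    rw [← Complex.ofReal_sub, Complex.norm_real, Real.norm_eq_abs, one_mul]
    have h1 : |-(max (z.re - ε₂) 0) - -(max (w.re - ε₂) 0)| ≤ |(z.re - ε₂) - (w.re - ε₂)| := by
      rw [show -(max (z.re - ε₂) 0) - -(max (w.re - ε₂) 0) =
        -(max (z.re - ε₂) 0 - max (w.re - ε₂) 0) by ring, abs_neg]
      exact abs_max_sub_max_le_abs _ _ _
    refine h1.trans ?_
    have := Complex.abs_re_le_norm (z - w)
    rwa [Complex.sub_re, show z.re - w.re = (z.re - ε₂) - (w.re - ε₂) by ring] at this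
  have h1 := variation (h := fun z => ((-(max (z.re - ε₂) 0) : ℝ) : ℂ)) (L := 1)
    (g := fun z => k₁ * max (z.re - ε₂) 0) (t₀ := 1) hM hB hμ hLip (by norm_num) ?_ ?_
    (by fun_prop) one_pos ?_
  · have h2 : ∫ p, kerV (fun z => ((-(max (z.re - ε₂) 0) : ℝ) : ℂ)) p ∂(μ.prod μ) ≤ 0 := by
      apply integral_nonpos
      apply kerV_nonpos
      intro z w
      unfold dot
      simp only [Complex.sub_re, Complex.sub_im, Complex.ofReal_re, Complex.ofReal_im, sub_self,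
        mul_zero, add_zero]
      rcases le_total z.re w.re with h | h
      · have : max (z.re - ε₂) 0 ≤ max (w.re - ε₂) 0 := max_le_max (by linarith) le_rfl
        nlinarith
      · have : max (w.re - ε₂) 0 ≤ max (z.re - ε₂) 0 := max_le_max (by linarith) le_rfl
        nlinarith
    have h3 : ∫ z, k₁ * max (z.re - ε₂) 0 ∂μ ≤ 0 := by linarith
    have hnn : 0 ≤ᵐ[μ] fun z => k₁ * max (z.re - ε₂) 0 :=
      ae_of_all _ fun z => mul_nonneg hk₁.le (le_max_right _ _)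
    have hint : Integrable (fun z : ℂ => k₁ * max (z.re - ε₂) 0) μ := by
      obtain ⟨M, hMb⟩ := hB.bdd.exists_norm_le
      have hae : ∀ᵐ z ∂μ, z ∈ Γ := by
        rw [ae_iff]; exact hμ.mem.compl
      refine (integrable_const (k₁ * (M + ε₂))).mono'
        (by fun_prop : Measurable fun z : ℂ => k₁ * max (z.re - ε₂) 0).aestronglyMeasurable ?_
      filter_upwards [hae] with z hz
      rw [Real.norm_of_nonneg (mul_nonneg hk₁.le (le_max_right _ _))]
      have h4 := hMb z hz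
      have h5 := Complex.abs_re_le_norm z
      have h6 := le_abs_self z.re
      have h7 := norm_nonneg z
      apply mul_le_mul_of_nonneg_left _ hk₁.le
      exact max_le (by linarith) (by linarith)
    have h4 := (integral_eq_zero_iff_of_nonneg_ae hnn hint).1
      (le_antisymm h3 (integral_nonneg_of_ae hnn))
    have h5 : ∀ᵐ z ∂μ, ¬ ε₂ < z.re := by
      filter_upwards [h4] with z hz hlt
      simp only [Pi.zero_apply] at hz
      have : 0 < k₁ * max (z.re - ε₂) 0 := mul_pos hk₁ (lt_max_of_lt_left (by linarith))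
      linarith
    rw [ae_iff] at h5
    simpa using h5
  · simp only [Complex.add_re, Complex.neg_re, Complex.ofReal_re, Complex.I_re, add_zero]
    rw [max_eq_right (by linarith)]
    simp
  · simp only [Complex.sub_re, Complex.ofReal_re, Complex.I_re, sub_zero, sub_self, max_self]
    simp
  · intro t ht0 ht1 z
    unfold defo
    rw [phi_eq, phi_eq]
    simp only [Complex.add_re, Complex.mul_re, Complex.ofReal_re, Complex.ofReal_im, zero_mul,
      sub_zero]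
    rcases le_total z.re ε₂ with h | h
    · rw [max_eq_right (show z.re - ε₂ ≤ 0 by linarith)]
      simp
    · rw [max_eq_left (show (0 : ℝ) ≤ z.re - ε₂ by linarith)]
      have h5 : 0 ≤ z.re + t * -(z.re - ε₂) := by nlinarith
      rw [max_eq_left h5, min_eq_right h5, max_eq_left (by linarith : 0 ≤ z.re),
        min_eq_right (by linarith : 0 ≤ z.re)]
      linarith

/-- Almost all points have abscissa in `[-ε₁, ε₂]`. -/
theorem re_ae (hM : IsMaxMin k₁ k₂ ε₁ ε₂ Γ) (hB : Box D Γ) (hμ : IsMinim D k₁ k₂ Γ μ)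
    (hk₁ : 0 < k₁) (hk₂ : 0 < k₂) (hε₁ : 0 < ε₁) (hε₂ : 0 < ε₂) :
    ∀ᵐ z ∂μ, -ε₁ ≤ z.re ∧ z.re ≤ ε₂ := by
  have h1 := right_null hM hB hμ hk₁ hε₁ hε₂
  have h2 := right_null hM.neg hB.neg hμ.neg hk₂ hε₂ hε₁
  rw [negM_apply] at h2
  have h3 : ∀ᵐ z ∂μ, ¬ ε₂ < z.re := by rw [ae_iff]; simpa using h1
  have h4 : ∀ᵐ z ∂μ, ¬ ε₁ < -z.re := by
    rw [ae_iff]
    simp only [not_not]
    have : negSet {z : ℂ | ε₁ < z.re} = {z : ℂ | ε₁ < -z.re} := by
      ext z
      rw [mem_negSet]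
      simp
    rwa [this] at h2
  filter_upwards [h3, h4] with z a b
  exact ⟨by linarith, by linarith⟩

theorem phi_ge {z : ℂ} (hk₁ : 0 ≤ k₁) (hk₂ : 0 ≤ k₂) (h1 : -ε₁ ≤ z.re) (h2 : z.re ≤ ε₂)
    (hε₁ : 0 ≤ ε₁) (hε₂ : 0 ≤ ε₂) : -(k₁ * ε₂ + k₂ * ε₁) ≤ phi k₁ k₂ z := by
  rw [phi_eq]
  have h3 : max z.re 0 ≤ ε₂ := max_le h2 hε₂
  have h4 : -ε₁ ≤ min z.re 0 := le_min h1 (by linarith)
  nlinarith [mul_le_mul_of_nonneg_left h3 hk₁, mul_le_mul_of_nonneg_left h4 hk₂]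

theorem integral_phi_ge (hM : IsMaxMin k₁ k₂ ε₁ ε₂ Γ) (hB : Box D Γ) (hμ : IsMinim D k₁ k₂ Γ μ)
    (hk₁ : 0 < k₁) (hk₂ : 0 < k₂) (hε₁ : 0 < ε₁) (hε₂ : 0 < ε₂) :
    -(k₁ * ε₂ + k₂ * ε₁) ≤ ∫ z, phi k₁ k₂ z ∂μ := by
  have := hμ.mem.isProb
  have hi := integrable_phi (k₁ := k₁) (k₂ := k₂) hB.bdd hμ.mem
  have h3 : ∫ z, (-(k₁ * ε₂ + k₂ * ε₁)) ∂μ ≤ ∫ z, phi k₁ k₂ z ∂μ := by
    apply integral_mono_ae (integrable_const _) hi
    filter_upwards [re_ae hM hB hμ hk₁ hk₂ hε₁ hε₂] with z hz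
    exact phi_ge hk₁.le hk₂.le hz.1 hz.2 hε₁.le hε₂.le
  simpa using h3

/-- No mass above the line `Im z = 1`. -/
theorem top_null (hM : IsMaxMin k₁ k₂ ε₁ ε₂ Γ) (hB : Box D Γ) (hD : 2 ≤ D)
    (hμ : IsMinim D k₁ k₂ Γ μ) (hk₁ : 0 < k₁) (hk₂ : 0 < k₂) (hε₁ : 0 < ε₁) (hε₂ : 0 < ε₂)
    (hsmall : 1 + 2 * (k₁ * ε₂ + k₂ * ε₁) < -Real.log (ε₁ + ε₂)) : μ {z | 1 < z.im} = 0 := by
  have hprob := hμ.mem.isProb
  have hLip : ∀ z w : ℂ, ‖((-(max (z.im - 1) 0) : ℝ) : ℂ) * Complex.I -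
      ((-(max (w.im - 1) 0) : ℝ) : ℂ) * Complex.I‖ ≤ 1 * ‖z - w‖ := by
    intro z w
    rw [← sub_mul, ← Complex.ofReal_sub, norm_mul, Complex.norm_I, mul_one, Complex.norm_real,
      Real.norm_eq_abs, one_mul]
    have h1 : |-(max (z.im - 1) 0) - -(max (w.im - 1) 0)| ≤ |(z.im - 1) - (w.im - 1)| := by
      rw [show -(max (z.im - 1) 0) - -(max (w.im - 1) 0) =
        -(max (z.im - 1) 0 - max (w.im - 1) 0) by ring, abs_neg]
      exact abs_max_sub_max_le_abs _ _ _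
    refine h1.trans ?_
    have := Complex.abs_im_le_norm (z - w)
    rwa [Complex.sub_im, show z.im - w.im = (z.im - 1) - (w.im - 1) by ring] at this
  have hdot : ∀ z w : ℂ, dot (z - w) (((-(max (z.im - 1) 0) : ℝ) : ℂ) * Complex.I -
      ((-(max (w.im - 1) 0) : ℝ) : ℂ) * Complex.I) =
      -((z.im - w.im) * (max (z.im - 1) 0 - max (w.im - 1) 0)) := by
    intro z w
    unfold dot
    simp
    ring
  have hmono : ∀ z w : ℂ, 0 ≤ (z.im - w.im) * (max (z.im - 1) 0 - max (w.im - 1) 0) := by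
    intro z w
    rcases le_total z.im w.im with h | h
    · have : max (z.im - 1) 0 ≤ max (w.im - 1) 0 := max_le_max (by linarith) le_rfl
      nlinarith
    · have : max (w.im - 1) 0 ≤ max (z.im - 1) 0 := max_le_max (by linarith) le_rfl
      nlinarith
  have h1 := variation (h := fun z => ((-(max (z.im - 1) 0) : ℝ) : ℂ) * Complex.I) (L := 1)
    (g := fun _ => 0) (t₀ := 1) hM hB hμ hLip (by norm_num) ?_ ?_
    continuous_const one_pos ?_
  · -- the kernel vanishes almost everywhere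
    have hle : ∀ p, kerV (fun z => ((-(max (z.im - 1) 0) : ℝ) : ℂ) * Complex.I) p ≤ 0 := by
      apply kerV_nonpos
      intro z w
      rw [hdot]
      linarith [hmono z w]
    have hi := integrable_kerV hLip (by norm_num) (μ.prod μ)
    have h2 : ∀ᵐ p ∂(μ.prod μ),
        -kerV (fun z => ((-(max (z.im - 1) 0) : ℝ) : ℂ) * Complex.I) p = 0 := by
      have h3 : 0 ≤ᵐ[μ.prod μ]
          fun p => -kerV (fun z => ((-(max (z.im - 1) 0) : ℝ) : ℂ) * Complex.I) p :=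
        ae_of_all _ fun p => by
          have := hle p
          simp only [Pi.zero_apply]
          linarith
      have h4 := (integral_eq_zero_iff_of_nonneg_ae h3 hi.neg).1 (by
        apply le_antisymm
        · rw [integral_neg]
          simp only [integral_zero, mul_zero] at h1
          linarith
        · exact integral_nonneg_of_ae h3)
      filter_upwards [h4] with p hp using hp
    have h3 : ∀ᵐ p ∂(μ.prod μ), p.1 ≠ p.2 := (ener_toReal hμ.mem hμ.fin).2.2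
    have h4 : ∀ᵐ p ∂(μ.prod μ), (p.1.im - p.2.im) *
        (max (p.1.im - 1) 0 - max (p.2.im - 1) 0) = 0 := by
      filter_upwards [h2, h3] with p hp hne
      have h5 : 0 < ‖p.1 - p.2‖ := norm_pos_iff.2 (sub_ne_zero.2 hne)
      unfold kerV at hp
      rw [hdot, neg_eq_zero, div_eq_zero_iff] at hp
      rcases hp with hp | hp
      · linarith
      · exact absurd hp (by positivity)
    by_contra hpos
    have h5 : ∀ᵐ z ∂μ, ∀ᵐ w ∂μ, (z.im - w.im) * (max (z.im - 1) 0 - max (w.im - 1) 0) = 0 :=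
      Measure.ae_ae_of_ae_prod h4
    -- choose a point above the line
    obtain ⟨z, hz1, hz2⟩ : ∃ z : ℂ, 1 < z.im ∧
        ∀ᵐ w ∂μ, (z.im - w.im) * (max (z.im - 1) 0 - max (w.im - 1) 0) = 0 := by
      by_contra hcon
      apply hpos
      have h6 : ∀ᵐ z ∂μ, ¬ 1 < z.im := by
        filter_upwards [h5] with z hz hlt
        exact hcon ⟨z, hlt, hz⟩
      rw [ae_iff] at h6
      simpa using h6
    have h6 : ∀ᵐ w ∂μ, w.im = z.im := by
      filter_upwards [hz2] with w hw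
      rcases mul_eq_zero.1 hw with h7 | h7
      · linarith
      · rw [max_eq_left (by linarith)] at h7
        rcases le_total w.im 1 with h8 | h8
        · rw [max_eq_right (by linarith)] at h7
          linarith
        · rw [max_eq_left (by linarith)] at h7
          linarith
    -- the energy is too large
    have h7 := re_ae hM hB hμ hk₁ hk₂ hε₁ hε₂
    have h8 : ∀ᵐ p ∂(μ.prod μ), ‖p.1 - p.2‖ ≤ ε₁ + ε₂ := by
      have a1 := (Measure.quasiMeasurePreserving_fst (μ := μ) (ν := μ)).ae h6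
      have a2 := (Measure.quasiMeasurePreserving_snd (μ := μ) (ν := μ)).ae h6
      have a3 := (Measure.quasiMeasurePreserving_fst (μ := μ) (ν := μ)).ae h7
      have a4 := (Measure.quasiMeasurePreserving_snd (μ := μ) (ν := μ)).ae h7
      filter_upwards [a1, a2, a3, a4] with p b1 b2 b3 b4
      calc ‖p.1 - p.2‖ ≤ |(p.1 - p.2).re| + |(p.1 - p.2).im| :=
            Complex.norm_le_abs_re_add_abs_im _
        _ ≤ ε₁ + ε₂ := by
            rw [Complex.sub_re, Complex.sub_im, b1, b2, sub_self, abs_zero, add_zero, abs_le]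
            constructor <;> linarith [b3.1, b3.2, b4.1, b4.2]
    have hs0 : 0 < ε₁ + ε₂ := by linarith
    have h9 : ENNReal.ofReal (Real.log (D / (ε₁ + ε₂))) ≤ ener D μ μ := by
      rw [ener_eq_prod]
      calc ENNReal.ofReal (Real.log (D / (ε₁ + ε₂)))
          = ∫⁻ _p : ℂ × ℂ, ENNReal.ofReal (Real.log (D / (ε₁ + ε₂))) ∂(μ.prod μ) := by simp
        _ ≤ _ := by
            apply lintegral_mono_ae
            filter_upwards [h8] with p hp
            exact kap_ge_of_le hs0 hp hB.pos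
    have h10 := (ENNReal.ofReal_le_iff_le_toReal hμ.fin).1 h9
    rw [Real.log_div hB.pos.ne' hs0.ne'] at h10
    have h11 := ren_le hM.joining hD hk₁.le hk₂.le hμ
    have h12 := integral_phi_ge hM hB hμ hk₁ hk₂ hε₁ hε₂
    unfold ren at h11
    linarith
  · simp
  · simp
  · intro t _ _ z
    have : phi k₁ k₂ (defo (fun z => ((-(max (z.im - 1) 0) : ℝ) : ℂ) * Complex.I) t z) =
        phi k₁ k₂ z := by
      unfold defo phi
      have : (z + (t : ℂ) * (((-(max (z.im - 1) 0) : ℝ) : ℂ) * Complex.I)).re = z.re := by simp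
      rw [this]
    rw [this]
    simp

/-- The equilibrium measure lives in the rectangle spanned by `z₁` and `z₂`. -/
theorem rect_ae (hM : IsMaxMin k₁ k₂ ε₁ ε₂ Γ) (hB : Box D Γ) (hD : 2 ≤ D)
    (hμ : IsMinim D k₁ k₂ Γ μ) (hk₁ : 0 < k₁) (hk₂ : 0 < k₂) (hε₁ : 0 < ε₁) (hε₂ : 0 < ε₂)
    (hsmall : 1 + 2 * (k₁ * ε₂ + k₂ * ε₁) < -Real.log (ε₁ + ε₂)) :
    ∀ᵐ z ∂μ, (-ε₁ ≤ z.re ∧ z.re ≤ ε₂) ∧ (-1 ≤ z.im ∧ z.im ≤ 1) := by
  have h1 := top_null hM hB hD hμ hk₁ hk₂ hε₁ hε₂ hsmall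
  have h2 := top_null hM.neg hB.neg hD hμ.neg hk₂ hk₁ hε₂ hε₁ (by
    rw [add_comm ε₂ ε₁]
    linarith)
  rw [negM_apply] at h2
  have h3 : ∀ᵐ z ∂μ, ¬ 1 < z.im := by rw [ae_iff]; simpa using h1
  have h4 : ∀ᵐ z ∂μ, ¬ 1 < -z.im := by
    rw [ae_iff]
    simp only [not_not]
    have : negSet {z : ℂ | 1 < z.im} = {z : ℂ | 1 < -z.im} := by
      ext z
      rw [mem_negSet]
      simp
    rwa [this] at h2
  filter_upwards [re_ae hM hB hμ hk₁ hk₂ hε₁ hε₂, h3, h4] with z a b c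
  exact ⟨a, by linarith, by linarith⟩

end

end Pool.Agent.Helper25.SCurve
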