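import Pool.Agent.Helper25.SCurve.Energy

/-!
# A sufficient criterion for the equilibrium measure
-/

namespace Pool.Agent.Helper25.SCurve

open MeasureTheory Set Filter Topology
open scoped ENNReal

@[fun_prop]
theorem measurable_phi (k₁ k₂ : ℝ) : Measurable (phi k₁ k₂) := by
  unfold phi
  refine Measurable.ite (measurableSet_lt measurable_const (by fun_prop)) ?_ ?_ <;> fun_prop

theorem abs_phi_le (k₁ k₂ : ℝ) (z : ℂ) : |phi k₁ k₂ z| ≤ (|k₁| + |k₂|) * ‖z‖ := by
  unfold phi
  have h := Complex.abs_re_le_norm z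
  split_ifs
  · rw [neg_mul, abs_neg, abs_mul]
    nlinarith [abs_nonneg k₁, abs_nonneg k₂, abs_nonneg z.re, norm_nonneg z]
  · rw [abs_mul]
    nlinarith [abs_nonneg k₁, abs_nonneg k₂, abs_nonneg z.re, norm_nonneg z]

theorem integrable_phi {Γ : Set ℂ} {ν : Measure ℂ} (hΓ : Bornology.IsBounded Γ)
    (hν : IsProbOn Γ ν) (k₁ k₂ : ℝ) : Integrable (phi k₁ k₂) ν := by
  have := hν.isProb
  obtain ⟨M, hM⟩ := hΓ.exists_norm_le
  have h2 : ∀ᵐ w ∂ν, w ∈ Γ := by
    rw [ae_iff]; exact hν.compl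
  refine (integrable_const ((|k₁| + |k₂|) * M)).mono' (measurable_phi k₁ k₂).aestronglyMeasurable ?_
  filter_upwards [h2] with w hw
  rw [Real.norm_eq_abs]
  exact (abs_phi_le k₁ k₂ w).trans (mul_le_mul_of_nonneg_left (hM w hw) (by positivity))

theorem isEquilibrium_of_pot {Γ : Set ℂ} {D : ℝ} {μ : Measure ℂ} {k₁ k₂ : ℝ} (hD : 1 ≤ D)
    (hb : Bornology.IsBounded Γ) (hΓ : ∀ z ∈ Γ, ∀ w ∈ Γ, ‖z - w‖ ≤ D) (hμ : IsProbOn Γ μ) (F : ℝ)
    (hge : ∀ z ∈ Γ, ENNReal.ofReal (F - phi k₁ k₂ z) ≤ pot D μ z)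
    (hpos : ∀ᵐ z ∂μ, 0 ≤ F - phi k₁ k₂ z)
    (heq : ∀ᵐ z ∂μ, pot D μ z = ENNReal.ofReal (F - phi k₁ k₂ z)) :
    IsEquilibrium k₁ k₂ Γ μ := by
  have := hμ.isProb
  refine ⟨hμ, fun ν hν hne => ?_⟩
  have := hν.isProb
  have hD0 : 0 < D := by linarith
  have hiμ := integrable_phi hb hμ k₁ k₂
  have hiν := integrable_phi hb hν k₁ k₂
  have ha : ener D μ μ = ENNReal.ofReal (F - ∫ z, phi k₁ k₂ z ∂μ) := by
    have hi : Integrable (fun z => F - phi k₁ k₂ z) μ := (integrable_const F).sub hiμ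
    rw [ener_eq_pot, lintegral_congr_ae heq, ← ofReal_integral_eq_lintegral_ofReal hi hpos,
      integral_sub (integrable_const F) hiμ]
    simp
  have hapos : 0 ≤ F - ∫ z, phi k₁ k₂ z ∂μ := by
    have := integral_nonneg_of_ae hpos
    rw [integral_sub (integrable_const F) hiμ] at this
    simpa using this
  have hafin : ener D μ μ ≠ ⊤ := by rw [ha]; exact ENNReal.ofReal_ne_top
  rw [energy_eq hD hΓ hμ, energy_eq hD hΓ hν]
  rcases eq_or_ne (ener D ν ν) ⊤ with hinf | hfin
  · rw [hinf, ha, EReal.coe_ennreal_ofReal, max_eq_left hapos]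
    simp only [EReal.coe_ennreal_top, EReal.top_sub_coe, EReal.top_add_coe]
    rw [← EReal.coe_sub, ← EReal.coe_add]
    exact EReal.coe_lt_top _
  · have hmfin : ener D ν μ ≠ ⊤ := by
      intro h
      have h2 := two_ener_le hD0 hΓ hν hμ
      rw [h, ENNReal.mul_top (by norm_num)] at h2
      exact ENNReal.add_ne_top.2 ⟨hfin, hafin⟩ (top_le_iff.1 h2)
    have hlt : 2 * ener D ν μ < ener D ν ν + ener D μ μ := by
      by_contra hcon
      exact hne (eq_of_ener_le hD0 hΓ hν hμ hfin hafin (not_lt.1 hcon))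
    have hm : F - ∫ z, phi k₁ k₂ z ∂ν ≤ (ener D ν μ).toReal := by
      have h1 : ∫ z, (F - phi k₁ k₂ z) ∂ν ≤ ∫ z, (pot D μ z).toReal ∂ν := by
        have hfinae : ∀ᵐ z ∂ν, pot D μ z < ⊤ := by
          apply ae_lt_top (measurable_pot D μ)
          rw [← ener_eq_pot]
          exact hmfin
        have h2 : ∀ᵐ w ∂ν, w ∈ Γ := by
          rw [ae_iff]; exact hν.compl
        apply integral_mono_ae ((integrable_const F).sub hiν)
        · apply integrable_toReal_of_lintegral_ne_top (measurable_pot D μ).aemeasurable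
          rw [← ener_eq_pot]
          exact hmfin
        · filter_upwards [hfinae, h2] with z hz hzΓ
          have := ENNReal.toReal_mono hz.ne (hge z hzΓ)
          refine le_trans ?_ this
          rw [ENNReal.toReal_ofReal']
          exact le_max_left _ _
      have h3 : ∫ z, (pot D μ z).toReal ∂ν = (ener D ν μ).toReal := by
        rw [ener_eq_pot, integral_toReal (measurable_pot D μ).aemeasurable]
        apply ae_lt_top (measurable_pot D μ)
        rw [← ener_eq_pot]
        exact hmfin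
      rw [h3, integral_sub (integrable_const F) hiν] at h1
      simpa using h1
    have har : (ener D μ μ).toReal = F - ∫ z, phi k₁ k₂ z ∂μ := by
      rw [ha, ENNReal.toReal_ofReal hapos]
    have hltr : 2 * (ener D ν μ).toReal < (ener D ν ν).toReal + (ener D μ μ).toReal := by
      have := (ENNReal.toReal_lt_toReal (ENNReal.mul_ne_top (by norm_num) hmfin)
        (ENNReal.add_ne_top.2 ⟨hfin, hafin⟩)).2 hlt
      rwa [ENNReal.toReal_mul, ENNReal.toReal_add hfin hafin, ENNReal.toReal_ofNat] at this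
    rw [← ENNReal.ofReal_toReal hfin, ← ENNReal.ofReal_toReal hafin, EReal.coe_ennreal_ofReal,
      EReal.coe_ennreal_ofReal, max_eq_left ENNReal.toReal_nonneg,
      max_eq_left ENNReal.toReal_nonneg, ← EReal.coe_sub, ← EReal.coe_sub, ← EReal.coe_add,
      ← EReal.coe_add, EReal.coe_lt_coe_iff]
    linarith

end Pool.Agent.Helper25.SCurve
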