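import Pool.Agent.Helper25.SCurve.Defs

/-!
# Critical measures
-/

namespace Pool.Agent.Helper25.SCurve

open MeasureTheory Set
open scoped ContDiff

/-- `μ` is a critical measure of the energy `E_φ` relative to the two fixed points `a` and `b`: a
probability measure with bounded support and finite energy such that
`d/dt E_φ(μ_t) = 0` at `t = 0` for every infinitely differentiable vector field `h` of compact
support that vanishes at `a` and `b`, where `μ_t` is the image of `μ` under `z ↦ z + t h(z)`. -/
structure IsCriticalMeasure (k₁ k₂ : ℝ) (a b : ℂ) (μ : Measure ℂ) : Prop where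
  isProb : IsProbabilityMeasure μ
  bounded : ∃ M : ℝ, μ {z | M < ‖z‖} = 0
  finite : energy k₁ k₂ μ ≠ ⊤
  deriv_zero : ∀ h : ℂ → ℂ, ContDiff ℝ ∞ h → HasCompactSupport h → h a = 0 → h b = 0 →
    HasDerivAt (fun t : ℝ => (energy k₁ k₂ (μ.map (fun z => z + (t : ℂ) * h z))).toReal) 0 0

end Pool.Agent.Helper25.SCurve
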