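import Pool.Agent.Helper25.SCurve.VarWindow

/-!
# No measure off the axis satisfies the variational inequality for small parameters
-/

namespace Pool.Agent.Helper25.SCurve

open MeasureTheory Set Filter Topology
open scoped ENNReal

section

variable {k₁ k₂ ε₁ ε₂ : ℝ} {μ : Measure ℂ}

theorem abs_phi_sub_le_re (k₁ k₂ : ℝ) (z w : ℂ) :
    |phi k₁ k₂ z - phi k₁ k₂ w| ≤ (|k₁| + |k₂|) * |z.re - w.re| := by
  have h1 := abs_phi_sub_le k₁ k₂ (z.re : ℂ) (w.re : ℂ)
  have h2 : ∀ u : ℂ, phi k₁ k₂ (u.re : ℂ) = phi k₁ k₂ u := fun u => by simp [phi]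
  rwa [h2, h2, ← Complex.ofReal_sub, Complex.norm_real, Real.norm_eq_abs] at h1

theorem kerV_le_div {h : ℂ → ℂ} {p : ℂ × ℂ} {A B : ℝ} (hB : 0 < B) (hA : ‖h p.1 - h p.2‖ ≤ A)
    (hp : B ≤ ‖p.1 - p.2‖) : kerV h p ≤ A / B := by
  have hA0 : 0 ≤ A := (norm_nonneg _).trans hA
  have hp0 : 0 < ‖p.1 - p.2‖ := lt_of_lt_of_le hB hp
  unfold kerV
  calc dot (p.1 - p.2) (h p.1 - h p.2) / ‖p.1 - p.2‖ ^ 2
      ≤ (‖p.1 - p.2‖ * A) / ‖p.1 - p.2‖ ^ 2 := by
        gcongr
        refine (le_abs_self _).trans ((abs_dot_le _ _).trans ?_)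
        gcongr
    _ = A / ‖p.1 - p.2‖ := by field_simp
    _ ≤ A / B := by gcongr

theorem VarMeas.cluster (hv : VarMeas k₁ k₂ ε₁ ε₂ μ) (hk₁ : 0 < k₁) (hk₂ : 0 < k₂)
    (hε₁ : 0 < ε₁) (h1 : ε₁ ≤ 1 / 200) (hK : 2 * (k₁ + k₂) * ε₁ ≤ 1 / 100)
    (hrect : ∀ᵐ z ∂μ, (-ε₁ ≤ z.re ∧ z.re ≤ ε₂) ∧ (-1 ≤ z.im ∧ z.im ≤ 1))
    (hloc : ∀ᵐ z ∂μ, (z.re < 0 ∧ 9 / 10 ≤ z.im) ∨ (0 < z.re ∧ z.im ≤ -(9 / 10))) :
    μ.real {z | 0 < z.im} ≤ 1 / 8 := by
  have hprob := hv.isProb
  set T : Set ℂ := {z | 0 < z.im} with hT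
  have hTm : MeasurableSet T := measurableSet_lt measurable_const Complex.measurable_im
  set u : ℂ → ℝ := T.indicator (fun _ => (1 : ℝ)) with hu
  have hum : Measurable u := measurable_const.indicator hTm
  have hub : ∀ z, 0 ≤ u z ∧ u z ≤ 1 := by
    intro z
    by_cases hz : z ∈ T
    · rw [hu, indicator_of_mem hz]
      exact ⟨by norm_num, le_rfl⟩
    · rw [hu, indicator_of_notMem hz]
      exact ⟨le_rfl, by norm_num⟩
  have hui : Integrable u μ := (integrable_const (1 : ℝ)).mono' hum.aestronglyMeasurable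
    (ae_of_all _ fun z => by rw [Real.norm_of_nonneg (hub z).1]; exact (hub z).2)
  set m : ℝ := μ.real T with hm
  have hm0 : 0 ≤ m := measureReal_nonneg
  have hm1 : m ≤ 1 := measureReal_le_one
  have huint : ∫ z, u z ∂μ = m := by
    rw [hu, integral_indicator hTm, setIntegral_const, smul_eq_mul, mul_one]
  set χ : ℝ → ℝ := cut 0 (9 / 10) with hχ
  have hχΛ : ∀ y y', |χ y - χ y'| ≤ 10 / 9 * |y - y'| := by
    intro y y'
    have h3 := abs_cut_sub_le (show (0 : ℝ) < 9 / 10 by norm_num) y y'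
    have h4 : 1 / ((9 : ℝ) / 10 - 0) = 10 / 9 := by norm_num
    rwa [h4] at h3
  have hLip := lip_contr (a := -ε₁) (b := 1) (χ := χ) (cut_nonneg _ _) (cut_le_one _ _) hχΛ
  have hχc := continuous_test hχΛ
  -- values of the field
  have hval : ∀ z : ℂ, (-ε₁ ≤ z.re ∧ z.re ≤ ε₂) ∧ (-1 ≤ z.im ∧ z.im ≤ 1) →
      (z.re < 0 ∧ 9 / 10 ≤ z.im) →
      (contr (-ε₁) 1 χ z).re = -(z.re + ε₁) ∧ (contr (-ε₁) 1 χ z).im = -(z.im - 1) ∧
        u z = 1 := by
    intro z a b
    have hc : χ z.im = 1 := cut_of_ge (by norm_num) b.2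
    refine ⟨?_, ?_, ?_⟩
    · rw [contr_re, hc, mul_one, sub_neg_eq_add, cl_of_abs_le]
      rw [abs_le]
      constructor <;> linarith [a.1.1, b.1]
    · rw [contr_im, hc, mul_one, cl_of_abs_le]
      rw [abs_le]
      constructor <;> linarith [a.2.2, b.2]
    · rw [hu, indicator_of_mem]
      change 0 < z.im
      linarith [b.2]
  have hval0 : ∀ z : ℂ, (0 < z.re ∧ z.im ≤ -(9 / 10)) →
      contr (-ε₁) 1 χ z = 0 ∧ u z = 0 := by
    intro z b
    have hc : χ z.im = 0 := cut_of_le (by norm_num) (by linarith [b.2])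
    constructor
    · unfold contr
      rw [hc]
      simp
    · rw [hu, indicator_of_notMem]
      change ¬ 0 < z.im
      linarith [b.2]
  have hvar := hv.var (contr (-ε₁) 1 χ) (2 * (1 + 10 / 9))
    (fun z => -((k₁ + k₂) * |cl (z.re - -ε₁) * χ z.im|)) 1 hLip (by norm_num) ?_ ?_ ?_ one_pos ?_
  · -- lower bound of the left side
    have hg : -((k₁ + k₂) * ε₁ * m) ≤
        ∫ z : ℂ, -((k₁ + k₂) * |cl (z.re - -ε₁) * χ z.im|) ∂μ := by
      have e1 : ∫ z : ℂ, -((k₁ + k₂) * ε₁ * u z) ∂μ = -((k₁ + k₂) * ε₁ * m) := by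
        rw [integral_neg, integral_const_mul, huint]
      rw [← e1]
      apply integral_mono_ae ((hui.const_mul _).neg)
      · refine (integrable_const (k₁ + k₂)).mono' ?_ (ae_of_all _ fun z => ?_)
        · have hcl := continuous_cl
          have : Continuous fun z : ℂ => -((k₁ + k₂) * |cl (z.re - -ε₁) * χ z.im|) := by fun_prop
          exact this.aestronglyMeasurable
        · rw [norm_neg, Real.norm_of_nonneg (by positivity), abs_mul,
            abs_of_nonneg (cut_nonneg _ _ _)]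
          have e2 := abs_cl_le (z.re - -ε₁)
          have e3 := cut_le_one 0 (9 / 10) z.im
          have e4 := cut_nonneg 0 (9 / 10) z.im
          have e5 : |cl (z.re - -ε₁)| * χ z.im ≤ 1 * 1 :=
            mul_le_mul e2 e3 e4 zero_le_one
          have e6 : (k₁ + k₂) * (|cl (z.re - -ε₁)| * χ z.im) ≤ (k₁ + k₂) * (1 * 1) := by gcongr
          linarith
      · filter_upwards [hrect, hloc] with z a b
        change -((k₁ + k₂) * ε₁ * u z) ≤ _
        rcases b with b | b
        · obtain ⟨c1, -, c3⟩ := hval z a b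
          rw [contr_re, neg_inj] at c1
          rw [c3, c1, abs_of_nonneg (by linarith [a.1.1] : 0 ≤ z.re + ε₁)]
          have : z.re + ε₁ ≤ ε₁ := by linarith [b.1]
          have h5 : (k₁ + k₂) * (z.re + ε₁) ≤ (k₁ + k₂) * ε₁ := by gcongr
          linarith
        · obtain ⟨c1, c2⟩ := hval0 z b
          have hc : χ z.im = 0 := cut_of_le (by norm_num) (by linarith [b.2])
          rw [c2, hc]
          simp
    -- upper bound of the right side
    have hk : ∫ p, kerV (contr (-ε₁) 1 χ) p ∂(μ.prod μ) ≤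
        ∫ p : ℂ × ℂ, (-(u p.1 * u p.2) + 6 / 100 * (u p.1 * (1 - u p.2)) +
          6 / 100 * ((1 - u p.1) * u p.2)) ∂(μ.prod μ) := by
      have i1 : Integrable (fun p : ℂ × ℂ => u p.1 * u p.2) (μ.prod μ) := hui.mul_prod hui
      have i2 : Integrable (fun p : ℂ × ℂ => u p.1 * (1 - u p.2)) (μ.prod μ) :=
        hui.mul_prod ((integrable_const _).sub hui)
      have i3 : Integrable (fun p : ℂ × ℂ => (1 - u p.1) * u p.2) (μ.prod μ) :=
        ((integrable_const _).sub hui).mul_prod hui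
      apply integral_mono_ae (integrable_kerV hLip (by norm_num) _)
        ((i1.neg.add (i2.const_mul _)).add (i3.const_mul _))
      have a1 := (Measure.quasiMeasurePreserving_fst (μ := μ) (ν := μ)).ae hrect
      have a2 := (Measure.quasiMeasurePreserving_snd (μ := μ) (ν := μ)).ae hrect
      have a3 := (Measure.quasiMeasurePreserving_fst (μ := μ) (ν := μ)).ae hloc
      have a4 := (Measure.quasiMeasurePreserving_snd (μ := μ) (ν := μ)).ae hloc
      filter_upwards [a1, a2, a3, a4, hv.diag] with p b1 b2 b3 b4 b5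
      change _ ≤ -(u p.1 * u p.2) + 6 / 100 * (u p.1 * (1 - u p.2)) +
          6 / 100 * ((1 - u p.1) * u p.2)
      have hn : ∀ z : ℂ, (-ε₁ ≤ z.re ∧ z.re ≤ ε₂) ∧ (-1 ≤ z.im ∧ z.im ≤ 1) →
          (z.re < 0 ∧ 9 / 10 ≤ z.im) → ‖contr (-ε₁) 1 χ z‖ ≤ 105 / 1000 := by
        intro z a b
        obtain ⟨c1, c2, -⟩ := hval z a b
        refine (Complex.norm_le_abs_re_add_abs_im _).trans ?_
        rw [c1, c2, abs_neg, abs_neg, abs_of_nonneg (by linarith [a.1.1] : 0 ≤ z.re + ε₁),
          abs_of_nonpos (by linarith [a.2.2] : z.im - 1 ≤ 0)]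
        linarith [b.1, b.2]
      rcases b3 with b3 | b3 <;> rcases b4 with b4 | b4
      · obtain ⟨c1, c2, c3⟩ := hval _ b1 b3
        obtain ⟨d1, d2, d3⟩ := hval _ b2 b4
        rw [c3, d3]
        have b6 : 0 < ‖p.1 - p.2‖ := norm_pos_iff.2 (sub_ne_zero.2 b5)
        unfold kerV dot
        rw [div_le_iff₀ (by positivity), norm_sub_sq, Complex.sub_re, Complex.sub_re,
          Complex.sub_im, Complex.sub_im, c1, c2, d1, d2]
        apply le_of_eq
        ring
      · obtain ⟨c1, c2, c3⟩ := hval _ b1 b3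
        obtain ⟨d1, d2⟩ := hval0 _ b4
        rw [c3, d2]
        have e1 : 18 / 10 ≤ ‖p.1 - p.2‖ := by
          refine le_trans ?_ (Complex.abs_im_le_norm _)
          rw [Complex.sub_im]
          refine le_trans ?_ (le_abs_self _)
          linarith [b3.2, b4.2]
        have e2 : ‖contr (-ε₁) 1 χ p.1 - contr (-ε₁) 1 χ p.2‖ ≤ 105 / 1000 := by
          rw [d1, sub_zero]
          exact hn _ b1 b3
        have e3 := kerV_le_div (by norm_num) e2 e1
        norm_num at e3 ⊢
        linarith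
      · obtain ⟨c1, c2, c3⟩ := hval _ b2 b4
        obtain ⟨d1, d2⟩ := hval0 _ b3
        rw [c3, d2]
        have e1 : 18 / 10 ≤ ‖p.1 - p.2‖ := by
          refine le_trans ?_ (Complex.abs_im_le_norm _)
          rw [Complex.sub_im]
          refine le_trans ?_ (neg_le_abs _)
          linarith [b3.2, b4.2]
        have e2 : ‖contr (-ε₁) 1 χ p.1 - contr (-ε₁) 1 χ p.2‖ ≤ 105 / 1000 := by
          rw [d1, zero_sub, norm_neg]
          exact hn _ b2 b4
        have e3 := kerV_le_div (by norm_num) e2 e1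
        norm_num at e3 ⊢
        linarith
      · obtain ⟨c1, c2⟩ := hval0 _ b3
        obtain ⟨d1, d2⟩ := hval0 _ b4
        rw [c2, d2]
        unfold kerV
        rw [c1, d1, sub_self]
        unfold dot
        simp
    have hval2 : ∫ p : ℂ × ℂ, (-(u p.1 * u p.2) + 6 / 100 * (u p.1 * (1 - u p.2)) +
          6 / 100 * ((1 - u p.1) * u p.2)) ∂(μ.prod μ) = -(m * m) + 6 / 100 * (m * (1 - m)) +
          6 / 100 * ((1 - m) * m) := by
      have i1 : Integrable (fun p : ℂ × ℂ => -(u p.1 * u p.2)) (μ.prod μ) :=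
        (hui.mul_prod hui).neg
      have i2 : Integrable (fun p : ℂ × ℂ => 6 / 100 * (u p.1 * (1 - u p.2))) (μ.prod μ) :=
        (hui.mul_prod ((integrable_const _).sub hui)).const_mul _
      have i3 : Integrable (fun p : ℂ × ℂ => 6 / 100 * ((1 - u p.1) * u p.2)) (μ.prod μ) :=
        (((integrable_const _).sub hui).mul_prod hui).const_mul _
      have i12 : Integrable (fun p : ℂ × ℂ => -(u p.1 * u p.2) +
          6 / 100 * (u p.1 * (1 - u p.2))) (μ.prod μ) := i1.add i2
      rw [integral_add i12 i3, integral_add i1 i2, integral_neg, integral_const_mul,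
        integral_const_mul, integral_prod_mul (f := u) (g := u),
        integral_prod_mul (f := u) (g := fun z => 1 - u z),
        integral_prod_mul (f := fun z => 1 - u z) (g := u), integral_sub (integrable_const _) hui,
        huint]
      simp
    rw [hval2] at hk
    by_contra hcon
    push Not at hcon
    have e1 : -(1 / 100 * m) ≤ 2 * ∫ z : ℂ, -((k₁ + k₂) * |cl (z.re - -ε₁) * χ z.im|) ∂μ := by
      have : 2 * (k₁ + k₂) * ε₁ * m ≤ 1 / 100 * m := by gcongr
      linarith
    have e2 : -(1 / 100 * m) ≤ -(m * m) + 6 / 100 * (m * (1 - m)) + 6 / 100 * ((1 - m) * m) :=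
      e1.trans (hvar.trans hk)
    nlinarith
  · unfold contr
    simp only [Complex.add_re, Complex.neg_re, Complex.ofReal_re, Complex.I_re, add_zero,
      Complex.add_im, Complex.neg_im, Complex.ofReal_im, Complex.I_im, neg_zero, zero_add,
      sub_self]
    rw [cl_of_abs_le (by norm_num)]
    simp
  · unfold contr
    simp only [Complex.sub_im, Complex.ofReal_im, Complex.I_im, zero_sub]
    have hc : χ (-1) = 0 := cut_of_le (by norm_num) (by norm_num)
    rw [hc]
    simp
  · have hcl := continuous_cl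
    fun_prop
  · intro t ht ht1 z
    have e1 := abs_phi_sub_le_re k₁ k₂ (defo (contr (-ε₁) 1 χ) t z) z
    have e2 : (defo (contr (-ε₁) 1 χ) t z).re - z.re = t * -(cl (z.re - -ε₁) * χ z.im) := by
      unfold defo
      simp only [Complex.add_re, Complex.mul_re, Complex.ofReal_re, Complex.ofReal_im, zero_mul,
        sub_zero, contr_re, add_sub_cancel_left]
    rw [e2, abs_mul, abs_of_pos ht, abs_neg, abs_of_pos hk₁, abs_of_pos hk₂] at e1
    have e3 := neg_abs_le (phi k₁ k₂ (defo (contr (-ε₁) 1 χ) t z) - phi k₁ k₂ z)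
    linarith

/-- For small parameters a measure satisfying the variational inequality charges the axis. -/
theorem varMeas_axis (hk₁ : 0 < k₁) (hk₂ : 0 < k₂) :
    ∃ ε₀ : ℝ, 0 < ε₀ ∧ ∀ (ε₁ ε₂ : ℝ) (μ : Measure ℂ), 0 < ε₁ → ε₁ < ε₀ → 0 < ε₂ → ε₂ < ε₀ →
      VarMeas k₁ k₂ ε₁ ε₂ μ → ¬ ∀ᵐ z ∂μ, z.re ≠ 0 := by
  obtain ⟨a, ha, hA⟩ := varWindow_right hk₁ (t := 1 / 20) (by norm_num)
  obtain ⟨b, hb, hB⟩ := varWindow_right hk₂ (t := 1 / 20) (by norm_num)
  refine ⟨min (min a b) (min (1 / 200) (1 / (200 * (k₁ + k₂)))), by positivity, ?_⟩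
  intro ε₁ ε₂ μ hε₁ hε₁' hε₂ hε₂' hv hne
  have a1 : ε₂ < a := lt_of_lt_of_le hε₂' ((min_le_left _ _).trans (min_le_left _ _))
  have a2 : ε₁ < b := lt_of_lt_of_le hε₁' ((min_le_left _ _).trans (min_le_right _ _))
  have b1 : ε₁ < 1 / 200 := lt_of_lt_of_le hε₁' ((min_le_right _ _).trans (min_le_left _ _))
  have b2 : ε₂ < 1 / 200 := lt_of_lt_of_le hε₂' ((min_le_right _ _).trans (min_le_left _ _))
  have c1 : ε₁ < 1 / (200 * (k₁ + k₂)) :=
    lt_of_lt_of_le hε₁' ((min_le_right _ _).trans (min_le_right _ _))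
  have c2 : ε₂ < 1 / (200 * (k₁ + k₂)) :=
    lt_of_lt_of_le hε₂' ((min_le_right _ _).trans (min_le_right _ _))
  rw [lt_div_iff₀ (by positivity)] at c1 c2
  have hprob := hv.isProb
  have hprob' := hv.neg.isProb
  have hrect := hv.rect_ae hk₁ hk₂ hε₁ hε₂ (by linarith) (by linarith)
  have hrect' := hv.neg.rect_ae hk₂ hk₁ hε₂ hε₁ (by linarith) (by linarith)
  have hR := hA k₂ ε₁ ε₂ μ hε₁ hε₂ a1 hv
  have hL' := hB k₁ ε₂ ε₁ (negM μ) hε₂ hε₁ a2 hv.neg
  have hmR : MeasurableSet {z : ℂ | 0 < z.re → z.im ≤ -1 + 2 * (1 / 20)} := by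
    have : {z : ℂ | 0 < z.re → z.im ≤ -1 + 2 * (1 / 20)} =
        {z : ℂ | 0 < z.re}ᶜ ∪ {z : ℂ | z.im ≤ -1 + 2 * (1 / 20)} := by
      ext z
      simp only [mem_ofPred_eq, mem_union, mem_compl_iff]
      tauto
    rw [this]
    exact (measurableSet_lt measurable_const Complex.measurable_re).compl.union
      (measurableSet_le Complex.measurable_im measurable_const)
  have hL := ae_of_negM hmR hL'
  have hloc : ∀ᵐ z ∂μ, (z.re < 0 ∧ 9 / 10 ≤ z.im) ∨ (0 < z.re ∧ z.im ≤ -(9 / 10)) := by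
    filter_upwards [hR, hL, hne] with z h1 h2 h3
    rw [Complex.neg_re, Complex.neg_im] at h2
    rcases lt_or_gt_of_ne h3 with h4 | h4
    · left
      exact ⟨h4, by linarith [h2 (by linarith)]⟩
    · right
      exact ⟨h4, by linarith [h1 h4]⟩
  have hmset : MeasurableSet {z : ℂ | (z.re < 0 ∧ 9 / 10 ≤ z.im) ∨ (0 < z.re ∧ z.im ≤ -(9 / 10))} := by
    apply MeasurableSet.union
    · exact (measurableSet_lt Complex.measurable_re measurable_const).inter
        (measurableSet_le measurable_const Complex.measurable_im)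
    · exact (measurableSet_lt measurable_const Complex.measurable_re).inter
        (measurableSet_le Complex.measurable_im measurable_const)
  have hloc' : ∀ᵐ z ∂(negM μ), (z.re < 0 ∧ 9 / 10 ≤ z.im) ∨ (0 < z.re ∧ z.im ≤ -(9 / 10)) := by
    unfold negM
    rw [ae_map_iff measurable_neg.aemeasurable hmset]
    filter_upwards [hloc] with z hz
    rw [Complex.neg_re, Complex.neg_im]
    rcases hz with hz | hz
    · right
      constructor <;> linarith [hz.1, hz.2]
    · left
      constructor <;> linarith [hz.1, hz.2]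
  have m1 := hv.cluster hk₁ hk₂ hε₁ b1.le (by nlinarith) hrect hloc
  have m2 := hv.neg.cluster hk₂ hk₁ hε₂ b2.le (by nlinarith) hrect' hloc'
  have m3 : (negM μ).real {z | 0 < z.im} = μ.real {z | z.im < 0} := by
    rw [Measure.real, Measure.real, negM_apply]
    congr 2
    ext z
    rw [mem_negSet]
    simp
  have m4 : μ.real {z | 0 < z.im} + μ.real {z | z.im < 0} = 1 := by
    have hd : Disjoint {z : ℂ | 0 < z.im} {z : ℂ | z.im < 0} := by
      rw [disjoint_left]
      intro z h1 h2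
      have h1' : 0 < z.im := h1
      have h2' : z.im < 0 := h2
      linarith
    rw [← measureReal_union hd (measurableSet_lt Complex.measurable_im measurable_const)]
    have h5 : μ ({z : ℂ | 0 < z.im} ∪ {z : ℂ | z.im < 0}) = 1 := by
      rw [← measure_univ (μ := μ)]
      apply measure_congr
      filter_upwards [hloc] with z hz
      apply propext
      constructor
      · intro _; trivial
      · intro _
        rcases hz with hz | hz
        · left
          change 0 < z.im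
          linarith [hz.2]
        · right
          change z.im < 0
          linarith [hz.2]
    rw [Measure.real, h5]
    simp
  rw [m3] at m2
  linarith

end

end Pool.Agent.Helper25.SCurve
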