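import Pool.Agent.Helper25.SCurve.CritDefs
import Pool.Agent.Helper25.SCurve.VarNone

/-!
# The first variation identity for critical measures
-/

namespace Pool.Agent.Helper25.SCurve

open MeasureTheory Set Filter Topology
open scoped ENNReal

/-- The one-sided directional derivative of the field `φ`. -/
noncomputable def phiDir (k₁ k₂ : ℝ) (z v : ℂ) : ℝ :=
  if 0 < z.re then -k₁ * v.re else if z.re < 0 then k₂ * v.re else phi k₁ k₂ v

theorem phi_of_re {k₁ k₂ : ℝ} {z : ℂ} (h : 0 ≤ z.re) : phi k₁ k₂ z = -k₁ * z.re := by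
  rw [phi_eq, max_eq_left h, min_eq_right h, mul_zero, add_zero]

theorem phi_of_re' {k₁ k₂ : ℝ} {z : ℂ} (h : z.re ≤ 0) : phi k₁ k₂ z = k₂ * z.re := by
  rw [phi_eq, max_eq_right h, min_eq_left h, mul_zero, zero_add]

theorem phi_smul {k₁ k₂ t : ℝ} (ht : 0 ≤ t) (v : ℂ) :
    phi k₁ k₂ ((t : ℂ) * v) = t * phi k₁ k₂ v := by
  rcases le_total 0 v.re with h | h
  · rw [phi_of_re h, phi_of_re (by
      rw [Complex.mul_re, Complex.ofReal_re, Complex.ofReal_im, zero_mul, sub_zero]
      positivity)]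
    simp only [Complex.mul_re, Complex.ofReal_re, Complex.ofReal_im, zero_mul, sub_zero]
    ring
  · rw [phi_of_re' h, phi_of_re' (by
      rw [Complex.mul_re, Complex.ofReal_re, Complex.ofReal_im, zero_mul, sub_zero]
      exact mul_nonpos_of_nonneg_of_nonpos ht h)]
    simp only [Complex.mul_re, Complex.ofReal_re, Complex.ofReal_im, zero_mul, sub_zero]
    ring

/-- Near `t = 0+` the difference quotient of `φ` is constant. -/
theorem phi_quot (k₁ k₂ : ℝ) (z v : ℂ) : ∀ᶠ t : ℝ in 𝓝[>] 0,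
    (phi k₁ k₂ (z + (t : ℂ) * v) - phi k₁ k₂ z) / t = phiDir k₁ k₂ z v := by
  have hc : ContinuousAt (fun t : ℝ => (z + (t : ℂ) * v).re) 0 := by
    have : Continuous fun t : ℝ => (z + (t : ℂ) * v).re := by fun_prop
    exact this.continuousAt
  have h0 : (z + ((0 : ℝ) : ℂ) * v).re = z.re := by simp
  rcases lt_trichotomy z.re 0 with h | h | h
  · have h1 : ∀ᶠ t : ℝ in 𝓝 0, (z + (t : ℂ) * v).re < 0 := by
      apply hc.eventually_lt continuousAt_const
      rw [h0]
      exact h
    filter_upwards [nhdsWithin_le_nhds h1, self_mem_nhdsWithin] with t h2 h3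
    have h3' : 0 < t := h3
    rw [phi_of_re' h2.le, phi_of_re' h.le]
    unfold phiDir
    rw [if_neg (by linarith), if_pos h]
    simp only [Complex.add_re, Complex.mul_re, Complex.ofReal_re, Complex.ofReal_im, zero_mul,
      sub_zero]
    field_simp
    ring
  · filter_upwards [self_mem_nhdsWithin] with t h3
    have h3' : 0 < t := h3
    unfold phiDir
    rw [if_neg (by linarith), if_neg (by linarith)]
    have h4 : phi k₁ k₂ z = 0 := by
      rw [phi_of_re h.ge, h, mul_zero]
    have h5 : phi k₁ k₂ (z + (t : ℂ) * v) = phi k₁ k₂ ((t : ℂ) * v) := by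
      unfold phi
      rw [Complex.add_re, h, zero_add]
    rw [h4, h5, phi_smul h3'.le, sub_zero]
    field_simp
  · have h1 : ∀ᶠ t : ℝ in 𝓝 0, 0 < (z + (t : ℂ) * v).re := by
      apply continuousAt_const.eventually_lt hc
      rw [h0]
      exact h
    filter_upwards [nhdsWithin_le_nhds h1, self_mem_nhdsWithin] with t h2 h3
    have h3' : 0 < t := h3
    rw [phi_of_re h2.le, phi_of_re h.le]
    unfold phiDir
    rw [if_pos h]
    simp only [Complex.add_re, Complex.mul_re, Complex.ofReal_re, Complex.ofReal_im, zero_mul,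
      sub_zero]
    field_simp
    ring

theorem phi_quot_le (k₁ k₂ : ℝ) (z v : ℂ) {t : ℝ} (ht : 0 < t) :
    |(phi k₁ k₂ (z + (t : ℂ) * v) - phi k₁ k₂ z) / t| ≤ (|k₁| + |k₂|) * ‖v‖ := by
  have h1 := abs_phi_sub_le k₁ k₂ (z + (t : ℂ) * v) z
  rw [add_sub_cancel_left, norm_mul, Complex.norm_real, Real.norm_eq_abs, abs_of_pos ht] at h1
  rw [abs_div, abs_of_pos ht, div_le_iff₀ ht]
  linarith

/-- The logarithmic distortion is differentiable at `0`. -/
theorem tendsto_lr (h : ℂ → ℂ) (p : ℂ × ℂ) :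
    Tendsto (fun t => lr h t p / t) (𝓝[>] 0) (𝓝 (kerV h p)) := by
  rcases eq_or_ne p.1 p.2 with hp | hp
  · have h1 : kerV h p = 0 := by
      unfold kerV
      rw [hp]
      simp
    have h2 : (fun t => lr h t p / t) = fun _ => (0 : ℝ) := by
      funext t
      unfold lr
      rw [hp]
      simp
    rw [h1, h2]
    exact tendsto_const_nhds
  · have ha : 0 < ‖p.1 - p.2‖ := norm_pos_iff.2 (sub_ne_zero.2 hp)
    have ha2 : 0 < ‖p.1 - p.2‖ ^ 2 := by positivity
    -- the polynomial
    have hd : HasDerivAt (fun t : ℝ => ‖p.1 - p.2‖ ^ 2 + 2 * t * dot (p.1 - p.2) (h p.1 - h p.2) +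
        t ^ 2 * ‖h p.1 - h p.2‖ ^ 2) (2 * dot (p.1 - p.2) (h p.1 - h p.2)) 0 := by
      have e1 : HasDerivAt (fun t : ℝ => 2 * t * dot (p.1 - p.2) (h p.1 - h p.2))
          (2 * dot (p.1 - p.2) (h p.1 - h p.2)) 0 := by
        have := ((hasDerivAt_id (0 : ℝ)).const_mul 2).mul_const (dot (p.1 - p.2) (h p.1 - h p.2))
        simpa using this
      have e2 : HasDerivAt (fun t : ℝ => t ^ 2 * ‖h p.1 - h p.2‖ ^ 2) 0 0 := by
        have := (hasDerivAt_pow 2 (0 : ℝ)).mul_const (‖h p.1 - h p.2‖ ^ 2)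
        simpa using this
      have := (e1.const_add (‖p.1 - p.2‖ ^ 2)).add e2
      rw [add_zero] at this
      exact this
    have hne : (fun t : ℝ => ‖p.1 - p.2‖ ^ 2 + 2 * t * dot (p.1 - p.2) (h p.1 - h p.2) +
        t ^ 2 * ‖h p.1 - h p.2‖ ^ 2) 0 ≠ 0 := by
      simp only [mul_zero, zero_mul, add_zero, ne_eq, OfNat.ofNat_ne_zero, not_false_eq_true,
        zero_pow]
      exact ha2.ne'
    have hlog := (hd.log hne).const_mul (1 / 2 : ℝ)
    have hval : 1 / 2 * (2 * dot (p.1 - p.2) (h p.1 - h p.2) /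
        (‖p.1 - p.2‖ ^ 2 + 2 * 0 * dot (p.1 - p.2) (h p.1 - h p.2) +
          0 ^ 2 * ‖h p.1 - h p.2‖ ^ 2)) = kerV h p := by
      unfold kerV
      field_simp
      ring
    rw [hval] at hlog
    have hslope := hlog.tendsto_slope_zero_right
    refine hslope.congr' ?_
    -- identify the quotient
    have hc : ContinuousAt (fun t : ℝ => ‖p.1 - p.2 + (t : ℂ) * (h p.1 - h p.2)‖) 0 := by
      have : Continuous fun t : ℝ => ‖p.1 - p.2 + (t : ℂ) * (h p.1 - h p.2)‖ := by fun_prop
      exact this.continuousAt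
    have hpos : ∀ᶠ t : ℝ in 𝓝 0, 0 < ‖p.1 - p.2 + (t : ℂ) * (h p.1 - h p.2)‖ := by
      apply continuousAt_const.eventually_lt hc
      simpa using ha
    filter_upwards [nhdsWithin_le_nhds hpos] with t ht
    rw [smul_eq_mul, zero_add]
    simp only [mul_zero, zero_mul, add_zero, ne_eq, OfNat.ofNat_ne_zero, not_false_eq_true,
      zero_pow]
    rw [← norm_add_smul_sq, Real.log_pow, Real.log_pow]
    unfold lr
    rw [defo_sub, Real.log_div ht.ne' ha.ne']
    push_cast
    ring

section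

variable {k₁ k₂ L D : ℝ} {μ : Measure ℂ} {h : ℂ → ℂ}

/-- The energy is finite after a small deformation. -/
theorem ener_defo_ne_top {t : ℝ} [IsProbabilityMeasure μ] (hD : 0 < D)
    (hLip : ∀ z w, ‖h z - h w‖ ≤ L * ‖z - w‖) (ht : 0 ≤ t) (htL : t * L ≤ 1 / 2)
    (hfin : ener D μ μ ≠ ⊤) : ener D (μ.map (defo h t)) (μ.map (defo h t)) ≠ ⊤ := by
  have hT := (continuous_defo hLip t).measurable
  have h1 : ∀ z w : ℂ, kap D (defo h t z) (defo h t w) ≤
      kap D z w + ENNReal.ofReal (Real.log 2) := by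
    intro z w
    rcases eq_or_ne z w with hzw | hzw
    · rw [hzw, kap_self, kap_self]
      simp
    · have h2 : 0 < ‖z - w‖ := norm_pos_iff.2 (sub_ne_zero.2 hzw)
      have h3 := defo_lower hLip ht z w
      have h4 : ‖z - w‖ / 2 ≤ ‖defo h t z - defo h t w‖ := by
        refine le_trans ?_ h3
        nlinarith
      refine (kap_le_of_le (by positivity) h4 hD).trans ?_
      rw [kap_eq_ofReal hzw]
      refine le_trans (ENNReal.ofReal_le_ofReal ?_) ENNReal.ofReal_add_le
      rw [Real.log_div hD.ne' (by positivity), Real.log_div h2.ne' (by norm_num),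
        Real.log_div hD.ne' h2.ne']
      linarith
  have h2 : ener D (μ.map (defo h t)) (μ.map (defo h t)) ≤
      ener D μ μ + ENNReal.ofReal (Real.log 2) := by
    rw [ener_eq_prod, Measure.map_prod_map μ μ hT hT, lintegral_map (measurable_kap D)
      (hT.prodMap hT), ener_eq_prod]
    calc ∫⁻ p : ℂ × ℂ, kap D (Prod.map (defo h t) (defo h t) p).1
          (Prod.map (defo h t) (defo h t) p).2 ∂(μ.prod μ)
        ≤ ∫⁻ p : ℂ × ℂ, (kap D p.1 p.2 + ENNReal.ofReal (Real.log 2)) ∂(μ.prod μ) :=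
          lintegral_mono fun p => h1 p.1 p.2
      _ = _ := by
          rw [lintegral_add_left (measurable_kap D), lintegral_const, measure_univ, mul_one]
  exact ne_top_of_le_ne_top (ENNReal.add_ne_top.2 ⟨hfin, ENNReal.ofReal_ne_top⟩) h2

/-- The energy of the deformed measure. -/
theorem energy_defo {M H : ℝ} (hM : 0 ≤ M) (hμ : IsProbOn (Metric.closedBall 0 M) μ)
    (hfin : energy k₁ k₂ μ ≠ ⊤) (hLip : ∀ z w, ‖h z - h w‖ ≤ L * ‖z - w‖) (hL : 0 ≤ L)
    (hH : ∀ z, ‖h z‖ ≤ H) {t : ℝ} (ht : 0 ≤ t) (ht1 : t ≤ 1) (htL : t * L ≤ 1 / 2) :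
    (energy k₁ k₂ (μ.map (defo h t))).toReal = (energy k₁ k₂ μ).toReal -
      ∫ p, lr h t p ∂(μ.prod μ) + 2 * ∫ z, (phi k₁ k₂ (defo h t z) - phi k₁ k₂ z) ∂μ := by
  have hprob := hμ.isProb
  have hH0 : 0 ≤ H := (norm_nonneg _).trans (hH 0)
  have hT := (continuous_defo hLip t).measurable
  set D : ℝ := 2 * (M + H) + 1 with hD
  have hB : Box D (Metric.closedBall 0 (M + H)) := by
    refine ⟨by linarith, Metric.isBounded_closedBall, fun z hz w hw => ?_⟩
    rw [mem_closedBall_zero_iff] at hz hw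
    calc ‖z - w‖ ≤ ‖z‖ + ‖w‖ := norm_sub_le _ _
      _ ≤ D := by linarith
  have hsub : Metric.closedBall (0 : ℂ) M ⊆ Metric.closedBall 0 (M + H) :=
    Metric.closedBall_subset_closedBall (by linarith)
  have himg : defo h t '' Metric.closedBall 0 M ⊆ Metric.closedBall 0 (M + H) := by
    rintro _ ⟨z, hz, rfl⟩
    rw [mem_closedBall_zero_iff] at hz ⊢
    unfold defo
    calc ‖z + t * h z‖ ≤ ‖z‖ + ‖(t : ℂ) * h z‖ := norm_add_le _ _
      _ = ‖z‖ + t * ‖h z‖ := by
          rw [norm_mul, Complex.norm_real, Real.norm_of_nonneg ht]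
      _ ≤ M + 1 * H := by
          gcongr
          exact hH z
      _ = M + H := by ring
  have hB0 := hB.mono hsub
  have hfin' : ener D μ μ ≠ ⊤ := by
    intro htop
    exact hfin (energy_top hB0 hμ htop)
  have hfin2 := ener_defo_ne_top hB.pos hLip ht htL hfin'
  have hmap := (ener_map hB hsub himg hLip hL ht htL hμ hfin2).2
  have hμt : IsProbOn (Metric.closedBall 0 (M + H)) (μ.map (defo h t)) := by
    refine ⟨Measure.isProbabilityMeasure_map hT.aemeasurable, ?_⟩
    rw [Measure.map_apply hT Metric.isClosed_closedBall.measurableSet.compl]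
    apply measure_mono_null _ hμ.compl
    intro z hz hz'
    exact hz (himg ⟨z, hz', rfl⟩)
  rw [energy_real hB hμt hfin2, energy_real hB0 hμ hfin', EReal.toReal_coe, EReal.toReal_coe]
  have hi1 := integrable_phi (k₁ := k₁) (k₂ := k₂) hB.bdd hμt
  have hi2 := integrable_phi (k₁ := k₁) (k₂ := k₂) hB0.bdd hμ
  rw [integrable_map_measure (measurable_phi k₁ k₂).aestronglyMeasurable hT.aemeasurable] at hi1
  unfold ren
  rw [integral_map hT.aemeasurable (measurable_phi k₁ k₂).aestronglyMeasurable]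
  have hsubi : ∫ z, (phi k₁ k₂ (defo h t z) - phi k₁ k₂ z) ∂μ =
      ∫ z, phi k₁ k₂ (defo h t z) ∂μ - ∫ z, phi k₁ k₂ z ∂μ := integral_sub hi1 hi2
  rw [hsubi, hmap]
  ring

theorem measurable_phiDir (hh : Measurable h) : Measurable (fun z => phiDir k₁ k₂ z (h z)) := by
  unfold phiDir
  apply Measurable.ite (measurableSet_lt measurable_const Complex.measurable_re)
  · exact (Complex.measurable_re.comp hh).const_mul _
  apply Measurable.ite (measurableSet_lt Complex.measurable_re measurable_const)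
  · exact (Complex.measurable_re.comp hh).const_mul _
  · exact (measurable_phi k₁ k₂).comp hh

/-- The first variation identity. -/
theorem variation_identity {M H : ℝ} (hM : 0 ≤ M) (hμ : IsProbOn (Metric.closedBall 0 M) μ)
    (hfin : energy k₁ k₂ μ ≠ ⊤) (hLip : ∀ z w, ‖h z - h w‖ ≤ L * ‖z - w‖) (hL : 0 ≤ L)
    (hH : ∀ z, ‖h z‖ ≤ H)
    (hd : HasDerivWithinAt (fun t : ℝ => (energy k₁ k₂ (μ.map (defo h t))).toReal) 0 (Ici 0) 0) :
    ∫ p, kerV h p ∂(μ.prod μ) = 2 * ∫ z, phiDir k₁ k₂ z (h z) ∂μ := by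
  have hprob := hμ.isProb
  have hH0 : 0 ≤ H := (norm_nonneg _).trans (hH 0)
  -- small times
  have hsmall : ∀ᶠ t : ℝ in 𝓝[>] 0, 0 < t ∧ t ≤ 1 ∧ t * L ≤ 1 / 2 := by
    have h1 : ∀ᶠ t : ℝ in 𝓝 0, t * L < 1 / 2 := by
      have hc : ContinuousAt (fun t : ℝ => t * L) 0 := by fun_prop
      apply hc.eventually_lt continuousAt_const
      norm_num
    filter_upwards [nhdsWithin_le_nhds h1, Ioo_mem_nhdsGT (by norm_num : (0 : ℝ) < 1)] with t a b
    exact ⟨b.1, b.2.le, a.le⟩
  -- the difference quotient of the energy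
  have h0 : (energy k₁ k₂ (μ.map (defo h 0))).toReal = (energy k₁ k₂ μ).toReal := by
    have : defo h 0 = id := by
      funext z
      simp [defo]
    rw [this, Measure.map_id]
  have hq : Tendsto (fun t : ℝ => ((energy k₁ k₂ (μ.map (defo h t))).toReal -
      (energy k₁ k₂ μ).toReal) / t) (𝓝[>] 0) (𝓝 0) := by
    have h1 := hd.mono Ioi_subset_Ici_self
    rw [hasDerivWithinAt_iff_tendsto_slope' (by simp)] at h1
    refine h1.congr' ?_
    filter_upwards with t
    rw [slope_def_field, h0, sub_zero]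
  have hform : ∀ᶠ t : ℝ in 𝓝[>] 0, ((energy k₁ k₂ (μ.map (defo h t))).toReal -
      (energy k₁ k₂ μ).toReal) / t = -(∫ p, lr h t p / t ∂(μ.prod μ)) +
        2 * ∫ z, (phi k₁ k₂ (z + (t : ℂ) * h z) - phi k₁ k₂ z) / t ∂μ := by
    filter_upwards [hsmall] with t ht
    rw [energy_defo hM hμ hfin hLip hL hH ht.1.le ht.2.1 ht.2.2, integral_div, integral_div]
    have ht0 := ht.1.ne'
    unfold defo
    field_simp
    ring
  have hlim1 : Tendsto (fun t : ℝ => ∫ p, lr h t p / t ∂(μ.prod μ)) (𝓝[>] 0)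
      (𝓝 (∫ p, kerV h p ∂(μ.prod μ))) := by
    apply tendsto_integral_filter_of_dominated_convergence (fun _ => 2 * L)
    · filter_upwards with t
      exact ((measurable_lr hLip t).div_const t).aestronglyMeasurable
    · filter_upwards [hsmall] with t ht
      refine ae_of_all _ fun p => ?_
      rw [Real.norm_eq_abs, abs_div, abs_of_pos ht.1, div_le_iff₀ ht.1]
      have := abs_lr_le hLip hL ht.1.le ht.2.2 p
      linarith
    · exact integrable_const _
    · exact ae_of_all _ fun p => tendsto_lr h p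
  have hhm : Measurable h := (continuous_of_lip hLip).measurable
  have hlim2 : Tendsto (fun t : ℝ => ∫ z, (phi k₁ k₂ (z + (t : ℂ) * h z) - phi k₁ k₂ z) / t ∂μ)
      (𝓝[>] 0) (𝓝 (∫ z, phiDir k₁ k₂ z (h z) ∂μ)) := by
    apply tendsto_integral_filter_of_dominated_convergence (fun _ => (|k₁| + |k₂|) * H)
    · filter_upwards with t
      have h1 := measurable_phi k₁ k₂
      exact (((h1.comp (measurable_id.add (hhm.const_mul _))).sub h1).div_const
        t).aestronglyMeasurable
    · filter_upwards [self_mem_nhdsWithin] with t ht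
      refine ae_of_all _ fun z => ?_
      rw [Real.norm_eq_abs]
      refine (phi_quot_le k₁ k₂ z (h z) ht).trans ?_
      gcongr
      exact hH z
    · exact integrable_const _
    · refine ae_of_all _ fun z => ?_
      exact tendsto_const_nhds.congr' ((phi_quot k₁ k₂ z (h z)).mono fun t ht => ht.symm)
  have hlim := (hlim1.neg.add (hlim2.const_mul 2)).congr' (hform.mono fun t ht => ht.symm)
  have := tendsto_nhds_unique hlim hq
  linarith

end

end Pool.Agent.Helper25.SCurve
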