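import Pool.Agent.Helper25.SCurve.CritId

/-!
# No critical measure for small parameters
-/

namespace Pool.Agent.Helper25.SCurve

open MeasureTheory Set Filter Topology ContinuousLinearMap
open scoped ENNReal ContDiff Convolution

/-- The smoothing of a field. -/
noncomputable def smo (φ : ContDiffBump (0 : ℂ)) (h : ℂ → ℂ) : ℂ → ℂ :=
  φ.normed volume ⋆[lsmul ℝ ℝ, volume] h

theorem smo_contDiff (φ : ContDiffBump (0 : ℂ)) {h : ℂ → ℂ} (hc : Continuous h) :
    ContDiff ℝ ∞ (smo φ h) :=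
  φ.hasCompactSupport_normed.contDiff_convolution_left _ φ.contDiff_normed
    hc.locallyIntegrable

theorem norm_smo_sub_self_le (φ : ContDiffBump (0 : ℂ)) {h : ℂ → ℂ} {L : ℝ} (hL : 0 ≤ L)
    (hLip : ∀ z w, ‖h z - h w‖ ≤ L * ‖z - w‖) (z : ℂ) :
    ‖smo φ h z - h z‖ ≤ L * φ.rOut := by
  rw [← dist_eq_norm]
  apply ContDiffBump.dist_normed_convolution_le
  · exact (continuous_of_lip hLip).aestronglyMeasurable
  · intro w hw
    rw [Metric.mem_ball, dist_eq_norm] at hw
    rw [dist_eq_norm]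
    refine (hLip w z).trans ?_
    gcongr

theorem smo_apply (φ : ContDiffBump (0 : ℂ)) (h : ℂ → ℂ) (z : ℂ) :
    smo φ h z = ∫ s, φ.normed volume s • h (z - s) := rfl

theorem norm_smo_sub_le (φ : ContDiffBump (0 : ℂ)) {h : ℂ → ℂ} {L : ℝ}
    (hLip : ∀ z w, ‖h z - h w‖ ≤ L * ‖z - w‖) (z w : ℂ) :
    ‖smo φ h z - smo φ h w‖ ≤ L * ‖z - w‖ := by
  have hc := continuous_of_lip hLip
  have hi : ∀ z : ℂ, Integrable (fun s => φ.normed volume s • h (z - s)) volume := by
    intro z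
    apply Continuous.integrable_of_hasCompactSupport
    · exact φ.continuous_normed.smul (hc.comp (continuous_const.sub continuous_id))
    · exact φ.hasCompactSupport_normed.smul_right
  rw [smo_apply, smo_apply, ← integral_sub (hi z) (hi w)]
  calc ‖∫ s, (φ.normed volume s • h (z - s) - φ.normed volume s • h (w - s))‖
      ≤ ∫ s, φ.normed volume s * (L * ‖z - w‖) := by
        apply norm_integral_le_of_norm_le (φ.integrable_normed.mul_const _)
        refine ae_of_all _ fun s => ?_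
        rw [← smul_sub, norm_smul, Real.norm_of_nonneg (φ.nonneg_normed s)]
        apply mul_le_mul_of_nonneg_left _ (φ.nonneg_normed s)
        have := hLip (z - s) (w - s)
        rwa [sub_sub_sub_cancel_right] at this
    _ = L * ‖z - w‖ := by
        rw [integral_mul_const, φ.integral_normed, one_mul]

/-- Approximation of a Lipschitz field vanishing at two points by smooth ones. -/
theorem exists_approx {h : ℂ → ℂ} {L R : ℝ} {a b : ℂ} (hL : 0 ≤ L)
    (hLip : ∀ z w, ‖h z - h w‖ ≤ L * ‖z - w‖) (ha : h a = 0) (hb : h b = 0)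
    (hab : 1 ≤ ‖a - b‖) (hR : 0 < R) (haR : ‖a‖ ≤ R) :
    ∃ (hs : ℕ → ℂ → ℂ) (L' C : ℝ), 0 ≤ L' ∧ 0 ≤ C ∧
      (∀ n, ContDiff ℝ ∞ (hs n) ∧ HasCompactSupport (hs n) ∧ hs n a = 0 ∧ hs n b = 0) ∧
      (∀ z ∈ Metric.closedBall (0 : ℂ) R, Tendsto (fun n => hs n z) atTop (𝓝 (h z))) ∧
      (∀ n, ∀ z ∈ Metric.closedBall (0 : ℂ) R, ∀ w ∈ Metric.closedBall (0 : ℂ) R,
        ‖hs n z - hs n w‖ ≤ L' * ‖z - w‖) ∧
      (∀ n, ∀ z ∈ Metric.closedBall (0 : ℂ) R, ‖hs n z‖ ≤ C) := by
  have hc := continuous_of_lip hLip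
  -- the bumps
  let χ : ContDiffBump (0 : ℂ) := ⟨R, R + 1, hR, by linarith⟩
  let βa : ContDiffBump a := ⟨1 / 2, 1, by norm_num, by norm_num⟩
  let βb : ContDiffBump b := ⟨1 / 2, 1, by norm_num, by norm_num⟩
  let φ : ℕ → ContDiffBump (0 : ℂ) := fun n =>
    ⟨1 / (2 * ((n : ℝ) + 1)), 1 / ((n : ℝ) + 1), by positivity, by
      apply one_div_lt_one_div_of_lt (by positivity)
      have : (0 : ℝ) < (n : ℝ) + 1 := by positivity
      linarith⟩
  have hφout : ∀ n, (φ n).rOut = 1 / ((n : ℝ) + 1) := fun n => rfl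
  have hout1 : ∀ n : ℕ, 1 / ((n : ℝ) + 1) ≤ 1 := by
    intro n
    rw [div_le_one (by positivity)]
    have : (0 : ℝ) ≤ n := Nat.cast_nonneg n
    linarith
  obtain ⟨Λa, hΛa⟩ := (βa.contDiff (n := 1)).lipschitzWith_of_hasCompactSupport
    βa.hasCompactSupport one_ne_zero
  obtain ⟨Λb, hΛb⟩ := (βb.contDiff (n := 1)).lipschitzWith_of_hasCompactSupport
    βb.hasCompactSupport one_ne_zero
  have hχ1 : ∀ z ∈ Metric.closedBall (0 : ℂ) R, χ z = 1 := fun z hz =>
    χ.one_of_mem_closedBall hz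
  have haa : βa a = 1 := βa.one_of_mem_closedBall (Metric.mem_closedBall_self βa.rIn_pos.le)
  have hbb : βb b = 1 := βb.one_of_mem_closedBall (Metric.mem_closedBall_self βb.rIn_pos.le)
  have hab' : βa b = 0 := βa.zero_of_le_dist (by
    rw [dist_comm, dist_eq_norm]
    exact hab)
  have hba' : βb a = 0 := βb.zero_of_le_dist (by
    rw [dist_eq_norm]
    exact hab)
  set H : ℕ → ℂ → ℂ := fun n => smo (φ n) h with hH
  have hHa : ∀ n, ‖H n a‖ ≤ L * (1 / ((n : ℝ) + 1)) := by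
    intro n
    have := norm_smo_sub_self_le (φ n) hL hLip a
    rwa [ha, sub_zero, hφout] at this
  have hHb : ∀ n, ‖H n b‖ ≤ L * (1 / ((n : ℝ) + 1)) := by
    intro n
    have := norm_smo_sub_self_le (φ n) hL hLip b
    rwa [hb, sub_zero, hφout] at this
  have hHa1 : ∀ n, ‖H n a‖ ≤ L := fun n =>
    (hHa n).trans (by nlinarith [hout1 n])
  have hHb1 : ∀ n, ‖H n b‖ ≤ L := fun n =>
    (hHb n).trans (by nlinarith [hout1 n])
  have hone : Tendsto (fun n : ℕ => L * (1 / ((n : ℝ) + 1))) atTop (𝓝 0) := by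
    have := (tendsto_one_div_add_atTop_nhds_zero_nat (𝕜 := ℝ)).const_mul L
    simpa using this
  refine ⟨fun n z => (χ z) • (H n z - βa z • H n a - βb z • H n b),
    L + Λa * L + Λb * L, (2 * R * L + L) + L + L, by positivity, by positivity, ?_, ?_, ?_, ?_⟩
  · intro n
    refine ⟨?_, ?_, ?_, ?_⟩
    · exact χ.contDiff.smul (((smo_contDiff (φ n) hc).sub (βa.contDiff.smul contDiff_const)).sub
        (βb.contDiff.smul contDiff_const))
    · exact χ.hasCompactSupport.smul_right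
    · simp only [haa, hba']
      simp
    · simp only [hbb, hab']
      simp
  · intro z hz
    simp only [hχ1 z hz, one_smul]
    have t1 : Tendsto (fun n => H n z) atTop (𝓝 (h z)) := by
      rw [tendsto_iff_norm_sub_tendsto_zero]
      apply squeeze_zero (fun n => norm_nonneg _) _ hone
      intro n
      have := norm_smo_sub_self_le (φ n) hL hLip z
      rwa [hφout] at this
    have t2 : Tendsto (fun n => H n a) atTop (𝓝 0) :=
      squeeze_zero_norm hHa hone
    have t3 : Tendsto (fun n => H n b) atTop (𝓝 0) :=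
      squeeze_zero_norm hHb hone
    have := (t1.sub (t2.const_smul (βa z))).sub (t3.const_smul (βb z))
    simpa using this
  · intro n z hz w hw
    simp only [hχ1 z hz, hχ1 w hw, one_smul]
    have e : H n z - βa z • H n a - βb z • H n b - (H n w - βa w • H n a - βb w • H n b) =
        (H n z - H n w) - (βa z - βa w) • H n a - (βb z - βb w) • H n b := by
      rw [sub_smul, sub_smul]
      abel
    rw [e]
    have e1 := norm_smo_sub_le (φ n) hLip z w
    have e2 : ‖(βa z - βa w) • H n a‖ ≤ Λa * L * ‖z - w‖ := by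
      rw [norm_smul]
      have := hΛa.dist_le_mul z w
      rw [Real.dist_eq, dist_eq_norm] at this
      calc ‖βa z - βa w‖ * ‖H n a‖ ≤ (Λa * ‖z - w‖) * L :=
            mul_le_mul this (hHa1 n) (norm_nonneg _) (by positivity)
        _ = _ := by ring
    have e3 : ‖(βb z - βb w) • H n b‖ ≤ Λb * L * ‖z - w‖ := by
      rw [norm_smul]
      have := hΛb.dist_le_mul z w
      rw [Real.dist_eq, dist_eq_norm] at this
      calc ‖βb z - βb w‖ * ‖H n b‖ ≤ (Λb * ‖z - w‖) * L :=
            mul_le_mul this (hHb1 n) (norm_nonneg _) (by positivity)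
        _ = _ := by ring
    calc ‖(H n z - H n w) - (βa z - βa w) • H n a - (βb z - βb w) • H n b‖
        ≤ ‖(H n z - H n w) - (βa z - βa w) • H n a‖ + ‖(βb z - βb w) • H n b‖ := norm_sub_le _ _
      _ ≤ ‖H n z - H n w‖ + ‖(βa z - βa w) • H n a‖ + ‖(βb z - βb w) • H n b‖ := by
          gcongr
          exact norm_sub_le _ _
      _ ≤ L * ‖z - w‖ + Λa * L * ‖z - w‖ + Λb * L * ‖z - w‖ := by gcongr
      _ = _ := by ring
  · intro n z hz
    simp only [hχ1 z hz, one_smul]
    have e1 : ‖H n z‖ ≤ 2 * R * L + L := by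
      have a1 := norm_smo_sub_self_le (φ n) hL hLip z
      rw [hφout] at a1
      have a2 := hLip z a
      rw [ha, sub_zero] at a2
      rw [mem_closedBall_zero_iff] at hz
      have a3 : ‖z - a‖ ≤ 2 * R := (norm_sub_le _ _).trans (by linarith)
      calc ‖H n z‖ = ‖(H n z - h z) + h z‖ := by rw [sub_add_cancel]
        _ ≤ ‖H n z - h z‖ + ‖h z‖ := norm_add_le _ _
        _ ≤ L * (1 / ((n : ℝ) + 1)) + L * ‖z - a‖ := add_le_add a1 a2
        _ ≤ L * 1 + L * (2 * R) := by
            gcongr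
            exact hout1 n
        _ = _ := by ring
    have e2 : ‖βa z • H n a‖ ≤ L := by
      rw [norm_smul, Real.norm_of_nonneg βa.nonneg]
      calc βa z * ‖H n a‖ ≤ 1 * L := mul_le_mul βa.le_one (hHa1 n) (norm_nonneg _) zero_le_one
        _ = L := one_mul L
    have e3 : ‖βb z • H n b‖ ≤ L := by
      rw [norm_smul, Real.norm_of_nonneg βb.nonneg]
      calc βb z * ‖H n b‖ ≤ 1 * L := mul_le_mul βb.le_one (hHb1 n) (norm_nonneg _) zero_le_one
        _ = L := one_mul L
    calc ‖H n z - βa z • H n a - βb z • H n b‖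
        ≤ ‖H n z - βa z • H n a‖ + ‖βb z • H n b‖ := norm_sub_le _ _
      _ ≤ ‖H n z‖ + ‖βa z • H n a‖ + ‖βb z • H n b‖ := by
          gcongr
          exact norm_sub_le _ _
      _ ≤ (2 * R * L + L) + L + L := by gcongr

theorem abs_kerV_le_local {h : ℂ → ℂ} {L : ℝ} (hL : 0 ≤ L) {p : ℂ × ℂ}
    (hp : ‖h p.1 - h p.2‖ ≤ L * ‖p.1 - p.2‖) : |kerV h p| ≤ L := by
  unfold kerV
  rw [abs_div, abs_of_nonneg (a := ‖p.1 - p.2‖ ^ 2) (sq_nonneg _)]
  rcases eq_or_ne p.1 p.2 with h0 | h0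
  · rw [h0, sub_self, norm_zero]
    simpa using hL
  · have h1 : 0 < ‖p.1 - p.2‖ := norm_pos_iff.2 (sub_ne_zero.2 h0)
    rw [div_le_iff₀ (by positivity)]
    calc |dot (p.1 - p.2) (h p.1 - h p.2)| ≤ ‖p.1 - p.2‖ * ‖h p.1 - h p.2‖ := abs_dot_le _ _
      _ ≤ ‖p.1 - p.2‖ * (L * ‖p.1 - p.2‖) := by gcongr
      _ = L * ‖p.1 - p.2‖ ^ 2 := by ring

theorem continuous_phiDir (k₁ k₂ : ℝ) (z : ℂ) : Continuous (fun v => phiDir k₁ k₂ z v) := by
  unfold phiDir
  have := continuous_phi k₁ k₂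
  split_ifs <;> fun_prop

theorem abs_phiDir_le (k₁ k₂ : ℝ) (z v : ℂ) : |phiDir k₁ k₂ z v| ≤ (|k₁| + |k₂|) * ‖v‖ := by
  obtain ⟨t, ht, ht0⟩ := ((phi_quot k₁ k₂ z v).and self_mem_nhdsWithin).exists
  rw [← ht]
  exact phi_quot_le k₁ k₂ z v ht0

section

variable {k₁ k₂ : ℝ} {a b : ℂ} {μ : Measure ℂ}

theorem IsCriticalMeasure.exists_ball (hμ : IsCriticalMeasure k₁ k₂ a b μ) :
    ∃ R : ℝ, 0 < R ∧ ‖a‖ ≤ R ∧ ‖b‖ ≤ R ∧ IsProbOn (Metric.closedBall 0 R) μ := by
  obtain ⟨M, hM⟩ := hμ.bounded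
  refine ⟨max M (max ‖a‖ ‖b‖) + 1, ?_, ?_, ?_, hμ.isProb, ?_⟩
  · have := (norm_nonneg a).trans ((le_max_left ‖a‖ ‖b‖).trans (le_max_right M _))
    linarith
  · have := (le_max_left ‖a‖ ‖b‖).trans (le_max_right M _)
    linarith
  · have := (le_max_right ‖a‖ ‖b‖).trans (le_max_right M _)
    linarith
  · apply measure_mono_null _ hM
    intro z hz
    rw [mem_compl_iff, mem_closedBall_zero_iff, not_le] at hz
    have := le_max_left M (max ‖a‖ ‖b‖)
    change M < ‖z‖
    linarith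

/-- The identity for a smooth field. -/
theorem IsCriticalMeasure.identity_smooth (hμ : IsCriticalMeasure k₁ k₂ a b μ) {h : ℂ → ℂ}
    (hh : ContDiff ℝ ∞ h) (hsupp : HasCompactSupport h) (ha : h a = 0) (hb : h b = 0) :
    ∫ p, kerV h p ∂(μ.prod μ) = 2 * ∫ z, phiDir k₁ k₂ z (h z) ∂μ := by
  obtain ⟨R, hR, -, -, hball⟩ := hμ.exists_ball
  obtain ⟨L, hL⟩ := hh.lipschitzWith_of_hasCompactSupport hsupp (by simp)
  obtain ⟨C, hC⟩ := hsupp.exists_bound_of_continuous hh.continuous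
  refine variation_identity (L := L) (H := C) hR.le hball hμ.finite ?_ L.2 hC ?_
  · intro z w
    have := hL.dist_le_mul z w
    rwa [dist_eq_norm, dist_eq_norm] at this
  · exact (hμ.deriv_zero h hh hsupp ha hb).hasDerivWithinAt

/-- The identity for a Lipschitz field. -/
theorem IsCriticalMeasure.identity (hμ : IsCriticalMeasure k₁ k₂ a b μ) (hab : 1 ≤ ‖a - b‖)
    {h : ℂ → ℂ} {L : ℝ} (hL : 0 ≤ L) (hLip : ∀ z w, ‖h z - h w‖ ≤ L * ‖z - w‖)
    (ha : h a = 0) (hb : h b = 0) :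
    ∫ p, kerV h p ∂(μ.prod μ) = 2 * ∫ z, phiDir k₁ k₂ z (h z) ∂μ := by
  have hprob := hμ.isProb
  obtain ⟨R, hR, haR, hbR, hball⟩ := hμ.exists_ball
  obtain ⟨hs, L', C, hL', hC, hsm, hlim, hLip', hbd⟩ :=
    exists_approx hL hLip ha hb hab hR haR
  have hid : ∀ n, ∫ p, kerV (hs n) p ∂(μ.prod μ) = 2 * ∫ z, phiDir k₁ k₂ z (hs n z) ∂μ :=
    fun n => hμ.identity_smooth (hsm n).1 (hsm n).2.1 (hsm n).2.2.1 (hsm n).2.2.2
  have hae : ∀ᵐ z ∂μ, z ∈ Metric.closedBall (0 : ℂ) R := by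
    rw [ae_iff]
    exact hball.compl
  have haep : ∀ᵐ p ∂(μ.prod μ), p.1 ∈ Metric.closedBall (0 : ℂ) R ∧
      p.2 ∈ Metric.closedBall (0 : ℂ) R := hball.prod_ae hball
  have hmeas : ∀ n, Measurable (hs n) := fun n => (hsm n).1.continuous.measurable
  have hl1 : Tendsto (fun n => ∫ p, kerV (hs n) p ∂(μ.prod μ)) atTop
      (𝓝 (∫ p, kerV h p ∂(μ.prod μ))) := by
    apply tendsto_integral_of_dominated_convergence (fun _ => L')
    · intro n
      have := hmeas n
      have h1 : Measurable (kerV (hs n)) := by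
        unfold kerV dot
        fun_prop
      exact h1.aestronglyMeasurable
    · exact integrable_const _
    · intro n
      filter_upwards [haep] with p hp
      rw [Real.norm_eq_abs]
      exact abs_kerV_le_local hL' (hLip' n _ hp.1 _ hp.2)
    · filter_upwards [haep] with p hp
      have h1 := hlim _ hp.1
      have h2 := hlim _ hp.2
      have h3 : Continuous (fun v : ℂ => dot (p.1 - p.2) v / ‖p.1 - p.2‖ ^ 2) := by
        unfold dot
        fun_prop
      exact (h3.tendsto _).comp (h1.sub h2)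
  have hl2 : Tendsto (fun n => ∫ z, phiDir k₁ k₂ z (hs n z) ∂μ) atTop
      (𝓝 (∫ z, phiDir k₁ k₂ z (h z) ∂μ)) := by
    apply tendsto_integral_of_dominated_convergence (fun _ => (|k₁| + |k₂|) * C)
    · intro n
      exact (measurable_phiDir (hmeas n)).aestronglyMeasurable
    · exact integrable_const _
    · intro n
      filter_upwards [hae] with z hz
      rw [Real.norm_eq_abs]
      refine (abs_phiDir_le _ _ _ _).trans ?_
      gcongr
      exact hbd n z hz
    · filter_upwards [hae] with z hz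
      exact ((continuous_phiDir k₁ k₂ z).tendsto _).comp (hlim z hz)
  have hl3 := (hl2.const_mul 2).congr fun n => (hid n).symm
  exact tendsto_nhds_unique hl1 hl3

/-- A critical measure has no mass on the imaginary axis. -/
theorem IsCriticalMeasure.axis_null (hμ : IsCriticalMeasure k₁ k₂ a b μ) (hk₁ : 0 < k₁)
    (hk₂ : 0 < k₂) (ha : a.re ≠ 0) (hb : b.re ≠ 0) : ∀ᵐ z ∂μ, z.re ≠ 0 := by
  have hprob := hμ.isProb
  obtain ⟨R, hR, haR, hbR, hball⟩ := hμ.exists_ball
  have hae : ∀ᵐ z ∂μ, z ∈ Metric.closedBall (0 : ℂ) R := by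
    rw [ae_iff]
    exact hball.compl
  let χ : ContDiffBump (0 : ℂ) := ⟨R, R + 1, hR, by linarith⟩
  set f : ℂ → ℝ := fun z => χ z * (‖z - a‖ ^ 2 * ‖z - b‖ ^ 2) with hf
  have hfs : ContDiff ℝ ∞ f := by
    apply χ.contDiff.mul
    exact ((contDiff_id.sub contDiff_const).norm_sq ℝ).mul
      ((contDiff_id.sub contDiff_const).norm_sq ℝ)
  have hfc : HasCompactSupport f := χ.hasCompactSupport.mul_right
  have hf0 : ∀ z, 0 ≤ f z := fun z => by
    have := χ.nonneg (x := z)
    rw [hf]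
    positivity
  set h : ℂ → ℂ := fun z => (f z : ℂ) with hh
  have hhs : ContDiff ℝ ∞ h := Complex.ofRealCLM.contDiff.comp hfs
  have hhc : HasCompactSupport h := hfc.comp_left (g := fun x : ℝ => (x : ℂ)) (by simp)
  have hha : h a = 0 := by simp [hh, hf]
  have hhb : h b = 0 := by simp [hh, hf]
  have h1 := hμ.identity_smooth hhs hhc hha hhb
  have h2 := hμ.identity_smooth (h := fun z => -h z) hhs.neg (hhc.comp_left (g := fun x => -x)
    (by simp)) (by simp only [hha, neg_zero]) (by simp only [hhb, neg_zero])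
  have h3 : ∫ p, kerV (fun z => -h z) p ∂(μ.prod μ) = -∫ p, kerV h p ∂(μ.prod μ) := by
    rw [← integral_neg]
    apply integral_congr_ae
    filter_upwards with p
    unfold kerV dot
    simp only [Complex.sub_re, Complex.sub_im, Complex.neg_re, Complex.neg_im]
    ring
  obtain ⟨C, hC⟩ := hhc.exists_bound_of_continuous hhs.continuous
  have hi : ∀ g : ℂ → ℂ, Measurable g → (∀ z, ‖g z‖ ≤ C) →
      Integrable (fun z => phiDir k₁ k₂ z (g z)) μ := by
    intro g hg hgC
    refine (integrable_const ((|k₁| + |k₂|) * C)).mono'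
      (measurable_phiDir hg).aestronglyMeasurable (ae_of_all _ fun z => ?_)
    rw [Real.norm_eq_abs]
    refine (abs_phiDir_le _ _ _ _).trans ?_
    gcongr
    exact hgC z
  have hhm := hhs.continuous.measurable
  have i1 := hi h hhm hC
  have i2 := hi (fun z => -h z) hhm.neg (fun z => by rw [norm_neg]; exact hC z)
  have h4 : ∫ z, (phiDir k₁ k₂ z (h z) + phiDir k₁ k₂ z (-h z)) ∂μ = 0 := by
    rw [integral_add i1 i2]
    linarith
  have h5 : ∀ z, phiDir k₁ k₂ z (h z) + phiDir k₁ k₂ z (-h z) =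
      if z.re = 0 then -((k₁ + k₂) * f z) else 0 := by
    intro z
    have hre : (h z).re = f z := by simp [hh]
    unfold phiDir
    rcases lt_trichotomy z.re 0 with hz | hz | hz
    · rw [if_neg (by linarith), if_pos hz, if_neg (by linarith), if_pos hz, if_neg hz.ne,
        Complex.neg_re]
      ring
    · rw [if_neg (by linarith), if_neg (by linarith), if_neg (by linarith), if_neg (by linarith),
        if_pos hz, phi_of_re (by rw [hre]; exact hf0 z),
        phi_of_re' (by rw [Complex.neg_re, hre]; linarith [hf0 z]), Complex.neg_re, hre]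
      ring
    · rw [if_pos hz, if_pos hz, if_neg hz.ne', Complex.neg_re]
      ring
  have h6 : 0 ≤ᵐ[μ] fun z => -(phiDir k₁ k₂ z (h z) + phiDir k₁ k₂ z (-h z)) := by
    refine ae_of_all _ fun z => ?_
    simp only [Pi.zero_apply]
    rw [h5]
    split_ifs
    · rw [neg_neg]
      have := hf0 z
      positivity
    · simp
  have h7 := (integral_eq_zero_iff_of_nonneg_ae h6 (i1.add i2).neg).1 (by
    rw [integral_neg, h4, neg_zero])
  filter_upwards [h7, hae] with z hz hzR h0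
  have h8 : -(phiDir k₁ k₂ z (h z) + phiDir k₁ k₂ z (-h z)) = 0 := hz
  rw [h5, if_pos h0, neg_neg] at h8
  have h9 : 0 < f z := by
    have e1 : χ z = 1 := χ.one_of_mem_closedBall hzR
    have e2 : z ≠ a := fun h => ha (h ▸ h0)
    have e3 : z ≠ b := fun h => hb (h ▸ h0)
    have e4 : 0 < ‖z - a‖ := norm_pos_iff.2 (sub_ne_zero.2 e2)
    have e5 : 0 < ‖z - b‖ := norm_pos_iff.2 (sub_ne_zero.2 e3)
    rw [hf]
    simp only
    rw [e1]
    positivity
  have h10 : 0 < (k₁ + k₂) * f z := by positivity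
  linarith

theorem IsCriticalMeasure.varMeas {ε₁ ε₂ : ℝ}
    (hμ : IsCriticalMeasure k₁ k₂ (-(ε₁ : ℂ) + Complex.I) ((ε₂ : ℂ) - Complex.I) μ) :
    VarMeas k₁ k₂ ε₁ ε₂ μ := by
  have hprob := hμ.isProb
  obtain ⟨R, hR, haR, hbR, hball⟩ := hμ.exists_ball
  have hae : ∀ᵐ z ∂μ, z ∈ Metric.closedBall (0 : ℂ) R := by
    rw [ae_iff]
    exact hball.compl
  have hB : Box (2 * R + 1) (Metric.closedBall (0 : ℂ) R) := by
    refine ⟨by linarith, Metric.isBounded_closedBall, fun z hz w hw => ?_⟩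
    rw [mem_closedBall_zero_iff] at hz hw
    calc ‖z - w‖ ≤ ‖z‖ + ‖w‖ := norm_sub_le _ _
      _ ≤ _ := by linarith
  refine ⟨hprob, ⟨R, hae.mono fun z hz => by simpa using hz⟩, ?_, ?_⟩
  · apply (ener_toReal hball _).2.2
    · exact 2 * R + 1
    · intro htop
      exact hμ.finite (energy_top hB hball htop)
  · intro h L g t₀ hLip hL h1 h2 hg ht₀ hineq
    have hab : 1 ≤ ‖(-(ε₁ : ℂ) + Complex.I) - ((ε₂ : ℂ) - Complex.I)‖ := by
      refine le_trans ?_ (Complex.abs_im_le_norm _)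
      simp only [Complex.sub_im, Complex.add_im, Complex.neg_im, Complex.ofReal_im, Complex.I_im]
      norm_num
    rw [hμ.identity hab hL hLip h1 h2]
    have hpt : ∀ z, g z ≤ phiDir k₁ k₂ z (h z) := by
      intro z
      have h3 : ∀ᶠ t : ℝ in 𝓝[>] 0, t ≤ t₀ :=
        nhdsWithin_le_nhds (Iic_mem_nhds ht₀)
      obtain ⟨t, ht1, ht2, ht3⟩ :=
        ((phi_quot k₁ k₂ z (h z)).and (h3.and self_mem_nhdsWithin)).exists
      have ht3' : 0 < t := ht3
      rw [← ht1, le_div_iff₀ ht3']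
      have := hineq t ht3' ht2 z
      unfold defo at this
      linarith
    have hcomp := isCompact_closedBall (0 : ℂ) R
    have hi1 : Integrable g μ := by
      obtain ⟨C, hC⟩ := hcomp.exists_bound_of_continuousOn hg.continuousOn
      refine (integrable_const C).mono' hg.aestronglyMeasurable ?_
      filter_upwards [hae] with z hz using hC z hz
    have hhc := continuous_of_lip hLip
    have hi2 : Integrable (fun z => phiDir k₁ k₂ z (h z)) μ := by
      obtain ⟨C, hC⟩ := hcomp.exists_bound_of_continuousOn hhc.continuousOn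
      refine (integrable_const ((|k₁| + |k₂|) * C)).mono'
        (measurable_phiDir hhc.measurable).aestronglyMeasurable ?_
      filter_upwards [hae] with z hz
      rw [Real.norm_eq_abs]
      refine (abs_phiDir_le _ _ _ _).trans ?_
      gcongr
      exact hC z hz
    have := integral_mono hi1 hi2 hpt
    linarith

/-- For small `ε₁, ε₂ > 0` there is no critical measure relative to `z₁` and `z₂`. -/
theorem no_critical (hk₁ : 0 < k₁) (hk₂ : 0 < k₂) :
    ∃ ε₀ : ℝ, 0 < ε₀ ∧ ∀ ε₁ ε₂ : ℝ, 0 < ε₁ → ε₁ < ε₀ → 0 < ε₂ → ε₂ < ε₀ →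
      ∀ μ : Measure ℂ,
        ¬ IsCriticalMeasure k₁ k₂ (-(ε₁ : ℂ) + Complex.I) ((ε₂ : ℂ) - Complex.I) μ := by
  obtain ⟨ε₀, h0, h⟩ := varMeas_axis hk₁ hk₂
  refine ⟨ε₀, h0, fun ε₁ ε₂ h1 h2 h3 h4 μ hμ => ?_⟩
  apply h ε₁ ε₂ μ h1 h2 h3 h4 hμ.varMeas
  apply hμ.axis_null hk₁ hk₂
  · simp only [Complex.add_re, Complex.neg_re, Complex.ofReal_re, Complex.I_re, add_zero]
    linarith
  · simp only [Complex.sub_re, Complex.ofReal_re, Complex.I_re, sub_zero]
    linarith

end

end Pool.Agent.Helper25.SCurve
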