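import Pool.Agent.Helper25.SCurve.RProp

/-!
# A De Giorgi type iteration: no mass off the imaginary axis away from the ends
-/

namespace Pool.Agent.Helper25.SCurve

open MeasureTheory Set Filter Topology
open scoped ENNReal

/-- The levels `-1 + t (2 - 2⁻ⁿ)`. -/
noncomputable def lev (t : ℝ) (n : ℕ) : ℝ := -1 + t * (2 - (1 / 2) ^ n)

theorem lev_succ_sub (t : ℝ) (n : ℕ) : lev t (n + 1) - lev t n = t * (1 / 2) ^ (n + 1) := by
  unfold lev
  rw [pow_succ]
  ring

theorem lev_lt (t : ℝ) (ht : 0 < t) (n : ℕ) : lev t n < lev t (n + 1) := by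
  have := lev_succ_sub t n
  have h2 : 0 < t * (1 / 2) ^ (n + 1) := by positivity
  linarith

theorem neg_one_lt_lev {t : ℝ} (ht : 0 < t) (n : ℕ) : -1 < lev t n := by
  unfold lev
  have h1 : (1 / 2 : ℝ) ^ n ≤ 1 := pow_le_one₀ (by norm_num) (by norm_num)
  nlinarith

theorem lev_lt_top {t : ℝ} (ht : 0 < t) (n : ℕ) : lev t n < -1 + 2 * t := by
  unfold lev
  have h1 : 0 < (1 / 2 : ℝ) ^ n := by positivity
  nlinarith

/-- The cutoff functions. -/
noncomputable def cut (a b y : ℝ) : ℝ := min (max ((y - a) / (b - a)) 0) 1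

theorem cut_nonneg (a b y : ℝ) : 0 ≤ cut a b y := le_min (le_max_right _ _) zero_le_one

theorem cut_le_one (a b y : ℝ) : cut a b y ≤ 1 := min_le_right _ _

theorem cut_of_le {a b y : ℝ} (hab : a < b) (h : y ≤ a) : cut a b y = 0 := by
  unfold cut
  rw [max_eq_right (div_nonpos_of_nonpos_of_nonneg (by linarith) (by linarith)),
    min_eq_left zero_le_one]

theorem cut_of_ge {a b y : ℝ} (hab : a < b) (h : b ≤ y) : cut a b y = 1 := by
  unfold cut
  apply min_eq_right
  apply le_max_of_le_left
  rw [one_le_div (by linarith)]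
  linarith

theorem abs_cut_sub_le {a b : ℝ} (hab : a < b) (y y' : ℝ) :
    |cut a b y - cut a b y'| ≤ 1 / (b - a) * |y - y'| := by
  have hba : 0 < b - a := by linarith
  unfold cut
  refine (abs_min_sub_min_le_max _ _ _ _).trans ?_
  rw [sub_self, abs_zero, max_eq_left (abs_nonneg _)]
  refine (abs_max_sub_max_le_abs _ _ _).trans ?_
  rw [← sub_div, abs_div, abs_of_pos hba, show y - a - (y' - a) = y - y' by ring, div_eq_inv_mul,
    one_div]

section

variable {k t ε δ : ℝ} {R : Measure ℂ}

/-- The mass above level `n`. -/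
noncomputable def mass (R : Measure ℂ) (t : ℝ) (n : ℕ) : ℝ := R.real {z : ℂ | lev t n < z.im}

/-- The far kernel at level `n`. -/
noncomputable def farK (t : ℝ) (n : ℕ) (z : ℂ) : ℝ :=
  {z : ℂ | z.im ≤ lev t n}.indicator (fun z => 1 / (lev t (n + 1) - z.im) ^ 2) z

/-- The far integral at level `n`. -/
noncomputable def far (R : Measure ℂ) (t : ℝ) (n : ℕ) : ℝ := ∫ z, farK t n z ∂(R)

theorem measurableSet_above (y : ℝ) : MeasurableSet {z : ℂ | y < z.im} :=
  measurableSet_lt measurable_const Complex.measurable_im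

theorem measurableSet_below (y : ℝ) : MeasurableSet {z : ℂ | z.im ≤ y} :=
  measurableSet_le Complex.measurable_im measurable_const

theorem farK_nonneg (t : ℝ) (n : ℕ) (z : ℂ) : 0 ≤ farK t n z := by
  unfold farK
  apply indicator_nonneg
  intro z _
  positivity

theorem measurable_farK (t : ℝ) (n : ℕ) : Measurable (farK t n) := by
  unfold farK
  apply Measurable.indicator _ (measurableSet_below _)
  fun_prop

theorem farK_le (ht : 0 < t) (n : ℕ) (z : ℂ) : farK t n z ≤ 4 ^ (n + 1) / t ^ 2 := by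
  unfold farK
  by_cases hz : z ∈ {z : ℂ | z.im ≤ lev t n}
  · rw [indicator_of_mem hz]
    have hz' : z.im ≤ lev t n := hz
    have h1 := lev_succ_sub t n
    have h2 : 0 < t * (1 / 2) ^ (n + 1) := by positivity
    have h3 : t * (1 / 2) ^ (n + 1) ≤ lev t (n + 1) - z.im := by linarith
    calc 1 / (lev t (n + 1) - z.im) ^ 2 ≤ 1 / (t * (1 / 2) ^ (n + 1)) ^ 2 := by gcongr
      _ = 4 ^ (n + 1) / t ^ 2 := by
          rw [mul_pow, ← pow_mul, mul_comm (n + 1) 2, pow_mul]
          have : ((1 / 2 : ℝ) ^ 2) ^ (n + 1) = 1 / 4 ^ (n + 1) := by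
            rw [← one_div_pow]
            norm_num
          rw [this]
          field_simp
  · rw [indicator_of_notMem hz]
    positivity

theorem integrable_farK [IsFiniteMeasure R] (ht : 0 < t) (n : ℕ) : Integrable (farK t n) R :=
  (integrable_const (4 ^ (n + 1) / t ^ 2)).mono' (measurable_farK t n).aestronglyMeasurable
    (ae_of_all _ fun z => by
      rw [Real.norm_of_nonneg (farK_nonneg t n z)]
      exact farK_le ht n z)

theorem far_zero_le [IsFiniteMeasure R] (hR : R.real univ ≤ 1) (ht : 0 < t) :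
    far R t 0 ≤ 4 / t ^ 2 := by
  unfold far
  calc ∫ z, farK t 0 z ∂(R) ≤ ∫ _z, 4 ^ (0 + 1) / t ^ 2 ∂(R) :=
        integral_mono (integrable_farK ht 0) (integrable_const _) fun z => farK_le ht 0 z
    _ = R.real univ * (4 / t ^ 2) := by
        rw [integral_const, smul_eq_mul]
        norm_num
    _ ≤ 1 * (4 / t ^ 2) := by gcongr
    _ = _ := one_mul _

theorem far_succ_le [IsFiniteMeasure R] (ht : 0 < t) (n : ℕ) :
    far R t (n + 1) ≤ far R t n + 4 ^ (n + 2) / t ^ 2 * mass R t n := by
  unfold far mass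
  have hind : Integrable ({z : ℂ | lev t n < z.im}.indicator fun _ => 4 ^ (n + 2) / t ^ 2) R :=
    (integrable_const _).indicator (measurableSet_above _)
  have h1 : ∫ z, {z : ℂ | lev t n < z.im}.indicator (fun _ => 4 ^ (n + 2) / t ^ 2) z ∂(R) =
      4 ^ (n + 2) / t ^ 2 * R.real {z : ℂ | lev t n < z.im} := by
    rw [integral_indicator (measurableSet_above _), setIntegral_const, smul_eq_mul, mul_comm]
  rw [← h1, ← integral_add (integrable_farK ht n) hind]
  apply integral_mono (integrable_farK ht (n + 1)) ((integrable_farK ht n).add hind)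
  intro z
  simp only [Pi.add_apply]
  rcases le_or_gt z.im (lev t n) with hz | hz
  · rw [indicator_of_notMem (show z ∉ {z : ℂ | lev t n < z.im} from not_lt.2 hz), add_zero]
    unfold farK
    have hlt := lev_lt t ht n
    have hlt' := lev_lt t ht (n + 1)
    rw [indicator_of_mem (show z ∈ {z : ℂ | z.im ≤ lev t (n + 1)} from hz.trans hlt.le),
      indicator_of_mem (show z ∈ {z : ℂ | z.im ≤ lev t n} from hz)]
    have h2 : 0 < lev t (n + 1) - z.im := by linarith
    gcongr
  · rw [indicator_of_mem (show z ∈ {z : ℂ | lev t n < z.im} from hz)]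
    have := farK_nonneg t n z
    have := farK_le ht (n + 1) z
    linarith

/-- The pointwise estimate of the test kernel. -/
theorem test_kernel_le (ht : 0 < t) (hε : 0 ≤ ε) (n : ℕ) {p : ℂ × ℂ}
    (h1 : 0 ≤ p.1.re ∧ p.1.re ≤ ε) (h2 : 0 ≤ p.2.re ∧ p.2.re ≤ ε) :
    |cut (lev t (n + 1)) (lev t (n + 2)) p.1.im - cut (lev t (n + 1)) (lev t (n + 2)) p.2.im| *
      qk p ≤
      2 ^ (n + 1) / t * ({z : ℂ | lev t (n + 1) < z.im}.indicator (fun _ => (1 : ℝ)) p.1 *
        {z : ℂ | lev t n < z.im}.indicator (fun _ => (1 : ℝ)) p.2) +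
      2 ^ (n + 1) / t * ({z : ℂ | lev t n < z.im}.indicator (fun _ => (1 : ℝ)) p.1 *
        {z : ℂ | lev t (n + 1) < z.im}.indicator (fun _ => (1 : ℝ)) p.2) +
      ε * ({z : ℂ | lev t (n + 1) < z.im}.indicator (fun _ => (1 : ℝ)) p.1 * farK t n p.2) +
      ε * (farK t n p.1 * {z : ℂ | lev t (n + 1) < z.im}.indicator (fun _ => (1 : ℝ)) p.2) := by
  have hlt := lev_lt t ht n
  have hlt' := lev_lt t ht (n + 1)
  have hsub := lev_succ_sub t (n + 1)
  have hind : ∀ (y : ℝ) (z : ℂ), 0 ≤ {z : ℂ | y < z.im}.indicator (fun _ => (1 : ℝ)) z :=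
    fun y z => indicator_nonneg (fun _ _ => zero_le_one) z
  have hq := qk_nonneg p
  have t1 : 0 ≤ 2 ^ (n + 1) / t * ({z : ℂ | lev t (n + 1) < z.im}.indicator (fun _ => (1 : ℝ)) p.1 *
        {z : ℂ | lev t n < z.im}.indicator (fun _ => (1 : ℝ)) p.2) :=
    mul_nonneg (by positivity) (mul_nonneg (hind _ _) (hind _ _))
  have t2 : 0 ≤ 2 ^ (n + 1) / t * ({z : ℂ | lev t n < z.im}.indicator (fun _ => (1 : ℝ)) p.1 *
        {z : ℂ | lev t (n + 1) < z.im}.indicator (fun _ => (1 : ℝ)) p.2) :=
    mul_nonneg (by positivity) (mul_nonneg (hind _ _) (hind _ _))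
  have t3 : 0 ≤ ε * ({z : ℂ | lev t (n + 1) < z.im}.indicator (fun _ => (1 : ℝ)) p.1 *
      farK t n p.2) := mul_nonneg hε (mul_nonneg (hind _ _) (farK_nonneg _ _ _))
  have t4 : 0 ≤ ε * (farK t n p.1 *
      {z : ℂ | lev t (n + 1) < z.im}.indicator (fun _ => (1 : ℝ)) p.2) :=
    mul_nonneg hε (mul_nonneg (farK_nonneg _ _ _) (hind _ _))
  -- near pairs
  have hnear : |cut (lev t (n + 1)) (lev t (n + 2)) p.1.im -
      cut (lev t (n + 1)) (lev t (n + 2)) p.2.im| * qk p ≤ 2 ^ (n + 1) / t := by
    have h3 := test_le (L := 1 / (lev t (n + 2) - lev t (n + 1)))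
      (by have : 0 < lev t (n + 2) - lev t (n + 1) := by linarith
          positivity) (abs_cut_sub_le hlt') p
    refine h3.trans (le_of_eq ?_)
    rw [show lev t (n + 2) - lev t (n + 1) = t * (1 / 2) ^ (n + 1 + 1) from hsub, one_div_pow,
      pow_succ]
    field_simp
  -- far pairs
  have hfar : ∀ y y' : ℝ, lev t (n + 1) < y → y' ≤ lev t n →
      |p.1.im - p.2.im| = y - y' →
      |cut (lev t (n + 1)) (lev t (n + 2)) p.1.im -
      cut (lev t (n + 1)) (lev t (n + 2)) p.2.im| * qk p ≤ ε * (1 / (lev t (n + 1) - y') ^ 2) := by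
    intro y y' hy hy' habs
    have h3 : |cut (lev t (n + 1)) (lev t (n + 2)) p.1.im -
        cut (lev t (n + 1)) (lev t (n + 2)) p.2.im| ≤ 1 := by
      rw [abs_le]
      have a1 := cut_nonneg (lev t (n + 1)) (lev t (n + 2)) p.1.im
      have a2 := cut_nonneg (lev t (n + 1)) (lev t (n + 2)) p.2.im
      have a3 := cut_le_one (lev t (n + 1)) (lev t (n + 2)) p.1.im
      have a4 := cut_le_one (lev t (n + 1)) (lev t (n + 2)) p.2.im
      constructor <;> linarith
    have h4 : |p.1.re - p.2.re| ≤ ε := by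
      rw [abs_le]
      constructor <;> linarith [h1.1, h1.2, h2.1, h2.2]
    have h5 : 0 < lev t (n + 1) - y' := by linarith
    have h6 : (lev t (n + 1) - y') ^ 2 ≤ ‖p.1 - p.2‖ ^ 2 := by
      rw [norm_sub_sq, ← sq_abs (p.1.im - p.2.im), habs]
      have : (lev t (n + 1) - y') ^ 2 ≤ (y - y') ^ 2 := by gcongr
      nlinarith [sq_nonneg (p.1.re - p.2.re)]
    have h7 : qk p ≤ ε * (1 / (lev t (n + 1) - y') ^ 2) := by
      unfold qk
      rw [mul_one_div]
      gcongr
    calc _ ≤ 1 * qk p := mul_le_mul_of_nonneg_right h3 hq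
      _ = qk p := one_mul _
      _ ≤ _ := h7
  rcases le_or_gt p.1.im (lev t (n + 1)) with ha | ha
  · rcases le_or_gt p.2.im (lev t (n + 1)) with hb | hb
    · rw [cut_of_le hlt' ha, cut_of_le hlt' hb, sub_self, abs_zero, zero_mul]
      linarith
    · rcases le_or_gt p.1.im (lev t n) with hc | hc
      · have h3 := hfar p.2.im p.1.im hb hc (by
          rw [abs_sub_comm, abs_of_pos (by linarith)])
        have e4 : ε * (farK t n p.1 *
            {z : ℂ | lev t (n + 1) < z.im}.indicator (fun _ => (1 : ℝ)) p.2) =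
            ε * (1 / (lev t (n + 1) - p.1.im) ^ 2) := by
          rw [indicator_of_mem (show p.2 ∈ {z : ℂ | lev t (n + 1) < z.im} from hb), mul_one]
          unfold farK
          rw [indicator_of_mem (show p.1 ∈ {z : ℂ | z.im ≤ lev t n} from hc)]
        linarith
      · have e2 : 2 ^ (n + 1) / t * ({z : ℂ | lev t n < z.im}.indicator (fun _ => (1 : ℝ)) p.1 *
            {z : ℂ | lev t (n + 1) < z.im}.indicator (fun _ => (1 : ℝ)) p.2) = 2 ^ (n + 1) / t := by
          rw [indicator_of_mem (show p.2 ∈ {z : ℂ | lev t (n + 1) < z.im} from hb),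
            indicator_of_mem (show p.1 ∈ {z : ℂ | lev t n < z.im} from hc)]
          ring
        linarith
  · rcases le_or_gt p.2.im (lev t n) with hc | hc
    · have h3 := hfar p.1.im p.2.im ha hc (abs_of_pos (by linarith))
      have e3 : ε * ({z : ℂ | lev t (n + 1) < z.im}.indicator (fun _ => (1 : ℝ)) p.1 *
          farK t n p.2) = ε * (1 / (lev t (n + 1) - p.2.im) ^ 2) := by
        rw [indicator_of_mem (show p.1 ∈ {z : ℂ | lev t (n + 1) < z.im} from ha), one_mul]
        unfold farK
        rw [indicator_of_mem (show p.2 ∈ {z : ℂ | z.im ≤ lev t n} from hc)]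
      linarith
    · have e1 : 2 ^ (n + 1) / t * ({z : ℂ | lev t (n + 1) < z.im}.indicator
          (fun _ => (1 : ℝ)) p.1 *
          {z : ℂ | lev t n < z.im}.indicator (fun _ => (1 : ℝ)) p.2) = 2 ^ (n + 1) / t := by
        rw [indicator_of_mem (show p.1 ∈ {z : ℂ | lev t (n + 1) < z.im} from ha),
          indicator_of_mem (show p.2 ∈ {z : ℂ | lev t n < z.im} from hc)]
        ring
      linarith

theorem mass_step [IsFiniteMeasure R] (hRP : RProp k R) (hk : 0 < k) (ht : 0 < t) (hε : 0 ≤ ε)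
    (hae : ∀ᵐ z ∂(R), 0 ≤ z.re ∧ z.re ≤ ε) (n : ℕ) :
    k * mass R t (n + 2) ≤ mass R t (n + 1) * (2 ^ (n + 1) / t * mass R t n + ε * far R t n) := by
  have hlt := lev_lt t ht n
  have hlt' := lev_lt t ht (n + 1)
  have h1 := hRP (cut (lev t (n + 1)) (lev t (n + 2))) 1 (1 / (lev t (n + 2) - lev t (n + 1)))
    (cut_nonneg _ _) (cut_le_one _ _) (abs_cut_sub_le hlt')
    (cut_of_le hlt' (neg_one_lt_lev ht _).le)
  have hcutc : Continuous (cut (lev t (n + 1)) (lev t (n + 2))) := by
    unfold cut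
    fun_prop
  -- the left side
  have h2 : mass R t (n + 2) ≤ ∫ z : ℂ, cut (lev t (n + 1)) (lev t (n + 2)) z.im ∂(R) := by
    unfold mass
    have h3 : ∫ z, {z : ℂ | lev t (n + 2) < z.im}.indicator (fun _ => (1 : ℝ)) z ∂(R) =
        R.real {z : ℂ | lev t (n + 2) < z.im} := by
      rw [integral_indicator (measurableSet_above _), setIntegral_const, smul_eq_mul, mul_one]
    rw [← h3]
    apply integral_mono ((integrable_const _).indicator (measurableSet_above _))
    · refine (integrable_const (1 : ℝ)).mono' ?_ (ae_of_all _ fun z => ?_)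
      · have := hcutc.measurable
        exact (by fun_prop : Measurable fun z : ℂ =>
          cut (lev t (n + 1)) (lev t (n + 2)) z.im).aestronglyMeasurable
      · rw [Real.norm_of_nonneg (cut_nonneg _ _ _)]
        exact cut_le_one _ _ _
    · intro z
      simp only
      by_cases hz : z ∈ {z : ℂ | lev t (n + 2) < z.im}
      · rw [indicator_of_mem hz, cut_of_ge hlt' (le_of_lt hz)]
      · rw [indicator_of_notMem hz]
        exact cut_nonneg _ _ _
  -- the right side
  set u : ℂ → ℝ := {z : ℂ | lev t (n + 1) < z.im}.indicator (fun _ => (1 : ℝ)) with hu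
  set v : ℂ → ℝ := {z : ℂ | lev t n < z.im}.indicator (fun _ => (1 : ℝ)) with hv
  have hui : Integrable u R := (integrable_const _).indicator (measurableSet_above _)
  have hvi : Integrable v R := (integrable_const _).indicator (measurableSet_above _)
  have hfi := integrable_farK (R := R) ht n
  have huint : ∫ z, u z ∂(R) = mass R t (n + 1) := by
    rw [hu, integral_indicator (measurableSet_above _), setIntegral_const, smul_eq_mul, mul_one]
    rfl
  have hvint : ∫ z, v z ∂(R) = mass R t n := by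
    rw [hv, integral_indicator (measurableSet_above _), setIntegral_const, smul_eq_mul, mul_one]
    rfl
  have i1 : Integrable (fun p : ℂ × ℂ => 2 ^ (n + 1) / t * (u p.1 * v p.2)) (R.prod R) :=
    (hui.mul_prod hvi).const_mul _
  have i2 : Integrable (fun p : ℂ × ℂ => 2 ^ (n + 1) / t * (v p.1 * u p.2)) (R.prod R) :=
    (hvi.mul_prod hui).const_mul _
  have i3 : Integrable (fun p : ℂ × ℂ => ε * (u p.1 * farK t n p.2)) (R.prod R) :=
    (hui.mul_prod hfi).const_mul _
  have i4 : Integrable (fun p : ℂ × ℂ => ε * (farK t n p.1 * u p.2)) (R.prod R) :=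
    (hfi.mul_prod hui).const_mul _
  have i12 : Integrable (fun p : ℂ × ℂ => 2 ^ (n + 1) / t * (u p.1 * v p.2) +
      2 ^ (n + 1) / t * (v p.1 * u p.2)) (R.prod R) := i1.add i2
  have i123 : Integrable (fun p : ℂ × ℂ => 2 ^ (n + 1) / t * (u p.1 * v p.2) +
      2 ^ (n + 1) / t * (v p.1 * u p.2) + ε * (u p.1 * farK t n p.2)) (R.prod R) := i12.add i3
  have h3 : ∫ p : ℂ × ℂ, |cut (lev t (n + 1)) (lev t (n + 2)) p.1.im -
      cut (lev t (n + 1)) (lev t (n + 2)) p.2.im| * qk p ∂(R.prod R) ≤
      ∫ p : ℂ × ℂ, (2 ^ (n + 1) / t * (u p.1 * v p.2) + 2 ^ (n + 1) / t * (v p.1 * u p.2) +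
        ε * (u p.1 * farK t n p.2) + ε * (farK t n p.1 * u p.2)) ∂(R.prod R) := by
    apply integral_mono_ae (integrable_test (abs_cut_sub_le hlt') _) (i123.add i4)
    have a1 := (Measure.quasiMeasurePreserving_fst (μ := R) (ν := R)).ae hae
    have a2 := (Measure.quasiMeasurePreserving_snd (μ := R) (ν := R)).ae hae
    filter_upwards [a1, a2] with p b1 b2
    exact test_kernel_le ht hε n b1 b2
  rw [integral_add i123 i4, integral_add i12 i3, integral_add i1 i2,
    integral_const_mul, integral_const_mul, integral_const_mul, integral_const_mul,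
    integral_prod_mul, integral_prod_mul, integral_prod_mul, integral_prod_mul,
    huint, hvint] at h3
  have h4 : ∫ z, farK t n z ∂(R) = far R t n := rfl
  rw [h4] at h3
  have h5 : 2 * k * mass R t (n + 2) ≤
      2 * k * ∫ z : ℂ, cut (lev t (n + 1)) (lev t (n + 2)) z.im ∂(R) := by gcongr
  nlinarith

theorem mass_nonneg (R : Measure ℂ) (t : ℝ) (n : ℕ) : 0 ≤ mass R t n := by
  unfold mass
  positivity

/-- The De Giorgi iteration. -/
theorem degiorgi [IsFiniteMeasure R] (hRP : RProp k R) (hk : 0 < k) (ht : 0 < t) (hε : 0 ≤ ε)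
    (hR : R.real univ ≤ 1) (hae : ∀ᵐ z ∂(R), 0 ≤ z.re ∧ z.re ≤ ε) (hδ0 : 0 ≤ δ) (hδ1 : δ ≤ 1)
    (hsmall : 2 * δ / t + 26 * ε / t ^ 2 ≤ k / 16) (hbase : mass R t 0 ≤ δ / 16) :
    R {z : ℂ | -1 + 2 * t < z.im} = 0 := by
  have key : ∀ n : ℕ, mass R t n ≤ δ / 16 ^ n ∧ mass R t (n + 1) ≤ δ / 16 ^ (n + 1) ∧
      far R t n ≤ (26 - 22 / 4 ^ n) / t ^ 2 := by
    intro n
    induction n with
    | zero =>
      refine ⟨?_, ?_, ?_⟩
      · rw [pow_zero, div_one]
        linarith
      · rw [zero_add, pow_one]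
        refine le_trans ?_ hbase
        unfold mass
        apply measureReal_mono _ (measure_ne_top _ _)
        intro z hz
        exact lt_trans (lev_lt t ht 0) hz
      · have := far_zero_le hR ht
        norm_num
        exact this
    | succ n ih =>
      obtain ⟨ih1, ih2, ih3⟩ := ih
      have hm0 := mass_nonneg R t n
      have hm1 := mass_nonneg R t (n + 1)
      refine ⟨ih2, ?_, ?_⟩
      · have h1 := mass_step hRP hk ht hε hae n
        have h2 : 2 ^ (n + 1) / t * mass R t n ≤ 2 * δ / t := by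
          calc 2 ^ (n + 1) / t * mass R t n ≤ 2 ^ (n + 1) / t * (δ / 16 ^ n) := by gcongr
            _ = (2 * δ / t) * (2 ^ n / 16 ^ n) := by
                rw [pow_succ]
                ring
            _ ≤ (2 * δ / t) * 1 := by
                gcongr
                rw [div_le_one (by positivity)]
                gcongr
                norm_num
            _ = _ := mul_one _
        have h3 : ε * far R t n ≤ 26 * ε / t ^ 2 := by
          calc ε * far R t n ≤ ε * ((26 - 22 / 4 ^ n) / t ^ 2) := by gcongr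
            _ ≤ ε * (26 / t ^ 2) := by
                gcongr
                have : (0 : ℝ) ≤ 22 / 4 ^ n := by positivity
                linarith
            _ = _ := by ring
        have h4 : k * mass R t (n + 2) ≤ mass R t (n + 1) * (k / 16) := by
          refine h1.trans ?_
          gcongr
          linarith
        have h5 : mass R t (n + 2) ≤ mass R t (n + 1) / 16 := by
          have : k * mass R t (n + 2) ≤ k * (mass R t (n + 1) / 16) := by linarith
          exact le_of_mul_le_mul_left this hk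
        calc mass R t (n + 1 + 1) ≤ mass R t (n + 1) / 16 := h5
          _ ≤ (δ / 16 ^ (n + 1)) / 16 := by gcongr
          _ = δ / 16 ^ (n + 1 + 1) := by rw [pow_succ _ (n + 1)]; field_simp
      · have h1 := far_succ_le (R := R) ht n
        have h2 : 4 ^ (n + 2) / t ^ 2 * mass R t n ≤ 16 * (1 / 4 ^ n) / t ^ 2 := by
          calc 4 ^ (n + 2) / t ^ 2 * mass R t n ≤ 4 ^ (n + 2) / t ^ 2 * (δ / 16 ^ n) := by gcongr
            _ ≤ 4 ^ (n + 2) / t ^ 2 * (1 / 16 ^ n) := by gcongr
            _ = 16 * (4 ^ n / 16 ^ n) / t ^ 2 := by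
                rw [pow_add]
                ring
            _ = 16 * (1 / 4 ^ n) / t ^ 2 := by
                congr 2
                rw [show (16 : ℝ) = 4 * 4 by norm_num, mul_pow]
                field_simp
        calc far R t (n + 1) ≤ far R t n + 4 ^ (n + 2) / t ^ 2 * mass R t n := h1
          _ ≤ (26 - 22 / 4 ^ n) / t ^ 2 + 16 * (1 / 4 ^ n) / t ^ 2 := add_le_add ih3 h2
          _ = (26 - 6 * (1 / 4 ^ n)) / t ^ 2 := by ring
          _ ≤ (26 - 22 / 4 ^ (n + 1)) / t ^ 2 := by
              gcongr ?_ / t ^ 2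
              have : (22 : ℝ) / 4 ^ (n + 1) = 5.5 * (1 / 4 ^ n) := by
                rw [pow_succ]
                field_simp
                norm_num
              rw [this]
              have : (0 : ℝ) ≤ 1 / 4 ^ n := by positivity
              linarith
  have h1 : ∀ n : ℕ, R.real {z : ℂ | -1 + 2 * t < z.im} ≤ (1 / 16) ^ n := by
    intro n
    calc R.real {z : ℂ | -1 + 2 * t < z.im} ≤ mass R t n := by
          unfold mass
          apply measureReal_mono _ (measure_ne_top _ _)
          intro z hz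
          exact lt_trans (lev_lt_top ht n) hz
      _ ≤ δ / 16 ^ n := (key n).1
      _ ≤ 1 / 16 ^ n := by gcongr
      _ = (1 / 16) ^ n := by rw [one_div_pow]
  have h2 : R.real {z : ℂ | -1 + 2 * t < z.im} ≤ 0 := by
    apply ge_of_tendsto' (tendsto_pow_atTop_nhds_zero_of_lt_one (by norm_num) (by norm_num)) h1
  have h3 : R.real {z : ℂ | -1 + 2 * t < z.im} = 0 := le_antisymm h2 (by positivity)
  exact (measureReal_eq_zero_iff (measure_ne_top _ _)).1 h3

end

end Pool.Agent.Helper25.SCurve
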