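import Mathlib

/-!
# Definitions: weighted logarithmic energy in a piecewise linear field, S-property, max-min problem
-/

namespace Pool.Agent.Helper25.SCurve

open MeasureTheory Set Filter Topology
open scoped ENNReal

/-- The external field: `φ(z) = -k₁ Re z` for `Re z > 0` and `φ(z) = k₂ Re z` for `Re z ≤ 0`. -/
noncomputable def phi (k₁ k₂ : ℝ) (z : ℂ) : ℝ :=
  if 0 < z.re then -k₁ * z.re else k₂ * z.re

/-- The kernel `log (1 / |z - t|)`, with the value `+∞` for `z = t`. -/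
noncomputable def logKernel (z t : ℂ) : EReal :=
  if z = t then ⊤ else ((Real.log (1 / ‖z - t‖) : ℝ) : EReal)

/-- The integral `∫ f⁺ dμ - ∫ f⁻ dμ` of an extended real function. -/
noncomputable def eintegral {α : Type*} [MeasurableSpace α] (f : α → EReal) (μ : Measure α) :
    EReal :=
  ((∫⁻ a, (f a).toENNReal ∂μ : ℝ≥0∞) : EReal) - ((∫⁻ a, (-(f a)).toENNReal ∂μ : ℝ≥0∞) : EReal)

/-- The weighted energy `E_φ(μ) = ∬ log (1 / |z - t|) dμ(z) dμ(t) + 2 ∫ φ dμ`. -/
noncomputable def energy (k₁ k₂ : ℝ) (μ : Measure ℂ) : EReal :=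
  eintegral (fun p : ℂ × ℂ => logKernel p.1 p.2) (μ.prod μ) +
    ((2 * ∫ z, phi k₁ k₂ z ∂μ : ℝ) : EReal)

/-- `Γ` belongs to the class `𝒯`: it is a continuum (a compact connected set) containing the points
`z₁ = -ε₁ + i` and `z₂ = ε₂ - i`. -/
structure IsJoining (ε₁ ε₂ : ℝ) (Γ : Set ℂ) : Prop where
  isCompact : IsCompact Γ
  isConnected : IsConnected Γ
  left_mem : (-(ε₁ : ℂ) + Complex.I) ∈ Γ
  right_mem : ((ε₂ : ℂ) - Complex.I) ∈ Γ

/-- `μ` is a probability measure supported on `Γ`. -/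
structure IsProbOn (Γ : Set ℂ) (μ : Measure ℂ) : Prop where
  isProb : IsProbabilityMeasure μ
  compl : μ Γᶜ = 0

/-- `μ` is the equilibrium measure of `Γ`: the unique minimiser of `E_φ` over the probability
measures supported on `Γ`. -/
structure IsEquilibrium (k₁ k₂ : ℝ) (Γ : Set ℂ) (μ : Measure ℂ) : Prop where
  mem : IsProbOn Γ μ
  lt : ∀ ν, IsProbOn Γ ν → ν ≠ μ → energy k₁ k₂ μ < energy k₁ k₂ ν

/-- The function `W = U^μ + φ`, where `U^μ(z) = ∫ log (1 / |z - t|) dμ(t)`. -/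
noncomputable def totalPotential (k₁ k₂ : ℝ) (μ : Measure ℂ) (z : ℂ) : EReal :=
  eintegral (logKernel z) μ + ((phi k₁ k₂ z : ℝ) : EReal)

/-- Near the point `z` the set `S` is an analytic arc with tangent vector `τ` at `z`: the
intersection of `S` with some neighbourhood of `z` is the image of the interval `(-1, 1)` under an
injective real analytic map `γ` with nonvanishing derivative, `γ 0 = z` and `γ' 0 = τ`. -/
def IsAnalyticArcAt (S : Set ℂ) (z τ : ℂ) : Prop :=
  ∃ γ : ℝ → ℂ, AnalyticOnNhd ℝ γ (Ioo (-1) 1) ∧ InjOn γ (Ioo (-1) 1) ∧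
    (∀ s ∈ Ioo (-1 : ℝ) 1, deriv γ s ≠ 0) ∧ γ 0 = z ∧ deriv γ 0 = τ ∧
    ∃ V ∈ 𝓝 z, S ∩ V = γ '' Ioo (-1) 1

/-- `D` is the one-sided derivative at `z` of the function `F` in the direction `n`: near `0` on
`[0, ∞)` the values `F (z + s n)` are the real numbers `w s`, and `w` has right derivative `D` at
`0`. -/
def HasOneSidedDeriv (F : ℂ → EReal) (z n : ℂ) (D : ℝ) : Prop :=
  ∃ w : ℝ → ℝ, (∀ᶠ s : ℝ in 𝓝[≥] (0 : ℝ), F (z + s * n) = ((w s : ℝ) : EReal)) ∧
    HasDerivWithinAt w D (Ici 0) 0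

/-- The continuum `Γ` has the S-property in the field `φ`: it has an equilibrium measure `μ`, and
at every point `z` of `supp μ` outside a finite set the support is locally an analytic arc and the
two one-sided normal derivatives of `W = U^μ + φ` exist and agree. -/
def HasSProperty (k₁ k₂ : ℝ) (Γ : Set ℂ) : Prop :=
  ∃ μ : Measure ℂ, IsEquilibrium k₁ k₂ Γ μ ∧ ∃ A : Set ℂ, A.Finite ∧
    ∀ z ∈ μ.support \ A, ∃ τ : ℂ, IsAnalyticArcAt μ.support z τ ∧ ∃ D : ℝ,
      HasOneSidedDeriv (totalPotential k₁ k₂ μ) z (Complex.I * τ / ‖τ‖) D ∧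
      HasOneSidedDeriv (totalPotential k₁ k₂ μ) z (-(Complex.I * τ / ‖τ‖)) D

end Pool.Agent.Helper25.SCurve
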