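import Pool.Agent.Helper25.SCurve.MP

/-!
# One-sided normal derivatives of the potential of the Marchenko-Pastur measure
-/

namespace Pool.Agent.Helper25.SCurve

open MeasureTheory Set Filter Topology
open scoped ENNReal

theorem norm_seg_add {a R : ℝ} (θ ψ s : ℝ) :
    ‖seg a R θ + s * Complex.I - seg a R ψ‖ =
      Real.sqrt ((a * (Real.cos θ - Real.cos ψ)) ^ 2 + s ^ 2) := by
  have : seg a R θ + s * Complex.I - seg a R ψ =
      ((a * (Real.cos θ - Real.cos ψ) : ℝ) : ℂ) + (s : ℝ) * Complex.I := by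
    apply Complex.ext
    · simp only [seg, Complex.sub_re, Complex.add_re, Complex.ofReal_re, Complex.mul_re,
        Complex.ofReal_im, Complex.I_re, Complex.I_im]
      ring
    · simp only [seg, Complex.sub_im, Complex.add_im, Complex.ofReal_re, Complex.mul_im,
        Complex.ofReal_im, Complex.I_re, Complex.I_im]
      ring
  rw [this, Complex.norm_add_mul_I]

theorem norm_seg_sub {a R : ℝ} (θ ψ s : ℝ) :
    ‖seg a R θ + s * -Complex.I - seg a R ψ‖ =
      Real.sqrt ((a * (Real.cos θ - Real.cos ψ)) ^ 2 + s ^ 2) := by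
  have : seg a R θ + s * -Complex.I - seg a R ψ =
      seg a R θ + ((-s : ℝ) : ℂ) * Complex.I - seg a R ψ := by
    push_cast
    ring
  rw [this, norm_seg_add, neg_sq]

theorem intervalIntegrable_log_sqrt {a : ℝ} (ha : 0 < a) (θ s : ℝ) :
    IntervalIntegrable (fun ψ => Real.log (Real.sqrt ((a * (Real.cos θ - Real.cos ψ)) ^ 2 + s ^ 2)) *
      (1 + Real.cos ψ)) volume 0 Real.pi := by
  rcases eq_or_ne s 0 with rfl | hs
  · have := intervalIntegrable_seg (R := 0) ha θ
    refine this.congr_ae ?_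
    apply ae_of_all
    intro ψ
    simp only
    rw [norm_seg_sub_seg ha]
    congr 2
    rw [zero_pow two_ne_zero, add_zero, Real.sqrt_sq_eq_abs, abs_mul, abs_of_pos ha]
  · apply Continuous.intervalIntegrable
    apply Continuous.mul _ (by fun_prop)
    apply Continuous.log (by fun_prop)
    intro ψ
    positivity

theorem pot_near {a R D : ℝ} (ha : 0 < a) (hD : 2 * a + 1 ≤ D) (θ : ℝ) {s : ℝ} (hs0 : 0 ≤ s)
    (hs1 : s ≤ 1) {z : ℂ} (hz : ∀ ψ, ‖z - seg a R ψ‖ =
      Real.sqrt ((a * (Real.cos θ - Real.cos ψ)) ^ 2 + s ^ 2)) :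
    ((pot D (mp a R) z : ℝ≥0∞) : EReal) - (Real.log D : EReal) =
      ((-((∫ ψ in (0 : ℝ)..Real.pi,
        Real.log (Real.sqrt ((a * (Real.cos θ - Real.cos ψ)) ^ 2 + s ^ 2)) * (1 + Real.cos ψ)) /
          Real.pi) : ℝ) : EReal) := by
  have hD0 : 0 < D := by linarith
  have hle : ∀ ψ, Real.sqrt ((a * (Real.cos θ - Real.cos ψ)) ^ 2 + s ^ 2) ≤ D := by
    intro ψ
    have h1 : |Real.cos θ - Real.cos ψ| ≤ 2 := by
      rw [abs_le]
      have := Real.neg_one_le_cos θ
      have := Real.neg_one_le_cos ψ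
      have := Real.cos_le_one θ
      have := Real.cos_le_one ψ
      constructor <;> linarith
    calc Real.sqrt ((a * (Real.cos θ - Real.cos ψ)) ^ 2 + s ^ 2)
        ≤ |a * (Real.cos θ - Real.cos ψ)| + |s| := by
          rw [Real.sqrt_le_left (by positivity), ← sq_abs (a * _), ← sq_abs s]
          have := abs_nonneg (a * (Real.cos θ - Real.cos ψ))
          have := abs_nonneg s
          nlinarith
      _ ≤ a * 2 + 1 := by
          rw [abs_mul, abs_of_pos ha, abs_of_nonneg hs0]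
          gcongr
      _ ≤ D := by linarith
  have hne : ∀ᵐ ψ : ℝ, z ≠ seg a R ψ := by
    have : ∀ᵐ x : ℝ, x ∉ {ψ : ℝ | Real.cos ψ = Real.cos θ} := (countable_cos_eq θ).ae_notMem _
    filter_upwards [this] with ψ hψ h
    have h1 := hz ψ
    rw [h, sub_self, norm_zero] at h1
    have hψ' : Real.cos ψ ≠ Real.cos θ := hψ
    have h2 : Real.cos θ - Real.cos ψ ≠ 0 := sub_ne_zero.2 hψ'.symm
    have h3 : 0 < (a * (Real.cos θ - Real.cos ψ)) ^ 2 + s ^ 2 := by positivity
    exact (Real.sqrt_pos.2 h3).ne h1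
  have hint := intervalIntegrable_log_sqrt ha θ s
  have hint' : IntervalIntegrable (fun ψ => Real.log ‖z - seg a R ψ‖ * (1 + Real.cos ψ))
      volume 0 Real.pi := by
    simp_rw [hz]
    exact hint
  rw [pot_mp hD0 hint' hne (fun ψ => by rw [hz]; exact hle ψ)]
  simp_rw [hz]
  set J := ∫ ψ in (0 : ℝ)..Real.pi,
    Real.log (Real.sqrt ((a * (Real.cos θ - Real.cos ψ)) ^ 2 + s ^ 2)) * (1 + Real.cos ψ) with hJ
  have hnonneg : 0 ≤ Real.log D - J / Real.pi := by
    have h1 : J ≤ ∫ ψ in (0 : ℝ)..Real.pi, Real.log D * (1 + Real.cos ψ) := by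
      apply intervalIntegral.integral_mono_ae Real.pi_pos.le hint
        (Continuous.intervalIntegrable (by fun_prop) _ _)
      filter_upwards [hne] with ψ hψ
      have h2 : 0 < ‖z - seg a R ψ‖ := norm_pos_iff.2 (sub_ne_zero.2 hψ)
      rw [hz] at h2
      exact mul_le_mul_of_nonneg_right (Real.log_le_log h2 (hle ψ)) (one_add_cos_nonneg ψ)
    rw [intervalIntegral.integral_const_mul] at h1
    have := integral_one_add_cos
    rw [intervalIntegral.integral_div, div_eq_one_iff_eq Real.pi_pos.ne'] at this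
    rw [this] at h1
    rw [sub_nonneg, div_le_iff₀ Real.pi_pos]
    exact h1
  rw [EReal.coe_ennreal_ofReal, max_eq_left hnonneg, ← EReal.coe_sub]
  congr 1
  ring

theorem hasDerivWithinAt_pot {a θ : ℝ} (ha : 0 < a) (hθ : θ ∈ Ioo 0 Real.pi) :
    ∃ L : ℝ, HasDerivWithinAt (fun s : ℝ => -((∫ ψ in (0 : ℝ)..Real.pi,
        Real.log (Real.sqrt ((a * (Real.cos θ - Real.cos ψ)) ^ 2 + s ^ 2)) * (1 + Real.cos ψ)) /
          Real.pi)) L (Ici 0) 0 := by
  obtain ⟨L, hL⟩ := tendsto_slope_log ha hθ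
  refine ⟨-(L / (2 * Real.pi)), ?_⟩
  rw [← hasDerivWithinAt_Ioi_iff_Ici, hasDerivWithinAt_iff_tendsto_slope' (by simp)]
  have h2 := (hL.div_const (2 * Real.pi)).neg
  refine h2.congr' ?_
  filter_upwards [self_mem_nhdsWithin] with s hs
  have hs' : (0 : ℝ) < s := hs
  have hpi := Real.pi_pos
  rw [slope_def_field, sub_zero]
  have hcount : ∀ᵐ x : ℝ, x ∉ {ψ : ℝ | Real.cos ψ = Real.cos θ} :=
    (countable_cos_eq θ).ae_notMem _
  have e : ∫ ψ in (0 : ℝ)..Real.pi,
      Real.log (1 + (s / (a * (Real.cos θ - Real.cos ψ))) ^ 2) * (1 + Real.cos ψ) =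
      2 * ((∫ ψ in (0 : ℝ)..Real.pi,
        Real.log (Real.sqrt ((a * (Real.cos θ - Real.cos ψ)) ^ 2 + s ^ 2)) * (1 + Real.cos ψ)) -
      ∫ ψ in (0 : ℝ)..Real.pi,
        Real.log (Real.sqrt ((a * (Real.cos θ - Real.cos ψ)) ^ 2 + (0 : ℝ) ^ 2)) *
          (1 + Real.cos ψ)) := by
    rw [← intervalIntegral.integral_sub (intervalIntegrable_log_sqrt ha θ s)
      (intervalIntegrable_log_sqrt ha θ 0), ← intervalIntegral.integral_const_mul]
    apply intervalIntegral.integral_congr_ae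
    filter_upwards [hcount] with ψ hψ _
    have hψ' : Real.cos ψ ≠ Real.cos θ := hψ
    have h3 : Real.cos θ - Real.cos ψ ≠ 0 := sub_ne_zero.2 hψ'.symm
    have h4 : a * (Real.cos θ - Real.cos ψ) ≠ 0 := mul_ne_zero ha.ne' h3
    rw [zero_pow two_ne_zero, add_zero, Real.log_sqrt (by positivity), Real.log_sqrt (by positivity)]
    have h5 : 1 + (s / (a * (Real.cos θ - Real.cos ψ))) ^ 2 =
        ((a * (Real.cos θ - Real.cos ψ)) ^ 2 + s ^ 2) / (a * (Real.cos θ - Real.cos ψ)) ^ 2 := by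
      rw [div_pow, eq_div_iff (by positivity), add_mul, one_mul,
        div_mul_cancel₀ _ (by positivity)]
    rw [h5, Real.log_div (by positivity) (by positivity)]
    ring
  rw [← intervalIntegral.integral_of_le hpi.le, e]
  field_simp
  ring

theorem phi_add_mul_I (k₁ k₂ : ℝ) (z : ℂ) (s : ℝ) :
    phi k₁ k₂ (z + s * Complex.I) = phi k₁ k₂ z := by
  unfold phi
  have : (z + s * Complex.I).re = z.re := by simp
  rw [this]

/-- The two one-sided normal derivatives exist and agree. -/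
theorem oneSided_mp {a R θ : ℝ} (k₁ k₂ : ℝ) (ha : 0 < a) (hθ : θ ∈ Ioo 0 Real.pi) :
    ∃ L : ℝ, HasOneSidedDeriv (totalPotential k₁ k₂ (mp a R)) (seg a R θ) Complex.I L ∧
      HasOneSidedDeriv (totalPotential k₁ k₂ (mp a R)) (seg a R θ) (-Complex.I) L := by
  obtain ⟨L, hL⟩ := hasDerivWithinAt_pot ha hθ
  have hprob : IsProbOn (seg a R '' Icc 0 Real.pi) (mp a R) :=
    ⟨isProbabilityMeasure_mp a R, mp_range a R⟩
  have hbound : ∀ s : ℝ, 0 ≤ s → s ≤ 1 → ∀ ψ : ℝ,
      Real.sqrt ((a * (Real.cos θ - Real.cos ψ)) ^ 2 + s ^ 2) ≤ 2 * a + 1 := by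
    intro s hs0 hs1 ψ
    have h1 : |Real.cos θ - Real.cos ψ| ≤ 2 := by
      rw [abs_le]
      have := Real.neg_one_le_cos θ
      have := Real.neg_one_le_cos ψ
      have := Real.cos_le_one θ
      have := Real.cos_le_one ψ
      constructor <;> linarith
    calc Real.sqrt ((a * (Real.cos θ - Real.cos ψ)) ^ 2 + s ^ 2)
        ≤ |a * (Real.cos θ - Real.cos ψ)| + |s| := by
          rw [Real.sqrt_le_left (by positivity), ← sq_abs (a * _), ← sq_abs s]
          have := abs_nonneg (a * (Real.cos θ - Real.cos ψ))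
          have := abs_nonneg s
          nlinarith
      _ ≤ a * 2 + 1 := by
          rw [abs_mul, abs_of_pos ha, abs_of_nonneg hs0]
          gcongr
      _ ≤ _ := by linarith
  have hev : ∀ᶠ s in 𝓝[≥] (0 : ℝ), s ∈ Icc (0 : ℝ) 1 := Icc_mem_nhdsGE (by norm_num)
  refine ⟨L, ⟨fun s => -((∫ ψ in (0 : ℝ)..Real.pi,
        Real.log (Real.sqrt ((a * (Real.cos θ - Real.cos ψ)) ^ 2 + s ^ 2)) * (1 + Real.cos ψ)) /
          Real.pi) + phi k₁ k₂ (seg a R θ), ?_, ?_⟩,
    ⟨fun s => -((∫ ψ in (0 : ℝ)..Real.pi,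
        Real.log (Real.sqrt ((a * (Real.cos θ - Real.cos ψ)) ^ 2 + s ^ 2)) * (1 + Real.cos ψ)) /
          Real.pi) + phi k₁ k₂ (seg a R θ), ?_, ?_⟩⟩
  · filter_upwards [hev] with s hs
    rw [totalPotential_eq (Γ := seg a R '' Icc 0 Real.pi) (D := 2 * a + 1) (by linarith) ?_ hprob,
      pot_near ha le_rfl θ hs.1 hs.2 (fun ψ => norm_seg_add θ ψ s), phi_add_mul_I, EReal.coe_add]
    rintro _ ⟨ψ, _, rfl⟩
    rw [norm_seg_add]
    exact hbound s hs.1 hs.2 ψ
  · exact hL.add_const _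
  · filter_upwards [hev] with s hs
    have hphi : phi k₁ k₂ (seg a R θ + s * -Complex.I) = phi k₁ k₂ (seg a R θ) := by
      have : seg a R θ + s * -Complex.I = seg a R θ + ((-s : ℝ) : ℂ) * Complex.I := by
        push_cast
        ring
      rw [this, phi_add_mul_I]
    rw [totalPotential_eq (Γ := seg a R '' Icc 0 Real.pi) (D := 2 * a + 1) (by linarith) ?_ hprob,
      pot_near ha le_rfl θ hs.1 hs.2 (fun ψ => norm_seg_sub θ ψ s), hphi, EReal.coe_add]
    rintro _ ⟨ψ, _, rfl⟩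
    rw [norm_seg_sub]
    exact hbound s hs.1 hs.2 ψ
  · exact hL.add_const _

end Pool.Agent.Helper25.SCurve
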