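import Mathlib

/-!
# The logarithm as a mixture of Gaussians
-/

namespace Pool.Agent.Helper25.SCurve

open MeasureTheory Set Filter Topology
open scoped ENNReal

theorem exp_diff_eq {t α β : ℝ} (ht : 0 < t) (hαβ : α ≤ β) :
    ENNReal.ofReal ((Real.exp (-(t * α)) - Real.exp (-(t * β))) / (2 * t)) =
      ∫⁻ s in Ioc α β, ENNReal.ofReal (Real.exp (-(t * s)) / 2) := by
  have h1 : ∫ s in α..β, Real.exp (-(t * s)) / 2 =
      (Real.exp (-(t * α)) - Real.exp (-(t * β))) / (2 * t) := by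
    have hd : ∀ s ∈ uIcc α β, HasDerivAt (fun s => -Real.exp (-(t * s)) / (2 * t))
        (Real.exp (-(t * s)) / 2) s := by
      intro s _
      have := (((hasDerivAt_id s).const_mul t).neg.exp.neg.div_const (2 * t))
      refine this.congr_deriv ?_
      simp only [id, mul_one, Pi.neg_apply]
      field_simp
    rw [intervalIntegral.integral_eq_sub_of_hasDerivAt hd
      ((Continuous.intervalIntegrable (by fun_prop) _ _))]
    ring
  rw [← h1, intervalIntegral.integral_of_le hαβ, ofReal_integral_eq_lintegral_ofReal]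
  · exact ((Continuous.intervalIntegrable (by fun_prop) α β).1)
  · exact ae_of_all _ fun s => by positivity

theorem lintegral_exp_eq {s : ℝ} (hs : 0 < s) :
    ∫⁻ t in Ioi (0 : ℝ), ENNReal.ofReal (Real.exp (-(t * s)) / 2) =
      ENNReal.ofReal (1 / (2 * s)) := by
  have h1 := integral_exp_mul_Ioi (a := -s) (by linarith) 0
  have h2 : ∫ t in Ioi (0 : ℝ), Real.exp (-(t * s)) / 2 = 1 / (2 * s) := by
    rw [integral_div]
    have : ∀ t : ℝ, -(t * s) = -s * t := fun t => by ring
    simp_rw [this, h1]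
    simp
    field_simp
  rw [← h2, ofReal_integral_eq_lintegral_ofReal]
  · have := (integrableOn_exp_mul_Ioi (a := -s) (by linarith) 0).div_const 2
    refine this.congr (ae_of_all _ fun t => ?_)
    simp only [neg_mul, mul_comm s t]
  · exact ae_of_all _ fun s => by positivity

/-- `log (D / r) = ½ ∫ (exp (-t r²) - exp (-t D²)) dt / t`. -/
theorem frullani {r D : ℝ} (hr : 0 < r) (hrD : r ≤ D) :
    ∫⁻ t in Ioi (0 : ℝ),
      ENNReal.ofReal ((Real.exp (-(t * r ^ 2)) - Real.exp (-(t * D ^ 2))) / (2 * t)) =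
      ENNReal.ofReal (Real.log (D / r)) := by
  have hD : 0 < D := hr.trans_le hrD
  have hαβ : r ^ 2 ≤ D ^ 2 := by gcongr
  have h1 : ∫⁻ t in Ioi (0 : ℝ),
      ENNReal.ofReal ((Real.exp (-(t * r ^ 2)) - Real.exp (-(t * D ^ 2))) / (2 * t)) =
      ∫⁻ t in Ioi (0 : ℝ), ∫⁻ s in Ioc (r ^ 2) (D ^ 2), ENNReal.ofReal (Real.exp (-(t * s)) / 2) := by
    apply setLIntegral_congr_fun measurableSet_Ioi
    intro t ht
    exact exp_diff_eq ht hαβ
  rw [h1, lintegral_lintegral_swap (by fun_prop)]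
  have h2 : ∫⁻ s in Ioc (r ^ 2) (D ^ 2), ∫⁻ t in Ioi (0 : ℝ),
      ENNReal.ofReal (Real.exp (-(t * s)) / 2) =
      ∫⁻ s in Ioc (r ^ 2) (D ^ 2), ENNReal.ofReal (1 / (2 * s)) := by
    apply setLIntegral_congr_fun measurableSet_Ioc
    intro s hs
    exact lintegral_exp_eq (lt_trans (by positivity) hs.1)
  have hr2 : 0 < r ^ 2 := by positivity
  have hii : IntervalIntegrable (fun s : ℝ => 1 / (2 * s)) volume (r ^ 2) (D ^ 2) := by
    apply ContinuousOn.intervalIntegrable
    rw [uIcc_of_le hαβ]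
    apply ContinuousOn.div continuousOn_const (by fun_prop)
    intro s hs
    have : 0 < s := lt_of_lt_of_le hr2 hs.1
    positivity
  rw [h2, ← ofReal_integral_eq_lintegral_ofReal hii.1]
  · rw [← intervalIntegral.integral_of_le hαβ]
    have : ∫ s in (r ^ 2)..(D ^ 2), 1 / (2 * s) = Real.log (D / r) := by
      have h3 : ∀ s : ℝ, 1 / (2 * s) = (1 / 2) * s⁻¹ := fun s => by
        rw [one_div, mul_inv]; ring
      simp_rw [h3]
      rw [intervalIntegral.integral_const_mul, integral_inv_of_pos hr2 (by positivity),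
        ← div_pow, Real.log_pow]
      push_cast
      ring
    rw [this]
  · filter_upwards [ae_restrict_mem measurableSet_Ioc] with s hs
    have : 0 < s := lt_trans hr2 hs.1
    positivity

theorem frullani_zero {D : ℝ} (hD : 0 < D) :
    ∫⁻ t in Ioi (0 : ℝ),
      ENNReal.ofReal ((Real.exp (-(t * (0 : ℝ) ^ 2)) - Real.exp (-(t * D ^ 2))) / (2 * t)) = ⊤ := by
  have h : ∀ r : ℝ, 0 < r → r ≤ D → ENNReal.ofReal (Real.log (D / r)) ≤ ∫⁻ t in Ioi (0 : ℝ),
      ENNReal.ofReal ((Real.exp (-(t * (0 : ℝ) ^ 2)) - Real.exp (-(t * D ^ 2))) / (2 * t)) := by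
    intro r hr hrD
    rw [← frullani hr hrD]
    apply setLIntegral_mono' measurableSet_Ioi
    intro t ht
    have ht' : (0 : ℝ) < t := ht
    apply ENNReal.ofReal_le_ofReal
    gcongr
  rw [eq_top_iff]
  refine ENNReal.le_of_forall_nnreal_lt fun x _ => ?_
  have hx := h (D * Real.exp (-(x : ℝ))) (by positivity) (by
    have : Real.exp (-(x : ℝ)) ≤ 1 := Real.exp_le_one_iff.2 (by simp)
    nlinarith)
  have e : Real.log (D / (D * Real.exp (-(x : ℝ)))) = x := by
    rw [div_mul_cancel_left₀ hD.ne', ← Real.exp_neg, Real.log_exp, neg_neg]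
  rw [e, ENNReal.ofReal_coe_nnreal] at hx
  exact hx

end Pool.Agent.Helper25.SCurve
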