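import Mathlib

/-!
# Gaussian kernels are positive definite
-/

namespace Pool.Agent.Helper25.SCurve

open MeasureTheory Complex Filter Topology
open scoped ENNReal RealInnerProductSpace ComplexConjugate

/-- The mutual Gaussian energy of two measures. -/
noncomputable def gaussE (t : ℝ) (μ ν : Measure ℂ) : ℝ :=
  ∫ p : ℂ × ℂ, Real.exp (-(t * ‖p.1 - p.2‖ ^ 2)) ∂(μ.prod ν)

theorem gauss_kernel {b : ℝ} (hb : 0 < b) (z w : ℂ) :
    ∫ ξ : ℂ, cexp (-(b : ℂ) * ‖ξ‖ ^ 2) * (cexp ((⟪z, ξ⟫ : ℝ) * I) * conj (cexp ((⟪w, ξ⟫ : ℝ) * I)))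
      = ((Real.pi / b * Real.exp (-(1 / (4 * b) * ‖z - w‖ ^ 2)) : ℝ) : ℂ) := by
  have h := GaussianFourier.integral_cexp_neg_mul_sq_norm_add (V := ℂ) (b := (b : ℂ))
    (by simpa using hb) I (z - w)
  have e1 : ∀ ξ : ℂ, cexp (-(b : ℂ) * ‖ξ‖ ^ 2) *
      (cexp ((⟪z, ξ⟫ : ℝ) * I) * conj (cexp ((⟪w, ξ⟫ : ℝ) * I)))
      = cexp (-(b : ℂ) * ‖ξ‖ ^ 2 + I * (⟪z - w, ξ⟫ : ℝ)) := by
    intro ξ
    rw [← Complex.exp_conj, ← Complex.exp_add, ← Complex.exp_add, inner_sub_left]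
    congr 1
    simp
    ring
  simp_rw [e1, h]
  rw [Complex.finrank_real_complex]
  push_cast
  have : ((2 : ℂ) / 2) = 1 := by norm_num
  rw [this, Complex.cpow_one]
  congr 2
  rw [Complex.I_sq]
  have hb' : (b : ℂ) ≠ 0 := by exact_mod_cast hb.ne'
  field_simp

theorem integrable_gauss_fourier {b : ℝ} (hb : 0 < b) (μ ν : Measure ℂ) [IsFiniteMeasure μ]
    [IsFiniteMeasure ν] :
    Integrable (fun q : ℂ × (ℂ × ℂ) => cexp (-(b : ℂ) * ‖q.1‖ ^ 2) *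
      (cexp ((⟪q.2.1, q.1⟫ : ℝ) * I) * conj (cexp ((⟪q.2.2, q.1⟫ : ℝ) * I))))
      ((volume : Measure ℂ).prod (μ.prod ν)) := by
  have h1 : Integrable (fun ξ : ℂ => cexp (-(b : ℂ) * ‖ξ‖ ^ 2)) := by
    have := GaussianFourier.integrable_cexp_neg_mul_sq_norm_add (V := ℂ) (b := (b : ℂ))
      (by simpa using hb) 0 0
    simpa using this
  have h2 : Integrable (fun q : ℂ × (ℂ × ℂ) => cexp (-(b : ℂ) * ‖q.1‖ ^ 2) * (1 : ℂ))
      ((volume : Measure ℂ).prod (μ.prod ν)) :=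
    h1.mul_prod (integrable_const (1 : ℂ))
  refine h2.mono (by fun_prop) (ae_of_all _ fun q => ?_)
  rw [norm_mul, norm_mul, norm_mul]
  simp [Complex.norm_exp]

theorem charFun_gauss {b : ℝ} (hb : 0 < b) (μ ν : Measure ℂ) [IsFiniteMeasure μ]
    [IsFiniteMeasure ν] :
    ∫ ξ : ℂ, cexp (-(b : ℂ) * ‖ξ‖ ^ 2) * (charFun μ ξ * conj (charFun ν ξ))
      = ((Real.pi / b * gaussE (1 / (4 * b)) μ ν : ℝ) : ℂ) := by
  have h := integral_integral_swap (μ := (volume : Measure ℂ)) (ν := μ.prod ν)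
    (f := fun (ξ : ℂ) (p : ℂ × ℂ) => cexp (-(b : ℂ) * ‖ξ‖ ^ 2) *
      (cexp ((⟪p.1, ξ⟫ : ℝ) * I) * conj (cexp ((⟪p.2, ξ⟫ : ℝ) * I))))
    (integrable_gauss_fourier hb μ ν)
  have e1 : ∀ ξ : ℂ, ∫ p : ℂ × ℂ, cexp (-(b : ℂ) * ‖ξ‖ ^ 2) *
      (cexp ((⟪p.1, ξ⟫ : ℝ) * I) * conj (cexp ((⟪p.2, ξ⟫ : ℝ) * I))) ∂(μ.prod ν)
      = cexp (-(b : ℂ) * ‖ξ‖ ^ 2) * (charFun μ ξ * conj (charFun ν ξ)) := by
    intro ξ
    rw [integral_const_mul,
      integral_prod_mul (fun z : ℂ => cexp ((⟪z, ξ⟫ : ℝ) * I))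
        (fun w : ℂ => conj (cexp ((⟪w, ξ⟫ : ℝ) * I)))]
    rw [integral_conj]
    rfl
  simp only [e1] at h
  rw [h]
  simp only [gauss_kernel hb]
  rw [integral_complex_ofReal, integral_const_mul]
  rfl

theorem charFun_gauss_sq {b : ℝ} (hb : 0 < b) (μ ν : Measure ℂ) [IsFiniteMeasure μ]
    [IsFiniteMeasure ν] :
    ∫ ξ : ℂ, Real.exp (-b * ‖ξ‖ ^ 2) * ‖charFun μ ξ - charFun ν ξ‖ ^ 2
      = Real.pi / b * (gaussE (1 / (4 * b)) μ μ + gaussE (1 / (4 * b)) ν ν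
        - gaussE (1 / (4 * b)) μ ν - gaussE (1 / (4 * b)) ν μ) := by
  have hint : ∀ (ρ σ : Measure ℂ) [IsFiniteMeasure ρ] [IsFiniteMeasure σ],
      Integrable (fun ξ : ℂ => cexp (-(b : ℂ) * ‖ξ‖ ^ 2) * (charFun ρ ξ * conj (charFun σ ξ))) := by
    intro ρ σ _ _
    have h1 : Integrable (fun ξ : ℂ => cexp (-(b : ℂ) * ‖ξ‖ ^ 2)) := by
      have := GaussianFourier.integrable_cexp_neg_mul_sq_norm_add (V := ℂ) (b := (b : ℂ))
        (by simpa using hb) 0 0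
      simpa using this
    refine (h1.bdd_mul (c := ρ.real Set.univ * σ.real Set.univ) (by fun_prop)
      (ae_of_all _ fun ξ => ?_)).congr (ae_of_all _ fun ξ => mul_comm _ _)
    rw [norm_mul, RCLike.norm_conj]
    exact mul_le_mul (norm_charFun_le _) (norm_charFun_le _) (norm_nonneg _) (by positivity)
  have e : ∀ ξ : ℂ, ((Real.exp (-b * ‖ξ‖ ^ 2) * ‖charFun μ ξ - charFun ν ξ‖ ^ 2 : ℝ) : ℂ)
      = cexp (-(b : ℂ) * ‖ξ‖ ^ 2) * (charFun μ ξ * conj (charFun μ ξ))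
        + cexp (-(b : ℂ) * ‖ξ‖ ^ 2) * (charFun ν ξ * conj (charFun ν ξ))
        - cexp (-(b : ℂ) * ‖ξ‖ ^ 2) * (charFun μ ξ * conj (charFun ν ξ))
        - cexp (-(b : ℂ) * ‖ξ‖ ^ 2) * (charFun ν ξ * conj (charFun μ ξ)) := by
    intro ξ
    have : ((‖charFun μ ξ - charFun ν ξ‖ ^ 2 : ℝ) : ℂ)
        = (charFun μ ξ - charFun ν ξ) * conj (charFun μ ξ - charFun ν ξ) := by
      rw [Complex.mul_conj, Complex.normSq_eq_norm_sq]
    rw [Complex.ofReal_mul, this, map_sub]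
    push_cast
    ring
  have h2 : ((∫ ξ : ℂ, Real.exp (-b * ‖ξ‖ ^ 2) * ‖charFun μ ξ - charFun ν ξ‖ ^ 2 : ℝ) : ℂ)
      = ((Real.pi / b * (gaussE (1 / (4 * b)) μ μ + gaussE (1 / (4 * b)) ν ν
        - gaussE (1 / (4 * b)) μ ν - gaussE (1 / (4 * b)) ν μ) : ℝ) : ℂ) := by
    rw [← integral_complex_ofReal]
    have : (fun ξ : ℂ => ((Real.exp (-b * ‖ξ‖ ^ 2) * ‖charFun μ ξ - charFun ν ξ‖ ^ 2 : ℝ) : ℂ))
      = fun ξ => cexp (-(b : ℂ) * ‖ξ‖ ^ 2) * (charFun μ ξ * conj (charFun μ ξ))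
        + cexp (-(b : ℂ) * ‖ξ‖ ^ 2) * (charFun ν ξ * conj (charFun ν ξ))
        - cexp (-(b : ℂ) * ‖ξ‖ ^ 2) * (charFun μ ξ * conj (charFun ν ξ))
        - cexp (-(b : ℂ) * ‖ξ‖ ^ 2) * (charFun ν ξ * conj (charFun μ ξ)) := funext e
    rw [show (∫ ξ : ℂ, ((Real.exp (-b * ‖ξ‖ ^ 2) * ‖charFun μ ξ - charFun ν ξ‖ ^ 2 : ℝ) : ℂ))
      = ∫ ξ : ℂ, (cexp (-(b : ℂ) * ‖ξ‖ ^ 2) * (charFun μ ξ * conj (charFun μ ξ))
        + cexp (-(b : ℂ) * ‖ξ‖ ^ 2) * (charFun ν ξ * conj (charFun ν ξ))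
        - cexp (-(b : ℂ) * ‖ξ‖ ^ 2) * (charFun μ ξ * conj (charFun ν ξ))
        - cexp (-(b : ℂ) * ‖ξ‖ ^ 2) * (charFun ν ξ * conj (charFun μ ξ))) from by
          rw [← this]]
    have i12 : Integrable (fun ξ : ℂ =>
        cexp (-(b : ℂ) * ‖ξ‖ ^ 2) * (charFun μ ξ * conj (charFun μ ξ))
        + cexp (-(b : ℂ) * ‖ξ‖ ^ 2) * (charFun ν ξ * conj (charFun ν ξ))) :=
      (hint μ μ).add (hint ν ν)
    have i123 : Integrable (fun ξ : ℂ =>
        cexp (-(b : ℂ) * ‖ξ‖ ^ 2) * (charFun μ ξ * conj (charFun μ ξ))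
        + cexp (-(b : ℂ) * ‖ξ‖ ^ 2) * (charFun ν ξ * conj (charFun ν ξ))
        - cexp (-(b : ℂ) * ‖ξ‖ ^ 2) * (charFun μ ξ * conj (charFun ν ξ))) :=
      i12.sub (hint μ ν)
    rw [integral_sub i123 (hint ν μ), integral_sub i12 (hint μ ν),
      integral_add (hint μ μ) (hint ν ν)]
    rw [charFun_gauss hb, charFun_gauss hb, charFun_gauss hb, charFun_gauss hb]
    push_cast
    ring
  exact_mod_cast h2

theorem gaussE_comm (t : ℝ) (μ ν : Measure ℂ) [IsFiniteMeasure μ] [IsFiniteMeasure ν] :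
    gaussE t μ ν = gaussE t ν μ := by
  unfold gaussE
  rw [← integral_prod_swap]
  simp only [Prod.fst_swap, Prod.snd_swap, norm_sub_rev]

/-- Positive definiteness of the Gaussian kernel. -/
theorem gaussE_pos (t : ℝ) (ht : 0 < t) (μ ν : Measure ℂ) [IsFiniteMeasure μ]
    [IsFiniteMeasure ν] : 2 * gaussE t μ ν ≤ gaussE t μ μ + gaussE t ν ν := by
  have hb : 0 < 1 / (4 * t) := by positivity
  have h := charFun_gauss_sq hb μ ν
  have e : 1 / (4 * (1 / (4 * t))) = t := by field_simp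
  rw [e, gaussE_comm t ν μ] at h
  have h0 : 0 ≤ ∫ ξ : ℂ, Real.exp (-(1 / (4 * t)) * ‖ξ‖ ^ 2) * ‖charFun μ ξ - charFun ν ξ‖ ^ 2 :=
    integral_nonneg fun ξ => by positivity
  rw [h] at h0
  have h1 : 0 ≤ gaussE t μ μ + gaussE t ν ν - gaussE t μ ν - gaussE t μ ν :=
    (mul_nonneg_iff_of_pos_left (by positivity)).1 h0
  linarith

/-- Strictness: equality in the Gaussian energy inequality forces equality of the measures. -/
theorem gaussE_eq (t : ℝ) (ht : 0 < t) (μ ν : Measure ℂ) [IsFiniteMeasure μ]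
    [IsFiniteMeasure ν] (h0 : gaussE t μ μ + gaussE t ν ν ≤ 2 * gaussE t μ ν) : μ = ν := by
  have hb : 0 < 1 / (4 * t) := by positivity
  have h := charFun_gauss_sq hb μ ν
  have e : 1 / (4 * (1 / (4 * t))) = t := by field_simp
  rw [e, gaussE_comm t ν μ] at h
  have h1 : ∫ ξ : ℂ, Real.exp (-(1 / (4 * t)) * ‖ξ‖ ^ 2) * ‖charFun μ ξ - charFun ν ξ‖ ^ 2 = 0 := by
    apply le_antisymm
    · rw [h]
      apply mul_nonpos_of_nonneg_of_nonpos (by positivity)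
      linarith
    · exact integral_nonneg fun ξ => by positivity
  have hcont : ∀ (ρ : Measure ℂ) [IsFiniteMeasure ρ], Continuous (charFun ρ) := by
    intro ρ _
    exact continuous_charFun
  have hint : Integrable (fun ξ : ℂ =>
      Real.exp (-(1 / (4 * t)) * ‖ξ‖ ^ 2) * ‖charFun μ ξ - charFun ν ξ‖ ^ 2) := by
    have h1 : Integrable (fun ξ : ℂ => cexp (-((1 / (4 * t) : ℝ) : ℂ) * ‖ξ‖ ^ 2)) := by
      have := GaussianFourier.integrable_cexp_neg_mul_sq_norm_add (V := ℂ)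
        (b := ((1 / (4 * t) : ℝ) : ℂ)) (by simpa using hb) 0 0
      simpa using this
    have h2 : Integrable (fun ξ : ℂ => Real.exp (-(1 / (4 * t)) * ‖ξ‖ ^ 2)) := by
      refine h1.norm.congr (ae_of_all _ fun ξ => ?_)
      simp only [Complex.norm_exp]
      congr 1
      have : (-((1 / (4 * t) : ℝ) : ℂ) * ‖ξ‖ ^ 2) = ((-(1 / (4 * t)) * ‖ξ‖ ^ 2 : ℝ) : ℂ) := by
        push_cast
        ring
      rw [this, Complex.ofReal_re]
    refine (h2.bdd_mul (c := (μ.real Set.univ + ν.real Set.univ) ^ 2)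
      ((((hcont μ).sub (hcont ν)).norm.pow 2).aestronglyMeasurable)
      (ae_of_all _ fun ξ => ?_)).congr (ae_of_all _ fun ξ => mul_comm _ _)
    change ‖‖charFun μ ξ - charFun ν ξ‖ ^ 2‖ ≤ _
    rw [norm_pow, norm_norm]
    gcongr
    exact (norm_sub_le _ _).trans (add_le_add (norm_charFun_le _) (norm_charFun_le _))
  rw [integral_eq_zero_iff_of_nonneg (fun ξ => by positivity) hint] at h1
  have h2 : (fun ξ : ℂ => charFun μ ξ) = fun ξ => charFun ν ξ := by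
    apply Continuous.ae_eq_iff_eq (μ := (volume : Measure ℂ)) (hcont μ) (hcont ν) |>.1
    filter_upwards [h1] with ξ hξ
    have : ‖charFun μ ξ - charFun ν ξ‖ ^ 2 = 0 := by
      have hp : Real.exp (-(1 / (4 * t)) * ‖ξ‖ ^ 2) ≠ 0 := (Real.exp_pos _).ne'
      simpa [hp] using hξ
    have := pow_eq_zero_iff (two_ne_zero) |>.1 this
    exact sub_eq_zero.1 (norm_eq_zero.1 this)
  exact Measure.ext_of_charFun h2

end Pool.Agent.Helper25.SCurve
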