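import Pool.Agent.Helper25.SCurve.Defs
import Pool.Agent.Helper25.SCurve.Gauss
import Pool.Agent.Helper25.SCurve.Frullani

/-!
# Logarithmic energy with a shifted nonnegative kernel; strict convexity of the energy
-/

namespace Pool.Agent.Helper25.SCurve

open MeasureTheory Set Filter Topology
open scoped ENNReal

/-- The kernel `log (D / |z - w|)` with values in `[0, ∞]`. -/
noncomputable def kap (D : ℝ) (z w : ℂ) : ℝ≥0∞ :=
  if z = w then ⊤ else ENNReal.ofReal (Real.log (D / ‖z - w‖))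

/-- The mutual energy for the kernel `kap D`. -/
noncomputable def ener (D : ℝ) (μ ν : Measure ℂ) : ℝ≥0∞ :=
  ∫⁻ z, ∫⁻ w, kap D z w ∂ν ∂μ

theorem kap_comm (D : ℝ) (z w : ℂ) : kap D z w = kap D w z := by
  unfold kap
  rw [norm_sub_rev]
  simp only [eq_comm]

@[fun_prop]
theorem measurable_kap (D : ℝ) : Measurable (fun p : ℂ × ℂ => kap D p.1 p.2) := by
  unfold kap
  refine Measurable.ite (measurableSet_eq_fun measurable_fst measurable_snd) measurable_const ?_
  fun_prop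

@[fun_prop]
theorem measurable_kap_left (D : ℝ) (z : ℂ) : Measurable (fun w : ℂ => kap D z w) :=
  (measurable_kap D).comp measurable_prodMk_left

theorem kap_eq_lintegral {D : ℝ} (hD : 0 < D) {z w : ℂ} (h : ‖z - w‖ ≤ D) :
    kap D z w = ∫⁻ t in Ioi (0 : ℝ),
      ENNReal.ofReal ((Real.exp (-(t * ‖z - w‖ ^ 2)) - Real.exp (-(t * D ^ 2))) / (2 * t)) := by
  unfold kap
  split_ifs with hzw
  · rw [hzw, sub_self, norm_zero, frullani_zero hD]
  · rw [frullani (norm_pos_iff.2 (sub_ne_zero.2 hzw)) h]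

theorem ener_eq_prod (D : ℝ) (μ ν : Measure ℂ) [SFinite μ] [SFinite ν] :
    ener D μ ν = ∫⁻ p : ℂ × ℂ, kap D p.1 p.2 ∂(μ.prod ν) := by
  rw [lintegral_prod _ (measurable_kap D).aemeasurable]
  rfl

theorem ener_comm (D : ℝ) (μ ν : Measure ℂ) [SFinite μ] [SFinite ν] :
    ener D μ ν = ener D ν μ := by
  unfold ener
  rw [lintegral_lintegral_swap (measurable_kap D).aemeasurable]
  simp only [kap_comm D]

theorem IsProbOn.prod_ae {Γ : Set ℂ} {μ ν : Measure ℂ} (hμ : IsProbOn Γ μ) (hν : IsProbOn Γ ν) :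
    ∀ᵐ p ∂(μ.prod ν), p.1 ∈ Γ ∧ p.2 ∈ Γ := by
  have := hμ.isProb
  have := hν.isProb
  have h1 : ∀ᵐ z ∂μ, z ∈ Γ := by
    rw [ae_iff]; exact hμ.compl
  have h2 : ∀ᵐ z ∂ν, z ∈ Γ := by
    rw [ae_iff]; exact hν.compl
  have h3 : ∀ᵐ p ∂(μ.prod ν), p.1 ∈ Γ := (Measure.quasiMeasurePreserving_fst).ae h1
  have h4 : ∀ᵐ p ∂(μ.prod ν), p.2 ∈ Γ := (Measure.quasiMeasurePreserving_snd).ae h2
  filter_upwards [h3, h4] with p a b using ⟨a, b⟩

section

variable {Γ : Set ℂ} {D : ℝ} {μ ν : Measure ℂ}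

theorem integrable_gauss_prod (t : ℝ) (ht : 0 < t) (μ ν : Measure ℂ) [IsFiniteMeasure μ]
    [IsFiniteMeasure ν] :
    Integrable (fun p : ℂ × ℂ => Real.exp (-(t * ‖p.1 - p.2‖ ^ 2))) (μ.prod ν) := by
  refine (integrable_const (1 : ℝ)).mono (by fun_prop) (ae_of_all _ fun p => ?_)
  rw [Real.norm_of_nonneg (Real.exp_nonneg _), norm_one]
  exact Real.exp_le_one_iff.2 (by simp only [Left.neg_nonpos_iff]; positivity)

theorem ener_eq_gauss (hD : 0 < D) (hΓ : ∀ z ∈ Γ, ∀ w ∈ Γ, ‖z - w‖ ≤ D)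
    (hμ : IsProbOn Γ μ) (hν : IsProbOn Γ ν) :
    ener D μ ν = ∫⁻ t : ℝ in Ioi (0 : ℝ),
      ENNReal.ofReal ((gaussE t μ ν - Real.exp (-(t * D ^ 2))) / (2 * t)) := by
  have := hμ.isProb
  have := hν.isProb
  have hae := hμ.prod_ae hν
  rw [ener_eq_prod]
  have h1 : ∫⁻ p : ℂ × ℂ, kap D p.1 p.2 ∂(μ.prod ν) = ∫⁻ p : ℂ × ℂ, (∫⁻ t : ℝ in Ioi (0 : ℝ),
      ENNReal.ofReal ((Real.exp (-(t * ‖p.1 - p.2‖ ^ 2)) - Real.exp (-(t * D ^ 2))) / (2 * t)))
      ∂(μ.prod ν) := by
    apply lintegral_congr_ae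
    filter_upwards [hae] with p hp
    exact kap_eq_lintegral hD (hΓ _ hp.1 _ hp.2)
  rw [h1, lintegral_lintegral_swap (by fun_prop)]
  apply setLIntegral_congr_fun measurableSet_Ioi
  intro t ht
  have ht' : (0 : ℝ) < t := ht
  change ∫⁻ p : ℂ × ℂ, ENNReal.ofReal
    ((Real.exp (-(t * ‖p.1 - p.2‖ ^ 2)) - Real.exp (-(t * D ^ 2))) / (2 * t)) ∂(μ.prod ν) = _
  have hint := integrable_gauss_prod t ht' μ ν
  rw [← ofReal_integral_eq_lintegral_ofReal]
  · congr 1
    rw [integral_div, integral_sub hint (integrable_const _)]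
    simp [gaussE]
  · exact (hint.sub (integrable_const _)).div_const _
  · filter_upwards [hae] with p hp
    have h := hΓ _ hp.1 _ hp.2
    apply div_nonneg _ (by positivity)
    rw [sub_nonneg]
    gcongr

theorem gaussE_ge (hΓ : ∀ z ∈ Γ, ∀ w ∈ Γ, ‖z - w‖ ≤ D)
    (hμ : IsProbOn Γ μ) (hν : IsProbOn Γ ν) {t : ℝ} (ht : 0 < t) :
    Real.exp (-(t * D ^ 2)) ≤ gaussE t μ ν := by
  have := hμ.isProb
  have := hν.isProb
  have h : ∫ p : ℂ × ℂ, Real.exp (-(t * D ^ 2)) ∂(μ.prod ν) ≤ gaussE t μ ν := by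
    apply integral_mono_ae (integrable_const _) (integrable_gauss_prod t ht μ ν)
    filter_upwards [hμ.prod_ae hν] with p hp
    have h := hΓ _ hp.1 _ hp.2
    gcongr
  simpa using h

theorem measurable_gaussE (μ ν : Measure ℂ) [IsFiniteMeasure μ] [IsFiniteMeasure ν] :
    Measurable (fun t : ℝ => gaussE t μ ν) := by
  unfold gaussE
  have : StronglyMeasurable (Function.uncurry fun (t : ℝ) (p : ℂ × ℂ) =>
      Real.exp (-(t * ‖p.1 - p.2‖ ^ 2))) := by
    apply Measurable.stronglyMeasurable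
    unfold Function.uncurry
    fun_prop
  exact this.integral_prod_right.measurable

/-- The energy of the difference of two probability measures is nonnegative. -/
theorem two_ener_le (hD : 0 < D) (hΓ : ∀ z ∈ Γ, ∀ w ∈ Γ, ‖z - w‖ ≤ D)
    (hμ : IsProbOn Γ μ) (hν : IsProbOn Γ ν) :
    2 * ener D μ ν ≤ ener D μ μ + ener D ν ν := by
  have := hμ.isProb
  have := hν.isProb
  rw [ener_eq_gauss hD hΓ hμ hν, ener_eq_gauss hD hΓ hμ hμ, ener_eq_gauss hD hΓ hν hν]
  have hm := measurable_gaussE μ μ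
  rw [← lintegral_const_mul' _ _ (by simp), ← lintegral_add_left (by fun_prop)]
  apply setLIntegral_mono' measurableSet_Ioi
  intro t ht
  have ht' : (0 : ℝ) < t := ht
  have h1 := gaussE_pos t ht' μ ν
  have h2 := gaussE_ge hΓ hμ hμ ht'
  have h3 := gaussE_ge hΓ hν hν ht'
  have h4 := gaussE_ge hΓ hμ hν ht'
  have e2 : (2 : ℝ≥0∞) = ENNReal.ofReal 2 := by simp
  rw [e2, ← ENNReal.ofReal_mul (by norm_num), ← ENNReal.ofReal_add
    (div_nonneg (by linarith) (by positivity)) (div_nonneg (by linarith) (by positivity))]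
  apply ENNReal.ofReal_le_ofReal
  rw [← add_div, ← mul_div_assoc]
  gcongr
  linarith

/-- Equality in `two_ener_le` (for finite energies) only holds for equal measures. -/
theorem eq_of_ener_le (hD : 0 < D) (hΓ : ∀ z ∈ Γ, ∀ w ∈ Γ, ‖z - w‖ ≤ D)
    (hμ : IsProbOn Γ μ) (hν : IsProbOn Γ ν) (hfμ : ener D μ μ ≠ ⊤) (hfν : ener D ν ν ≠ ⊤)
    (h : ener D μ μ + ener D ν ν ≤ 2 * ener D μ ν) : μ = ν := by
  have := hμ.isProb
  have := hν.isProb
  by_contra hne
  have hlt : 2 * ener D μ ν < ener D μ μ + ener D ν ν := by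
    have hfin : 2 * ener D μ ν ≠ ⊤ :=
      ne_top_of_le_ne_top (ENNReal.add_ne_top.2 ⟨hfμ, hfν⟩) (two_ener_le hD hΓ hμ hν)
    rw [ener_eq_gauss hD hΓ hμ hν] at hfin ⊢
    rw [ener_eq_gauss hD hΓ hμ hμ, ener_eq_gauss hD hΓ hν hν]
    have hm := measurable_gaussE μ μ
    have hm' := measurable_gaussE ν ν
    have hm'' := measurable_gaussE μ ν
    rw [← lintegral_const_mul' _ _ (by simp)] at hfin ⊢
    rw [← lintegral_add_left (by fun_prop)]
    refine lintegral_strict_mono_of_ae_le_of_ae_lt_on (s := Ioi 0) (by fun_prop) hfin ?_ ?_ ?_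
    · filter_upwards [ae_restrict_mem measurableSet_Ioi] with t ht
      have ht' : (0 : ℝ) < t := ht
      have h1 := gaussE_pos t ht' μ ν
      have h2 := gaussE_ge hΓ hμ hμ ht'
      have h3 := gaussE_ge hΓ hν hν ht'
      have h4 := gaussE_ge hΓ hμ hν ht'
      have e2 : (2 : ℝ≥0∞) = ENNReal.ofReal 2 := by simp
      rw [e2, ← ENNReal.ofReal_mul (by norm_num), ← ENNReal.ofReal_add
        (div_nonneg (by linarith) (by positivity)) (div_nonneg (by linarith) (by positivity))]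
      apply ENNReal.ofReal_le_ofReal
      rw [← add_div, ← mul_div_assoc]
      gcongr
      linarith
    · simp
    · filter_upwards [ae_restrict_mem measurableSet_Ioi] with t ht _
      have ht' : (0 : ℝ) < t := ht
      have h1 : 2 * gaussE t μ ν < gaussE t μ μ + gaussE t ν ν := by
        by_contra hcon
        exact hne (gaussE_eq t ht' μ ν (not_lt.1 hcon))
      have h2 := gaussE_ge hΓ hμ hμ ht'
      have h3 := gaussE_ge hΓ hν hν ht'
      have h4 := gaussE_ge hΓ hμ hν ht'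
      have e2 : (2 : ℝ≥0∞) = ENNReal.ofReal 2 := by simp
      rw [e2, ← ENNReal.ofReal_mul (by norm_num), ← ENNReal.ofReal_add
        (div_nonneg (by linarith) (by positivity)) (div_nonneg (by linarith) (by positivity))]
      rw [← add_div, ← mul_div_assoc]
      have h5 : (2 * (gaussE t μ ν - Real.exp (-(t * D ^ 2)))) / (2 * t) <
        (gaussE t μ μ - Real.exp (-(t * D ^ 2)) + (gaussE t ν ν - Real.exp (-(t * D ^ 2)))) /
          (2 * t) := by
        apply div_lt_div_of_pos_right _ (by positivity)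
        linarith
      rw [ENNReal.ofReal_lt_ofReal_iff]
      · exact h5
      · exact lt_of_le_of_lt (div_nonneg (by linarith) (by positivity)) h5
  exact absurd h (not_le.2 hlt)

end

/-! ### The bridge to the extended real energy -/

theorem eintegral_shift {α : Type*} [MeasurableSpace α] {ρ : Measure α} [IsProbabilityMeasure ρ]
    {f : α → EReal} {g : α → ℝ≥0∞} (hg : AEMeasurable g ρ) {c : ℝ} (hc : 0 ≤ c)
    (h : ∀ᵐ a ∂ρ, f a = (g a : EReal) - (c : EReal)) :
    eintegral f ρ = ((∫⁻ a, g a ∂ρ : ℝ≥0∞) : EReal) - (c : EReal) := by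
  have h1 : ∀ᵐ a ∂ρ, (f a).toENNReal + ENNReal.ofReal c = g a + (-(f a)).toENNReal := by
    filter_upwards [h] with a ha
    rw [ha]
    rcases eq_or_ne (g a) ⊤ with hga | hga
    · rw [hga]
      simp
    · lift g a to NNReal using hga with x
      have e1 : (((x : ℝ≥0∞) : EReal) - (c : EReal)) = (((x : ℝ) - c : ℝ) : EReal) := by
        rw [EReal.coe_sub]
        rfl
      have e2 : (((x : ℝ) - c : ℝ) : EReal).toENNReal = ENNReal.ofReal ((x : ℝ) - c) := by
        rw [EReal.toENNReal_of_ne_top (EReal.coe_ne_top _), EReal.toReal_coe]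
      have e3 : (-(((x : ℝ) - c : ℝ) : EReal)).toENNReal = ENNReal.ofReal (c - (x : ℝ)) := by
        rw [← EReal.coe_neg, EReal.toENNReal_of_ne_top (EReal.coe_ne_top _), EReal.toReal_coe,
          neg_sub]
      rw [e1, e2, e3]
      rcases le_total c (x : ℝ) with hcx | hcx
      · rw [ENNReal.ofReal_of_nonpos (p := c - (x : ℝ)) (by linarith), add_zero,
          ← ENNReal.ofReal_add (by linarith) hc, sub_add_cancel, ENNReal.ofReal_coe_nnreal]
      · rw [ENNReal.ofReal_of_nonpos (p := (x : ℝ) - c) (by linarith), zero_add]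
        have : (x : ℝ≥0∞) = ENNReal.ofReal (x : ℝ) := by simp
        rw [this, ← ENNReal.ofReal_add (NNReal.coe_nonneg x) (by linarith)]
        congr 1
        ring
  have h2 : ∫⁻ a, (f a).toENNReal ∂ρ + ENNReal.ofReal c =
      ∫⁻ a, g a ∂ρ + ∫⁻ a, (-(f a)).toENNReal ∂ρ := by
    rw [← lintegral_add_left' hg, ← lintegral_congr_ae h1,
      lintegral_add_right _ measurable_const]
    simp
  have h3 : ∫⁻ a, (-(f a)).toENNReal ∂ρ ≤ ENNReal.ofReal c := by
    calc ∫⁻ a, (-(f a)).toENNReal ∂ρ ≤ ∫⁻ _, ENNReal.ofReal c ∂ρ := by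
          apply lintegral_mono_ae
          filter_upwards [h] with a ha
          rw [ha]
          have h4 : -((g a : EReal) - (c : EReal)) ≤ (c : EReal) := by
            rw [EReal.neg_sub (Or.inr (EReal.coe_ne_bot _)) (Or.inr (EReal.coe_ne_top _))]
            calc -(g a : EReal) + (c : EReal) ≤ 0 + (c : EReal) := by
                  gcongr
                  rw [EReal.neg_le, neg_zero]
                  exact EReal.coe_ennreal_nonneg _
              _ = c := zero_add _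
          calc (-((g a : EReal) - (c : EReal))).toENNReal ≤ (c : EReal).toENNReal :=
                EReal.toENNReal_le_toENNReal h4
            _ = ENNReal.ofReal c := by
                rw [EReal.toENNReal_of_ne_top (EReal.coe_ne_top _), EReal.toReal_coe]
      _ = ENNReal.ofReal c := by simp
  have h4 : ∫⁻ a, (-(f a)).toENNReal ∂ρ ≠ ⊤ := ne_top_of_le_ne_top ENNReal.ofReal_ne_top h3
  unfold eintegral
  generalize ∫⁻ a, (-(f a)).toENNReal ∂ρ = B at *
  generalize ∫⁻ a, (f a).toENNReal ∂ρ = A at *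
  generalize ∫⁻ a, g a ∂ρ = G at *
  lift B to NNReal using h4
  rcases eq_or_ne A ⊤ with hA | hA
  · have hG : G = ⊤ := by
      by_contra hG
      rw [hA, top_add] at h2
      exact ENNReal.add_ne_top.2 ⟨hG, ENNReal.coe_ne_top⟩ h2.symm
    rw [hA, hG]
    simp
  · have hG : G ≠ ⊤ := by
      rintro rfl
      rw [top_add] at h2
      exact ENNReal.add_ne_top.2 ⟨hA, ENNReal.ofReal_ne_top⟩ h2
    lift A to NNReal using hA
    lift G to NNReal using hG
    have h5 : (A : ℝ) + c = G + B := by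
      have := congrArg ENNReal.toReal h2
      rw [ENNReal.toReal_add ENNReal.coe_ne_top ENNReal.ofReal_ne_top,
        ENNReal.toReal_add ENNReal.coe_ne_top ENNReal.coe_ne_top, ENNReal.toReal_ofReal hc] at this
      simpa using this
    have h6 : (A : ℝ) - B = G - c := by linarith
    have e1 : (((A : ℝ≥0∞) : EReal) - ((B : ℝ≥0∞) : EReal)) = (((A : ℝ) - B : ℝ) : EReal) := by
      rw [EReal.coe_sub]
      rfl
    have e2 : (((G : ℝ≥0∞) : EReal) - (c : EReal)) = (((G : ℝ) - c : ℝ) : EReal) := by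
      rw [EReal.coe_sub]
      rfl
    rw [e1, e2, h6]

theorem logKernel_eq {D : ℝ} (hD : 0 < D) {z w : ℂ} (h : ‖z - w‖ ≤ D) :
    logKernel z w = (kap D z w : EReal) - (Real.log D : EReal) := by
  unfold logKernel kap
  split_ifs with hzw
  · simp
  · have h1 : 0 < ‖z - w‖ := norm_pos_iff.2 (sub_ne_zero.2 hzw)
    have h2 : 0 ≤ Real.log (D / ‖z - w‖) := Real.log_nonneg (by rwa [one_le_div h1])
    rw [EReal.coe_ennreal_ofReal, max_eq_left h2, ← EReal.coe_sub]
    congr 1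
    rw [Real.log_div hD.ne' h1.ne', Real.log_div one_ne_zero h1.ne', Real.log_one]
    ring

theorem energy_eq {Γ : Set ℂ} {D : ℝ} {μ : Measure ℂ} (hD : 1 ≤ D)
    (hΓ : ∀ z ∈ Γ, ∀ w ∈ Γ, ‖z - w‖ ≤ D) (hμ : IsProbOn Γ μ) (k₁ k₂ : ℝ) :
    energy k₁ k₂ μ = ((ener D μ μ : EReal) - (Real.log D : EReal)) +
      ((2 * ∫ z, phi k₁ k₂ z ∂μ : ℝ) : EReal) := by
  have := hμ.isProb
  unfold energy
  rw [eintegral_shift (g := fun p : ℂ × ℂ => kap D p.1 p.2) (measurable_kap D).aemeasurable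
    (Real.log_nonneg hD), ener_eq_prod]
  filter_upwards [hμ.prod_ae hμ] with p hp
  exact logKernel_eq (by linarith) (hΓ _ hp.1 _ hp.2)

/-- The potential of `μ` for the kernel `kap D`. -/
noncomputable def pot (D : ℝ) (μ : Measure ℂ) (z : ℂ) : ℝ≥0∞ := ∫⁻ w, kap D z w ∂μ

theorem ener_eq_pot (D : ℝ) (μ ν : Measure ℂ) : ener D μ ν = ∫⁻ z, pot D ν z ∂μ := rfl

theorem measurable_pot (D : ℝ) (μ : Measure ℂ) [SFinite μ] : Measurable (pot D μ) :=
  (measurable_kap D).lintegral_prod_right'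

theorem totalPotential_eq {Γ : Set ℂ} {D : ℝ} {μ : Measure ℂ} (hD : 1 ≤ D) {z : ℂ}
    (hΓ : ∀ w ∈ Γ, ‖z - w‖ ≤ D) (hμ : IsProbOn Γ μ) (k₁ k₂ : ℝ) :
    totalPotential k₁ k₂ μ z = ((pot D μ z : EReal) - (Real.log D : EReal)) +
      ((phi k₁ k₂ z : ℝ) : EReal) := by
  have := hμ.isProb
  unfold totalPotential pot
  rw [eintegral_shift (g := fun w : ℂ => kap D z w) (measurable_kap_left D z).aemeasurable
    (Real.log_nonneg hD)]
  have h2 : ∀ᵐ w ∂μ, w ∈ Γ := by
    rw [ae_iff]; exact hμ.compl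
  filter_upwards [h2] with w hw
  exact logKernel_eq (by linarith) (hΓ _ hw)

end Pool.Agent.Helper25.SCurve
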