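import Pool.Agent.Helper25.SCurve.Deriv

/-!
# A continuum with the S-property
-/

namespace Pool.Agent.Helper25.SCurve

open MeasureTheory Set Filter Topology
open scoped ENNReal

theorem mem_seg_iff {a R : ℝ} (ha : 0 < a) (w : ℂ) :
    w ∈ seg a R '' Icc 0 Real.pi ↔ w.im = 1 ∧ R - 2 * a ≤ w.re ∧ w.re ≤ R := by
  constructor
  · rintro ⟨θ, _, rfl⟩
    have := Real.neg_one_le_cos θ
    have := Real.cos_le_one θ
    simp only [seg]
    refine ⟨trivial, ?_, ?_⟩ <;> nlinarith
  · rintro ⟨h1, h2, h3⟩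
    refine ⟨Real.arccos ((w.re - R + a) / a), ⟨Real.arccos_nonneg _, Real.arccos_le_pi _⟩, ?_⟩
    apply Complex.ext
    · simp only [seg]
      rw [Real.cos_arccos]
      · field_simp
        ring
      · rw [le_div_iff₀ ha]
        linarith
      · rw [div_le_iff₀ ha]
        linarith
    · simp only [seg, h1]

/-- The continuum: the segment `[z₁, z₂]` together with a long horizontal segment. -/
noncomputable def curve (ε₁ ε₂ R : ℝ) : Set ℂ :=
  segment ℝ (-(ε₁ : ℂ) + Complex.I) ((ε₂ : ℂ) - Complex.I) ∪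
    segment ℝ (-(ε₁ : ℂ) + Complex.I) ((R : ℂ) + Complex.I)

theorem isCompact_segment' (z w : ℂ) : IsCompact (segment ℝ z w) := by
  rw [segment_eq_image]
  exact isCompact_Icc.image (by fun_prop)

theorem isConnected_segment' (z w : ℂ) : IsConnected (segment ℝ z w) :=
  ⟨⟨z, left_mem_segment ℝ z w⟩, (convex_segment z w).isPreconnected⟩

theorem isJoining_curve (ε₁ ε₂ R : ℝ) : IsJoining ε₁ ε₂ (curve ε₁ ε₂ R) where
  isCompact := (isCompact_segment' _ _).union (isCompact_segment' _ _)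
  isConnected := (isConnected_segment' _ _).union
    ⟨_, left_mem_segment ℝ _ _, left_mem_segment ℝ _ _⟩ (isConnected_segment' _ _)
  left_mem := Or.inl (left_mem_segment ℝ _ _)
  right_mem := Or.inl (right_mem_segment ℝ _ _)

theorem mem_curve {ε₁ ε₂ R : ℝ} (h₁ : 0 < ε₁) (h₂ : 0 < ε₂) (hR : 0 < R) {z : ℂ}
    (hz : z ∈ curve ε₁ ε₂ R) : (-ε₁ ≤ z.re ∧ z.re ≤ ε₂ ∧ -1 ≤ z.im ∧ z.im ≤ 1) ∨
      (-ε₁ ≤ z.re ∧ z.re ≤ R ∧ z.im = 1) := by
  rcases hz with hz | hz
  · left
    rw [segment_eq_image] at hz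
    obtain ⟨t, ⟨ht0, ht1⟩, rfl⟩ := hz
    simp only [Complex.add_re, Complex.add_im, Complex.real_smul, Complex.mul_re, Complex.mul_im,
      Complex.ofReal_re, Complex.ofReal_im, Complex.neg_re, Complex.neg_im, Complex.I_re,
      Complex.I_im, Complex.sub_re, Complex.sub_im]
    refine ⟨?_, ?_, ?_, ?_⟩ <;> nlinarith
  · right
    rw [segment_eq_image] at hz
    obtain ⟨t, ⟨ht0, ht1⟩, rfl⟩ := hz
    simp only [Complex.add_re, Complex.add_im, Complex.real_smul, Complex.mul_re, Complex.mul_im,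
      Complex.ofReal_re, Complex.ofReal_im, Complex.neg_re, Complex.neg_im, Complex.I_re,
      Complex.I_im]
    refine ⟨?_, ?_, ?_⟩
    · nlinarith
    · nlinarith
    · ring

theorem seg_subset_curve {ε₁ ε₂ R a : ℝ} (ha : 0 < a) (h₁ : 0 < ε₁) (hR : 2 * a < R) :
    seg a R '' Icc 0 Real.pi ⊆ curve ε₁ ε₂ R := by
  intro w hw
  obtain ⟨h1, h2, h3⟩ := (mem_seg_iff ha w).1 hw
  right
  rw [segment_eq_image]
  have hpos : 0 < R + ε₁ := by linarith
  refine ⟨(w.re + ε₁) / (R + ε₁), ⟨by apply div_nonneg <;> linarith, ?_⟩, ?_⟩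
  · rw [div_le_one hpos]
    linarith
  · apply Complex.ext
    · simp only [Complex.add_re, Complex.real_smul, Complex.mul_re,
        Complex.ofReal_re, Complex.ofReal_im, Complex.neg_re, Complex.neg_im, Complex.I_re,
        Complex.I_im, Complex.add_im]
      field_simp
      ring
    · simp only [Complex.add_re, Complex.add_im, Complex.real_smul, Complex.mul_im,
        Complex.ofReal_re, Complex.ofReal_im, Complex.neg_re, Complex.neg_im, Complex.I_re,
        Complex.I_im, h1]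
      ring

theorem arc_mp {a R θ : ℝ} (ha : 0 < a) (hθ : θ ∈ Ioo 0 Real.pi) :
    ∃ η : ℝ, 0 < η ∧ IsAnalyticArcAt (mp a R).support (seg a R θ) (η : ℂ) := by
  have hc1 : -1 < Real.cos θ := by
    rw [← Real.cos_pi]
    exact Real.cos_lt_cos_of_nonneg_of_le_pi hθ.1.le le_rfl hθ.2
  have hc2 : Real.cos θ < 1 := by
    rw [← Real.cos_zero]
    exact Real.cos_lt_cos_of_nonneg_of_le_pi le_rfl hθ.2.le hθ.1
  set η := min (a * (1 + Real.cos θ)) (a * (1 - Real.cos θ)) with hη
  have hη0 : 0 < η := lt_min (mul_pos ha (by linarith)) (mul_pos ha (by linarith))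
  have hη1 : η ≤ a * (1 + Real.cos θ) := min_le_left _ _
  have hη2 : η ≤ a * (1 - Real.cos θ) := min_le_right _ _
  have hder : ∀ s : ℝ, HasDerivAt (fun s : ℝ => seg a R θ + (s : ℂ) * (η : ℂ)) (η : ℂ) s := by
    intro s
    have := ((Complex.ofRealCLM.hasDerivAt (x := s)).mul_const (η : ℂ)).const_add (seg a R θ)
    simpa using this
  refine ⟨η, hη0, fun s => seg a R θ + (s : ℂ) * (η : ℂ), ?_, ?_, ?_, ?_, ?_,
    Metric.ball (seg a R θ) η, Metric.ball_mem_nhds _ hη0, ?_⟩
  · intro s _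
    have h1 : AnalyticAt ℝ (fun s : ℝ => (s : ℂ)) s := Complex.ofRealCLM.analyticAt s
    exact analyticAt_const.add (h1.mul analyticAt_const)
  · intro s _ t _ hst
    have h1 : (s : ℂ) * (η : ℂ) = (t : ℂ) * (η : ℂ) := add_left_cancel hst
    have h2 : (s : ℂ) = (t : ℂ) := mul_right_cancel₀ (by exact_mod_cast hη0.ne') h1
    exact_mod_cast h2
  · intro s _
    rw [(hder s).deriv]
    exact_mod_cast hη0.ne'
  · simp
  · exact (hder 0).deriv
  · rw [support_mp]
    ext w
    constructor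
    · rintro ⟨hw1, hw2⟩
      obtain ⟨h1, h2, h3⟩ := (mem_seg_iff ha w).1 hw1
      have e : w - seg a R θ = ((w.re - (R - a + a * Real.cos θ) : ℝ) : ℂ) := by
        apply Complex.ext
        · simp only [seg, Complex.sub_re, Complex.ofReal_re]
        · simp only [seg, Complex.sub_im, Complex.ofReal_im, h1, sub_self]
      rw [Metric.mem_ball, dist_eq_norm, e, Complex.norm_real, Real.norm_eq_abs, abs_lt] at hw2
      refine ⟨(w.re - (R - a + a * Real.cos θ)) / η, ⟨?_, ?_⟩, ?_⟩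
      · rw [lt_div_iff₀ hη0]
        linarith [hw2.1]
      · rw [div_lt_iff₀ hη0]
        linarith [hw2.2]
      · have hη' : (η : ℂ) ≠ 0 := by exact_mod_cast hη0.ne'
        simp only
        rw [Complex.ofReal_div, div_mul_cancel₀ _ hη', ← e]
        ring
    · rintro ⟨s, ⟨hs1, hs2⟩, rfl⟩
      have hre : (seg a R θ + (s : ℂ) * (η : ℂ)).re = R - a + a * Real.cos θ + s * η := by
        simp [seg]
      have him : (seg a R θ + (s : ℂ) * (η : ℂ)).im = 1 := by
        simp [seg]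
      constructor
      · rw [mem_seg_iff ha]
        refine ⟨him, ?_, ?_⟩
        · rw [hre]
          nlinarith
        · rw [hre]
          nlinarith
      · rw [Metric.mem_ball, dist_eq_norm, add_sub_cancel_left, norm_mul, Complex.norm_real,
          Complex.norm_real, Real.norm_eq_abs, Real.norm_eq_abs, abs_of_pos hη0]
        have : |s| < 1 := abs_lt.2 ⟨hs1, hs2⟩
        nlinarith

theorem exists_R {k₁ : ℝ} (hk₁ : 0 < k₁) (c C : ℝ) :
    ∃ R : ℝ, C ≤ R ∧ 0 < R ∧ Real.log (R + C) - Real.log (1 / k₁) + Real.log 2 + 1 - k₁ * R + c ≤ 0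
      ∧ 0 < R + C := by
  have h1 : Tendsto (fun R : ℝ => Real.log (R + C) - Real.log (1 / k₁) + Real.log 2 + 1 -
      k₁ * R + c) atTop atBot := by
    have h2 : Tendsto (fun R : ℝ => Real.log (R + C) - k₁ / 2 * (R + C)) atTop atBot := by
      have h3 : Tendsto (fun x : ℝ => Real.log x - k₁ / 2 * x) atTop atBot := by
        have h4 : (fun x : ℝ => Real.log x) =o[atTop] fun x => k₁ / 2 * x := by
          have := Real.isLittleO_log_id_atTop
          exact this.trans_isBigO ((Asymptotics.isBigO_const_mul_self (2 / k₁) (fun x : ℝ =>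
            k₁ / 2 * x) atTop).congr_left (fun x => by simp only [id]; field_simp))
        have h5 : (fun x : ℝ => Real.log x - k₁ / 2 * x) =
            fun x => Real.log x + -(k₁ / 2 * x) := by
          funext x; ring
        rw [h5]
        have h6 : (fun x : ℝ => Real.log x) =o[atTop] fun x => -(k₁ / 2 * x) :=
          h4.neg_right
        have h7 : Tendsto (fun x : ℝ => -(k₁ / 2 * x)) atTop atBot := by
          apply tendsto_neg_atTop_atBot.comp
          exact Tendsto.const_mul_atTop (by positivity) tendsto_id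
        have h8 := h6.add_isEquivalent (Asymptotics.IsEquivalent.refl (u := fun x : ℝ =>
          -(k₁ / 2 * x)) (l := atTop))
        exact h8.symm.tendsto_atBot h7
      exact h3.comp (tendsto_atTop_add_const_right _ _ tendsto_id)
    have h9 : Tendsto (fun R : ℝ => (-(k₁ / 2) * R + (k₁ / 2 * C - Real.log (1 / k₁) + Real.log 2 +
        1 + c))) atTop atBot := by
      apply tendsto_atBot_add_const_right
      exact Tendsto.const_mul_atTop_of_neg (by linarith) tendsto_id
    have h10 := h2.atBot_add_atBot h9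
    refine h10.congr fun R => ?_
    ring
  obtain ⟨R, hR1, hR2, hR3, hR4⟩ := ((h1.eventually (eventually_le_atBot 0)).and
    ((eventually_ge_atTop C).and ((eventually_gt_atTop 0).and
      (eventually_gt_atTop (-C))))).exists
  exact ⟨R, hR2, hR3, hR1, by linarith⟩

theorem curve_sProperty {k₁ k₂ ε₁ ε₂ R : ℝ} (hk₁ : 0 < k₁) (hk₂ : 0 < k₂) (hε₁ : 0 < ε₁)
    (hε₂ : 0 < ε₂) (hRC : ε₁ + ε₂ + 3 + 2 * (1 / k₁) ≤ R) (hR0 : 0 < R)
    (hRF : Real.log (R + (ε₁ + ε₂ + 3 + 2 * (1 / k₁))) - Real.log (1 / k₁) + Real.log 2 + 1 -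
      k₁ * R + (k₁ * ε₂ + k₂ * ε₁) ≤ 0) : HasSProperty k₁ k₂ (curve ε₁ ε₂ R) := by
  obtain ⟨a, ha_def⟩ : ∃ a : ℝ, a = 1 / k₁ := ⟨_, rfl⟩
  have ha : 0 < a := by rw [ha_def]; positivity
  have hak : a * k₁ = 1 := by rw [ha_def]; field_simp
  rw [← ha_def] at hRF hRC
  have hRD : 0 < R + (ε₁ + ε₂ + 3 + 2 * a) := by positivity
  set D := R + (ε₁ + ε₂ + 3 + 2 * a) with hD
  set F := Real.log D - Real.log a + Real.log 2 + 1 - k₁ * R with hF
  have hFneg : F + (k₁ * ε₂ + k₂ * ε₁) ≤ 0 := hRF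
  have hD1 : 1 ≤ D := by linarith
  have hR2a : 2 * a < R := by linarith
  have hRε₂ : ε₂ ≤ R := by linarith
  refine ⟨mp a R, ?_, ?_⟩
  · -- equilibrium
    have hb : Bornology.IsBounded (curve ε₁ ε₂ R) := (isJoining_curve ε₁ ε₂ R).isCompact.isBounded
    have hμ : IsProbOn (curve ε₁ ε₂ R) (mp a R) := by
      refine ⟨isProbabilityMeasure_mp a R, ?_⟩
      apply measure_mono_null (compl_subset_compl.2 (seg_subset_curve ha hε₁ hR2a))
      exact mp_range a R
    have hphiseg : ∀ θ, phi k₁ k₂ (seg a R θ) = -k₁ * R + 1 - Real.cos θ := by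
      intro θ
      have h1 := Real.neg_one_le_cos θ
      have h2 : 0 < (seg a R θ).re := by
        simp only [seg]
        nlinarith
      unfold phi
      rw [if_pos h2]
      simp only [seg]
      have h3 : -k₁ * (R - a + a * Real.cos θ) = -k₁ * R + (a * k₁) - (a * k₁) * Real.cos θ := by
        ring
      rw [h3, hak]
      ring
    have hseg_ae : ∀ᵐ z ∂(mp a R), z ∈ seg a R '' Icc 0 Real.pi := by
      rw [ae_iff]
      exact mp_range a R
    apply isEquilibrium_of_pot (D := D) (F := F) hD1 hb _ hμ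
    · -- lower bound
      intro z hz
      have hcase : (z.re ≤ ε₂ ∧ -ε₁ ≤ z.re) ∨ (0 < z.re ∧ z.re ≤ R ∧ z.im = 1) := by
        rcases mem_curve hε₁ hε₂ hR0 hz with ⟨h1, h2, _, _⟩ | ⟨h1, h2, h3⟩
        · exact Or.inl ⟨h2, h1⟩
        · rcases le_or_gt z.re 0 with h | h
          · exact Or.inl ⟨by linarith, h1⟩
          · exact Or.inr ⟨h, h2, h3⟩
      rcases hcase with ⟨h1, h2⟩ | ⟨h1, h2, h3⟩
      · have : F - phi k₁ k₂ z ≤ 0 := by
          unfold phi
          split_ifs with h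
          · nlinarith
          · push Not at h
            nlinarith
        rw [ENNReal.ofReal_of_nonpos this]
        exact zero_le
      · have hz' : z = ⟨z.re, 1⟩ := by
          apply Complex.ext
          · rfl
          · exact h3
        rcases le_or_gt z.re (R - 2 * a) with h | h
        · have h4 := pot_left (R := R) (D := D) ha h (by linarith)
          rw [← hz'] at h4
          refine le_trans (ENNReal.ofReal_le_ofReal ?_) h4
          unfold phi
          rw [if_pos h1]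
          have h5 : (R - 2 * a - z.re) / a = k₁ * R - 2 - k₁ * z.re := by
            rw [div_eq_iff ha.ne']
            have : (k₁ * R - 2 - k₁ * z.re) * a = (a * k₁) * R - 2 * a - (a * k₁) * z.re := by ring
            rw [this, hak]
            ring
          rw [h5]
          linarith
        · have hmem : z ∈ seg a R '' Icc 0 Real.pi := (mem_seg_iff ha z).2 ⟨h3, h.le, h2⟩
          obtain ⟨θ, _, rfl⟩ := hmem
          rw [pot_seg ha (by linarith), hphiseg]
          apply ENNReal.ofReal_le_ofReal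
          linarith
    · filter_upwards [hseg_ae] with z hz
      obtain ⟨θ, _, rfl⟩ := hz
      rw [hphiseg]
      have h1 := Real.neg_one_le_cos θ
      have h2 : Real.log a + Real.log 2 ≤ Real.log D := by
        rw [← Real.log_mul ha.ne' (by norm_num)]
        apply Real.log_le_log (by positivity)
        linarith
      have h3 := Real.log_two_gt_d9
      linarith
    · filter_upwards [hseg_ae] with z hz
      obtain ⟨θ, _, rfl⟩ := hz
      rw [pot_seg ha (by linarith), hphiseg]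
      congr 1
      linarith
    · intro z hz w hw
      have hbox : ∀ u ∈ curve ε₁ ε₂ R, -ε₁ ≤ u.re ∧ u.re ≤ R ∧ -1 ≤ u.im ∧ u.im ≤ 1 := by
        intro u hu
        rcases mem_curve hε₁ hε₂ hR0 hu with ⟨h1, h2, h3, h4⟩ | ⟨h1, h2, h3⟩
        · exact ⟨h1, by linarith, h3, h4⟩
        · exact ⟨h1, h2, by linarith, by linarith⟩
      obtain ⟨a1, a2, a3, a4⟩ := hbox z hz
      obtain ⟨b1, b2, b3, b4⟩ := hbox w hw
      calc ‖z - w‖ ≤ |(z - w).re| + |(z - w).im| := Complex.norm_le_abs_re_add_abs_im _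
        _ ≤ (R + ε₁) + 2 := by
            rw [Complex.sub_re, Complex.sub_im]
            apply add_le_add
            · rw [abs_le]; constructor <;> linarith
            · rw [abs_le]; constructor <;> linarith
        _ ≤ D := by linarith
  · -- S-property
    refine ⟨{seg a R 0, seg a R Real.pi}, by simp, ?_⟩
    rintro z ⟨hz1, hz2⟩
    rw [support_mp] at hz1
    obtain ⟨θ, hθ, rfl⟩ := hz1
    have hθ' : θ ∈ Ioo 0 Real.pi := by
      refine ⟨lt_of_le_of_ne hθ.1 ?_, lt_of_le_of_ne hθ.2 ?_⟩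
      · rintro rfl
        exact hz2 (Or.inl rfl)
      · rintro rfl
        exact hz2 (Or.inr rfl)
    obtain ⟨η, hη, harc⟩ := arc_mp (R := R) ha hθ'
    obtain ⟨L, hL1, hL2⟩ := oneSided_mp (R := R) k₁ k₂ ha hθ'
    have hdir : Complex.I * (η : ℂ) / ((‖(η : ℂ)‖ : ℝ) : ℂ) = Complex.I := by
      rw [Complex.norm_real, Real.norm_of_nonneg hη.le]
      have : (η : ℂ) ≠ 0 := by exact_mod_cast hη.ne'
      field_simp
    refine ⟨(η : ℂ), harc, L, ?_, ?_⟩
    · rw [hdir]; exact hL1
    · rw [hdir]; exact hL2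

/-- For `k₁, k₂ > 0` and every `M` there is a bounded region such that for all
`ε₁, ε₂ ∈ (0, M]` there is a continuum with the S-property inside this region. -/
theorem exists_sCurve_bounded {k₁ k₂ : ℝ} (hk₁ : 0 < k₁) (hk₂ : 0 < k₂) (M : ℝ) :
    ∃ ρ : ℝ, ∀ ε₁ ε₂ : ℝ, 0 < ε₁ → ε₁ ≤ M → 0 < ε₂ → ε₂ ≤ M →
      ∃ Γ : Set ℂ, IsJoining ε₁ ε₂ Γ ∧ (∀ z ∈ Γ, ‖z‖ ≤ ρ) ∧ HasSProperty k₁ k₂ Γ := by
  obtain ⟨R, hRC, hR0, hRF, -⟩ := exists_R hk₁ (k₁ * M + k₂ * M) (M + M + 3 + 2 * (1 / k₁))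
  refine ⟨M + R + 1, ?_⟩
  intro ε₁ ε₂ hε₁ hε₁M hε₂ hε₂M
  have hk : 0 < 1 / k₁ := by positivity
  refine ⟨curve ε₁ ε₂ R, isJoining_curve ε₁ ε₂ R, ?_, ?_⟩
  · intro z hz
    have hbox : -ε₁ ≤ z.re ∧ z.re ≤ R ∧ -1 ≤ z.im ∧ z.im ≤ 1 := by
      rcases mem_curve hε₁ hε₂ hR0 hz with ⟨h1, h2, h3, h4⟩ | ⟨h1, h2, h3⟩
      · exact ⟨h1, by linarith, h3, h4⟩
      · exact ⟨h1, h2, by linarith, by linarith⟩
    obtain ⟨a1, a2, a3, a4⟩ := hbox
    calc ‖z‖ ≤ |z.re| + |z.im| := Complex.norm_le_abs_re_add_abs_im _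
      _ ≤ (M + R) + 1 := by
          apply add_le_add
          · rw [abs_le]; constructor <;> linarith
          · rw [abs_le]; constructor <;> linarith
  · apply curve_sProperty hk₁ hk₂ hε₁ hε₂ (by linarith) hR0
    have h1 : Real.log (R + (ε₁ + ε₂ + 3 + 2 * (1 / k₁))) ≤
        Real.log (R + (M + M + 3 + 2 * (1 / k₁))) := by
      apply Real.log_le_log (by positivity)
      linarith
    have h2 : k₁ * ε₂ + k₂ * ε₁ ≤ k₁ * M + k₂ * M := by gcongr
    linarith

end Pool.Agent.Helper25.SCurve
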