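import Pool.Agent.Helper25.SCurve.Window

/-!
# A gap of the support on the imaginary axis forces a segment
-/

namespace Pool.Agent.Helper25.SCurve

open MeasureTheory Set Filter Topology
open scoped ENNReal

theorem concave_log_sq (x : ℝ) :
    ConcaveOn ℝ {u : ℝ | 0 < u ∧ |x| ≤ u} (fun u => Real.log (u ^ 2 + x ^ 2)) := by
  have hconv : Convex ℝ {u : ℝ | 0 < u ∧ |x| ≤ u} := (convex_Ioi 0).inter (convex_Ici |x|)
  have hpos : ∀ u ∈ {u : ℝ | 0 < u ∧ |x| ≤ u}, 0 < u ^ 2 + x ^ 2 := fun u hu => by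
    have := hu.1
    positivity
  have hder : ∀ u ∈ {u : ℝ | 0 < u ∧ |x| ≤ u},
      HasDerivAt (fun u => Real.log (u ^ 2 + x ^ 2)) (2 * u / (u ^ 2 + x ^ 2)) u := by
    intro u hu
    have h1 : HasDerivAt (fun u : ℝ => u ^ 2 + x ^ 2) (2 * u) u := by
      simpa using (hasDerivAt_pow 2 u).add_const (x ^ 2)
    exact h1.log (hpos u hu).ne'
  apply AntitoneOn.concaveOn_of_deriv hconv
  · exact fun u hu => (hder u hu).continuousAt.continuousWithinAt
  · exact fun u hu => (hder u (interior_subset hu)).differentiableAt.differentiableWithinAt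
  · intro u hu v hv huv
    have hu' := interior_subset hu
    have hv' := interior_subset hv
    rw [(hder u hu').deriv, (hder v hv').deriv, div_le_div_iff₀ (hpos v hv') (hpos u hu')]
    have hx : x ^ 2 ≤ u * v := by
      calc x ^ 2 = |x| * |x| := by rw [← sq, sq_abs]
        _ ≤ u * v := mul_le_mul hu'.2 hv'.2 (abs_nonneg _) hu'.1.le
    nlinarith [mul_nonneg (sub_nonneg.2 huv) (sub_nonneg.2 hx)]

theorem norm_axis_sq (y x η : ℝ) : ‖(⟨0, y⟩ : ℂ) - ⟨x, η⟩‖ ^ 2 = |y - η| ^ 2 + x ^ 2 := by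
  rw [← Complex.normSq_eq_norm_sq, Complex.normSq_apply]
  simp only [Complex.sub_re, Complex.sub_im, sq_abs]
  ring

theorem log_div_norm {D : ℝ} (hD : 0 < D) {z w : ℂ} (h : z ≠ w) :
    Real.log (D / ‖z - w‖) = Real.log D - 1 / 2 * Real.log (‖z - w‖ ^ 2) := by
  have h0 : ‖z - w‖ ≠ 0 := norm_ne_zero_iff.2 (sub_ne_zero.2 h)
  rw [Real.log_div hD.ne' h0, Real.log_pow]
  push_cast
  ring

theorem kap_segment {D α β y x η : ℝ} (hD : 0 < D) (hαβ : α < β) (hy : y ∈ Icc α β)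
    (hside : η ≤ α ∨ β ≤ η) (hxα : |x| ≤ |α - η|) (hxβ : |x| ≤ |β - η|) :
    kap D ⟨0, y⟩ ⟨x, η⟩ ≤
      ENNReal.ofReal (1 - (y - α) / (β - α)) * kap D ⟨0, α⟩ ⟨x, η⟩ +
        ENNReal.ofReal ((y - α) / (β - α)) * kap D ⟨0, β⟩ ⟨x, η⟩ := by
  have hβα : 0 < β - α := sub_pos.2 hαβ
  set s := (y - α) / (β - α) with hs
  have hys : y = (1 - s) * α + s * β := by
    rw [hs]
    field_simp
    ring
  have hs0 : 0 ≤ s := div_nonneg (sub_nonneg.2 hy.1) hβα.le
  have hs1 : s ≤ 1 := by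
    rw [hs, div_le_one hβα]
    linarith [hy.2]
  rcases hs0.eq_or_lt with hs0' | hs0'
  · have : y = α := by rw [hys, ← hs0']; ring
    rw [this, ← hs0']
    simp
  rcases hs1.eq_or_lt with hs1' | hs1'
  · have : y = β := by rw [hys, hs1']; ring
    rw [this, hs1']
    simp
  by_cases hwα : (⟨0, α⟩ : ℂ) = ⟨x, η⟩
  · rw [hwα, kap_self, ENNReal.mul_top]
    · simp
    · rw [Ne, ENNReal.ofReal_eq_zero]
      linarith
  by_cases hwβ : (⟨0, β⟩ : ℂ) = ⟨x, η⟩
  · rw [hwβ, kap_self, ENNReal.mul_top]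
    · simp
    · rw [Ne, ENNReal.ofReal_eq_zero]
      linarith
  have hα0 : 0 < |α - η| := by
    rw [abs_pos]
    intro h0
    rw [h0, abs_zero] at hxα
    apply hwα
    rw [abs_nonpos_iff.1 hxα, sub_eq_zero.1 h0]
  have hβ0 : 0 < |β - η| := by
    rw [abs_pos]
    intro h0
    rw [h0, abs_zero] at hxβ
    apply hwβ
    rw [abs_nonpos_iff.1 hxβ, sub_eq_zero.1 h0]
  have hyη : |y - η| = (1 - s) * |α - η| + s * |β - η| := by
    rcases hside with h | h
    · rw [abs_of_nonneg (by linarith [hy.1]), abs_of_nonneg (by linarith),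
        abs_of_nonneg (by linarith)]
      rw [hys]
      ring
    · rw [abs_of_nonpos (by linarith [hy.2]), abs_of_nonpos (by linarith),
        abs_of_nonpos (by linarith)]
      rw [hys]
      ring
  have hy0 : 0 < |y - η| := by
    rw [hyη]
    have : 0 < 1 - s := by linarith
    positivity
  have hwy : (⟨0, y⟩ : ℂ) ≠ ⟨x, η⟩ := by
    intro h
    have := congrArg Complex.im h
    simp only at this
    rw [this, sub_self, abs_zero] at hy0
    exact lt_irrefl _ hy0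
  have hconc := (concave_log_sq x).2 (show |α - η| ∈ {u : ℝ | 0 < u ∧ |x| ≤ u} from ⟨hα0, hxα⟩)
    (show |β - η| ∈ {u : ℝ | 0 < u ∧ |x| ≤ u} from ⟨hβ0, hxβ⟩) (sub_nonneg.2 hs1) hs0
    (by ring)
  simp only [smul_eq_mul] at hconc
  rw [← hyη, ← norm_axis_sq, ← norm_axis_sq, ← norm_axis_sq] at hconc
  rw [kap_eq_ofReal hwα, kap_eq_ofReal hwβ, kap_eq_ofReal hwy,
    ← ENNReal.ofReal_mul (sub_nonneg.2 hs1), ← ENNReal.ofReal_mul hs0,
    log_div_norm hD hwα, log_div_norm hD hwβ, log_div_norm hD hwy]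
  refine le_trans (ENNReal.ofReal_le_ofReal ?_) ENNReal.ofReal_add_le
  nlinarith

section

variable {D k₁ k₂ ε α β : ℝ} {Γ : Set ℂ} {μ : Measure ℂ}

/-- The points which carry the equilibrium measure when there is a gap `(α, β)`. -/
def GoodPt (ε α β : ℝ) (w : ℂ) : Prop :=
  |w.re| ≤ ε ∧ ((w.re = 0 ∧ (w.im ≤ α ∨ β ≤ w.im)) ∨ 9 / 10 ≤ |w.im|)

theorem gap_pot_le (hD : 0 < D) {F : ℝ} (hα : pot D μ ⟨0, α⟩ ≤ ENNReal.ofReal F)
    (hβ : pot D μ ⟨0, β⟩ ≤ ENNReal.ofReal F) (hαβ : α < β) (hα' : -(8 / 10) ≤ α)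
    (hβ' : β ≤ 8 / 10) (hε : ε ≤ 1 / 10) (hae : ∀ᵐ w ∂μ, GoodPt ε α β w) {y : ℝ}
    (hy : y ∈ Icc α β) : pot D μ ⟨0, y⟩ ≤ ENNReal.ofReal F := by
  have hβα : 0 < β - α := sub_pos.2 hαβ
  set s := (y - α) / (β - α) with hs
  have hs0 : 0 ≤ s := div_nonneg (sub_nonneg.2 hy.1) hβα.le
  have hs1 : s ≤ 1 := by
    rw [hs, div_le_one hβα]
    linarith [hy.2]
  have h1 : pot D μ ⟨0, y⟩ ≤
      ∫⁻ w, (ENNReal.ofReal (1 - s) * kap D ⟨0, α⟩ w + ENNReal.ofReal s * kap D ⟨0, β⟩ w) ∂μ := by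
    apply lintegral_mono_ae
    filter_upwards [hae] with w hw
    obtain ⟨x, η⟩ := w
    obtain ⟨hx, hw⟩ := hw
    simp only at hx hw
    rcases hw with ⟨rfl, hw⟩ | hw
    · exact kap_segment hD hαβ hy hw (by rw [abs_zero]; positivity) (by rw [abs_zero]; positivity)
    · rcases le_abs.1 hw with h | h
      · apply kap_segment hD hαβ hy (Or.inr (by linarith))
        · rw [abs_of_nonpos (by linarith : α - η ≤ 0)]
          linarith
        · rw [abs_of_nonpos (by linarith : β - η ≤ 0)]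
          linarith
      · apply kap_segment hD hαβ hy (Or.inl (by linarith))
        · rw [abs_of_nonneg (by linarith : 0 ≤ α - η)]
          linarith
        · rw [abs_of_nonneg (by linarith : 0 ≤ β - η)]
          linarith
  refine h1.trans ?_
  rw [lintegral_add_left ((measurable_kap_left D _).const_mul _),
    lintegral_const_mul _ (measurable_kap_left D _),
    lintegral_const_mul _ (measurable_kap_left D _)]
  calc ENNReal.ofReal (1 - s) * pot D μ ⟨0, α⟩ + ENNReal.ofReal s * pot D μ ⟨0, β⟩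
      ≤ ENNReal.ofReal (1 - s) * ENNReal.ofReal F + ENNReal.ofReal s * ENNReal.ofReal F := by
        gcongr
    _ = ENNReal.ofReal F := by
        rw [← add_mul, ← ENNReal.ofReal_add (sub_nonneg.2 hs1) hs0, sub_add_cancel,
          ENNReal.ofReal_one, one_mul]

theorem kap_off_axis {z w : ℂ} (hD : 0 < D) (hε : 0 ≤ ε) (hw : |w.re| ≤ ε)
    (hu : 1 / 10 ≤ |z.im - w.im|) :
    kap D z w ≤ kap D ⟨0, z.im⟩ w + ENNReal.ofReal (100 * ε * |z.re|) := by
  have hzw : z ≠ w := by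
    rintro rfl
    rw [sub_self, abs_zero] at hu
    linarith
  have hyw : (⟨0, z.im⟩ : ℂ) ≠ w := by
    intro h
    have := congrArg Complex.im h
    simp only at this
    rw [this, sub_self, abs_zero] at hu
    linarith
  have hA : ‖z - w‖ ^ 2 = (z.im - w.im) ^ 2 + (z.re - w.re) ^ 2 := by
    rw [← Complex.normSq_eq_norm_sq, Complex.normSq_apply]
    simp only [Complex.sub_re, Complex.sub_im]
    ring
  have hB : ‖(⟨0, z.im⟩ : ℂ) - w‖ ^ 2 = (z.im - w.im) ^ 2 + w.re ^ 2 := by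
    rw [← Complex.normSq_eq_norm_sq, Complex.normSq_apply]
    simp only [Complex.sub_re, Complex.sub_im]
    ring
  have hu2 : 1 / 100 ≤ (z.im - w.im) ^ 2 := by
    rw [← sq_abs]
    nlinarith
  have hApos : 1 / 100 ≤ ‖z - w‖ ^ 2 := by
    rw [hA]
    nlinarith [sq_nonneg (z.re - w.re)]
  have hBpos : 0 < ‖(⟨0, z.im⟩ : ℂ) - w‖ ^ 2 := by
    rw [hB]
    nlinarith [sq_nonneg w.re]
  have hx : z.re * w.re ≤ ε * |z.re| := by
    calc z.re * w.re ≤ |z.re * w.re| := le_abs_self _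
      _ = |z.re| * |w.re| := abs_mul _ _
      _ ≤ |z.re| * ε := by gcongr
      _ = ε * |z.re| := mul_comm _ _
  have hdiff : ‖(⟨0, z.im⟩ : ℂ) - w‖ ^ 2 - ‖z - w‖ ^ 2 ≤ 2 * (ε * |z.re|) := by
    rw [hA, hB]
    nlinarith [sq_nonneg z.re]
  have hq : Real.log (‖(⟨0, z.im⟩ : ℂ) - w‖ ^ 2) - Real.log (‖z - w‖ ^ 2) ≤
      200 * (ε * |z.re|) := by
    have hA0 : 0 < ‖z - w‖ ^ 2 := by linarith
    rw [← Real.log_div hBpos.ne' hA0.ne']
    refine (Real.log_le_sub_one_of_pos (div_pos hBpos hA0)).trans ?_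
    rw [div_sub_one hA0.ne', div_le_iff₀ hA0]
    have : 0 ≤ ε * |z.re| := by positivity
    nlinarith
  rw [kap_eq_ofReal hzw, kap_eq_ofReal hyw, log_div_norm hD hzw, log_div_norm hD hyw]
  refine le_trans (ENNReal.ofReal_le_ofReal ?_) ENNReal.ofReal_add_le
  linarith

theorem gap_pot_off_le [IsProbabilityMeasure μ] (hD : 0 < D) {F : ℝ}
    (hα : pot D μ ⟨0, α⟩ ≤ ENNReal.ofReal F)
    (hβ : pot D μ ⟨0, β⟩ ≤ ENNReal.ofReal F) (hαβ : α < β) (hα' : -(8 / 10) ≤ α)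
    (hβ' : β ≤ 8 / 10) (hε0 : 0 ≤ ε) (hε : ε ≤ 1 / 10) (hae : ∀ᵐ w ∂μ, GoodPt ε α β w) {z : ℂ}
    (hz : z.im ∈ Icc α β) :
    pot D μ z ≤ ENNReal.ofReal F + ENNReal.ofReal (100 * ε * |z.re|) := by
  have h1 : pot D μ z ≤
      ∫⁻ w, (kap D ⟨0, z.im⟩ w + ENNReal.ofReal (100 * ε * |z.re|)) ∂μ := by
    apply lintegral_mono_ae
    filter_upwards [hae] with w hw
    obtain ⟨hx, ⟨h0, -⟩ | hw⟩ := hw
    · refine le_trans (kap_mono hD ?_) le_self_add
      rw [← Real.sqrt_sq (norm_nonneg ((⟨0, z.im⟩ : ℂ) - w)), ← Real.sqrt_sq (norm_nonneg (z - w))]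
      apply Real.sqrt_le_sqrt
      rw [← Complex.normSq_eq_norm_sq, Complex.normSq_apply, ← Complex.normSq_eq_norm_sq,
        Complex.normSq_apply]
      simp only [Complex.sub_re, Complex.sub_im, h0]
      nlinarith [sq_nonneg z.re]
    · apply kap_off_axis hD hε0 hx
      rcases le_abs.1 hw with h | h
      · rw [abs_sub_comm]
        refine le_trans ?_ (le_abs_self _)
        linarith [hz.2]
      · refine le_trans ?_ (le_abs_self _)
        linarith [hz.1]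
  refine h1.trans ?_
  rw [lintegral_add_left (measurable_kap_left D _), lintegral_const, measure_univ, mul_one]
  gcongr
  exact gap_pot_le hD hα hβ hαβ hα' hβ' hε hae hz

end

end Pool.Agent.Helper25.SCurve
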