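import Pool.Agent.Helper25.SCurve.Setup

/-!
# The S-property at a point of the imaginary axis determines the horizontal field there
-/

namespace Pool.Agent.Helper25.SCurve

open MeasureTheory Set Filter Topology
open scoped ENNReal

/-- Twice the horizontal field at `i y` of a unit mass at `w`. -/
noncomputable def fld (y : ℝ) (w : ℂ) : ℝ := 2 * w.re / (w.re ^ 2 + (y - w.im) ^ 2)

/-- The difference of the logarithmic kernels at `s + i y` and `-s + i y`. -/
noncomputable def dk (y s : ℝ) (w : ℂ) : ℝ :=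
  1 / 2 * Real.log ((s + w.re) ^ 2 + (y - w.im) ^ 2) -
    1 / 2 * Real.log ((s - w.re) ^ 2 + (y - w.im) ^ 2)

theorem log_sub_log_abs {A B c : ℝ} (hc : 0 < c) (hA : c ≤ A) (hB : c ≤ B) :
    |Real.log A - Real.log B| ≤ |A - B| / c := by
  have key : ∀ A B : ℝ, c ≤ A → c ≤ B → Real.log A - Real.log B ≤ |A - B| / c := by
    intro A B hA hB
    have hA0 : 0 < A := by linarith
    have hB0 : 0 < B := by linarith
    rw [← Real.log_div hA0.ne' hB0.ne']
    refine (Real.log_le_sub_one_of_pos (div_pos hA0 hB0)).trans ?_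
    rw [div_sub_one hB0.ne']
    calc (A - B) / B ≤ |A - B| / B := by gcongr; exact le_abs_self _
      _ ≤ |A - B| / c := by gcongr
  rw [abs_le]
  constructor
  · have := key B A hB hA
    rw [abs_sub_comm] at this
    linarith
  · exact key A B hA hB

theorem dk_zero_re {y s : ℝ} {w : ℂ} (h : w.re = 0) : dk y s w = 0 := by
  unfold dk
  rw [h, add_zero, sub_zero, sub_self]

theorem abs_dk_le {y s : ℝ} {w : ℂ} (hs : 0 < s) (hw : |w.re| ≤ 1 / 200)
    (hu : 1 / 10 ≤ |y - w.im|) : |dk y s w| ≤ s := by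
  have hu2 : 1 / 100 ≤ (y - w.im) ^ 2 := by
    rw [← sq_abs]
    nlinarith
  have h1 := log_sub_log_abs (A := (s + w.re) ^ 2 + (y - w.im) ^ 2)
    (B := (s - w.re) ^ 2 + (y - w.im) ^ 2) (by norm_num : (0 : ℝ) < 1 / 100)
    (by nlinarith [sq_nonneg (s + w.re)]) (by nlinarith [sq_nonneg (s - w.re)])
  have h2 : (s + w.re) ^ 2 + (y - w.im) ^ 2 - ((s - w.re) ^ 2 + (y - w.im) ^ 2) =
      4 * s * w.re := by ring
  rw [h2, abs_mul, abs_of_pos (by linarith : 0 < 4 * s)] at h1
  have h3 : dk y s w = 1 / 2 * (Real.log ((s + w.re) ^ 2 + (y - w.im) ^ 2) -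
    Real.log ((s - w.re) ^ 2 + (y - w.im) ^ 2)) := by
    unfold dk
    ring
  rw [h3, abs_mul, abs_of_pos (by norm_num : (0 : ℝ) < 1 / 2)]
  have h4 : 4 * s * |w.re| / (1 / 100) ≤ 2 * s := by
    rw [div_le_iff₀ (by norm_num)]
    nlinarith
  linarith

theorem measurable_dk (y s : ℝ) : Measurable (dk y s) := by
  unfold dk
  have h1 := Complex.measurable_re
  have h2 := Complex.measurable_im
  fun_prop

theorem tendsto_dk {y : ℝ} {w : ℂ} (h : w.re = 0 ∨ 1 / 10 ≤ |y - w.im|) :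
    Tendsto (fun s => dk y s w / s) (𝓝[>] 0) (𝓝 (fld y w)) := by
  rcases h with h | h
  · have h1 : fld y w = 0 := by
      unfold fld
      rw [h]
      simp
    rw [h1]
    have h2 : (fun s => dk y s w / s) = fun _ => (0 : ℝ) := by
      funext s
      rw [dk_zero_re h, zero_div]
    rw [h2]
    exact tendsto_const_nhds
  · have hu2 : 1 / 100 ≤ (y - w.im) ^ 2 := by
      rw [← sq_abs]
      nlinarith
    have hpos : 0 < w.re ^ 2 + (y - w.im) ^ 2 := by nlinarith [sq_nonneg w.re]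
    have d1 : HasDerivAt (fun s : ℝ => (s + w.re) ^ 2 + (y - w.im) ^ 2) (2 * w.re) 0 := by
      have := (((hasDerivAt_id (0 : ℝ)).add_const w.re).pow 2).add_const ((y - w.im) ^ 2)
      simpa using this
    have d2 : HasDerivAt (fun s : ℝ => (s - w.re) ^ 2 + (y - w.im) ^ 2) (-(2 * w.re)) 0 := by
      have := (((hasDerivAt_id (0 : ℝ)).sub_const w.re).pow 2).add_const ((y - w.im) ^ 2)
      simpa using this
    have e1 : (fun s : ℝ => (s + w.re) ^ 2 + (y - w.im) ^ 2) 0 ≠ 0 := by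
      simp only [zero_add]
      exact hpos.ne'
    have e2 : (fun s : ℝ => (s - w.re) ^ 2 + (y - w.im) ^ 2) 0 ≠ 0 := by
      simp only [zero_sub, neg_sq]
      exact hpos.ne'
    have d3 := ((d1.log e1).const_mul (1 / 2 : ℝ)).sub ((d2.log e2).const_mul (1 / 2 : ℝ))
    have hval : 1 / 2 * (2 * w.re / ((0 + w.re) ^ 2 + (y - w.im) ^ 2)) -
        1 / 2 * (-(2 * w.re) / ((0 - w.re) ^ 2 + (y - w.im) ^ 2)) = fld y w := by
      unfold fld
      simp only [zero_add, zero_sub, neg_sq]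
      field_simp
      ring
    have d4 : HasDerivAt (fun s => dk y s w) (fld y w) 0 := by
      rw [← hval]
      exact d3
    have h3 := d4.tendsto_slope_zero_right
    have h4 : dk y 0 w = 0 := by
      unfold dk
      rw [zero_add, zero_sub, neg_sq, sub_self]
    refine h3.congr fun s => ?_
    rw [zero_add, h4, sub_zero, smul_eq_mul, div_eq_inv_mul]

section

variable {k₁ k₂ ε₁ ε₂ D y : ℝ} {Γ : Set ℂ} {μ : Measure ℂ}

theorem real_of_total (hD : 1 ≤ D) {z : ℂ} (hΓ : ∀ w ∈ Γ, ‖z - w‖ ≤ D) (hμ : IsProbOn Γ μ) {v : ℝ}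
    (hv : totalPotential k₁ k₂ μ z = (v : EReal)) :
    pot D μ z ≠ ⊤ ∧ v = (pot D μ z).toReal - Real.log D + phi k₁ k₂ z := by
  rw [totalPotential_eq hD hΓ hμ] at hv
  by_cases h : pot D μ z = ⊤
  · rw [h] at hv
    simp only [EReal.coe_ennreal_top, EReal.top_sub_coe, EReal.top_add_coe] at hv
    exact absurd hv.symm (EReal.coe_ne_top v)
  · refine ⟨h, ?_⟩
    rw [← ENNReal.ofReal_toReal h, EReal.coe_ennreal_ofReal, max_eq_left ENNReal.toReal_nonneg,
      ← EReal.coe_sub, ← EReal.coe_add, EReal.coe_eq_coe_iff] at hv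
    exact hv.symm

theorem pot_toReal {z : ℂ} (h : pot D μ z ≠ ⊤) :
    Integrable (fun w => (kap D z w).toReal) μ ∧
      (pot D μ z).toReal = ∫ w, (kap D z w).toReal ∂μ :=
  ⟨integrable_toReal_of_lintegral_ne_top (measurable_kap_left D z).aemeasurable h,
    (integral_toReal (measurable_kap_left D z).aemeasurable
      (ae_lt_top (measurable_kap_left D z) h)).symm⟩

theorem norm_pt_sub_sq (x y : ℝ) (w : ℂ) :
    ‖(⟨x, y⟩ : ℂ) - w‖ ^ 2 = (x - w.re) ^ 2 + (y - w.im) ^ 2 := by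
  rw [← Complex.normSq_eq_norm_sq, Complex.normSq_apply]
  simp only [Complex.sub_re, Complex.sub_im]
  ring

/-- The vertical direction of the arc. -/
theorem Setup.tangent (h : Setup k₁ k₂ ε₁ ε₂ Γ D μ) (hy : |y| ≤ 8 / 10) {τ : ℂ}
    (harc : IsAnalyticArcAt μ.support ⟨0, y⟩ τ) :
    Complex.I * τ / ‖τ‖ = 1 ∨ Complex.I * τ / ‖τ‖ = -1 := by
  obtain ⟨γ, hγa, -, hder, hγ0, hγτ, V, -, hSV⟩ := harc
  have h0 : (0 : ℝ) ∈ Ioo (-1 : ℝ) 1 := by constructor <;> norm_num
  have hd : HasDerivAt γ τ 0 := by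
    rw [← hγτ]
    exact (hγa 0 h0).differentiableAt.hasDerivAt
  have hτ : τ ≠ 0 := by
    rw [← hγτ]
    exact hder 0 h0
  have hre : HasDerivAt (fun s => (γ s).re) τ.re 0 := by
    exact (Complex.reCLM.hasFDerivAt (x := γ 0)).comp_hasDerivAt (0 : ℝ) hd
  have hzero : (fun s => (γ s).re) =ᶠ[𝓝 0] fun _ => (0 : ℝ) := by
    have h1 : ∀ᶠ s in 𝓝 (0 : ℝ), |(γ s).im| < 9 / 10 := by
      have hc : ContinuousAt (fun s => |(γ s).im|) 0 :=
        (Complex.continuous_im.abs.continuousAt).comp hd.continuousAt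
      apply hc.eventually_lt continuousAt_const
      simp only [hγ0]
      linarith
    filter_upwards [h1, Ioo_mem_nhds h0.1 h0.2] with s h2 h3
    have h4 : γ s ∈ μ.support ∩ V := by
      rw [hSV]
      exact ⟨s, h3, rfl⟩
    exact h.re_eq_zero h4.1 h2
  have hτre : τ.re = 0 := by
    have h1 := (hasDerivAt_const (0 : ℝ) (0 : ℝ)).congr_of_eventuallyEq hzero
    exact hre.unique h1
  have hτim : τ = (τ.im : ℂ) * Complex.I := by
    apply Complex.ext
    · simp [hτre]
    · simp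
  have hτim0 : τ.im ≠ 0 := by
    intro h1
    apply hτ
    rw [hτim, h1]
    simp
  have hI : Complex.I * τ = -(τ.im : ℂ) := by
    rw [hτim]
    simp only [Complex.mul_im, Complex.ofReal_re, Complex.I_im, Complex.ofReal_im, Complex.I_re,
      mul_zero, mul_one, add_zero]
    linear_combination (τ.im : ℂ) * Complex.I_mul_I
  have hn : ‖τ‖ = |τ.im| := by
    rw [hτim, norm_mul, Complex.norm_real, Complex.norm_I, mul_one, Real.norm_eq_abs]
    simp
  rw [hI, hn]
  rcases lt_or_gt_of_ne hτim0 with h1 | h1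
  · left
    rw [abs_of_neg h1]
    push_cast
    have : (τ.im : ℂ) ≠ 0 := by exact_mod_cast hτim0
    field_simp
  · right
    rw [abs_of_pos h1]
    have : (τ.im : ℂ) ≠ 0 := by exact_mod_cast hτim0
    field_simp

/-- The identity from the S-property at a point `i y` of the support. -/
theorem Setup.identity (h : Setup k₁ k₂ ε₁ ε₂ Γ D μ) (hz : (⟨0, y⟩ : ℂ) ∈ μ.support)
    (hy : |y| ≤ 8 / 10) {τ : ℂ} {d : ℝ} (harc : IsAnalyticArcAt μ.support ⟨0, y⟩ τ)
    (hd1 : HasOneSidedDeriv (totalPotential k₁ k₂ μ) ⟨0, y⟩ (Complex.I * τ / ‖τ‖) d)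
    (hd2 : HasOneSidedDeriv (totalPotential k₁ k₂ μ) ⟨0, y⟩ (-(Complex.I * τ / ‖τ‖)) d) :
    ∫ w, fld y w ∂μ = k₁ - k₂ := by
  have hμp := h.minim.mem.isProb
  obtain ⟨hp, hm⟩ : HasOneSidedDeriv (totalPotential k₁ k₂ μ) ⟨0, y⟩ 1 d ∧
      HasOneSidedDeriv (totalPotential k₁ k₂ μ) ⟨0, y⟩ (-1) d := by
    rcases h.tangent hy harc with h1 | h1
    · rw [h1] at hd1 hd2
      exact ⟨hd1, hd2⟩
    · rw [h1] at hd1 hd2
      rw [neg_neg] at hd2
      exact ⟨hd2, hd1⟩
  obtain ⟨wp, hwp, hwpd⟩ := hp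
  obtain ⟨wm, hwm, hwmd⟩ := hm
  have hzΓ := h.support_subset hz
  set D₂ := D + 1 with hD₂
  have hD1 : 1 ≤ D₂ := by linarith [h.two_le]
  have hdist : ∀ s : ℝ, |s| ≤ 1 → ∀ w ∈ Γ, ‖(⟨s, y⟩ : ℂ) - w‖ ≤ D₂ := by
    intro s hs w hw
    have h1 := h.box.dist _ hzΓ _ hw
    have h2 : ‖(⟨s, y⟩ : ℂ) - ⟨0, y⟩‖ = |s| := by
      have : (⟨s, y⟩ : ℂ) - ⟨0, y⟩ = (s : ℂ) := by
        apply Complex.ext <;> simp
      rw [this, Complex.norm_real, Real.norm_eq_abs]
    have h3 := norm_sub_le_norm_sub_add_norm_sub (⟨s, y⟩ : ℂ) ⟨0, y⟩ w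
    linarith
  have hplus : ∀ s : ℝ, (⟨0, y⟩ : ℂ) + (s : ℂ) * 1 = ⟨s, y⟩ := by
    intro s
    apply Complex.ext <;> simp
  have hminus : ∀ s : ℝ, (⟨0, y⟩ : ℂ) + (s : ℂ) * -1 = ⟨-s, y⟩ := by
    intro s
    apply Complex.ext <;> simp
  -- the values at `0` agree
  have hw0 : wp 0 = wm 0 := by
    have h1 := hwp.self_of_nhdsWithin (mem_Ici.2 le_rfl)
    have h2 := hwm.self_of_nhdsWithin (mem_Ici.2 le_rfl)
    rw [hplus 0] at h1
    rw [hminus 0, neg_zero] at h2
    rw [h1, EReal.coe_eq_coe_iff] at h2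
    exact h2
  -- the difference quotient of `wp - wm` tends to `0`
  have hq0 : Tendsto (fun s => (wp s - wm s) / s) (𝓝[>] 0) (𝓝 0) := by
    have h1 := (hwpd.sub hwmd).mono Ioi_subset_Ici_self
    rw [hasDerivWithinAt_iff_tendsto_slope' (by simp), sub_self] at h1
    refine h1.congr' ?_
    filter_upwards with s
    rw [slope_def_field, Pi.sub_apply, Pi.sub_apply, hw0, sub_self, sub_zero, sub_zero]
  -- the formula for the difference
  have hform : ∀ᶠ s in 𝓝[>] (0 : ℝ), (wp s - wm s) / s = ∫ w, dk y s w / s ∂μ - (k₁ - k₂) := by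
    have e1 : ∀ᶠ s : ℝ in 𝓝[>] (0 : ℝ),
        totalPotential k₁ k₂ μ ((⟨0, y⟩ : ℂ) + (s : ℂ) * 1) = ((wp s : ℝ) : EReal) :=
      hwp.filter_mono (nhdsWithin_mono _ Ioi_subset_Ici_self)
    have e2 : ∀ᶠ s : ℝ in 𝓝[>] (0 : ℝ),
        totalPotential k₁ k₂ μ ((⟨0, y⟩ : ℂ) + (s : ℂ) * -1) = ((wm s : ℝ) : EReal) :=
      hwm.filter_mono (nhdsWithin_mono _ Ioi_subset_Ici_self)
    filter_upwards [e1, e2, self_mem_nhdsWithin, Ioo_mem_nhdsGT (by norm_num : (0 : ℝ) < 1)]
      with s h1 h2 hs0 hs1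
    have hs0' : 0 < s := hs0
    rw [hplus] at h1
    rw [hminus] at h2
    have hsabs : |s| ≤ 1 := by rw [abs_of_pos hs0']; exact hs1.2.le
    have hsabs' : |-s| ≤ 1 := by rwa [abs_neg]
    obtain ⟨f1, g1⟩ := real_of_total hD1 (hdist s hsabs) h.minim.mem h1
    obtain ⟨f2, g2⟩ := real_of_total hD1 (hdist (-s) hsabs') h.minim.mem h2
    obtain ⟨i1, j1⟩ := pot_toReal f1
    obtain ⟨i2, j2⟩ := pot_toReal f2
    have hphi1 : phi k₁ k₂ ⟨s, y⟩ = -k₁ * s := by
      unfold phi
      rw [if_pos (by simpa using hs0')]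
    have hphi2 : phi k₁ k₂ ⟨-s, y⟩ = -k₂ * s := by
      unfold phi
      rw [if_neg (by simp only [not_lt]; linarith)]
      simp only
      ring
    have hΓae : ∀ᵐ w ∂μ, w ∈ Γ := by
      rw [ae_iff]; exact h.minim.mem.compl
    have hint : ∫ w, dk y s w ∂μ =
        (pot D₂ μ ⟨s, y⟩).toReal - (pot D₂ μ ⟨-s, y⟩).toReal := by
      rw [j1, j2, ← integral_sub i1 i2]
      apply integral_congr_ae
      filter_upwards [hΓae, h.small] with w hw1 hw2
      have hne : ∀ σ : ℝ, σ ≠ 0 → (⟨σ, y⟩ : ℂ) ≠ w := by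
        intro σ hσ h3
        have h4 : w.re = σ := by rw [← h3]
        have h5 : w.im = y := by rw [← h3]
        have h6 := hw2.2.2 (by rw [h5]; linarith)
        rw [h6] at h4
        exact hσ h4.symm
      rw [kap_toReal (hne s hs0'.ne') (hdist s hsabs w hw1),
        kap_toReal (hne (-s) (neg_ne_zero.2 hs0'.ne')) (hdist (-s) hsabs' w hw1),
        log_div_norm (by linarith) (hne s hs0'.ne'),
        log_div_norm (by linarith) (hne (-s) (neg_ne_zero.2 hs0'.ne')),
        norm_pt_sub_sq, norm_pt_sub_sq]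
      unfold dk
      have : (-s - w.re) ^ 2 = (s + w.re) ^ 2 := by ring
      rw [this]
      ring
    rw [integral_div, hint, g1, g2, hphi1, hphi2]
    field_simp
    ring
  have hlim : Tendsto (fun s => ∫ w, dk y s w / s ∂μ) (𝓝[>] 0) (𝓝 (∫ w, fld y w ∂μ)) := by
    apply tendsto_integral_filter_of_dominated_convergence (fun _ => (1 : ℝ))
    · filter_upwards with s
      exact ((measurable_dk y s).div_const s).aestronglyMeasurable
    · filter_upwards [self_mem_nhdsWithin] with s hs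
      have hs' : 0 < s := hs
      filter_upwards [h.small] with w hw
      rw [Real.norm_eq_abs, abs_div, abs_of_pos hs', div_le_one hs']
      by_cases h3 : w.re = 0
      · rw [dk_zero_re h3, abs_zero]
        exact hs'.le
      · apply abs_dk_le hs' hw.1
        by_contra h4
        apply h3
        apply hw.2.2
        push Not at h4
        have h5 := abs_sub_abs_le_abs_sub w.im y
        rw [abs_sub_comm] at h5
        linarith
    · exact integrable_const _
    · filter_upwards [h.small] with w hw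
      apply tendsto_dk
      by_cases h3 : w.re = 0
      · exact Or.inl h3
      · right
        by_contra h4
        apply h3
        apply hw.2.2
        push Not at h4
        have h5 := abs_sub_abs_le_abs_sub w.im y
        rw [abs_sub_comm] at h5
        linarith
  have hlim2 := (hlim.sub_const (k₁ - k₂)).congr' (hform.mono fun s hs => hs.symm)
  have := tendsto_nhds_unique hlim2 hq0
  linarith

end

end Pool.Agent.Helper25.SCurve
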