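import Pool.Agent.Helper25.SCurve.Crit

/-!
# Lower semicontinuity of the energy and compactness
-/

namespace Pool.Agent.Helper25.SCurve

open MeasureTheory Set Filter Topology
open scoped ENNReal NNReal BoundedContinuousFunction

theorem kap_eq_ofReal {D : ℝ} {z w : ℂ} (h : z ≠ w) :
    kap D z w = ENNReal.ofReal (Real.log (D / ‖z - w‖)) := by
  unfold kap
  rw [if_neg h]

theorem kap_self (D : ℝ) (z : ℂ) : kap D z z = ⊤ := by
  unfold kap
  rw [if_pos rfl]

/-- The kernel is continuous as a function with values in `[0, ∞]`. -/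
theorem continuous_kap {D : ℝ} (hD : 0 < D) : Continuous (fun p : ℂ × ℂ => kap D p.1 p.2) := by
  rw [continuous_iff_continuousAt]
  intro p
  rcases eq_or_ne p.1 p.2 with h | h
  · unfold ContinuousAt
    simp only
    rw [show kap D p.1 p.2 = ⊤ by rw [h, kap_self], ENNReal.tendsto_nhds_top_iff_nnreal]
    intro x
    have h1 : Tendsto (fun q : ℂ × ℂ => ‖q.1 - q.2‖) (𝓝 p) (𝓝 0) := by
      have : Continuous (fun q : ℂ × ℂ => ‖q.1 - q.2‖) := by fun_prop
      have h2 := this.tendsto p
      rwa [h, sub_self, norm_zero] at h2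
    have h2 : ∀ᶠ q in 𝓝 p, ‖q.1 - q.2‖ < D * Real.exp (-(x + 1 : ℝ)) :=
      h1.eventually_lt_const (by positivity)
    filter_upwards [h2] with q hq
    rcases eq_or_ne q.1 q.2 with hq' | hq'
    · rw [hq', kap_self]
      exact ENNReal.coe_lt_top
    · rw [kap_eq_ofReal hq', ENNReal.lt_ofReal_iff_toReal_lt ENNReal.coe_ne_top]
      have h3 : 0 < ‖q.1 - q.2‖ := norm_pos_iff.2 (sub_ne_zero.2 hq')
      have h4 : Real.exp (x + 1 : ℝ) < D / ‖q.1 - q.2‖ := by
        rw [lt_div_iff₀ h3]
        calc Real.exp (x + 1) * ‖q.1 - q.2‖ < Real.exp (x + 1) * (D * Real.exp (-(x + 1 : ℝ))) := by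
              gcongr
          _ = D * (Real.exp (x + 1) * Real.exp (-(x + 1 : ℝ))) := by ring
          _ = D := by rw [← Real.exp_add]; simp
      have h5 : (x : ℝ) + 1 < Real.log (D / ‖q.1 - q.2‖) := by
        rw [Real.lt_log_iff_exp_lt (by positivity)]
        exact h4
      simp only [ENNReal.coe_toReal]
      linarith
  · have h1 : ∀ᶠ q : ℂ × ℂ in 𝓝 p, q.1 ≠ q.2 :=
      (isOpen_ne_fun continuous_fst continuous_snd).mem_nhds h
    have h2 : (fun q : ℂ × ℂ => ENNReal.ofReal (Real.log (D / ‖q.1 - q.2‖))) =ᶠ[𝓝 p]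
        (fun q : ℂ × ℂ => kap D q.1 q.2) := by
      filter_upwards [h1] with q hq
      rw [kap_eq_ofReal hq]
    refine ContinuousAt.congr ?_ h2
    have h3 : ‖p.1 - p.2‖ ≠ 0 := (norm_pos_iff.2 (sub_ne_zero.2 h)).ne'
    apply ENNReal.continuous_ofReal.continuousAt.comp
    apply ContinuousAt.log
    · exact ContinuousAt.div continuousAt_const (by fun_prop) h3
    · positivity

/-- Truncation of a continuous `[0, ∞]`-valued function. -/
noncomputable def trunc {X : Type*} [TopologicalSpace X] (f : X → ℝ≥0∞) (hf : Continuous f)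
    (n : ℕ) : X →ᵇ ℝ≥0 :=
  BoundedContinuousFunction.mkOfBound
    ⟨fun x => (min (f x) n).toNNReal, by
      rw [continuous_iff_continuousAt]
      intro x
      have h1 : ContinuousAt (fun x => min (f x) n) x := (hf.min continuous_const).continuousAt
      have h2 : min (f x) (n : ℝ≥0∞) ≠ ⊤ := ne_top_of_le_ne_top (ENNReal.natCast_ne_top n)
        (min_le_right _ _)
      exact (ENNReal.tendsto_toNNReal h2).comp h1⟩ n (by
      intro x y
      have key : ∀ x, ((min (f x) (n : ℝ≥0∞)).toNNReal : ℝ) ∈ Icc (0 : ℝ) n := by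
        intro x
        refine ⟨NNReal.coe_nonneg _, ?_⟩
        have h : (min (f x) (n : ℝ≥0∞)).toNNReal ≤ (n : ℝ≥0) := by
          have := ENNReal.toNNReal_mono (ENNReal.natCast_ne_top n) (min_le_right (f x) (n : ℝ≥0∞))
          simpa using this
        exact_mod_cast h
      rw [NNReal.dist_eq]
      have hx := key x
      have hy := key y
      simp only [ContinuousMap.coe_mk]
      rw [abs_le]
      constructor <;> linarith [hx.1, hx.2, hy.1, hy.2])

theorem coe_trunc {X : Type*} [TopologicalSpace X] (f : X → ℝ≥0∞) (hf : Continuous f)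
    (n : ℕ) (x : X) : ((trunc f hf n x : ℝ≥0) : ℝ≥0∞) = min (f x) n := by
  change (((min (f x) n).toNNReal : ℝ≥0) : ℝ≥0∞) = min (f x) n
  rw [ENNReal.coe_toNNReal]
  exact ne_top_of_le_ne_top (ENNReal.natCast_ne_top n) (min_le_right _ _)

theorem lintegral_eq_iSup_trunc {X : Type*} [TopologicalSpace X] [MeasurableSpace X]
    [OpensMeasurableSpace X] (f : X → ℝ≥0∞) (hf : Continuous f) (μ : Measure X) :
    ∫⁻ x, f x ∂μ = ⨆ n : ℕ, ∫⁻ x, (trunc f hf n x : ℝ≥0∞) ∂μ := by
  rw [← lintegral_iSup]
  · apply lintegral_congr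
    intro x
    simp only [coe_trunc]
    apply le_antisymm
    · rcases eq_or_ne (f x) ⊤ with h | h
      · rw [h]
        simp only [min_eq_right le_top]
        rw [ENNReal.iSup_natCast]
      · obtain ⟨n, hn⟩ := ENNReal.exists_nat_gt h
        exact le_iSup_of_le n (le_min le_rfl hn.le)
    · exact iSup_le fun n => min_le_left _ _
  · intro n
    simp only [coe_trunc]
    exact (hf.min continuous_const).measurable
  · intro m n hmn x
    simp only [coe_trunc]
    gcongr

theorem lsc_lintegral {X : Type*} [TopologicalSpace X] [MeasurableSpace X]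
    [OpensMeasurableSpace X] (f : X → ℝ≥0∞) (hf : Continuous f) :
    LowerSemicontinuous (fun μ : ProbabilityMeasure X => ∫⁻ x, f x ∂(μ : Measure X)) := by
  have h : (fun μ : ProbabilityMeasure X => ∫⁻ x, f x ∂(μ : Measure X)) =
      fun μ : ProbabilityMeasure X => ⨆ n : ℕ, ∫⁻ x, (trunc f hf n x : ℝ≥0∞) ∂(μ : Measure X) := by
    funext μ
    exact lintegral_eq_iSup_trunc f hf _
  rw [h]
  apply lowerSemicontinuous_iSup
  intro n
  exact (ProbabilityMeasure.continuous_lintegral_boundedContinuousFunction _).lowerSemicontinuous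

theorem continuous_prod_self : Continuous (fun μ : ProbabilityMeasure ℂ => μ.prod μ) := by
  have h := ProbabilityMeasure.continuous_prod (α := ℂ) (β := ℂ)
  exact h.comp (continuous_id.prodMk continuous_id)

theorem lsc_lintegral_prod (f : ℂ × ℂ → ℝ≥0∞) (hf : Continuous f) :
    LowerSemicontinuous (fun μ : ProbabilityMeasure ℂ =>
      ∫⁻ p, f p ∂((μ : Measure ℂ).prod (μ : Measure ℂ))) :=
  (lsc_lintegral f hf).comp continuous_prod_self

theorem isCompact_probOn {Γ : Set ℂ} (hΓ : IsCompact Γ) :
    IsCompact {μ : ProbabilityMeasure ℂ | (μ : Measure ℂ) Γᶜ = 0} := by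
  have h := isCompact_setOfPred_probabilityMeasure_mass_eq_compl_isCompact_le (E := ℂ)
    (u := fun _ => 0) (K := fun _ => Γ) tendsto_const_nhds (fun _ => hΓ) (Or.inl inferInstance)
  convert h using 1
  ext μ
  simp only [mem_ofPred_eq, nonpos_iff_eq_zero, forall_const,
    ProbabilityMeasure.null_iff_toMeasure_null]

/-- The potential is lower semicontinuous. -/
theorem lsc_pot {D : ℝ} (hD : 0 < D) (μ : Measure ℂ) [IsFiniteMeasure μ] :
    LowerSemicontinuous (pot D μ) := by
  have hc := continuous_kap hD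
  have h1 : ∀ z, Continuous (fun w => kap D z w) := fun z =>
    hc.comp (f := fun w => (z, w)) (by fun_prop)
  have h : pot D μ = fun z => ⨆ n : ℕ, ∫⁻ w, min (kap D z w) n ∂μ := by
    funext z
    unfold pot
    rw [lintegral_eq_iSup_trunc _ (h1 z)]
    simp only [coe_trunc]
  rw [h]
  apply lowerSemicontinuous_iSup
  intro n
  apply Continuous.lowerSemicontinuous
  rw [continuous_iff_continuousAt]
  intro z
  apply tendsto_lintegral_filter_of_dominated_convergence (fun _ => (n : ℝ≥0∞))
  · refine Eventually.of_forall fun z => ?_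
    exact ((h1 z).min continuous_const).measurable
  · refine Eventually.of_forall fun z => ae_of_all _ fun w => min_le_right _ _
  · rw [lintegral_const]
    exact ENNReal.mul_ne_top (ENNReal.natCast_ne_top n) (measure_ne_top _ _)
  · refine ae_of_all _ fun w => ?_
    have h2 : Continuous (fun z => kap D z w) := hc.comp (f := fun z => (z, w)) (by fun_prop)
    exact (h2.min continuous_const).tendsto z

end Pool.Agent.Helper25.SCurve
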