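import Mathlib

/-!
# A one-sided derivative of a logarithmic potential
-/

namespace Pool.Agent.Helper25.SCurve

open MeasureTheory Set Filter Topology Real

theorem integrable_log_one_add {c : ℝ} (hc : 0 < c) :
    Integrable (fun v : ℝ => Real.log (1 + (1 / (c * v)) ^ 2)) := by
  have hmeas : Measurable (fun v : ℝ => Real.log (1 + (1 / (c * v)) ^ 2)) := by fun_prop
  have h1 : IntegrableOn (fun v : ℝ => Real.log (1 + (1 / (c * v)) ^ 2)) (Icc (-1) 1) := by
    have hlog : IntervalIntegrable (fun v : ℝ => Real.log v) volume (-1) 1 :=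
      intervalIntegral.intervalIntegrable_log'
    have h2 : IntervalIntegrable (fun v : ℝ => Real.log (c ^ 2 * v ^ 2 + 1) - 2 * Real.log c -
        2 * Real.log v) volume (-1) 1 := by
      apply IntervalIntegrable.sub _ (hlog.const_mul 2)
      apply Continuous.intervalIntegrable
      apply Continuous.sub _ continuous_const
      apply Continuous.log (by fun_prop)
      intro v
      positivity
    have h3 : IntegrableOn (fun v : ℝ => Real.log (c ^ 2 * v ^ 2 + 1) - 2 * Real.log c -
        2 * Real.log v) (Icc (-1) 1) := by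
      rw [integrableOn_Icc_iff_integrableOn_Ioc]
      exact h2.1
    refine h3.congr ?_
    have : ∀ᵐ x : ℝ, x ∉ ({0} : Set ℝ) := (Set.countable_singleton (0 : ℝ)).ae_notMem _
    apply ae_restrict_of_ae
    filter_upwards [this] with v hv
    have hv' : v ≠ 0 := hv
    have e : 1 + (1 / (c * v)) ^ 2 = (c ^ 2 * v ^ 2 + 1) / (c * v) ^ 2 := by
      field_simp
    rw [e, Real.log_div (by positivity) (by positivity), Real.log_pow, Real.log_mul hc.ne' hv']
    push_cast
    ring
  have h4 : IntegrableOn (fun v : ℝ => Real.log (1 + (1 / (c * v)) ^ 2)) (Icc (-1) 1)ᶜ := by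
    have hb : Integrable (fun v : ℝ => 2 / c ^ 2 * (1 + v ^ 2)⁻¹) :=
      integrable_inv_one_add_sq.const_mul _
    refine (hb.integrableOn (s := (Icc (-1 : ℝ) 1)ᶜ)).mono' hmeas.aestronglyMeasurable ?_
    filter_upwards [ae_restrict_mem measurableSet_Icc.compl] with v hv
    have hv2 : 1 < v ^ 2 := by
      rw [mem_compl_iff, mem_Icc, not_and_or, not_le, not_le] at hv
      rcases hv with h | h <;> nlinarith
    have hv0 : v ≠ 0 := by
      rintro rfl
      norm_num at hv2
    rw [Real.norm_of_nonneg (Real.log_nonneg (by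
      have : 0 ≤ (1 / (c * v)) ^ 2 := by positivity
      linarith))]
    have h5 := Real.log_le_sub_one_of_pos (show 0 < 1 + (1 / (c * v)) ^ 2 by positivity)
    calc Real.log (1 + (1 / (c * v)) ^ 2) ≤ (1 / (c * v)) ^ 2 := by linarith
      _ = 1 / c ^ 2 * (1 / v ^ 2) := by field_simp
      _ ≤ 1 / c ^ 2 * (2 * (1 + v ^ 2)⁻¹) := by
          gcongr
          rw [← div_eq_mul_inv, div_le_div_iff₀ (by positivity) (by positivity)]
          linarith
      _ = 2 / c ^ 2 * (1 + v ^ 2)⁻¹ := by ring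
  have := h1.union h4
  rwa [union_compl_self, integrableOn_univ] at this

theorem abs_cos_sub_ge {θ : ℝ} (hθ : θ ∈ Ioo 0 π) :
    ∃ c : ℝ, 0 < c ∧ ∀ ψ ∈ Icc 0 π, c * |θ - ψ| ≤ |Real.cos θ - Real.cos ψ| := by
  have h0 := hθ.1
  have h1 := hθ.2
  have hpi := Real.pi_pos
  have hs1 : 0 < Real.sin (θ / 2) := Real.sin_pos_of_pos_of_lt_pi (by linarith) (by linarith)
  have hs2 : 0 < Real.cos (θ / 2) :=
    Real.cos_pos_of_mem_Ioo ⟨by linarith, by linarith⟩
  refine ⟨2 * min (Real.sin (θ / 2)) (Real.cos (θ / 2)) / π, by positivity, fun ψ hψ => ?_⟩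
  have e : Real.cos θ - Real.cos ψ = -(2 * Real.sin ((θ + ψ) / 2) * Real.sin ((θ - ψ) / 2)) := by
    rw [Real.cos_sub_cos]; ring
  have hmin : min (Real.sin (θ / 2)) (Real.cos (θ / 2)) ≤ Real.sin ((θ + ψ) / 2) := by
    rcases le_total ((θ + ψ) / 2) (π / 2) with h | h
    · refine (min_le_left _ _).trans ?_
      apply Real.sin_le_sin_of_le_of_le_pi_div_two (by linarith) h
      have := hψ.1
      linarith
    · refine (min_le_right _ _).trans ?_
      rw [← Real.sin_pi_sub ((θ + ψ) / 2), ← Real.sin_pi_div_two_sub]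
      have := hψ.2
      apply Real.sin_le_sin_of_le_of_le_pi_div_two (by linarith) (by linarith) (by linarith)
  have hsin : |θ - ψ| / π ≤ |Real.sin ((θ - ψ) / 2)| := by
    have h2 : |(θ - ψ) / 2| ≤ π / 2 := by
      rw [abs_le]
      have := hψ.1
      have := hψ.2
      constructor <;> linarith
    have h3 := Real.mul_abs_le_abs_sin h2
    rw [abs_div, abs_two] at h3
    calc |θ - ψ| / π = 2 / π * (|θ - ψ| / 2) := by ring
      _ ≤ _ := h3
  rw [e, abs_neg, abs_mul, abs_mul, abs_two]
  have hpos : 0 ≤ min (Real.sin (θ / 2)) (Real.cos (θ / 2)) := by positivity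
  calc 2 * min (Real.sin (θ / 2)) (Real.cos (θ / 2)) / π * |θ - ψ|
      = 2 * min (Real.sin (θ / 2)) (Real.cos (θ / 2)) * (|θ - ψ| / π) := by ring
    _ ≤ 2 * |Real.sin ((θ + ψ) / 2)| * |Real.sin ((θ - ψ) / 2)| := by
        gcongr
        exact hmin.trans (le_abs_self _)

theorem tendsto_slope_log {a θ : ℝ} (ha : 0 < a) (hθ : θ ∈ Ioo 0 π) :
    ∃ L : ℝ, Tendsto (fun s : ℝ => (∫ ψ in Ioc 0 π,
      Real.log (1 + (s / (a * (Real.cos θ - Real.cos ψ))) ^ 2) * (1 + Real.cos ψ)) / s)
      (𝓝[>] 0) (𝓝 L) := by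
  obtain ⟨c, hc, hcb⟩ := abs_cos_sub_ge hθ
  have hs0 : 0 < Real.sin θ := Real.sin_pos_of_pos_of_lt_pi hθ.1 hθ.2
  let F : ℝ → ℝ → ℝ := fun s ψ => (Ioc 0 π).indicator (fun ψ =>
    Real.log (1 + (s / (a * (Real.cos θ - Real.cos ψ))) ^ 2) * (1 + Real.cos ψ)) ψ
  have hF : ∀ s : ℝ, 0 < s → (∫ ψ in Ioc 0 π,
      Real.log (1 + (s / (a * (Real.cos θ - Real.cos ψ))) ^ 2) * (1 + Real.cos ψ)) / s =
      ∫ v : ℝ, F s (θ + s * v) := by
    intro s hs
    rw [← integral_indicator measurableSet_Ioc]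
    change (∫ ψ, F s ψ) / s = _
    have h1 := Measure.integral_comp_mul_left (fun v => F s (θ + v)) s
    rw [h1, integral_add_left_eq_self (fun v => F s v) θ, smul_eq_mul, abs_of_pos (inv_pos.2 hs)]
    field_simp
  refine ⟨∫ v : ℝ, Real.log (1 + (1 / (a * Real.sin θ * v)) ^ 2) * (1 + Real.cos θ), ?_⟩
  have heq : (fun s : ℝ => ∫ v : ℝ, F s (θ + s * v)) =ᶠ[𝓝[>] 0] (fun s : ℝ => (∫ ψ in Ioc 0 π,
      Real.log (1 + (s / (a * (Real.cos θ - Real.cos ψ))) ^ 2) * (1 + Real.cos ψ)) / s) := by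
    filter_upwards [self_mem_nhdsWithin] with s hs
    exact (hF s hs).symm
  refine Tendsto.congr' heq ?_
  refine tendsto_integral_filter_of_dominated_convergence
    (fun v => 2 * Real.log (1 + (1 / (a * c * v)) ^ 2)) ?_ ?_
    ((integrable_log_one_add (mul_pos ha hc)).const_mul 2) ?_
  · refine Eventually.of_forall fun s => ?_
    apply Measurable.aestronglyMeasurable
    have hm : Measurable (F s) := by
      apply Measurable.indicator _ measurableSet_Ioc
      fun_prop
    exact hm.comp (by fun_prop)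
  · filter_upwards [self_mem_nhdsWithin] with s hs
    have hs' : (0 : ℝ) < s := hs
    have : ∀ᵐ x : ℝ, x ∉ ({0} : Set ℝ) := (Set.countable_singleton (0 : ℝ)).ae_notMem _
    filter_upwards [this] with v hv
    have hv' : v ≠ 0 := hv
    have hlog0 : 0 ≤ Real.log (1 + (1 / (a * c * v)) ^ 2) :=
      Real.log_nonneg (by have : 0 ≤ (1 / (a * c * v)) ^ 2 := by positivity
                          linarith)
    simp only [F]
    by_cases hmem : θ + s * v ∈ Ioc 0 π
    · rw [indicator_of_mem hmem]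
      have h1 := hcb _ ⟨hmem.1.le, hmem.2⟩
      have h2 : |θ - (θ + s * v)| = s * |v| := by
        rw [show θ - (θ + s * v) = -(s * v) by ring, abs_neg, abs_mul, abs_of_pos hs']
      rw [h2] at h1
      have hv0 : 0 < |v| := abs_pos.2 hv'
      have h3 : (s / (a * (Real.cos θ - Real.cos (θ + s * v)))) ^ 2 ≤ (1 / (a * c * v)) ^ 2 := by
        rw [← sq_abs, ← sq_abs (1 / (a * c * v))]
        apply pow_le_pow_left₀ (abs_nonneg _)
        rw [abs_div, abs_div, abs_mul, abs_mul, abs_mul, abs_one, abs_of_pos hs', abs_of_pos ha,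
          abs_of_pos hc]
        rw [div_le_div_iff₀ (mul_pos ha (lt_of_lt_of_le (by positivity) h1)) (by positivity)]
        calc s * (a * c * |v|) = a * (c * (s * |v|)) := by ring
          _ ≤ a * |Real.cos θ - Real.cos (θ + s * v)| := by gcongr
          _ = 1 * (a * |Real.cos θ - Real.cos (θ + s * v)|) := by ring
      have h4 : 0 ≤ 1 + Real.cos (θ + s * v) := by
        have := Real.neg_one_le_cos (θ + s * v)
        linarith
      have h5 : 1 + Real.cos (θ + s * v) ≤ 2 := by
        have := Real.cos_le_one (θ + s * v)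
        linarith
      have h6 : 0 ≤ Real.log (1 + (s / (a * (Real.cos θ - Real.cos (θ + s * v)))) ^ 2) :=
        Real.log_nonneg (by
          have : 0 ≤ (s / (a * (Real.cos θ - Real.cos (θ + s * v)))) ^ 2 := by positivity
          linarith)
      rw [Real.norm_of_nonneg (mul_nonneg h6 h4), mul_comm (2 : ℝ)]
      gcongr
    · rw [indicator_of_notMem hmem, norm_zero]
      positivity
  · have : ∀ᵐ x : ℝ, x ∉ ({0} : Set ℝ) := (Set.countable_singleton (0 : ℝ)).ae_notMem _
    filter_upwards [this] with v hv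
    have hv' : v ≠ 0 := hv
    have hlin : Tendsto (fun s : ℝ => θ + s * v) (𝓝[>] 0) (𝓝 θ) := by
      have : Tendsto (fun s : ℝ => θ + s * v) (𝓝 0) (𝓝 (θ + 0 * v)) :=
        Continuous.tendsto (by fun_prop) 0
      rw [zero_mul, add_zero] at this
      exact this.mono_left nhdsWithin_le_nhds
    have hev : ∀ᶠ s in 𝓝[>] (0 : ℝ), θ + s * v ∈ Ioc 0 π := by
      have := hlin.eventually (Ioo_mem_nhds hθ.1 hθ.2)
      filter_upwards [this] with s hs using ⟨hs.1, hs.2.le⟩
    have heq2 : (fun s : ℝ => Real.log (1 + (s / (a * (Real.cos θ - Real.cos (θ + s * v)))) ^ 2) *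
        (1 + Real.cos (θ + s * v))) =ᶠ[𝓝[>] 0] fun s => F s (θ + s * v) := by
      filter_upwards [hev] with s hs
      simp only [F]
      rw [indicator_of_mem hs]
    refine Tendsto.congr' heq2 ?_
    have hder : HasDerivAt (fun s : ℝ => Real.cos (θ + s * v)) (-Real.sin θ * v) 0 := by
      have h1 : HasDerivAt (fun s : ℝ => θ + s * v) v 0 := by
        simpa using ((hasDerivAt_id (0 : ℝ)).mul_const v).const_add θ
      have h2 := h1.cos
      simpa using h2
    have hslope : Tendsto (fun s : ℝ => (Real.cos (θ + s * v) - Real.cos θ) / s) (𝓝[>] 0)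
        (𝓝 (-Real.sin θ * v)) := by
      have := (hasDerivAt_iff_tendsto_slope_zero.1 hder).mono_left
        (nhdsWithin_mono _ (fun x (hx : 0 < x) => hx.ne'))
      refine this.congr fun s => ?_
      simp only [zero_add, smul_eq_mul, zero_mul, add_zero]
      rw [div_eq_inv_mul]
    have hquot : Tendsto (fun s : ℝ => s / (a * (Real.cos θ - Real.cos (θ + s * v)))) (𝓝[>] 0)
        (𝓝 (1 / (a * Real.sin θ * v))) := by
      have h1 : Tendsto (fun s : ℝ => (-(a * ((Real.cos (θ + s * v) - Real.cos θ) / s)))⁻¹) (𝓝[>] 0)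
          (𝓝 ((-(a * (-Real.sin θ * v)))⁻¹)) := by
        apply Tendsto.inv₀ (hslope.const_mul a).neg
        simp only [neg_mul, mul_neg, neg_neg]
        positivity
      have e : (-(a * (-Real.sin θ * v)))⁻¹ = 1 / (a * Real.sin θ * v) := by
        rw [one_div]; congr 1; ring
      rw [e] at h1
      refine h1.congr' ?_
      filter_upwards [self_mem_nhdsWithin] with s hs
      have hs' : s ≠ 0 := ne_of_gt hs
      rw [show -(a * ((Real.cos (θ + s * v) - Real.cos θ) / s)) =
        (a * (Real.cos θ - Real.cos (θ + s * v))) / s by ring, inv_div]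
    have hcos : Tendsto (fun s : ℝ => 1 + Real.cos (θ + s * v)) (𝓝[>] 0) (𝓝 (1 + Real.cos θ)) :=
      ((Real.continuous_cos.tendsto θ).comp hlin).const_add 1
    refine Tendsto.mul ?_ hcos
    have hpos : (1 + (1 / (a * Real.sin θ * v)) ^ 2) ≠ 0 := by positivity
    exact ((hquot.pow 2).const_add 1).log hpos

end Pool.Agent.Helper25.SCurve
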