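import Mathlib

/-!
# The integrals `∫₀^π log |cos θ - cos ψ| (1 + cos ψ) dψ`
-/

namespace Pool.Agent.Helper25.SCurve

open MeasureTheory Set Filter Topology Real intervalIntegral

/-- `log |2 sin (x / 2)|`. -/
noncomputable def lsin (x : ℝ) : ℝ := Real.log (2 * Real.sin (x / 2))

theorem lsin_neg (x : ℝ) : lsin (-x) = lsin x := by
  unfold lsin
  rw [neg_div, Real.sin_neg, mul_neg, Real.log_neg_eq_log]

theorem lsin_periodic : Function.Periodic lsin (2 * π) := by
  intro x
  unfold lsin
  rw [add_div, show 2 * π / 2 = π by ring, Real.sin_add_pi, mul_neg, Real.log_neg_eq_log]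

theorem lsin_intervalIntegrable (a b : ℝ) : IntervalIntegrable lsin volume a b := by
  have h1 : IntervalIntegrable (fun x : ℝ => Real.log (Real.sin (x / 2))) volume a b := by
    have := (intervalIntegrable_log_sin (a := a / 2) (b := b / 2)).comp_mul_right (c := (1 / 2 : ℝ))
    simp only [Function.comp_def] at this
    have e : ∀ c : ℝ, c / 2 / (1 / 2) = c := fun c => by ring
    rw [e, e] at this
    simpa [div_eq_mul_inv] using this
  have h2 : IntervalIntegrable (fun x : ℝ => Real.log 2 + Real.log (Real.sin (x / 2)))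
      volume a b := (intervalIntegrable_const).add h1
  refine h2.congr_ae ?_
  have hcount : {x : ℝ | Real.sin (x / 2) = 0}.Countable := by
    have : {x : ℝ | Real.sin (x / 2) = 0} ⊆ Set.range (fun n : ℤ => 2 * (n * π)) := by
      intro x hx
      obtain ⟨n, hn⟩ := Real.sin_eq_zero_iff.1 hx
      exact ⟨n, by simp only [hn]; ring⟩
    exact (Set.countable_range _).mono this
  have : ∀ᵐ x : ℝ, x ∉ {x : ℝ | Real.sin (x / 2) = 0} := hcount.ae_notMem _
  apply ae_restrict_of_ae
  filter_upwards [this] with x hx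
  have hx' : Real.sin (x / 2) ≠ 0 := hx
  unfold lsin
  rw [Real.log_mul (by norm_num) hx']

theorem integral_lsin : ∫ x in (0 : ℝ)..(2 * π), lsin x = 0 := by
  have h1 : ∫ x in (0 : ℝ)..(2 * π), lsin x = 2 * ∫ u in (0 : ℝ)..π, Real.log (2 * Real.sin u) := by
    have := intervalIntegral.integral_comp_div (a := 0) (b := 2 * π)
      (fun u => Real.log (2 * Real.sin u)) (c := 2) (by norm_num)
    unfold lsin
    rw [this]
    simp
  have h2 : ∫ u in (0 : ℝ)..π, Real.log (2 * Real.sin u) =
      ∫ u in (0 : ℝ)..π, (Real.log 2 + Real.log (Real.sin u)) := by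
    apply intervalIntegral.integral_congr_ae
    have : ∀ᵐ x : ℝ, x ∉ ({π} : Set ℝ) := (Set.countable_singleton π).ae_notMem _
    filter_upwards [this] with u hu hmem
    rw [uIoc_of_le Real.pi_pos.le] at hmem
    have : Real.sin u ≠ 0 := by
      apply ne_of_gt
      apply Real.sin_pos_of_pos_of_lt_pi hmem.1
      exact lt_of_le_of_ne hmem.2 hu
    rw [Real.log_mul (by norm_num) this]
  have h3 : IntervalIntegrable (fun u : ℝ => Real.log (Real.sin u)) volume 0 π :=
    intervalIntegrable_log_sin
  rw [h1, h2, intervalIntegral.integral_add intervalIntegrable_const h3, integral_log_sin_zero_pi]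
  simp
  ring

theorem integral_lsin_mul_sin : ∫ x in (0 : ℝ)..(2 * π), lsin x * Real.sin x = 0 := by
  have h := intervalIntegral.integral_comp_sub_left (a := 0) (b := 2 * π)
    (fun x => lsin x * Real.sin x) (2 * π)
  have h2 : ∀ x, lsin (2 * π - x) * Real.sin (2 * π - x) = -(lsin x * Real.sin x) := by
    intro x
    have e1 : lsin (2 * π - x) = lsin x := by
      rw [← lsin_neg, show -(2 * π - x) = x - 2 * π by ring, lsin_periodic.sub_eq]
    rw [e1, Real.sin_two_pi_sub]
    ring
  simp only [h2] at h
  rw [intervalIntegral.integral_neg] at h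
  simp only [sub_self, sub_zero] at h
  linarith

theorem integral_cos_sq_half : ∫ x in (0 : ℝ)..(2 * π), Real.cos (x / 2) ^ 2 = π := by
  have h1 : ∀ x : ℝ, Real.cos (x / 2) ^ 2 = 1 / 2 + Real.cos x / 2 := by
    intro x
    rw [Real.cos_sq, show 2 * (x / 2) = x by ring]
  simp_rw [h1]
  rw [intervalIntegral.integral_add (by simp) (Continuous.intervalIntegrable (by fun_prop) _ _)]
  rw [intervalIntegral.integral_div (f := fun x => Real.cos x), integral_cos]
  simp
  ring

theorem integral_lsin_mul_cos : ∫ x in (0 : ℝ)..(2 * π), lsin x * Real.cos x = -π := by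
  have hpi := Real.pi_pos
  let F : ℝ → ℝ := fun x => Real.cos (x / 2) *
    ((2 * Real.sin (x / 2)) * Real.log (2 * Real.sin (x / 2)))
  have hF : Continuous F := by
    have h1 : Continuous (fun y : ℝ => y * Real.log y) := Real.continuous_mul_log
    have h2 : Continuous (fun x : ℝ => 2 * Real.sin (x / 2)) := by fun_prop
    exact (by fun_prop : Continuous fun x : ℝ => Real.cos (x / 2)).mul (h1.comp h2)
  have hi : IntervalIntegrable (fun x => lsin x * Real.cos x) volume 0 (2 * π) :=
    (lsin_intervalIntegrable _ _).mul_continuousOn (by fun_prop)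
  have hc : IntervalIntegrable (fun x : ℝ => Real.cos (x / 2) ^ 2) volume 0 (2 * π) :=
    Continuous.intervalIntegrable (by fun_prop) _ _
  have hint : IntervalIntegrable (fun x => lsin x * Real.cos x + Real.cos (x / 2) ^ 2)
      volume 0 (2 * π) := hi.add hc
  have h := intervalIntegral.integral_eq_sub_of_hasDerivAt_of_le (a := 0) (b := 2 * π)
    (by positivity) (f := F) (f' := fun x => lsin x * Real.cos x + Real.cos (x / 2) ^ 2)
    hF.continuousOn (by
      intro x hx
      have hs : 0 < Real.sin (x / 2) := by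
        apply Real.sin_pos_of_pos_of_lt_pi
        · have := hx.1; linarith
        · have := hx.2; linarith
      have d1 : HasDerivAt (fun x : ℝ => x / 2) (1 / 2) x := (hasDerivAt_id x).div_const 2
      have d2 : HasDerivAt (fun x : ℝ => Real.cos (x / 2)) (-Real.sin (x / 2) * (1 / 2)) x :=
        d1.cos
      have d3 : HasDerivAt (fun x : ℝ => 2 * Real.sin (x / 2)) (2 * (Real.cos (x / 2) * (1 / 2))) x :=
        d1.sin.const_mul 2
      have d4 : HasDerivAt (fun x : ℝ => Real.log (2 * Real.sin (x / 2)))
          ((2 * (Real.cos (x / 2) * (1 / 2))) / (2 * Real.sin (x / 2))) x :=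
        d3.log (by positivity)
      have d5 := d2.mul (d3.mul d4)
      refine d5.congr_deriv ?_
      unfold lsin
      have hcos : Real.cos x = Real.cos (x / 2) ^ 2 - Real.sin (x / 2) ^ 2 := by
        have := Real.cos_two_mul' (x / 2)
        rwa [show 2 * (x / 2) = x by ring] at this
      rw [hcos]
      simp only [Pi.mul_apply]
      field_simp
      ring) hint
  have h0 : F (2 * π) - F 0 = 0 := by
    simp only [F]
    rw [show 2 * π / 2 = π by ring]
    simp
  rw [h0, intervalIntegral.integral_add hi hc, integral_cos_sq_half] at h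
  linarith

theorem integral_lsin_shift (θ : ℝ) :
    ∫ ψ in (-π)..π, lsin (θ - ψ) * (1 + Real.cos ψ) = -(π * Real.cos θ) := by
  have h1 := intervalIntegral.integral_comp_sub_left (a := -π) (b := π)
    (fun x => lsin x * (1 + Real.cos (θ - x))) θ
  simp only [sub_sub_cancel, sub_neg_eq_add] at h1
  rw [h1]
  have hper : Function.Periodic (fun x => lsin x * (1 + Real.cos (θ - x))) (2 * π) := by
    intro x
    simp only
    rw [lsin_periodic x, show θ - (x + 2 * π) = θ - x - 2 * π by ring, Real.cos_sub_two_pi]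
  have h2 := hper.intervalIntegral_add_eq (θ - π) 0
  rw [show θ - π + 2 * π = θ + π by ring, zero_add] at h2
  rw [h2]
  have e : ∀ x, lsin x * (1 + Real.cos (θ - x)) = lsin x + Real.cos θ * (lsin x * Real.cos x) +
      Real.sin θ * (lsin x * Real.sin x) := by
    intro x
    rw [Real.cos_sub]
    ring
  simp_rw [e]
  have i0 := lsin_intervalIntegrable 0 (2 * π)
  have i1 : IntervalIntegrable (fun x => lsin x * Real.cos x) volume 0 (2 * π) :=
    i0.mul_continuousOn (by fun_prop)
  have i2 : IntervalIntegrable (fun x => lsin x * Real.sin x) volume 0 (2 * π) :=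
    i0.mul_continuousOn (by fun_prop)
  have i3 : IntervalIntegrable (fun x => lsin x + Real.cos θ * (lsin x * Real.cos x))
    volume 0 (2 * π) := i0.add (i1.const_mul _)
  rw [intervalIntegral.integral_add i3 (i2.const_mul _),
    intervalIntegral.integral_add i0 (i1.const_mul _),
    intervalIntegral.integral_const_mul, intervalIntegral.integral_const_mul,
    integral_lsin, integral_lsin_mul_cos, integral_lsin_mul_sin]
  ring

theorem countable_cos_eq (θ : ℝ) : {ψ : ℝ | Real.cos ψ = Real.cos θ}.Countable := by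
  have : {ψ : ℝ | Real.cos ψ = Real.cos θ} ⊆
      Set.range (fun n : ℤ => 2 * n * π + θ) ∪ Set.range (fun n : ℤ => 2 * n * π - θ) := by
    intro x hx
    obtain ⟨n, hn | hn⟩ := Real.cos_eq_cos_iff.1 (show Real.cos θ = Real.cos x from hx.symm)
    · exact Or.inl ⟨n, by simp only [hn]⟩
    · exact Or.inr ⟨n, by simp only [hn]⟩
  exact ((Set.countable_range _).union (Set.countable_range _)).mono this

theorem log_cos_sub (θ ψ : ℝ) (h : Real.cos ψ ≠ Real.cos θ) :
    Real.log |Real.cos θ - Real.cos ψ| = lsin (θ - ψ) + lsin (θ + ψ) - Real.log 2 := by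
  have e : Real.cos θ - Real.cos ψ = -((2 * Real.sin ((θ + ψ) / 2)) *
      (2 * Real.sin ((θ - ψ) / 2)) / 2) := by
    rw [Real.cos_sub_cos]
    ring
  have h1 : Real.cos θ - Real.cos ψ ≠ 0 := sub_ne_zero.2 h.symm
  have h2 : Real.sin ((θ + ψ) / 2) ≠ 0 := by
    intro h0
    apply h1
    rw [e, h0]
    simp
  have h3 : Real.sin ((θ - ψ) / 2) ≠ 0 := by
    intro h0
    apply h1
    rw [e, h0]
    simp
  rw [e, Real.log_abs, Real.log_neg_eq_log, Real.log_div (by positivity) (by norm_num),
    Real.log_mul (by positivity) (by positivity)]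
  unfold lsin
  ring

theorem intervalIntegrable_log_cos (θ : ℝ) :
    IntervalIntegrable (fun ψ => Real.log |Real.cos θ - Real.cos ψ| * (1 + Real.cos ψ))
      volume 0 π := by
  have i1 : IntervalIntegrable (fun ψ => lsin (θ - ψ)) volume 0 π := by
    have := (lsin_intervalIntegrable (θ - 0) (θ - π)).comp_sub_left (c := θ)
    simpa using this
  have i2 : IntervalIntegrable (fun ψ => lsin (θ + ψ)) volume 0 π := by
    have := (lsin_intervalIntegrable (θ + 0) (θ + π)).comp_add_left (c := θ)
    simpa using this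
  have i3 : IntervalIntegrable (fun ψ => (lsin (θ - ψ) + lsin (θ + ψ) - Real.log 2) *
      (1 + Real.cos ψ)) volume 0 π :=
    ((i1.add i2).sub intervalIntegrable_const).mul_continuousOn (by fun_prop)
  refine i3.congr_ae ?_
  have : ∀ᵐ x : ℝ, x ∉ {ψ : ℝ | Real.cos ψ = Real.cos θ} := (countable_cos_eq θ).ae_notMem _
  apply ae_restrict_of_ae
  filter_upwards [this] with x hx
  rw [log_cos_sub θ x hx]

/-- `∫₀^π log |cos θ - cos ψ| (1 + cos ψ) dψ = -π (log 2 + cos θ)`. -/
theorem integral_log_cos (θ : ℝ) :
    ∫ ψ in (0 : ℝ)..π, Real.log |Real.cos θ - Real.cos ψ| * (1 + Real.cos ψ) =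
      -(π * (Real.log 2 + Real.cos θ)) := by
  have i1 : IntervalIntegrable (fun ψ => lsin (θ - ψ) * (1 + Real.cos ψ)) volume 0 π := by
    have := (lsin_intervalIntegrable (θ - 0) (θ - π)).comp_sub_left (c := θ)
    simp only [sub_sub_cancel] at this
    exact this.mul_continuousOn (by fun_prop)
  have i1' : IntervalIntegrable (fun ψ => lsin (θ - ψ) * (1 + Real.cos ψ)) volume (-π) 0 := by
    have := (lsin_intervalIntegrable (θ - -π) (θ - 0)).comp_sub_left (c := θ)
    simp only [sub_sub_cancel] at this
    exact this.mul_continuousOn (by fun_prop)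
  have i2 : IntervalIntegrable (fun ψ => lsin (θ + ψ) * (1 + Real.cos ψ)) volume 0 π := by
    have := (lsin_intervalIntegrable (θ + 0) (θ + π)).comp_add_left (c := θ)
    simp only [add_sub_cancel_left] at this
    exact this.mul_continuousOn (by fun_prop)
  have i3 : IntervalIntegrable (fun ψ => Real.log 2 * (1 + Real.cos ψ)) volume 0 π :=
    Continuous.intervalIntegrable (by fun_prop) _ _
  have h1 : ∫ ψ in (0 : ℝ)..π, Real.log |Real.cos θ - Real.cos ψ| * (1 + Real.cos ψ) =
      ∫ ψ in (0 : ℝ)..π, (lsin (θ - ψ) * (1 + Real.cos ψ) + lsin (θ + ψ) * (1 + Real.cos ψ) -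
        Real.log 2 * (1 + Real.cos ψ)) := by
    apply intervalIntegral.integral_congr_ae
    have : ∀ᵐ x : ℝ, x ∉ {ψ : ℝ | Real.cos ψ = Real.cos θ} := (countable_cos_eq θ).ae_notMem _
    filter_upwards [this] with x hx _
    rw [log_cos_sub θ x hx]
    ring
  have h2 : ∫ ψ in (0 : ℝ)..π, lsin (θ + ψ) * (1 + Real.cos ψ) =
      ∫ ψ in (-π)..0, lsin (θ - ψ) * (1 + Real.cos ψ) := by
    have := intervalIntegral.integral_comp_neg (a := 0) (b := π)
      (fun ψ => lsin (θ - ψ) * (1 + Real.cos ψ))
    simpa using this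
  have h3 := intervalIntegral.integral_add_adjacent_intervals i1' i1
  rw [integral_lsin_shift] at h3
  have h4 : ∫ ψ in (0 : ℝ)..π, Real.log 2 * (1 + Real.cos ψ) = π * Real.log 2 := by
    rw [intervalIntegral.integral_const_mul, intervalIntegral.integral_add (by simp)
      (Continuous.intervalIntegrable (by fun_prop) _ _), integral_cos]
    simp
    ring
  rw [h1, intervalIntegral.integral_sub (i1.add i2) i3, intervalIntegral.integral_add i1 i2, h2, h4]
  linarith

end Pool.Agent.Helper25.SCurve
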