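import Pool.Agent.Helper25.SCurve.Crit
import Pool.Agent.Helper25.SCurve.Trig
import Pool.Agent.Helper25.SCurve.Peak

/-!
# The Marchenko-Pastur measure on a horizontal segment and its potential
-/

namespace Pool.Agent.Helper25.SCurve

open MeasureTheory Set Filter Topology
open scoped ENNReal

/-- The parametrisation of the segment `[R - 2a + i, R + i]` by `[0, π]`. -/
noncomputable def seg (a R ψ : ℝ) : ℂ := ⟨R - a + a * Real.cos ψ, 1⟩

/-- The density `(1 + cos ψ) / π` on `(0, π]`. -/
noncomputable def base : Measure ℝ :=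
  (volume.restrict (Ioc 0 Real.pi)).withDensity
    (fun ψ => ENNReal.ofReal ((1 + Real.cos ψ) / Real.pi))

/-- The Marchenko-Pastur measure. -/
noncomputable def mp (a R : ℝ) : Measure ℂ := base.map (seg a R)

theorem continuous_seg (a R : ℝ) : Continuous (seg a R) := by
  have : seg a R = fun ψ => ((R - a + a * Real.cos ψ : ℝ) : ℂ) + Complex.I := by
    funext ψ
    apply Complex.ext
    · simp only [seg, Complex.add_re, Complex.ofReal_re, Complex.I_re, add_zero]
    · simp only [seg, Complex.add_im, Complex.ofReal_im, Complex.I_im, zero_add]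
  rw [this]
  fun_prop

theorem measurable_seg (a R : ℝ) : Measurable (seg a R) := (continuous_seg a R).measurable

theorem one_add_cos_nonneg (ψ : ℝ) : 0 ≤ 1 + Real.cos ψ := by
  have := Real.neg_one_le_cos ψ
  linarith

theorem lintegral_base {f : ℝ → ℝ≥0∞} (hf : Measurable f) :
    ∫⁻ ψ, f ψ ∂base = ∫⁻ ψ in Ioc 0 Real.pi,
      ENNReal.ofReal ((1 + Real.cos ψ) / Real.pi) * f ψ := by
  unfold base
  rw [lintegral_withDensity_eq_lintegral_mul _ (by fun_prop) hf]
  rfl

theorem integral_one_add_cos : ∫ ψ in (0 : ℝ)..Real.pi, (1 + Real.cos ψ) / Real.pi = 1 := by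
  rw [intervalIntegral.integral_div, intervalIntegral.integral_add (by simp)
    (Continuous.intervalIntegrable (by fun_prop) _ _), integral_cos]
  simp

instance isProbabilityMeasure_base : IsProbabilityMeasure base := by
  constructor
  have h := lintegral_base (f := fun _ => 1) measurable_const
  rw [lintegral_one] at h
  rw [h]
  simp only [mul_one]
  rw [← ofReal_integral_eq_lintegral_ofReal]
  · rw [← intervalIntegral.integral_of_le Real.pi_pos.le, integral_one_add_cos]
    simp
  · exact (Continuous.intervalIntegrable (by fun_prop) (0 : ℝ) Real.pi).1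
  · exact ae_of_all _ fun ψ => div_nonneg (one_add_cos_nonneg ψ) Real.pi_pos.le

instance isProbabilityMeasure_mp (a R : ℝ) : IsProbabilityMeasure (mp a R) :=
  Measure.isProbabilityMeasure_map (measurable_seg a R).aemeasurable

theorem lintegral_mp (a R : ℝ) {f : ℂ → ℝ≥0∞} (hf : Measurable f) :
    ∫⁻ w, f w ∂(mp a R) = ∫⁻ ψ in Ioc 0 Real.pi,
      ENNReal.ofReal ((1 + Real.cos ψ) / Real.pi) * f (seg a R ψ) := by
  unfold mp
  rw [lintegral_map hf (measurable_seg a R)]
  exact lintegral_base (f := fun ψ => f (seg a R ψ)) (hf.comp (measurable_seg a R))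

/-- The general formula for the potential. -/
theorem pot_mp {a R D : ℝ} {z : ℂ} (hD : 0 < D)
    (hint : IntervalIntegrable (fun ψ => Real.log ‖z - seg a R ψ‖ * (1 + Real.cos ψ))
      volume 0 Real.pi)
    (hne : ∀ᵐ ψ : ℝ, z ≠ seg a R ψ) (hdist : ∀ ψ, ‖z - seg a R ψ‖ ≤ D) :
    pot D (mp a R) z = ENNReal.ofReal (Real.log D -
      (∫ ψ in (0 : ℝ)..Real.pi, Real.log ‖z - seg a R ψ‖ * (1 + Real.cos ψ)) / Real.pi) := by
  unfold pot
  rw [lintegral_mp a R (measurable_kap_left D z)]
  have h1 : ∫⁻ ψ in Ioc 0 Real.pi, ENNReal.ofReal ((1 + Real.cos ψ) / Real.pi) *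
      kap D z (seg a R ψ) = ∫⁻ ψ in Ioc 0 Real.pi,
      ENNReal.ofReal ((Real.log D * (1 + Real.cos ψ) - Real.log ‖z - seg a R ψ‖ *
        (1 + Real.cos ψ)) / Real.pi) := by
    apply lintegral_congr_ae
    apply ae_restrict_of_ae
    filter_upwards [hne] with ψ hψ
    unfold kap
    rw [if_neg hψ, ← ENNReal.ofReal_mul (div_nonneg (one_add_cos_nonneg ψ) Real.pi_pos.le),
      Real.log_div hD.ne' (norm_pos_iff.2 (sub_ne_zero.2 hψ)).ne']
    congr 1
    ring
  have hi2 : IntervalIntegrable (fun ψ => Real.log D * (1 + Real.cos ψ)) volume 0 Real.pi :=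
    Continuous.intervalIntegrable (by fun_prop) _ _
  have hi3 : IntervalIntegrable (fun ψ => (Real.log D * (1 + Real.cos ψ) -
      Real.log ‖z - seg a R ψ‖ * (1 + Real.cos ψ)) / Real.pi) volume 0 Real.pi :=
    (hi2.sub hint).div_const _
  rw [h1, ← ofReal_integral_eq_lintegral_ofReal hi3.1]
  · rw [← intervalIntegral.integral_of_le Real.pi_pos.le, intervalIntegral.integral_div,
      intervalIntegral.integral_sub hi2 hint, sub_div, intervalIntegral.integral_const_mul]
    congr 2
    have := integral_one_add_cos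
    rw [intervalIntegral.integral_div] at this
    rw [mul_div_assoc, this, mul_one]
  · apply ae_restrict_of_ae
    filter_upwards [hne] with ψ hψ
    have h2 : 0 < ‖z - seg a R ψ‖ := norm_pos_iff.2 (sub_ne_zero.2 hψ)
    have h3 := Real.log_le_log h2 (hdist ψ)
    apply div_nonneg _ Real.pi_pos.le
    rw [← sub_mul]
    exact mul_nonneg (by linarith) (one_add_cos_nonneg ψ)

theorem norm_seg_sub_seg {a R : ℝ} (ha : 0 < a) (θ ψ : ℝ) :
    ‖seg a R θ - seg a R ψ‖ = a * |Real.cos θ - Real.cos ψ| := by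
  have : seg a R θ - seg a R ψ = ((a * (Real.cos θ - Real.cos ψ) : ℝ) : ℂ) := by
    apply Complex.ext
    · simp only [seg, Complex.sub_re, Complex.ofReal_re]
      ring
    · simp only [seg, Complex.sub_im, Complex.ofReal_im]
      ring
  rw [this, Complex.norm_real, Real.norm_eq_abs, abs_mul, abs_of_pos ha]

theorem seg_ne {a R : ℝ} (ha : 0 < a) (θ : ℝ) : ∀ᵐ ψ : ℝ, seg a R θ ≠ seg a R ψ := by
  have : ∀ᵐ x : ℝ, x ∉ {ψ : ℝ | Real.cos ψ = Real.cos θ} := (countable_cos_eq θ).ae_notMem _
  filter_upwards [this] with ψ hψ h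
  apply hψ
  have := congrArg Complex.re h
  simp only [seg] at this
  have h2 : a * (Real.cos θ - Real.cos ψ) = 0 := by linarith
  have := (mul_eq_zero.1 h2).resolve_left ha.ne'
  change Real.cos ψ = Real.cos θ
  linarith

theorem log_norm_seg {a R : ℝ} (ha : 0 < a) (θ : ℝ) :
    ∀ᵐ ψ : ℝ, Real.log ‖seg a R θ - seg a R ψ‖ * (1 + Real.cos ψ) =
      Real.log a * (1 + Real.cos ψ) + Real.log |Real.cos θ - Real.cos ψ| * (1 + Real.cos ψ) := by
  filter_upwards [seg_ne (R := R) ha θ] with ψ hψ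
  rw [norm_seg_sub_seg ha, Real.log_mul ha.ne', add_mul]
  have h2 : 0 < ‖seg a R θ - seg a R ψ‖ := norm_pos_iff.2 (sub_ne_zero.2 hψ)
  rw [norm_seg_sub_seg ha] at h2
  exact (pos_of_mul_pos_right h2 ha.le).ne'

theorem intervalIntegrable_seg {a R : ℝ} (ha : 0 < a) (θ : ℝ) :
    IntervalIntegrable (fun ψ => Real.log ‖seg a R θ - seg a R ψ‖ * (1 + Real.cos ψ))
      volume 0 Real.pi := by
  have h1 : IntervalIntegrable (fun ψ => Real.log a * (1 + Real.cos ψ) +
      Real.log |Real.cos θ - Real.cos ψ| * (1 + Real.cos ψ)) volume 0 Real.pi :=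
    (Continuous.intervalIntegrable (by fun_prop) _ _).add (intervalIntegrable_log_cos θ)
  refine h1.congr_ae ?_
  apply ae_restrict_of_ae
  filter_upwards [log_norm_seg (R := R) ha θ] with ψ hψ using hψ.symm

theorem integral_log_seg {a R : ℝ} (ha : 0 < a) (θ : ℝ) :
    ∫ ψ in (0 : ℝ)..Real.pi, Real.log ‖seg a R θ - seg a R ψ‖ * (1 + Real.cos ψ) =
      Real.pi * (Real.log a - Real.log 2 - Real.cos θ) := by
  have h1 : ∫ ψ in (0 : ℝ)..Real.pi, Real.log ‖seg a R θ - seg a R ψ‖ * (1 + Real.cos ψ) =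
      ∫ ψ in (0 : ℝ)..Real.pi, (Real.log a * (1 + Real.cos ψ) +
        Real.log |Real.cos θ - Real.cos ψ| * (1 + Real.cos ψ)) := by
    apply intervalIntegral.integral_congr_ae
    filter_upwards [log_norm_seg (R := R) ha θ] with ψ hψ _ using hψ
  rw [h1, intervalIntegral.integral_add (Continuous.intervalIntegrable (by fun_prop) _ _)
    (intervalIntegrable_log_cos θ), integral_log_cos, intervalIntegral.integral_const_mul]
  have := integral_one_add_cos
  rw [intervalIntegral.integral_div, div_eq_one_iff_eq Real.pi_pos.ne'] at this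
  rw [this]
  ring

/-- The potential on the segment. -/
theorem pot_seg {a R D : ℝ} (ha : 0 < a) (hD : 2 * a ≤ D) (θ : ℝ) :
    pot D (mp a R) (seg a R θ) =
      ENNReal.ofReal (Real.log D - Real.log a + Real.log 2 + Real.cos θ) := by
  have hD0 : 0 < D := by linarith
  rw [pot_mp hD0 (intervalIntegrable_seg ha θ) (seg_ne ha θ) (fun ψ => ?_), integral_log_seg ha]
  · congr 1
    field_simp
    ring
  · rw [norm_seg_sub_seg ha]
    have h1 : |Real.cos θ - Real.cos ψ| ≤ 2 := by
      rw [abs_le]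
      have := Real.neg_one_le_cos θ
      have := Real.neg_one_le_cos ψ
      have := Real.cos_le_one θ
      have := Real.cos_le_one ψ
      constructor <;> linarith
    nlinarith

/-- A lower bound for the potential to the left of the segment. -/
theorem pot_left {a R D x : ℝ} (ha : 0 < a) (hx : x ≤ R - 2 * a) (hD : R - x ≤ D) :
    ENNReal.ofReal (Real.log D - Real.log a + Real.log 2 - 1 - (R - 2 * a - x) / a) ≤
      pot D (mp a R) ⟨x, 1⟩ := by
  have hD0 : 0 < D := by linarith
  set δ := R - 2 * a - x with hδ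
  have hδ0 : 0 ≤ δ := by linarith
  have hnorm : ∀ ψ, ‖(⟨x, 1⟩ : ℂ) - seg a R ψ‖ = δ + a * (1 + Real.cos ψ) := by
    intro ψ
    have : (⟨x, 1⟩ : ℂ) - seg a R ψ = ((-(δ + a * (1 + Real.cos ψ)) : ℝ) : ℂ) := by
      apply Complex.ext
      · simp only [seg, Complex.sub_re, Complex.ofReal_re, hδ]
        ring
      · simp only [seg, Complex.sub_im, Complex.ofReal_im]
        ring
    rw [this, Complex.norm_real, norm_neg, Real.norm_of_nonneg]
    have := one_add_cos_nonneg ψ
    positivity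
  have hcospi : ∀ᵐ ψ : ℝ, ψ ∉ {ψ : ℝ | Real.cos ψ = Real.cos Real.pi} :=
    (countable_cos_eq Real.pi).ae_notMem _
  have hpos : ∀ᵐ ψ : ℝ, 0 < 1 + Real.cos ψ := by
    filter_upwards [hcospi] with ψ hψ
    have h1 : Real.cos ψ ≠ Real.cos Real.pi := hψ
    rw [Real.cos_pi] at h1
    have h2 := Real.neg_one_le_cos ψ
    have h3 : -1 < Real.cos ψ := lt_of_le_of_ne h2 (Ne.symm h1)
    linarith
  -- the comparison function
  have hcomp : ∀ᵐ ψ : ℝ, Real.log ‖(⟨x, 1⟩ : ℂ) - seg a R ψ‖ * (1 + Real.cos ψ) ≤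
      Real.log ‖seg a R Real.pi - seg a R ψ‖ * (1 + Real.cos ψ) + δ / a := by
    filter_upwards [hpos] with ψ hψ
    rw [hnorm, norm_seg_sub_seg ha, Real.cos_pi,
      show |-1 - Real.cos ψ| = 1 + Real.cos ψ by
        rw [show -1 - Real.cos ψ = -(1 + Real.cos ψ) by ring, abs_neg, abs_of_pos hψ]]
    have h1 : 0 < a * (1 + Real.cos ψ) := by positivity
    have h2 : Real.log (δ + a * (1 + Real.cos ψ)) - Real.log (a * (1 + Real.cos ψ)) ≤
        δ / (a * (1 + Real.cos ψ)) := by
      rw [← Real.log_div (by positivity) h1.ne']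
      have h3 := Real.log_le_sub_one_of_pos
        (show 0 < (δ + a * (1 + Real.cos ψ)) / (a * (1 + Real.cos ψ)) by positivity)
      have h4 : (δ + a * (1 + Real.cos ψ)) / (a * (1 + Real.cos ψ)) - 1 =
          δ / (a * (1 + Real.cos ψ)) := by
        field_simp
        ring
      linarith
    have h5 : δ / (a * (1 + Real.cos ψ)) * (1 + Real.cos ψ) = δ / a := by
      field_simp
    nlinarith
  have hmeas : AEStronglyMeasurable (fun ψ => Real.log ‖(⟨x, 1⟩ : ℂ) - seg a R ψ‖ *
      (1 + Real.cos ψ)) (volume.restrict (Ioc 0 Real.pi)) := by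
    apply Measurable.aestronglyMeasurable
    have := measurable_seg a R
    fun_prop
  have hub : IntervalIntegrable (fun ψ => Real.log ‖seg a R Real.pi - seg a R ψ‖ *
      (1 + Real.cos ψ) + δ / a) volume 0 Real.pi :=
    (intervalIntegrable_seg ha Real.pi).add intervalIntegrable_const
  have hlb : IntervalIntegrable (fun ψ => Real.log ‖seg a R Real.pi - seg a R ψ‖ *
      (1 + Real.cos ψ)) volume 0 Real.pi := intervalIntegrable_seg ha Real.pi
  have hlower : ∀ᵐ ψ : ℝ, Real.log ‖seg a R Real.pi - seg a R ψ‖ * (1 + Real.cos ψ) ≤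
      Real.log ‖(⟨x, 1⟩ : ℂ) - seg a R ψ‖ * (1 + Real.cos ψ) := by
    filter_upwards [hpos] with ψ hψ
    rw [hnorm, norm_seg_sub_seg ha, Real.cos_pi,
      show |-1 - Real.cos ψ| = 1 + Real.cos ψ by
        rw [show -1 - Real.cos ψ = -(1 + Real.cos ψ) by ring, abs_neg, abs_of_pos hψ]]
    gcongr
    linarith
  have hint : IntervalIntegrable (fun ψ => Real.log ‖(⟨x, 1⟩ : ℂ) - seg a R ψ‖ *
      (1 + Real.cos ψ)) volume 0 Real.pi := by
    rw [intervalIntegrable_iff_integrableOn_Ioc_of_le Real.pi_pos.le] at hub hlb ⊢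
    refine Integrable.mono' (hub.norm.add hlb.norm) hmeas ?_
    apply ae_restrict_of_ae
    filter_upwards [hcomp, hlower] with ψ h1 h2
    simp only [Pi.add_apply, Real.norm_eq_abs]
    rw [abs_le]
    constructor
    · have := neg_abs_le (Real.log ‖seg a R Real.pi - seg a R ψ‖ * (1 + Real.cos ψ))
      have := abs_nonneg (Real.log ‖seg a R Real.pi - seg a R ψ‖ * (1 + Real.cos ψ) + δ / a)
      linarith
    · have := le_abs_self (Real.log ‖seg a R Real.pi - seg a R ψ‖ * (1 + Real.cos ψ) + δ / a)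
      have := abs_nonneg (Real.log ‖seg a R Real.pi - seg a R ψ‖ * (1 + Real.cos ψ))
      linarith
  rw [pot_mp hD0 hint]
  · apply ENNReal.ofReal_le_ofReal
    have h1 : ∫ ψ in (0 : ℝ)..Real.pi, Real.log ‖(⟨x, 1⟩ : ℂ) - seg a R ψ‖ * (1 + Real.cos ψ) ≤
        ∫ ψ in (0 : ℝ)..Real.pi, (Real.log ‖seg a R Real.pi - seg a R ψ‖ * (1 + Real.cos ψ) +
          δ / a) := by
      apply intervalIntegral.integral_mono_ae Real.pi_pos.le hint hub
      exact hcomp
    rw [intervalIntegral.integral_add hlb intervalIntegrable_const, integral_log_seg ha,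
      Real.cos_pi, intervalIntegral.integral_const, smul_eq_mul, sub_zero] at h1
    have h2 : (∫ ψ in (0 : ℝ)..Real.pi, Real.log ‖(⟨x, 1⟩ : ℂ) - seg a R ψ‖ *
        (1 + Real.cos ψ)) / Real.pi ≤ Real.log a - Real.log 2 + 1 + δ / a := by
      rw [div_le_iff₀ Real.pi_pos]
      linarith
    linarith
  · filter_upwards [hpos] with ψ hψ h
    have h1 := hnorm ψ
    rw [h, sub_self, norm_zero] at h1
    have : 0 < a * (1 + Real.cos ψ) := by positivity
    linarith
  · intro ψ
    rw [hnorm]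
    have := Real.cos_le_one ψ
    nlinarith

theorem mp_range (a R : ℝ) : (mp a R) (seg a R '' Icc 0 Real.pi)ᶜ = 0 := by
  have hcl : IsClosed (seg a R '' Icc 0 Real.pi) :=
    (isCompact_Icc.image (continuous_seg a R)).isClosed
  unfold mp
  rw [Measure.map_apply (measurable_seg a R) hcl.measurableSet.compl]
  unfold base
  rw [withDensity_apply _ ((measurable_seg a R) hcl.measurableSet.compl)]
  rw [Measure.restrict_restrict ((measurable_seg a R) hcl.measurableSet.compl)]
  have : seg a R ⁻¹' (seg a R '' Icc 0 Real.pi)ᶜ ∩ Ioc 0 Real.pi = ∅ := by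
    ext ψ
    simp only [mem_inter_iff, mem_preimage, mem_compl_iff, mem_empty_iff_false, iff_false, not_and]
    intro h1 h2
    exact h1 ⟨ψ, ⟨h2.1.le, h2.2⟩, rfl⟩
  rw [this]
  simp

theorem support_mp {a R : ℝ} : (mp a R).support = seg a R '' Icc 0 Real.pi := by
  have hcl : IsClosed (seg a R '' Icc 0 Real.pi) :=
    (isCompact_Icc.image (continuous_seg a R)).isClosed
  apply Subset.antisymm
  · apply Measure.support_subset_of_isClosed hcl
    rw [mem_ae_iff]
    exact mp_range a R
  · rintro _ ⟨θ, hθ, rfl⟩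
    rw [Measure.mem_support_iff_forall]
    intro U hU
    obtain ⟨V, hVU, hVo, hV⟩ := mem_nhds_iff.1 hU
    refine lt_of_lt_of_le ?_ (measure_mono hVU)
    unfold mp
    rw [Measure.map_apply (measurable_seg a R) hVo.measurableSet]
    have hopen : IsOpen (seg a R ⁻¹' V) := hVo.preimage (continuous_seg a R)
    have hne : (seg a R ⁻¹' V ∩ Ioo 0 Real.pi).Nonempty := by
      have : θ ∈ closure (Ioo 0 Real.pi) := by
        rw [closure_Ioo Real.pi_pos.ne]
        exact hθ
      exact mem_closure_iff.1 this _ hopen hV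
    have hpos : 0 < (volume : Measure ℝ) (seg a R ⁻¹' V ∩ Ioo 0 Real.pi) :=
      (hopen.inter isOpen_Ioo).measure_pos _ hne
    unfold base
    rw [withDensity_apply _ hopen.measurableSet, Measure.restrict_restrict hopen.measurableSet]
    rw [setLIntegral_pos_iff (by fun_prop)]
    refine lt_of_lt_of_le hpos (measure_mono ?_)
    intro ψ hψ
    refine ⟨?_, hψ.1, hψ.2.1, hψ.2.2.le⟩
    rw [Function.mem_support]
    have h1 : -1 < Real.cos ψ := by
      rw [← Real.cos_pi]
      exact Real.cos_lt_cos_of_nonneg_of_le_pi hψ.2.1.le le_rfl hψ.2.2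
    have h2 : 0 < (1 + Real.cos ψ) / Real.pi := div_pos (by linarith) Real.pi_pos
    exact (ENNReal.ofReal_pos.2 h2).ne'

end Pool.Agent.Helper25.SCurve
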