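import Pool.Agent.Helper25.SCurve.Defs

/-!
# The max-min problem
-/

namespace Pool.Agent.Helper25.SCurve

open MeasureTheory Set

/-- The equilibrium energy `E_φ[Γ]`: the infimum of `E_φ(μ)` over the probability measures `μ`
supported on `Γ`. -/
noncomputable def eqEnergy (k₁ k₂ : ℝ) (Γ : Set ℂ) : EReal :=
  ⨅ (μ : Measure ℂ) (_ : IsProbOn Γ μ), energy k₁ k₂ μ

/-- `Γ` is a max-min continuum: it maximises the equilibrium energy over the class `𝒯` of all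
continua containing `z₁ = -ε₁ + i` and `z₂ = ε₂ - i`. -/
structure IsMaxMin (k₁ k₂ ε₁ ε₂ : ℝ) (Γ : Set ℂ) : Prop where
  joining : IsJoining ε₁ ε₂ Γ
  le : ∀ Γ', IsJoining ε₁ ε₂ Γ' → eqEnergy k₁ k₂ Γ' ≤ eqEnergy k₁ k₂ Γ

end Pool.Agent.Helper25.SCurve
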