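import Pool.Agent.Helper25.SCurve.Usc

/-!
# Existence of a max-min continuum
-/

namespace Pool.Agent.Helper25.SCurve

open MeasureTheory Set Filter Topology
open scoped ENNReal NNReal

/-- The clamp onto `[-c, c]`. -/
noncomputable def clampc (c x : ℝ) : ℝ := max (-c) (min c x)

/-- An injective contraction of the line into `[-(c+2), c+2]`, the identity on `[-c, c]`. -/
noncomputable def soft (c x : ℝ) : ℝ := clampc c x + Real.arctan (x - clampc c x)

theorem clampc_mono (c : ℝ) : Monotone (clampc c) := fun _ _ h =>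
  max_le_max le_rfl (min_le_min le_rfl h)

theorem clampc_sub_mono {c : ℝ} (hc : 0 ≤ c) {x y : ℝ} (h : x ≤ y) :
    x - clampc c x ≤ y - clampc c y := by
  unfold clampc
  rcases le_total c x with h1 | h1 <;> rcases le_total c y with h2 | h2 <;>
    rcases le_total (-c) x with h3 | h3 <;> rcases le_total (-c) y with h4 | h4 <;>
    simp only [min_eq_left, min_eq_right, max_eq_left, max_eq_right, *, neg_le_self hc] <;>
    linarith

theorem arctan_sub_le {a b : ℝ} (h : a ≤ b) : Real.arctan b - Real.arctan a ≤ b - a := by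
  have h1 := Convex.norm_image_sub_le_of_norm_deriv_le (f := Real.arctan) (C := 1)
    (s := univ) (x := a) (y := b) (fun x _ => Real.differentiable_arctan x)
    (fun x _ => by
      rw [Real.deriv_arctan, Real.norm_of_nonneg (by positivity), div_le_one (by positivity)]
      nlinarith [sq_nonneg x]) convex_univ (mem_univ _) (mem_univ _)
  rw [one_mul, Real.norm_eq_abs, Real.norm_eq_abs, abs_of_nonneg (sub_nonneg.2 h)] at h1
  exact (le_abs_self _).trans h1

theorem soft_sub_le {c : ℝ} (hc : 0 ≤ c) {x y : ℝ} (h : x ≤ y) :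
    soft c y - soft c x ≤ y - x := by
  have h1 := arctan_sub_le (clampc_sub_mono hc h)
  unfold soft
  linarith

theorem soft_strictMono {c : ℝ} (hc : 0 ≤ c) : StrictMono (soft c) := by
  intro x y h
  have h1 := clampc_mono c h.le
  have h2 := clampc_sub_mono hc h.le
  unfold soft
  rcases h1.eq_or_lt with h3 | h3
  · have h4 : x - clampc c x < y - clampc c y := by linarith
    have := Real.arctan_strictMono h4
    linarith
  · have := Real.arctan_mono h2
    linarith

theorem abs_soft_sub_le {c : ℝ} (hc : 0 ≤ c) (x y : ℝ) : |soft c x - soft c y| ≤ |x - y| := by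
  rcases le_total x y with h | h
  · rw [abs_of_nonpos (sub_nonpos.2 ((soft_strictMono hc).monotone h)),
      abs_of_nonpos (sub_nonpos.2 h)]
    have := soft_sub_le hc h
    linarith
  · rw [abs_of_nonneg (sub_nonneg.2 ((soft_strictMono hc).monotone h)),
      abs_of_nonneg (sub_nonneg.2 h)]
    exact soft_sub_le hc h

theorem soft_eq_self {c x : ℝ} (h1 : -c ≤ x) (h2 : x ≤ c) : soft c x = x := by
  unfold soft clampc
  rw [min_eq_right h2, max_eq_right h1, sub_self, Real.arctan_zero, add_zero]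

theorem abs_soft_le {c : ℝ} (hc : 0 ≤ c) (x : ℝ) : |soft c x| ≤ c + 2 := by
  have h1 : |clampc c x| ≤ c := by
    unfold clampc
    rw [abs_le]
    exact ⟨le_max_left _ _, max_le (by linarith) (min_le_left _ _)⟩
  have h2 : |Real.arctan (x - clampc c x)| ≤ 2 := by
    rw [abs_le]
    have := Real.arctan_lt_pi_div_two (x - clampc c x)
    have := Real.neg_pi_div_two_lt_arctan (x - clampc c x)
    have := Real.pi_lt_four
    constructor <;> linarith
  unfold soft
  exact (abs_add_le _ _).trans (add_le_add h1 h2)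

theorem continuous_soft (c : ℝ) : Continuous (soft c) := by
  unfold soft clampc
  exact (continuous_const.max (continuous_const.min continuous_id)).add
    (Real.continuous_arctan.comp (continuous_id.sub
      (continuous_const.max (continuous_const.min continuous_id))))

/-- The contraction of the plane. -/
noncomputable def softc (c : ℝ) (z : ℂ) : ℂ :=
  (soft c z.re : ℂ) + (soft c z.im : ℂ) * Complex.I

theorem softc_re (c : ℝ) (z : ℂ) : (softc c z).re = soft c z.re := by simp [softc]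

theorem softc_im (c : ℝ) (z : ℂ) : (softc c z).im = soft c z.im := by simp [softc]

theorem continuous_softc (c : ℝ) : Continuous (softc c) := by
  unfold softc
  have := continuous_soft c
  fun_prop

theorem injective_softc {c : ℝ} (hc : 0 ≤ c) : Function.Injective (softc c) := by
  intro z w h
  apply Complex.ext
  · have := congrArg Complex.re h
    rw [softc_re, softc_re] at this
    exact (soft_strictMono hc).injective this
  · have := congrArg Complex.im h
    rw [softc_im, softc_im] at this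
    exact (soft_strictMono hc).injective this

theorem norm_softc_sub_le {c : ℝ} (hc : 0 ≤ c) (z w : ℂ) :
    ‖softc c z - softc c w‖ ≤ ‖z - w‖ := by
  rw [← Real.sqrt_sq (norm_nonneg (softc c z - softc c w)), ← Real.sqrt_sq (norm_nonneg (z - w))]
  apply Real.sqrt_le_sqrt
  rw [← Complex.normSq_eq_norm_sq, Complex.normSq_apply, ← Complex.normSq_eq_norm_sq,
    Complex.normSq_apply, Complex.sub_re, Complex.sub_im, Complex.sub_re, Complex.sub_im,
    softc_re, softc_re, softc_im, softc_im]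
  exact add_le_add (abs_le_iff_mul_self_le.1 (abs_soft_sub_le hc _ _))
    (abs_le_iff_mul_self_le.1 (abs_soft_sub_le hc _ _))

theorem norm_softc_le {c : ℝ} (hc : 0 ≤ c) (z : ℂ) : ‖softc c z‖ ≤ 2 * (c + 2) := by
  refine (Complex.norm_le_abs_re_add_abs_im _).trans ?_
  rw [softc_re, softc_im]
  linarith [abs_soft_le hc z.re, abs_soft_le hc z.im]

theorem phi_softc_ge {c k₁ k₂ : ℝ} (hc : 0 ≤ c) (hk₁ : 0 ≤ k₁) (hk₂ : 0 ≤ k₂) (z : ℂ) :
    phi k₁ k₂ z ≤ phi k₁ k₂ (softc c z) := by
  rw [phi_eq, phi_eq, softc_re]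
  have h0 : soft c 0 = 0 := soft_eq_self (by linarith) hc
  rcases le_total 0 z.re with h | h
  · have h1 := (soft_strictMono hc).monotone h
    have h2 := soft_sub_le hc h
    rw [h0] at h1 h2
    rw [max_eq_left h, max_eq_left h1, min_eq_right h, min_eq_right h1]
    nlinarith
  · have h1 := (soft_strictMono hc).monotone h
    have h2 := soft_sub_le hc h
    rw [h0] at h1 h2
    rw [max_eq_right h, max_eq_right h1, min_eq_left h, min_eq_left h1]
    nlinarith

section

variable {Γ Γ' B : Set ℂ} {D c k₁ k₂ ε₁ ε₂ : ℝ} {ν μ : Measure ℂ}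

theorem isJoining_softc (hc : 1 ≤ c) (h1 : |ε₁| ≤ c) (h2 : |ε₂| ≤ c)
    (hJ : IsJoining ε₁ ε₂ Γ) : IsJoining ε₁ ε₂ (softc c '' Γ) where
  isCompact := hJ.isCompact.image (continuous_softc c)
  isConnected := hJ.isConnected.image _ (continuous_softc c).continuousOn
  left_mem := by
    refine ⟨_, hJ.left_mem, ?_⟩
    rw [abs_le] at h1
    apply Complex.ext
    · rw [softc_re, soft_eq_self]
      · simp only [Complex.add_re, Complex.neg_re, Complex.ofReal_re, Complex.I_re, add_zero]
        linarith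
      · simp only [Complex.add_re, Complex.neg_re, Complex.ofReal_re, Complex.I_re, add_zero]
        linarith
    · rw [softc_im, soft_eq_self]
      · simp only [Complex.add_im, Complex.neg_im, Complex.ofReal_im, Complex.I_im]
        linarith
      · simp only [Complex.add_im, Complex.neg_im, Complex.ofReal_im, Complex.I_im]
        linarith
  right_mem := by
    refine ⟨_, hJ.right_mem, ?_⟩
    rw [abs_le] at h2
    apply Complex.ext
    · rw [softc_re, soft_eq_self]
      · simp only [Complex.sub_re, Complex.ofReal_re, Complex.I_re, sub_zero]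
        linarith
      · simp only [Complex.sub_re, Complex.ofReal_re, Complex.I_re, sub_zero]
        linarith
    · rw [softc_im, soft_eq_self]
      · simp only [Complex.sub_im, Complex.ofReal_im, Complex.I_im]
        linarith
      · simp only [Complex.sub_im, Complex.ofReal_im, Complex.I_im]
        linarith

theorem exists_pullback_softc (hc : 0 ≤ c) {ρ : Measure ℂ} (hρ : IsProbOn (softc c '' Γ) ρ) :
    ∃ ν, IsProbOn Γ ν ∧ ρ = ν.map (softc c) := by
  have hinj := injective_softc hc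
  have hemb : MeasurableEmbedding (softc c) := (continuous_softc c).measurableEmbedding hinj
  have := hρ.isProb
  have hrange : ρ.restrict (range (softc c)) = ρ := by
    apply Measure.restrict_eq_self_of_ae_mem
    have : ∀ᵐ z ∂ρ, z ∈ softc c '' Γ := by
      rw [ae_iff]; exact hρ.compl
    filter_upwards [this] with z hz using image_subset_range _ _ hz
  have hmap : (ρ.comap (softc c)).map (softc c) = ρ := by
    rw [hemb.map_comap, hrange]
  refine ⟨ρ.comap (softc c), ⟨⟨?_⟩, ?_⟩, hmap.symm⟩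
  · have h1 : (ρ.comap (softc c)).map (softc c) univ = 1 := by rw [hmap, measure_univ]
    rwa [hemb.map_apply, preimage_univ] at h1
  · rw [hemb.comap_apply]
    apply measure_mono_null _ hρ.compl
    rintro _ ⟨z, hz, rfl⟩ ⟨w, hw, hwz⟩
    exact hz (hinj hwz ▸ hw)

/-- The contraction does not decrease the minimal energy. -/
theorem ren_le_softc (hB : Box D B) (hΓB : Γ ⊆ B) (hTB : softc c '' Γ ⊆ B) (hc : 0 ≤ c)
    (hk₁ : 0 ≤ k₁) (hk₂ : 0 ≤ k₂) (hμ : IsMinim D k₁ k₂ Γ μ)
    (hν : IsMinim D k₁ k₂ (softc c '' Γ) ν) : ren D k₁ k₂ μ ≤ ren D k₁ k₂ ν := by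
  obtain ⟨σ, hσ, rfl⟩ := exists_pullback_softc hc hν.mem
  have := hσ.isProb
  have hm := (continuous_softc c).measurable
  have h1 : ener D σ σ ≤ ener D (σ.map (softc c)) (σ.map (softc c)) := by
    unfold ener
    have hm2 : Measurable (fun z => ∫⁻ w, kap D z w ∂(σ.map (softc c))) :=
      measurable_pot D _
    rw [lintegral_map hm2 hm]
    apply lintegral_mono
    intro z
    simp only
    rw [lintegral_map (measurable_kap_left D _) hm]
    apply lintegral_mono
    intro w
    exact kap_mono hB.pos (norm_softc_sub_le hc z w)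
  have hfin : ener D σ σ ≠ ⊤ := ne_top_of_le_ne_top hν.fin h1
  have h2 := ENNReal.toReal_mono hν.fin h1
  have h3 := hμ.le σ hσ hfin
  have h4 : ∫ z, phi k₁ k₂ z ∂σ ≤ ∫ z, phi k₁ k₂ z ∂(σ.map (softc c)) := by
    have hi2 := integrable_phi (k₁ := k₁) (k₂ := k₂) (hB.mono hTB).bdd hν.mem
    rw [integrable_map_measure (measurable_phi k₁ k₂).aestronglyMeasurable hm.aemeasurable] at hi2
    rw [integral_map hm.aemeasurable (measurable_phi k₁ k₂).aestronglyMeasurable]
    exact integral_mono (integrable_phi (hB.mono hΓB).bdd hσ k₁ k₂) hi2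
      (fun z => phi_softc_ge hc hk₁ hk₂ z)
  refine h3.trans ?_
  unfold ren
  linarith

/-- A max-min continuum exists for all `k₁, k₂ ≥ 0` and all `ε₁, ε₂`. -/
theorem exists_maxMin (k₁ k₂ ε₁ ε₂ : ℝ) (hk₁ : 0 ≤ k₁) (hk₂ : 0 ≤ k₂) :
    ∃ Γ : Set ℂ, IsMaxMin k₁ k₂ ε₁ ε₂ Γ := by
  obtain ⟨c, hc1, hc2, hc3⟩ : ∃ c : ℝ, 1 ≤ c ∧ |ε₁| ≤ c ∧ |ε₂| ≤ c :=
    ⟨max 1 (max |ε₁| |ε₂|), le_max_left _ _, (le_max_left _ _).trans (le_max_right _ _),
      (le_max_right _ _).trans (le_max_right _ _)⟩
  have hc : 0 ≤ c := by linarith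
  set R : ℝ := 2 * (c + 2) with hR
  set K : Set ℂ := Metric.closedBall 0 R with hK
  have hKc : IsCompact K := isCompact_closedBall _ _
  set D : ℝ := 2 * R with hD_def
  have hD2 : 2 ≤ D := by linarith
  have hBK : Box D K := by
    refine ⟨by linarith, hKc.isBounded, fun z hz w hw => ?_⟩
    rw [hK, mem_closedBall_zero_iff] at hz hw
    calc ‖z - w‖ ≤ ‖z‖ + ‖w‖ := norm_sub_le _ _
      _ ≤ D := by linarith
  have hKJ : IsJoining ε₁ ε₂ K := by
    refine ⟨hKc, ?_, ?_, ?_⟩
    · exact (convex_closedBall _ _).isConnected ⟨0, by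
        rw [mem_closedBall_zero_iff, norm_zero]
        linarith⟩
    · rw [hK, mem_closedBall_zero_iff]
      refine (norm_add_le _ _).trans ?_
      rw [norm_neg, Complex.norm_real, Complex.norm_I, Real.norm_eq_abs]
      linarith
    · rw [hK, mem_closedBall_zero_iff]
      refine (norm_sub_le _ _).trans ?_
      rw [Complex.norm_real, Complex.norm_I, Real.norm_eq_abs]
      linarith
  -- the supremum
  set S : Set ℝ := {x : ℝ | ∃ (Γ : Set ℂ) (μ : Measure ℂ), IsJoining ε₁ ε₂ Γ ∧ Γ ⊆ K ∧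
    IsMinim D k₁ k₂ Γ μ ∧ x = ren D k₁ k₂ μ} with hS
  have hSne : S.Nonempty := by
    obtain ⟨μ, hμ⟩ := exists_isMinim_joining hKJ hBK hD2 k₁ k₂
    exact ⟨_, K, μ, hKJ, Subset.rfl, hμ, rfl⟩
  have hSbdd : BddAbove S := by
    refine ⟨Real.log D + 1, ?_⟩
    rintro x ⟨Γ, μ, hJ, hΓK, hμ, rfl⟩
    exact ren_le hJ hD2 hk₁ hk₂ hμ
  obtain ⟨u, -, hu, huS⟩ := exists_seq_tendsto_sSup hSne hSbdd
  choose Γs μs hJs hΓKs hμs hus using huS
  -- the sequence of continua
  set Ls : ℕ → TopologicalSpace.NonemptyCompacts ℂ :=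
    fun n => ⟨⟨Γs n, (hJs n).isCompact⟩, (hJs n).isConnected.nonempty⟩ with hLs
  have hLcoe : ∀ n, ((Ls n : TopologicalSpace.NonemptyCompacts ℂ) : Set ℂ) = Γs n := fun n => rfl
  have hcomp := TopologicalSpace.NonemptyCompacts.isCompact_subsets_of_isCompact hKc
  obtain ⟨L, hL, φ, hφ, hlim⟩ := hcomp.tendsto_subseq (x := Ls) (fun n => hΓKs n)
  have hdist : Tendsto (fun n => dist ((Ls ∘ φ) n) L) atTop (𝓝 0) :=
    tendsto_iff_dist_tendsto_zero.1 hlim
  have hclose : ∀ δ : ℝ, 0 < δ → ∀ᶠ n in atTop, (∀ z ∈ (L : Set ℂ), ∃ w ∈ Γs (φ n), dist z w < δ) ∧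
      ∀ w ∈ Γs (φ n), ∃ z ∈ (L : Set ℂ), dist w z < δ := by
    intro δ hδ
    filter_upwards [hdist.eventually (gt_mem_nhds hδ)] with n hn
    have hfin : Metric.hausdorffEDist (Γs (φ n)) (L : Set ℂ) ≠ ⊤ :=
      Metric.hausdorffEDist_ne_top_of_nonempty_of_bounded (hJs _).isConnected.nonempty L.nonempty
        (hJs _).isCompact.isBounded L.isCompact.isBounded
    have hn' : Metric.hausdorffDist (Γs (φ n)) (L : Set ℂ) < δ := hn
    constructor
    · intro z hz
      obtain ⟨w, hw, hwz⟩ := Metric.exists_dist_lt_of_hausdorffDist_lt' hz hn' hfin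
      exact ⟨w, hw, by rwa [dist_comm]⟩
    · intro w hw
      exact Metric.exists_dist_lt_of_hausdorffDist_lt hw hn' hfin
  have hclosed : ∀ z₀ : ℂ, (∀ n, z₀ ∈ Γs n) → z₀ ∈ (L : Set ℂ) := by
    intro z₀ hz₀
    rw [← L.isCompact.isClosed.closure_eq, Metric.mem_closure_iff]
    intro δ hδ
    obtain ⟨n, hn⟩ := (hclose δ hδ).exists
    exact hn.2 z₀ (hz₀ _)
  have hLJ : IsJoining ε₁ ε₂ (L : Set ℂ) := by
    refine ⟨L.isCompact, ?_, hclosed _ fun n => (hJs n).left_mem,
      hclosed _ fun n => (hJs n).right_mem⟩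
    apply isConnected_of_limit L.isCompact L.nonempty
    intro δ hδ
    obtain ⟨n, hn⟩ := (hclose δ hδ).exists
    exact ⟨Γs (φ n), (hJs _).isConnected, hn.1, hn.2⟩
  have hLK : (L : Set ℂ) ⊆ K := hL
  obtain ⟨μ, hμ⟩ := exists_isMinim_joining hLJ (hBK.mono hLK) hD2 k₁ k₂
  -- upper semicontinuity
  have hsup : sSup S ≤ ren D k₁ k₂ μ := by
    apply le_of_forall_pos_le_add
    intro η hη
    obtain ⟨r, hr, hcl⟩ := usc (ε₁ := ε₁) (ε₂ := ε₂) hBK hLK hμ hη
    have h1 : ∀ᶠ n in atTop, u (φ n) ≤ ren D k₁ k₂ μ + η := by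
      filter_upwards [hclose r hr] with n hn
      rw [hus]
      refine hcl (Γs (φ n)) (hΓKs _) (hJs _) ?_ _ (hμs _)
      intro z hz
      obtain ⟨w, hw, hzw⟩ := hn.1 z hz
      exact ⟨w, hw, by rwa [dist_eq_norm] at hzw⟩
    exact le_of_tendsto (hu.comp hφ.tendsto_atTop) h1
  refine ⟨L, hLJ, fun Γ' hJ' => ?_⟩
  -- comparison with an arbitrary continuum
  obtain ⟨D', hB', hD'⟩ : ∃ D', Box D' (Γ' ∪ K) ∧ 2 ≤ D' := by
    obtain ⟨D', hB'⟩ := exists_box (hJ'.isCompact.isBounded.union hKc.isBounded)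
    exact ⟨max D' 2, ⟨le_max_of_le_left hB'.one_le, hB'.bdd,
      fun z hz w hw => (hB'.dist z hz w hw).trans (le_max_left _ _)⟩, le_max_right _ _⟩
  have hJT := isJoining_softc hc1 hc2 hc3 hJ'
  have hTK : softc c '' Γ' ⊆ K := by
    rintro _ ⟨z, -, rfl⟩
    rw [hK, mem_closedBall_zero_iff]
    exact norm_softc_le hc z
  have hBΓ' := hB'.mono (subset_union_left (s := Γ') (t := K))
  have hBT' := hB'.mono (hTK.trans (subset_union_right (s := Γ') (t := K)))
  obtain ⟨μ', hμ'⟩ := exists_isMinim_joining hJ' hBΓ' hD' k₁ k₂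
  obtain ⟨ν, hν⟩ := exists_isMinim_joining hJT hBT' hD' k₁ k₂
  have h1 := ren_le_softc hB' subset_union_left (hTK.trans subset_union_right) hc hk₁ hk₂ hμ' hν
  have hνD := IsMinim.change hBT' (hBK.mono hTK) hν
  obtain ⟨-, h2⟩ := ren_change (k₁ := k₁) (k₂ := k₂) hBT' (hBK.mono hTK) hν.mem hν.fin
  have h3 : ren D k₁ k₂ ν ≤ sSup S := le_csSup hSbdd ⟨_, ν, hJT, hTK, hνD, rfl⟩
  rw [eqEnergy_eq hBΓ' hμ', eqEnergy_eq (hBK.mono hLK) hμ, EReal.coe_le_coe_iff]
  linarith

end

end Pool.Agent.Helper25.SCurve
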