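import Pool.Agent.Helper25.SCurve.Lsc

/-!
# Existence, uniqueness and variational inequalities of the equilibrium measure
-/

namespace Pool.Agent.Helper25.SCurve

open MeasureTheory Set Filter Topology
open scoped ENNReal NNReal BoundedContinuousFunction

theorem phi_eq (k₁ k₂ : ℝ) (z : ℂ) : phi k₁ k₂ z = -k₁ * max z.re 0 + k₂ * min z.re 0 := by
  unfold phi
  split_ifs with h
  · rw [max_eq_left h.le, min_eq_right h.le]; ring
  · push Not at h
    rw [max_eq_right h, min_eq_left h]; ring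

@[fun_prop]
theorem continuous_phi (k₁ k₂ : ℝ) : Continuous (phi k₁ k₂) := by
  have : phi k₁ k₂ = fun z => -k₁ * max z.re 0 + k₂ * min z.re 0 := funext (phi_eq k₁ k₂)
  rw [this]
  fun_prop

/-- The set `Γ` is bounded with diameter at most `D`, and `D ≥ 1`. -/
structure Box (D : ℝ) (Γ : Set ℂ) : Prop where
  one_le : 1 ≤ D
  bdd : Bornology.IsBounded Γ
  dist : ∀ z ∈ Γ, ∀ w ∈ Γ, ‖z - w‖ ≤ D

theorem Box.pos {D : ℝ} {Γ : Set ℂ} (h : Box D Γ) : 0 < D := by
  have := h.one_le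
  linarith

theorem Box.mono {D : ℝ} {Γ Γ' : Set ℂ} (h : Box D Γ) (hsub : Γ' ⊆ Γ) : Box D Γ' :=
  ⟨h.one_le, h.bdd.subset hsub, fun z hz w hw => h.dist z (hsub hz) w (hsub hw)⟩

theorem exists_box {Γ : Set ℂ} (h : Bornology.IsBounded Γ) : ∃ D, Box D Γ := by
  obtain ⟨M, hM⟩ := h.exists_norm_le
  refine ⟨max 1 (2 * M), le_max_left _ _, h, fun z hz w hw => ?_⟩
  calc ‖z - w‖ ≤ ‖z‖ + ‖w‖ := norm_sub_le _ _
    _ ≤ M + M := add_le_add (hM z hz) (hM w hw)
    _ = 2 * M := by ring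
    _ ≤ _ := le_max_right _ _

/-- The real valued energy (for finite logarithmic energy) in the normalisation `kap D`. -/
noncomputable def ren (D k₁ k₂ : ℝ) (μ : Measure ℂ) : ℝ :=
  (ener D μ μ).toReal + 2 * ∫ z, phi k₁ k₂ z ∂μ

section

variable {D k₁ k₂ : ℝ} {Γ : Set ℂ} {μ ν : Measure ℂ}

theorem energy_real (hB : Box D Γ) (hμ : IsProbOn Γ μ) (hfin : ener D μ μ ≠ ⊤) :
    energy k₁ k₂ μ = ((ren D k₁ k₂ μ - Real.log D : ℝ) : EReal) := by
  rw [energy_eq hB.one_le hB.dist hμ, ← ENNReal.ofReal_toReal hfin, EReal.coe_ennreal_ofReal,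
    max_eq_left ENNReal.toReal_nonneg, ← EReal.coe_sub, ← EReal.coe_add]
  unfold ren
  congr 1
  ring

theorem energy_top (hB : Box D Γ) (hμ : IsProbOn Γ μ) (hinf : ener D μ μ = ⊤) :
    energy k₁ k₂ μ = ⊤ := by
  rw [energy_eq hB.one_le hB.dist hμ, hinf]
  simp only [EReal.coe_ennreal_top, EReal.top_sub_coe, EReal.top_add_coe]

/-- `μ` minimises the energy over the probability measures on `Γ` and has finite energy. -/
structure IsMinim (D k₁ k₂ : ℝ) (Γ : Set ℂ) (μ : Measure ℂ) : Prop where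
  mem : IsProbOn Γ μ
  fin : ener D μ μ ≠ ⊤
  le : ∀ ν, IsProbOn Γ ν → ener D ν ν ≠ ⊤ → ren D k₁ k₂ μ ≤ ren D k₁ k₂ ν

theorem IsMinim.energy_le (hB : Box D Γ) (h : IsMinim D k₁ k₂ Γ μ) (hν : IsProbOn Γ ν) :
    energy k₁ k₂ μ ≤ energy k₁ k₂ ν := by
  rcases eq_or_ne (ener D ν ν) ⊤ with hinf | hfin
  · rw [energy_top hB hν hinf]
    exact le_top
  · rw [energy_real hB h.mem h.fin, energy_real hB hν hfin, EReal.coe_le_coe_iff]
    have := h.le ν hν hfin
    linarith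

/-- The nonnegative kernel whose double integral is the energy up to a constant. -/
noncomputable def kerM (D k₁ k₂ M : ℝ) (p : ℂ × ℂ) : ℝ≥0∞ :=
  kap D p.1 p.2 + ENNReal.ofReal (phi k₁ k₂ p.1 + phi k₁ k₂ p.2 + 2 * M)

theorem continuous_kerM (hD : 0 < D) (M : ℝ) : Continuous (kerM D k₁ k₂ M) := by
  apply (continuous_kap hD).add
  apply ENNReal.continuous_ofReal.comp
  fun_prop

theorem exists_bound_phi (hB : Bornology.IsBounded Γ) (k₁ k₂ : ℝ) :
    ∃ M, ∀ z ∈ Γ, |phi k₁ k₂ z| ≤ M := by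
  obtain ⟨R, hR⟩ := hB.exists_norm_le
  exact ⟨(|k₁| + |k₂|) * R, fun z hz => (abs_phi_le k₁ k₂ z).trans
    (mul_le_mul_of_nonneg_left (hR z hz) (by positivity))⟩

theorem two_phi_add_nonneg {M : ℝ} (hB : Box D Γ) (hM : ∀ z ∈ Γ, |phi k₁ k₂ z| ≤ M)
    (hν : IsProbOn Γ ν) : 0 ≤ 2 * ∫ z, phi k₁ k₂ z ∂ν + 2 * M := by
  have := hν.isProb
  have hi := integrable_phi (k₁ := k₁) (k₂ := k₂) hB.bdd hν
  have h2 : ∀ᵐ w ∂ν, w ∈ Γ := by
    rw [ae_iff]; exact hν.compl
  have h3 : ∫ z, (-M) ∂ν ≤ ∫ z, phi k₁ k₂ z ∂ν := by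
    apply integral_mono_ae (integrable_const _) hi
    filter_upwards [h2] with w hw using (abs_le.1 (hM w hw)).1
  simp at h3
  linarith

theorem lintegral_kerM {M : ℝ} (hB : Box D Γ) (hM : ∀ z ∈ Γ, |phi k₁ k₂ z| ≤ M)
    (hν : IsProbOn Γ ν) : ∫⁻ p, kerM D k₁ k₂ M p ∂(ν.prod ν) =
      ener D ν ν + ENNReal.ofReal (2 * ∫ z, phi k₁ k₂ z ∂ν + 2 * M) := by
  have := hν.isProb
  have hi := integrable_phi (k₁ := k₁) (k₂ := k₂) hB.bdd hν
  have hi1 : Integrable (fun p : ℂ × ℂ => phi k₁ k₂ p.1) (ν.prod ν) := hi.comp_fst ν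
  have hi2 : Integrable (fun p : ℂ × ℂ => phi k₁ k₂ p.2) (ν.prod ν) := hi.comp_snd ν
  have hi12 : Integrable (fun p : ℂ × ℂ => phi k₁ k₂ p.1 + phi k₁ k₂ p.2) (ν.prod ν) :=
    hi1.add hi2
  have hi3 : Integrable (fun p : ℂ × ℂ => phi k₁ k₂ p.1 + phi k₁ k₂ p.2 + 2 * M) (ν.prod ν) :=
    hi12.add (integrable_const _)
  unfold kerM
  rw [lintegral_add_left (measurable_kap D), ← ener_eq_prod,
    ← ofReal_integral_eq_lintegral_ofReal hi3]
  · congr 2
    rw [integral_add hi12 (integrable_const _), integral_add hi1 hi2,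
      integral_fun_fst (f := phi k₁ k₂), integral_fun_snd (f := phi k₁ k₂)]
    simp
    ring
  · filter_upwards [hν.prod_ae hν] with p hp
    have h1 := abs_le.1 (hM _ hp.1)
    have h2 := abs_le.1 (hM _ hp.2)
    simp only [Pi.zero_apply]
    linarith [h1.1, h2.1]

theorem exists_isMinim (hΓ : IsCompact Γ) (hB : Box D Γ)
    (hex : ∃ ν, IsProbOn Γ ν ∧ ener D ν ν ≠ ⊤) : ∃ μ, IsMinim D k₁ k₂ Γ μ := by
  obtain ⟨ν₀, hν₀, hν₀fin⟩ := hex
  obtain ⟨M, hM⟩ := exists_bound_phi hB.bdd k₁ k₂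
  have hprob₀ := hν₀.isProb
  have hne : ({μ : ProbabilityMeasure ℂ | (μ : Measure ℂ) Γᶜ = 0}).Nonempty :=
    ⟨⟨ν₀, hν₀.isProb⟩, hν₀.compl⟩
  obtain ⟨μ, hμ, hmin⟩ := LowerSemicontinuousOn.exists_isMinOn hne (isCompact_probOn hΓ)
    ((lsc_lintegral_prod (kerM D k₁ k₂ M) (continuous_kerM hB.pos M)).lowerSemicontinuousOn _)
  have hμ' : IsProbOn Γ (μ : Measure ℂ) := ⟨inferInstance, hμ⟩
  have hle : ∀ ν : Measure ℂ, IsProbOn Γ ν →
      ener D (μ : Measure ℂ) μ + ENNReal.ofReal (2 * ∫ z, phi k₁ k₂ z ∂(μ : Measure ℂ) + 2 * M) ≤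
      ener D ν ν + ENNReal.ofReal (2 * ∫ z, phi k₁ k₂ z ∂ν + 2 * M) := by
    intro ν hν
    have h := hmin (show (⟨ν, hν.isProb⟩ : ProbabilityMeasure ℂ) ∈
      {μ : ProbabilityMeasure ℂ | (μ : Measure ℂ) Γᶜ = 0} from hν.compl)
    rw [← lintegral_kerM hB hM hν, ← lintegral_kerM hB hM hμ']
    exact h
  have hfin : ener D (μ : Measure ℂ) μ ≠ ⊤ := by
    have h1 := hle ν₀ hν₀
    have h2 : ener D ν₀ ν₀ + ENNReal.ofReal (2 * ∫ z, phi k₁ k₂ z ∂ν₀ + 2 * M) ≠ ⊤ :=
      ENNReal.add_ne_top.2 ⟨hν₀fin, ENNReal.ofReal_ne_top⟩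
    exact (ENNReal.add_ne_top.1 (ne_top_of_le_ne_top h2 h1)).1
  refine ⟨μ, hμ', hfin, fun ν hν hνfin => ?_⟩
  have h1 := hle ν hν
  have h2 := ENNReal.toReal_mono (ENNReal.add_ne_top.2 ⟨hνfin, ENNReal.ofReal_ne_top⟩) h1
  rw [ENNReal.toReal_add hfin ENNReal.ofReal_ne_top, ENNReal.toReal_add hνfin ENNReal.ofReal_ne_top,
    ENNReal.toReal_ofReal (two_phi_add_nonneg hB hM hμ'),
    ENNReal.toReal_ofReal (two_phi_add_nonneg hB hM hν)] at h2
  unfold ren
  linarith

theorem ener_ne_top (hB : Box D Γ) (hμ : IsProbOn Γ μ) (hν : IsProbOn Γ ν)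
    (h1 : ener D μ μ ≠ ⊤) (h2 : ener D ν ν ≠ ⊤) : ener D μ ν ≠ ⊤ := by
  intro h
  have h3 := two_ener_le hB.pos hB.dist hμ hν
  rw [h, ENNReal.mul_top (by norm_num)] at h3
  exact ENNReal.add_ne_top.2 ⟨h1, h2⟩ (top_le_iff.1 h3)

theorem ener_mix [IsProbabilityMeasure μ] [IsProbabilityMeasure ν] (D : ℝ) (a b : ℝ≥0∞) :
    ener D (a • μ + b • ν) (a • μ + b • ν) =
      a * a * ener D μ μ + a * b * ener D μ ν + a * b * ener D ν μ + b * b * ener D ν ν := by
  have hm : ∀ ρ : Measure ℂ, [SFinite ρ] → Measurable (fun z => ∫⁻ w, kap D z w ∂ρ) :=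
    fun ρ _ => measurable_pot D ρ
  unfold ener
  simp only [lintegral_add_measure, lintegral_smul_measure, smul_eq_mul]
  rw [lintegral_add_left ((hm μ).const_mul a), lintegral_add_left ((hm μ).const_mul a),
    lintegral_const_mul _ (hm μ), lintegral_const_mul _ (hm ν), lintegral_const_mul _ (hm μ),
    lintegral_const_mul _ (hm ν)]
  ring

theorem isProbOn_mix (hμ : IsProbOn Γ μ) (hν : IsProbOn Γ ν) {s : ℝ} (hs0 : 0 ≤ s) (hs1 : s ≤ 1) :
    IsProbOn Γ (ENNReal.ofReal (1 - s) • μ + ENNReal.ofReal s • ν) := by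
  have := hμ.isProb
  have := hν.isProb
  constructor
  · constructor
    simp only [Measure.coe_add, Measure.coe_smul, Pi.add_apply, Pi.smul_apply, measure_univ,
      smul_eq_mul, mul_one]
    rw [← ENNReal.ofReal_add (by linarith) hs0]
    simp
  · simp only [Measure.coe_add, Measure.coe_smul, Pi.add_apply, Pi.smul_apply, smul_eq_mul,
      hμ.compl, hν.compl]
    simp

/-- The first Frostman condition. -/
theorem frostman (hB : Box D Γ) (h : IsMinim D k₁ k₂ Γ μ) (hν : IsProbOn Γ ν)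
    (hfin : ener D ν ν ≠ ⊤) :
    (ener D μ μ).toReal + ∫ z, phi k₁ k₂ z ∂μ ≤ (ener D ν μ).toReal + ∫ z, phi k₁ k₂ z ∂ν := by
  have hμ := h.mem
  have := hμ.isProb
  have := hν.isProb
  have hmfin := ener_ne_top hB hν hμ hfin h.fin
  have hmfin' := ener_ne_top hB hμ hν h.fin hfin
  have hiμ := integrable_phi (k₁ := k₁) (k₂ := k₂) hB.bdd hμ
  have hiν := integrable_phi (k₁ := k₁) (k₂ := k₂) hB.bdd hν
  set a := (ener D μ μ).toReal with ha
  set b := (ener D ν ν).toReal with hb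
  set m := (ener D ν μ).toReal with hm
  set p := ∫ z, phi k₁ k₂ z ∂μ with hp
  set q := ∫ z, phi k₁ k₂ z ∂ν with hq
  have key : ∀ s : ℝ, 0 ≤ s → s ≤ 1 →
      a + 2 * p ≤ (1 - s) ^ 2 * a + 2 * (s * (1 - s)) * m + s ^ 2 * b +
        2 * ((1 - s) * p + s * q) := by
    intro s hs0 hs1
    have hs1' : 0 ≤ 1 - s := by linarith
    have hprob := isProbOn_mix hμ hν hs0 hs1
    have e1 := ener_mix (μ := μ) (ν := ν) D (ENNReal.ofReal (1 - s)) (ENNReal.ofReal s)
    rw [ener_comm D μ ν] at e1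
    have t1 : ENNReal.ofReal (1 - s) * ENNReal.ofReal (1 - s) * ener D μ μ ≠ ⊤ :=
      ENNReal.mul_ne_top (ENNReal.mul_ne_top ENNReal.ofReal_ne_top ENNReal.ofReal_ne_top) h.fin
    have t2 : ENNReal.ofReal (1 - s) * ENNReal.ofReal s * ener D ν μ ≠ ⊤ :=
      ENNReal.mul_ne_top (ENNReal.mul_ne_top ENNReal.ofReal_ne_top ENNReal.ofReal_ne_top) hmfin
    have t3 : ENNReal.ofReal s * ENNReal.ofReal s * ener D ν ν ≠ ⊤ :=
      ENNReal.mul_ne_top (ENNReal.mul_ne_top ENNReal.ofReal_ne_top ENNReal.ofReal_ne_top) hfin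
    have hfin2 : ener D (ENNReal.ofReal (1 - s) • μ + ENNReal.ofReal s • ν)
        (ENNReal.ofReal (1 - s) • μ + ENNReal.ofReal s • ν) ≠ ⊤ := by
      rw [e1]
      exact ENNReal.add_ne_top.2 ⟨ENNReal.add_ne_top.2 ⟨ENNReal.add_ne_top.2 ⟨t1, t2⟩, t2⟩, t3⟩
    have h1 := h.le _ hprob hfin2
    unfold ren at h1
    rw [e1] at h1
    rw [ENNReal.toReal_add (ENNReal.add_ne_top.2 ⟨ENNReal.add_ne_top.2 ⟨t1, t2⟩, t2⟩) t3,
      ENNReal.toReal_add (ENNReal.add_ne_top.2 ⟨t1, t2⟩) t2, ENNReal.toReal_add t1 t2] at h1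
    simp only [ENNReal.toReal_mul, ENNReal.toReal_ofReal hs1', ENNReal.toReal_ofReal hs0] at h1
    rw [integral_add_measure (hiμ.smul_measure ENNReal.ofReal_ne_top)
      (hiν.smul_measure ENNReal.ofReal_ne_top), integral_smul_measure, integral_smul_measure,
      ENNReal.toReal_ofReal hs1', ENNReal.toReal_ofReal hs0, smul_eq_mul, smul_eq_mul] at h1
    rw [← ha, ← hb, ← hm, ← hp, ← hq] at h1
    nlinarith
  -- divide by s and let s tend to zero
  by_contra hcon
  push Not at hcon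
  set δ := a + p - (m + q) with hδ
  have hδ0 : 0 < δ := by linarith
  -- key: 0 ≤ s * (2 (m + q - a - p)) + s^2 (a - 2m + b)
  have key2 : ∀ s : ℝ, 0 < s → s ≤ 1 → 2 * δ ≤ s * (a - 2 * m + b) := by
    intro s hs0 hs1
    have h1 := key s hs0.le hs1
    have h2 : 0 ≤ s * (s * (a - 2 * m + b) - 2 * δ) := by
      rw [hδ]
      nlinarith
    have := (mul_nonneg_iff_of_pos_left hs0).1 h2
    linarith
  have h3 := key2 1 one_pos le_rfl
  set c := a - 2 * m + b with hc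
  have hc0 : 0 < c := by nlinarith
  have h4 := key2 (min 1 (δ / c)) (by positivity) (min_le_left _ _)
  have h5 : min 1 (δ / c) * c ≤ δ := by
    calc min 1 (δ / c) * c ≤ δ / c * c := by gcongr; exact min_le_right _ _
      _ = δ := by field_simp
  linarith

/-- Quadratic growth of the energy at the minimiser. -/
theorem ren_growth (hB : Box D Γ) (h : IsMinim D k₁ k₂ Γ μ) (hν : IsProbOn Γ ν)
    (hfin : ener D ν ν ≠ ⊤) :
    (ener D ν ν).toReal + (ener D μ μ).toReal - 2 * (ener D ν μ).toReal ≤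
      ren D k₁ k₂ ν - ren D k₁ k₂ μ := by
  have h1 := frostman hB h hν hfin
  unfold ren
  linarith

/-- Uniqueness of the minimiser. -/
theorem IsMinim.unique (hB : Box D Γ) (h : IsMinim D k₁ k₂ Γ μ) (hν : IsProbOn Γ ν)
    (hfin : ener D ν ν ≠ ⊤) (hle : ren D k₁ k₂ ν ≤ ren D k₁ k₂ μ) : ν = μ := by
  have h1 := ren_growth hB h hν hfin
  have hmfin := ener_ne_top hB hν h.mem hfin h.fin
  apply eq_of_ener_le hB.pos hB.dist hν h.mem hfin h.fin
  rw [← ENNReal.toReal_le_toReal (ENNReal.add_ne_top.2 ⟨hfin, h.fin⟩)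
    (ENNReal.mul_ne_top (by norm_num) hmfin), ENNReal.toReal_add hfin h.fin, ENNReal.toReal_mul,
    ENNReal.toReal_ofNat]
  linarith

/-- A minimiser is the equilibrium measure. -/
theorem IsMinim.isEquilibrium (hB : Box D Γ) (h : IsMinim D k₁ k₂ Γ μ) :
    IsEquilibrium k₁ k₂ Γ μ := by
  refine ⟨h.mem, fun ν hν hne => ?_⟩
  rcases eq_or_ne (ener D ν ν) ⊤ with hinf | hfin
  · rw [energy_top hB hν hinf, energy_real hB h.mem h.fin]
    exact EReal.coe_lt_top _
  · rw [energy_real hB h.mem h.fin, energy_real hB hν hfin, EReal.coe_lt_coe_iff]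
    by_contra hcon
    push Not at hcon
    exact hne (h.unique hB hν hfin (by linarith))

/-- The Frostman constant. -/
noncomputable def frost (D k₁ k₂ : ℝ) (μ : Measure ℂ) : ℝ :=
  (ener D μ μ).toReal + ∫ z, phi k₁ k₂ z ∂μ

theorem pot_lt_top_ae (hB : Box D Γ) (hμ : IsProbOn Γ μ) (hfin : ener D μ μ ≠ ⊤)
    (hν : IsProbOn Γ ν) (hfin' : ener D ν ν ≠ ⊤) : ∀ᵐ z ∂ν, pot D μ z < ⊤ := by
  have := hμ.isProb
  apply ae_lt_top (measurable_pot D μ)
  rw [← ener_eq_pot]
  exact ener_ne_top hB hν hμ hfin' hfin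

theorem integral_pot (hB : Box D Γ) (hμ : IsProbOn Γ μ) (hfin : ener D μ μ ≠ ⊤)
    (hν : IsProbOn Γ ν) (hfin' : ener D ν ν ≠ ⊤) :
    ∫ z, (pot D μ z).toReal ∂ν = (ener D ν μ).toReal := by
  have := hμ.isProb
  rw [ener_eq_pot, integral_toReal (measurable_pot D μ).aemeasurable
    (pot_lt_top_ae hB hμ hfin hν hfin')]

theorem integrable_pot (hB : Box D Γ) (hμ : IsProbOn Γ μ) (hfin : ener D μ μ ≠ ⊤)
    (hν : IsProbOn Γ ν) (hfin' : ener D ν ν ≠ ⊤) :
    Integrable (fun z => (pot D μ z).toReal) ν := by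
  have := hμ.isProb
  apply integrable_toReal_of_lintegral_ne_top (measurable_pot D μ).aemeasurable
  rw [← ener_eq_pot]
  exact ener_ne_top hB hν hμ hfin' hfin

theorem ener_restrict_le (D : ℝ) (μ : Measure ℂ) (s : Set ℂ) :
    ener D (μ.restrict s) (μ.restrict s) ≤ ener D μ μ := by
  unfold ener
  calc ∫⁻ z in s, ∫⁻ w in s, kap D z w ∂μ ∂μ ≤ ∫⁻ z in s, ∫⁻ w, kap D z w ∂μ ∂μ :=
        lintegral_mono fun z => setLIntegral_le_lintegral _ _
    _ ≤ ∫⁻ z, ∫⁻ w, kap D z w ∂μ ∂μ := setLIntegral_le_lintegral _ _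

/-- Normalised restriction. -/
theorem isProbOn_normalise (hμ : IsProbOn Γ μ) {s : Set ℂ} (hs : μ s ≠ 0) :
    IsProbOn Γ ((μ s)⁻¹ • μ.restrict s) := by
  have := hμ.isProb
  constructor
  · constructor
    simp only [Measure.coe_smul, Pi.smul_apply, Measure.restrict_apply_univ, smul_eq_mul]
    exact ENNReal.inv_mul_cancel hs (measure_ne_top _ _)
  · simp only [Measure.coe_smul, Pi.smul_apply, smul_eq_mul]
    rw [le_antisymm ((Measure.restrict_apply_le _ _).trans_eq hμ.compl) (by positivity), mul_zero]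

theorem ener_normalise_ne_top (hμ : IsProbOn Γ μ) (hfin : ener D μ μ ≠ ⊤) {s : Set ℂ}
    (hs : μ s ≠ 0) :
    ener D ((μ s)⁻¹ • μ.restrict s) ((μ s)⁻¹ • μ.restrict s) ≠ ⊤ := by
  have := hμ.isProb
  have h1 : ener D ((μ s)⁻¹ • μ.restrict s) ((μ s)⁻¹ • μ.restrict s) =
      (μ s)⁻¹ * ((μ s)⁻¹ * ener D (μ.restrict s) (μ.restrict s)) := by
    unfold ener
    simp only [lintegral_smul_measure, smul_eq_mul]
    have hm : Measurable (fun z => ∫⁻ w in s, kap D z w ∂μ) := measurable_pot D (μ.restrict s)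
    rw [lintegral_const_mul _ hm]
  rw [h1]
  have h2 : (μ s)⁻¹ ≠ ⊤ := ENNReal.inv_ne_top.2 hs
  exact ENNReal.mul_ne_top h2 (ENNReal.mul_ne_top h2
    (ne_top_of_le_ne_top hfin (ener_restrict_le D μ s)))

/-- `pot + φ = F` almost everywhere for the minimiser. -/
theorem pot_eq_ae (hB : Box D Γ) (h : IsMinim D k₁ k₂ Γ μ) :
    ∀ᵐ z ∂μ, (pot D μ z).toReal + phi k₁ k₂ z = frost D k₁ k₂ μ := by
  have hμ := h.mem
  have := hμ.isProb
  have hiφ := integrable_phi (k₁ := k₁) (k₂ := k₂) hB.bdd hμ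
  have hip := integrable_pot hB hμ h.fin hμ h.fin
  -- lower bound almost everywhere
  have hge : ∀ᵐ z ∂μ, frost D k₁ k₂ μ ≤ (pot D μ z).toReal + phi k₁ k₂ z := by
    by_contra hcon
    set s : Set ℂ := {z | (pot D μ z).toReal + phi k₁ k₂ z < frost D k₁ k₂ μ} with hs_def
    have hs : μ s ≠ 0 := by
      intro h0
      apply hcon
      rw [ae_iff]
      simp only [not_le]
      exact h0
    have hsm : MeasurableSet s := by
      apply measurableSet_lt _ measurable_const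
      exact (measurable_pot D μ).ennreal_toReal.add (measurable_phi k₁ k₂)
    have hν := isProbOn_normalise hμ hs
    have hνfin := ener_normalise_ne_top hμ h.fin hs
    have h1 := frostman hB h hν hνfin
    rw [← integral_pot hB hμ h.fin hν hνfin] at h1
    have hiφ' := integrable_phi (k₁ := k₁) (k₂ := k₂) hB.bdd hν
    have hip' := integrable_pot hB hμ h.fin hν hνfin
    rw [← integral_add hip' hiφ'] at h1
    have := hν.isProb
    have h2 : ∫ z, ((pot D μ z).toReal + phi k₁ k₂ z) ∂((μ s)⁻¹ • μ.restrict s) <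
        frost D k₁ k₂ μ := by
      have h3 : ∀ᵐ z ∂((μ s)⁻¹ • μ.restrict s),
          (pot D μ z).toReal + phi k₁ k₂ z < frost D k₁ k₂ μ := by
        apply Measure.ae_smul_measure
        exact ae_restrict_mem hsm
      have hi1 : Integrable (fun z => (pot D μ z).toReal + phi k₁ k₂ z)
          ((μ s)⁻¹ • μ.restrict s) := hip'.add hiφ'
      have hi2 : Integrable (fun z => frost D k₁ k₂ μ - ((pot D μ z).toReal + phi k₁ k₂ z))
          ((μ s)⁻¹ • μ.restrict s) := (integrable_const _).sub hi1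
      have h4 : 0 < ∫ z, (frost D k₁ k₂ μ - ((pot D μ z).toReal + phi k₁ k₂ z))
          ∂((μ s)⁻¹ • μ.restrict s) := by
        rw [integral_pos_iff_support_of_nonneg_ae]
        · have h5 : ((μ s)⁻¹ • μ.restrict s) (Function.support fun z =>
              frost D k₁ k₂ μ - ((pot D μ z).toReal + phi k₁ k₂ z)) = 1 := by
            rw [← measure_univ (μ := (μ s)⁻¹ • μ.restrict s)]
            apply measure_congr
            filter_upwards [h3] with z hz
            apply propext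
            constructor
            · intro _; trivial
            · intro _
              change _ - _ ≠ (0 : ℝ)
              linarith
          rw [h5]
          exact one_pos
        · filter_upwards [h3] with z hz
          simp only [Pi.zero_apply]
          linarith
        · exact hi2
      rw [integral_sub (integrable_const _) hi1] at h4
      simp only [integral_const, probReal_univ, smul_eq_mul, one_mul] at h4
      linarith
    unfold frost at h2
    linarith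
  -- equality from the integral
  have hi3 : Integrable (fun z => (pot D μ z).toReal + phi k₁ k₂ z) μ := hip.add hiφ
  have hi4 : Integrable (fun z => (pot D μ z).toReal + phi k₁ k₂ z - frost D k₁ k₂ μ) μ :=
    hi3.sub (integrable_const _)
  have hint : ∫ z, ((pot D μ z).toReal + phi k₁ k₂ z - frost D k₁ k₂ μ) ∂μ = 0 := by
    rw [integral_sub hi3 (integrable_const _), integral_add hip hiφ,
      integral_pot hB hμ h.fin hμ h.fin]
    unfold frost
    simp
  have h0 := (integral_eq_zero_iff_of_nonneg_ae (by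
    filter_upwards [hge] with z hz
    simp only [Pi.zero_apply]
    linarith) hi4).1 hint
  filter_upwards [h0] with z hz
  simp only [Pi.zero_apply] at hz
  linarith

/-- `pot + φ ≤ F` on the support of the minimiser. -/
theorem pot_le_of_mem_support (hB : Box D Γ) (h : IsMinim D k₁ k₂ Γ μ) {z : ℂ}
    (hz : z ∈ μ.support) :
    pot D μ z ≤ ENNReal.ofReal (frost D k₁ k₂ μ - phi k₁ k₂ z) := by
  have hμ := h.mem
  have := hμ.isProb
  by_contra hcon
  push Not at hcon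
  -- an open neighbourhood where the inequality persists
  have h1 : ∀ᶠ w in 𝓝 z, ENNReal.ofReal (frost D k₁ k₂ μ - phi k₁ k₂ w) < pot D μ w := by
    obtain ⟨c, hc1, hc2⟩ := exists_between hcon
    have h2 : ∀ᶠ w in 𝓝 z, c < pot D μ w := lsc_pot hB.pos μ z c hc2
    have h3 : ∀ᶠ w in 𝓝 z, ENNReal.ofReal (frost D k₁ k₂ μ - phi k₁ k₂ w) < c := by
      have : Continuous (fun w => ENNReal.ofReal (frost D k₁ k₂ μ - phi k₁ k₂ w)) :=
        ENNReal.continuous_ofReal.comp (by fun_prop)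
      exact this.continuousAt.eventually_lt continuousAt_const hc1
    filter_upwards [h2, h3] with w h4 h5 using h5.trans h4
  rw [Measure.mem_support_iff_forall] at hz
  have h2 := hz _ h1
  have h3 : μ {w | ENNReal.ofReal (frost D k₁ k₂ μ - phi k₁ k₂ w) < pot D μ w} = 0 := by
    have h4 := pot_eq_ae hB h
    have h5 := pot_lt_top_ae hB hμ h.fin hμ h.fin
    have h6 : ∀ᵐ w ∂μ, ¬ ENNReal.ofReal (frost D k₁ k₂ μ - phi k₁ k₂ w) < pot D μ w := by
      filter_upwards [h4, h5] with w hw1 hw2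
      rw [not_lt, ← hw1, add_sub_cancel_right, ENNReal.ofReal_toReal hw2.ne]
    rw [ae_iff] at h6
    simpa using h6
  exact absurd h3 h2.ne'

end

end Pool.Agent.Helper25.SCurve
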