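import Pool.Agent.Helper25.SCurve.Radial
import Pool.Agent.Helper25.SCurve.Confine

/-!
# Upper semicontinuity of the equilibrium energy in the Hausdorff metric
-/

namespace Pool.Agent.Helper25.SCurve

open MeasureTheory Set Filter Topology
open scoped ENNReal NNReal

section

variable {Γ Γ' B : Set ℂ} {r D M k₁ k₂ ε₁ ε₂ : ℝ} {ν μ : Measure ℂ}

theorem exists_circle (hJ' : IsJoining ε₁ ε₂ Γ') {z : ℂ} {s : ℝ} (hr : 2 * r < 1)
    (hnear : ∃ w ∈ Γ', ‖z - w‖ < r) (hs : s ∈ Icc r (2 * r)) : ∃ w ∈ Γ', ‖w - z‖ = s := by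
  have h1 : IsPreconnected ((fun w => ‖w - z‖) '' Γ') := by
    apply hJ'.isConnected.isPreconnected.image
    exact Continuous.continuousOn (by fun_prop)
  obtain ⟨w₀, hw₀, hw₀r⟩ := hnear
  have h2 : ‖w₀ - z‖ ∈ (fun w => ‖w - z‖) '' Γ' := ⟨w₀, hw₀, rfl⟩
  have h3 : ∃ w₁ ∈ Γ', 1 ≤ ‖w₁ - z‖ := by
    by_contra hcon
    push Not at hcon
    have a1 := hcon _ hJ'.left_mem
    have a2 := hcon _ hJ'.right_mem
    have a3 : (2 : ℝ) ≤ ‖(-(ε₁ : ℂ) + Complex.I) - ((ε₂ : ℂ) - Complex.I)‖ := by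
      refine le_trans (le_of_eq ?_) (Complex.abs_im_le_norm _)
      simp only [Complex.sub_im, Complex.add_im, Complex.neg_im, Complex.ofReal_im, Complex.I_im]
      norm_num
    have a4 := norm_sub_le_norm_sub_add_norm_sub (-(ε₁ : ℂ) + Complex.I) z ((ε₂ : ℂ) - Complex.I)
    rw [norm_sub_rev z] at a4
    linarith
  obtain ⟨w₁, hw₁, hw₁z⟩ := h3
  have h4 : ‖w₁ - z‖ ∈ (fun w => ‖w - z‖) '' Γ' := ⟨w₁, hw₁, rfl⟩
  rw [norm_sub_rev] at hw₀r
  obtain ⟨w, hw, hwz⟩ := h1.Icc_subset h2 h4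
    (show s ∈ Icc ‖w₀ - z‖ ‖w₁ - z‖ from ⟨by linarith [hs.1], by linarith [hs.2]⟩)
  exact ⟨w, hw, hwz⟩

theorem ren_smear_le (hB : Box D B) (hΓB : Γ ⊆ B) (hΓB' : Γ' ⊆ B) (hΓ' : IsClosed Γ')
    (hν : IsProbOn Γ ν) (hfin : ener D ν ν ≠ ⊤) (hr : 0 < r) (hM : 8 ≤ M) (hMr : M * r < D)
    (hcirc : ∀ z ∈ Γ, ∀ s ∈ Icc r (2 * r), ∃ w ∈ Γ', ‖w - z‖ = s) :
    ener D (smear Γ' r ν) (smear Γ' r ν) ≠ ⊤ ∧
      ren D k₁ k₂ (smear Γ' r ν) ≤ ren D k₁ k₂ ν + 8 / M +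
        (Real.log (2 * M) + 1) * ((ener D ν ν).toReal / Real.log (D / (M * r))) +
        2 * ((|k₁| + |k₂|) * (2 * r)) := by
  have := hν.isProb
  have hM0 : 0 < M := by linarith
  have hrD : r ≤ D := by nlinarith
  have hlogM : 0 ≤ Real.log (2 * M) + 1 := by
    have := Real.log_nonneg (by linarith : 1 ≤ 2 * M)
    linarith
  have h1 := ener_smear_le (ν := ν) hΓ' hr hM hrD
  have h2 : ener D ν ν + ENNReal.ofReal (8 / M) + ENNReal.ofReal (Real.log (2 * M) + 1) *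
      (ν.prod ν) {q : ℂ × ℂ | ‖q.1 - q.2‖ < M * r} ≠ ⊤ := by
    apply ENNReal.add_ne_top.2 ⟨ENNReal.add_ne_top.2 ⟨hfin, ENNReal.ofReal_ne_top⟩, ?_⟩
    exact ENNReal.mul_ne_top ENNReal.ofReal_ne_top (measure_ne_top _ _)
  refine ⟨ne_top_of_le_ne_top h2 h1, ?_⟩
  have h3 := ENNReal.toReal_mono h2 h1
  rw [ENNReal.toReal_add (ENNReal.add_ne_top.2 ⟨hfin, ENNReal.ofReal_ne_top⟩)
    (ENNReal.mul_ne_top ENNReal.ofReal_ne_top (measure_ne_top _ _)),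
    ENNReal.toReal_add hfin ENNReal.ofReal_ne_top, ENNReal.toReal_mul,
    ENNReal.toReal_ofReal (by positivity), ENNReal.toReal_ofReal hlogM] at h3
  have h4 := measure_near_diag (hB.mono hΓB) hν hfin (by positivity : 0 < M * r) hMr
  have h5 := integral_phi_smear_le (k₁ := k₁) (k₂ := k₂) hΓ' hr (hB.mono hΓB).bdd
    (hB.mono hΓB').bdd hν hcirc
  unfold ren
  have h6 : (Real.log (2 * M) + 1) * (ν.prod ν).real {q : ℂ × ℂ | ‖q.1 - q.2‖ < M * r} ≤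
      (Real.log (2 * M) + 1) * ((ener D ν ν).toReal / Real.log (D / (M * r))) := by
    gcongr
  rw [Measure.real] at h6
  linarith

/-- Upper semicontinuity of the minimal energy. -/
theorem usc (hB : Box D B) (hΓB : Γ ⊆ B)
    (hμ : IsMinim D k₁ k₂ Γ μ) {η : ℝ} (hη : 0 < η) :
    ∃ r : ℝ, 0 < r ∧ ∀ Γ' ⊆ B, IsJoining ε₁ ε₂ Γ' → (∀ z ∈ Γ, ∃ w ∈ Γ', ‖z - w‖ < r) →
      ∀ μ', IsMinim D k₁ k₂ Γ' μ' → ren D k₁ k₂ μ' ≤ ren D k₁ k₂ μ + η := by
  have hD0 := hB.pos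
  set M : ℝ := max 8 (32 / η) with hM_def
  have hM8 : 8 ≤ M := le_max_left _ _
  have hM0 : 0 < M := by linarith
  have hMη : 8 / M ≤ η / 4 := by
    rw [div_le_iff₀ hM0]
    have h1 : 32 / η ≤ M := le_max_right _ _
    rw [div_le_iff₀ hη] at h1
    linarith
  have hlogM : 0 ≤ Real.log (2 * M) + 1 := by
    have := Real.log_nonneg (by linarith : 1 ≤ 2 * M)
    linarith
  set c : ℝ := (Real.log (2 * M) + 1) * (ener D μ μ).toReal with hc_def
  have hc : 0 ≤ c := mul_nonneg hlogM ENNReal.toReal_nonneg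
  set L : ℝ := 4 * c / η + 1 with hL_def
  have hL : 0 < L := by positivity
  set r : ℝ := min (min (D / M * Real.exp (-L)) (1 / 4)) (η / (16 * (|k₁| + |k₂| + 1))) with hr_def
  have hr : 0 < r := by positivity
  have hr1 : r ≤ D / M * Real.exp (-L) := (min_le_left _ _).trans (min_le_left _ _)
  have hr2 : r ≤ 1 / 4 := (min_le_left _ _).trans (min_le_right _ _)
  have hr3 : r ≤ η / (16 * (|k₁| + |k₂| + 1)) := min_le_right _ _
  have hexp : Real.exp (-L) < 1 := by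
    rw [Real.exp_lt_one_iff]
    linarith
  have hMr : M * r < D := by
    calc M * r ≤ M * (D / M * Real.exp (-L)) := by gcongr
      _ = D * Real.exp (-L) := by field_simp
      _ < D * 1 := by gcongr
      _ = D := mul_one D
  have hlog : L ≤ Real.log (D / (M * r)) := by
    rw [← Real.log_exp L]
    apply Real.log_le_log (Real.exp_pos _)
    rw [le_div_iff₀ (by positivity)]
    calc Real.exp L * (M * r) ≤ Real.exp L * (M * (D / M * Real.exp (-L))) := by gcongr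
      _ = D * (Real.exp L * Real.exp (-L)) := by field_simp
      _ = D := by rw [← Real.exp_add, add_neg_cancel, Real.exp_zero, mul_one]
  refine ⟨r, hr, ?_⟩
  intro Γ' hΓB' hJ' hnear μ' hμ'
  have hcirc : ∀ z ∈ Γ, ∀ s ∈ Icc r (2 * r), ∃ w ∈ Γ', ‖w - z‖ = s :=
    fun z hz s hs => exists_circle hJ' (by linarith) (hnear z hz) hs
  obtain ⟨h1, h2⟩ := ren_smear_le (k₁ := k₁) (k₂ := k₂) hB hΓB hΓB' hJ'.isCompact.isClosed
    hμ.mem hμ.fin hr hM8 hMr hcirc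
  have h3 := hμ'.le _ (isProbOn_smear hJ'.isCompact.isClosed hr hμ.mem hcirc) h1
  have h4 : (Real.log (2 * M) + 1) * ((ener D μ μ).toReal / Real.log (D / (M * r))) ≤ η / 4 := by
    rw [← mul_div_assoc, ← hc_def, div_le_iff₀ (by linarith)]
    have h5 : 4 * c / η ≤ Real.log (D / (M * r)) := by linarith
    rw [div_le_iff₀ hη] at h5
    linarith
  have h5 : 2 * ((|k₁| + |k₂|) * (2 * r)) ≤ η / 4 := by
    rw [le_div_iff₀ (by positivity)] at hr3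
    have : 0 ≤ |k₁| + |k₂| := by positivity
    nlinarith
  linarith

theorem isConnected_of_limit {L : Set ℂ} (hL : IsCompact L) (hne : L.Nonempty)
    (h : ∀ δ : ℝ, 0 < δ → ∃ C : Set ℂ, IsConnected C ∧ (∀ z ∈ L, ∃ w ∈ C, dist z w < δ) ∧
      ∀ w ∈ C, ∃ z ∈ L, dist w z < δ) : IsConnected L := by
  refine ⟨hne, ?_⟩
  rw [isPreconnected_closed_iff]
  intro A A' hA hA' hcov h1 h2
  by_contra hcon
  rw [not_nonempty_iff_eq_empty] at hcon
  have hdisj : Disjoint (L ∩ A) (L ∩ A') := by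
    rw [disjoint_iff_inter_eq_empty, ← hcon]
    ext z
    constructor
    · rintro ⟨⟨a, b⟩, -, c⟩
      exact ⟨a, b, c⟩
    · rintro ⟨a, b, c⟩
      exact ⟨⟨a, b⟩, a, c⟩
  obtain ⟨δ, hδ, hthick⟩ := hdisj.exists_thickenings (hL.inter_right hA)
    (hL.inter_right hA').isClosed
  obtain ⟨C, hC, hC1, hC2⟩ := h δ hδ
  obtain ⟨z, hz⟩ := h1
  obtain ⟨z', hz'⟩ := h2
  obtain ⟨w, hw, hzw⟩ := hC1 z hz.1
  obtain ⟨w', hw', hzw'⟩ := hC1 z' hz'.1
  have h3 := hC.isPreconnected _ _ (Metric.isOpen_thickening (δ := δ) (E := L ∩ A))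
    (Metric.isOpen_thickening (δ := δ) (E := L ∩ A')) (by
      intro u hu
      obtain ⟨v, hv, huv⟩ := hC2 u hu
      rcases hcov hv with h4 | h4
      · exact Or.inl (Metric.mem_thickening_iff.2 ⟨v, ⟨hv, h4⟩, huv⟩)
      · exact Or.inr (Metric.mem_thickening_iff.2 ⟨v, ⟨hv, h4⟩, huv⟩))
    ⟨w, hw, Metric.mem_thickening_iff.2 ⟨z, hz, by rwa [dist_comm]⟩⟩
    ⟨w', hw', Metric.mem_thickening_iff.2 ⟨z', hz', by rwa [dist_comm]⟩⟩
  obtain ⟨u, -, hu1, hu2⟩ := h3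
  exact disjoint_left.1 hthick hu1 hu2

end

end Pool.Agent.Helper25.SCurve
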