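import Pool.Agent.Helper25.SCurve.Identity
import Pool.Agent.Helper25.SCurve.Usc

/-!
# A max-min continuum does not have the S-property
-/

namespace Pool.Agent.Helper25.SCurve

open MeasureTheory Set Filter Topology
open scoped ENNReal

section

variable {k₁ k₂ ε₁ ε₂ D : ℝ} {Γ : Set ℂ} {μ : Measure ℂ}

theorem continuous_axis : Continuous (fun y : ℝ => (⟨0, y⟩ : ℂ)) := by
  have : (fun y : ℝ => (⟨0, y⟩ : ℂ)) = fun y : ℝ => (y : ℂ) * Complex.I := by
    funext y
    apply Complex.ext <;> simp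
  rw [this]
  fun_prop

theorem norm_axis_le {z w : ℂ} (hw : w.re = 0) : ‖(⟨0, z.im⟩ : ℂ) - w‖ ≤ ‖z - w‖ := by
  rw [← Real.sqrt_sq (norm_nonneg ((⟨0, z.im⟩ : ℂ) - w)), ← Real.sqrt_sq (norm_nonneg (z - w))]
  apply Real.sqrt_le_sqrt
  rw [← Complex.normSq_eq_norm_sq, Complex.normSq_apply, ← Complex.normSq_eq_norm_sq,
    Complex.normSq_apply]
  simp only [Complex.sub_re, Complex.sub_im, hw]
  nlinarith [sq_nonneg z.re]

theorem norm_axis {y : ℝ} {w : ℂ} (hw : w.re = 0) : ‖(⟨0, y⟩ : ℂ) - w‖ = |y - w.im| := by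
  have : (⟨0, y⟩ : ℂ) - w = ((y - w.im : ℝ) : ℂ) * Complex.I := by
    apply Complex.ext <;> simp [hw]
  rw [this, norm_mul, Complex.norm_I, mul_one, Complex.norm_real, Real.norm_eq_abs]

/-- If the equilibrium measure is on the axis, its potential is at most the Frostman constant
on the whole axis. -/
theorem axis_pot_le (hB : Box D Γ) (hμ : IsMinim D k₁ k₂ Γ μ) (hΓ : IsCompact Γ)
    (hax : ∀ᵐ w ∂μ, w.re = 0) (y : ℝ) :
    pot D μ ⟨0, y⟩ ≤ ENNReal.ofReal (frost D k₁ k₂ μ) := by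
  have hμp := hμ.mem.isProb
  set F := frost D k₁ k₂ μ with hF
  have hsupp : μ.support ⊆ Γ := by
    apply Measure.support_subset_of_isClosed hΓ.isClosed
    rw [mem_ae_iff]
    exact hμ.mem.compl
  set T : Set ℝ := {y | (⟨0, y⟩ : ℂ) ∈ μ.support} with hT
  have hTcl : IsClosed T := Measure.isClosed_support.preimage continuous_axis
  obtain ⟨R, hR⟩ := hΓ.isBounded.subset_closedBall 0
  have hTb : ∀ y ∈ T, |y| ≤ R := by
    intro y hy
    have h1 := hR (hsupp hy)
    rw [mem_closedBall_zero_iff] at h1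
    exact (Complex.abs_im_le_norm (⟨0, y⟩ : ℂ)).trans h1
  have hTle : ∀ y ∈ T, pot D μ ⟨0, y⟩ ≤ ENNReal.ofReal F := by
    intro y hy
    have h1 := pot_le_of_mem_support hB hμ hy
    have h2 : phi k₁ k₂ ⟨0, y⟩ = 0 := by simp [phi]
    rwa [h2, sub_zero] at h1
  have hTae : ∀ᵐ w ∂μ, w.re = 0 ∧ w.im ∈ T := by
    filter_upwards [hax, (Measure.support_mem_ae : μ.support ∈ ae μ)] with w h1 h2
    refine ⟨h1, ?_⟩
    have h3 : (⟨0, w.im⟩ : ℂ) = w := by
      apply Complex.ext
      · exact h1.symm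
      · rfl
    rw [hT, mem_ofPred_eq, h3]
    exact h2
  by_cases hyT : y ∈ T
  · exact hTle y hyT
  have hc1 : IsCompact (T ∩ Icc (-R) y) := isCompact_Icc.inter_left hTcl
  have hc2 : IsCompact (T ∩ Icc y R) := isCompact_Icc.inter_left hTcl
  by_cases hn1 : (T ∩ Icc (-R) y).Nonempty
  · have hα := hc1.sSup_mem hn1
    set α := sSup (T ∩ Icc (-R) y) with hα_def
    have hαy : α < y := lt_of_le_of_ne hα.2.2 (fun h0 => hyT (h0 ▸ hα.1))
    have hαle : ∀ η ∈ T, η ≤ y → η ≤ α := fun η hη h1 =>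
      le_csSup hc1.bddAbove ⟨hη, (abs_le.1 (hTb η hη)).1, h1⟩
    by_cases hn2 : (T ∩ Icc y R).Nonempty
    · have hβ := hc2.sInf_mem hn2
      set β := sInf (T ∩ Icc y R) with hβ_def
      have hyβ : y < β := lt_of_le_of_ne hβ.2.1 (fun h0 => hyT (h0 ▸ hβ.1))
      have hβle : ∀ η ∈ T, y ≤ η → β ≤ η := fun η hη h1 =>
        csInf_le hc2.bddBelow ⟨hη, h1, (abs_le.1 (hTb η hη)).2⟩
      have hαβ : α < β := hαy.trans hyβ
      have hβα : 0 < β - α := sub_pos.2 hαβ
      set s := (y - α) / (β - α) with hs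
      have hs0 : 0 ≤ s := div_nonneg (by linarith) hβα.le
      have hs1 : s ≤ 1 := by
        rw [hs, div_le_one hβα]
        linarith
      have h1 : pot D μ ⟨0, y⟩ ≤ ∫⁻ w, (ENNReal.ofReal (1 - s) * kap D ⟨0, α⟩ w +
          ENNReal.ofReal s * kap D ⟨0, β⟩ w) ∂μ := by
        apply lintegral_mono_ae
        filter_upwards [hTae] with w hw
        obtain ⟨x, η⟩ := w
        obtain ⟨rfl, hη⟩ := hw
        apply kap_segment hB.pos hαβ ⟨hαy.le, hyβ.le⟩
        · rcases le_total η y with h2 | h2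
          · exact Or.inl (hαle η hη h2)
          · exact Or.inr (hβle η hη h2)
        · simp only [abs_zero]
          positivity
        · simp only [abs_zero]
          positivity
      refine h1.trans ?_
      rw [lintegral_add_left ((measurable_kap_left D _).const_mul _),
        lintegral_const_mul _ (measurable_kap_left D _),
        lintegral_const_mul _ (measurable_kap_left D _)]
      calc ENNReal.ofReal (1 - s) * pot D μ ⟨0, α⟩ + ENNReal.ofReal s * pot D μ ⟨0, β⟩
          ≤ ENNReal.ofReal (1 - s) * ENNReal.ofReal F +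
            ENNReal.ofReal s * ENNReal.ofReal F := by
            gcongr
            · exact hTle α hα.1
            · exact hTle β hβ.1
        _ = ENNReal.ofReal F := by
            rw [← add_mul, ← ENNReal.ofReal_add (sub_nonneg.2 hs1) hs0, sub_add_cancel,
              ENNReal.ofReal_one, one_mul]
    · refine le_trans ?_ (hTle α hα.1)
      apply lintegral_mono_ae
      filter_upwards [hTae] with w hw
      apply kap_mono hB.pos
      rw [norm_axis hw.1, norm_axis hw.1]
      have h1 : w.im ≤ y := by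
        by_contra h2
        exact hn2 ⟨w.im, hw.2, (not_le.1 h2).le, (abs_le.1 (hTb _ hw.2)).2⟩
      have h3 := hαle _ hw.2 h1
      rw [abs_of_nonneg (by linarith), abs_of_nonneg (by linarith)]
      linarith
  · have hge : ∀ η ∈ T, y ≤ η := by
      intro η hη
      by_contra h2
      exact hn1 ⟨η, hη, (abs_le.1 (hTb _ hη)).1, (not_le.1 h2).le⟩
    have hTne : T.Nonempty := by
      obtain ⟨w, hw⟩ := (hTae.exists : ∃ w : ℂ, w.re = 0 ∧ w.im ∈ T)
      exact ⟨_, hw.2⟩
    have hcT : IsCompact T := by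
      have h1 : T = T ∩ Icc (-R) R := by
        ext η
        exact ⟨fun h => ⟨h, abs_le.1 (hTb η h)⟩, fun h => h.1⟩
      rw [h1]
      exact isCompact_Icc.inter_left hTcl
    have hβ := hcT.sInf_mem hTne
    refine le_trans ?_ (hTle _ hβ)
    apply lintegral_mono_ae
    filter_upwards [hTae] with w hw
    apply kap_mono hB.pos
    rw [norm_axis hw.1, norm_axis hw.1]
    have h3 : sInf T ≤ w.im := csInf_le hcT.bddBelow hw.2
    have h4 := hge _ hβ
    rw [abs_of_nonpos (by linarith), abs_of_nonpos (by linarith)]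
    linarith

/-- The equilibrium measure cannot be concentrated on the axis. -/
theorem Setup.off_axis (h : Setup k₁ k₂ ε₁ ε₂ Γ D μ) (hk₂ : 0 < k₂) :
    ¬ ∀ᵐ w ∂μ, w.re = 0 := by
  intro hax
  have hμp := h.minim.mem.isProb
  have hJ := h.maxMin.joining
  have hε := h.pos₁
  have hε' := h.small₁
  set r : ℝ := ε₁ / 8 with hr_def
  have hr : 0 < r := by positivity
  set z₁ : ℂ := -(ε₁ : ℂ) + Complex.I with hz₁
  have hz₁re : z₁.re = -ε₁ := by simp [hz₁]
  have hcirc : ∀ s ∈ Icc r (2 * r), ∃ w ∈ Γ, ‖w - z₁‖ = s := fun s hs =>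
    exists_circle hJ (by linarith) ⟨z₁, hJ.left_mem, by simpa using hr⟩ hs
  have huni := isProb_uni hr
  have hcl := hJ.isCompact.isClosed
  have hm : Measurable (fun s : ℝ => radPt Γ (z₁, s)) :=
    (measurable_radPt hcl).comp (measurable_const.prodMk measurable_id)
  set ν : Measure ℂ := (uni r).map (fun s => radPt Γ (z₁, s)) with hν_def
  have hνae : ∀ᵐ z ∂ν, z ∈ Γ ∧ ‖z - z₁‖ ≤ 2 * r := by
    rw [hν_def, ae_map_iff hm.aemeasurable]
    · filter_upwards [uni_ae r] with s hs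
      refine ⟨radPt_mem hcl (hcirc s hs), ?_⟩
      rw [norm_radPt_sub, abs_of_pos (by linarith [hs.1])]
      exact hs.2
    · apply MeasurableSet.inter hcl.measurableSet
      exact measurableSet_le (by fun_prop : Measurable fun z : ℂ => ‖z - z₁‖) measurable_const
  have hν : IsProbOn Γ ν := by
    refine ⟨Measure.isProbabilityMeasure_map hm.aemeasurable, ?_⟩
    have : ∀ᵐ z ∂ν, z ∈ Γ := hνae.mono fun z hz => hz.1
    rwa [ae_iff] at this
  have hνp := hν.isProb
  have hfin : ener D ν ν ≠ ⊤ := by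
    have h1 : ener D ν ν ≤ ENNReal.ofReal (Real.log D + 1 - Real.log (r / 2)) := by
      calc ener D ν ν ≤ ∫⁻ _, ENNReal.ofReal (Real.log D + 1 - Real.log (r / 2)) ∂ν := by
            apply lintegral_mono
            intro u
            simp only
            rw [hν_def, lintegral_map (measurable_kap_left D u) hm]
            exact lintegral_kap_radPt_le hr (by linarith [h.two_le]) Γ u z₁
        _ = _ := by rw [lintegral_const, measure_univ, mul_one]
    exact ne_top_of_le_ne_top ENNReal.ofReal_ne_top h1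
  have hfr := frostman h.box h.minim hν hfin
  have hi := integrable_pot h.box h.minim.mem h.minim.fin hν hfin
  have hiφ := integrable_phi (k₁ := k₁) (k₂ := k₂) h.box.bdd hν
  rw [← integral_pot h.box h.minim.mem h.minim.fin hν hfin, ← integral_add hi hiφ] at hfr
  have hphi0 : ∫ z, phi k₁ k₂ z ∂μ = 0 := by
    rw [integral_eq_zero_of_ae]
    filter_upwards [hax] with w hw
    simp [phi, hw]
  have hF0 : 0 ≤ frost D k₁ k₂ μ := by
    unfold frost
    rw [hphi0, add_zero]
    exact ENNReal.toReal_nonneg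
  have hle : ∀ᵐ z ∂ν, (pot D μ z).toReal + phi k₁ k₂ z ≤
      frost D k₁ k₂ μ - k₂ * (3 / 4 * ε₁) := by
    filter_upwards [hνae] with z hz
    have h1 : pot D μ z ≤ ENNReal.ofReal (frost D k₁ k₂ μ) := by
      refine le_trans ?_ (axis_pot_le h.box h.minim hJ.isCompact hax z.im)
      apply lintegral_mono_ae
      filter_upwards [hax] with w hw
      exact kap_mono h.box.pos (norm_axis_le hw)
    have h2 := ENNReal.toReal_mono ENNReal.ofReal_ne_top h1
    rw [ENNReal.toReal_ofReal hF0] at h2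
    have h3 : z.re ≤ -(3 / 4 * ε₁) := by
      have h4 := (Complex.abs_re_le_norm (z - z₁)).trans hz.2
      rw [Complex.sub_re, hz₁re, abs_le] at h4
      linarith [h4.2]
    have h5 : phi k₁ k₂ z ≤ -(k₂ * (3 / 4 * ε₁)) := by
      unfold phi
      rw [if_neg (by linarith)]
      nlinarith
    linarith
  have hint := integral_mono_ae (hi.add hiφ) (integrable_const _) hle
  simp only [integral_const, probReal_univ, smul_eq_mul, one_mul] at hint
  have h6 : 0 < k₂ * (3 / 4 * ε₁) := by positivity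
  have h7 : frost D k₁ k₂ μ ≤ frost D k₁ k₂ μ - k₂ * (3 / 4 * ε₁) := hfr.trans hint
  linarith

theorem fld_lt_of_right {y₁ y₂ : ℝ} {w : ℂ} (hy : y₁ < y₂) (h1 : -(8 / 10) ≤ y₁) (hw : 0 < w.re)
    (him : w.im ≤ -(9 / 10)) : fld y₂ w < fld y₁ w := by
  unfold fld
  apply div_lt_div_of_pos_left (by linarith)
  · have : 0 < y₁ - w.im := by linarith
    positivity
  · nlinarith

theorem fld_lt_of_left {y₁ y₂ : ℝ} {w : ℂ} (hy : y₁ < y₂) (h2 : y₂ ≤ 8 / 10) (hw : w.re < 0)
    (him : 9 / 10 ≤ w.im) : fld y₂ w < fld y₁ w := by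
  have key : -fld y₁ w < -fld y₂ w := by
    unfold fld
    rw [← neg_div, ← neg_div]
    apply div_lt_div_of_pos_left (by linarith)
    · have : 0 < w.im - y₂ := by linarith
      have : 0 < (y₂ - w.im) ^ 2 := by nlinarith
      positivity
    · nlinarith
  linarith

theorem abs_fld_le {y : ℝ} {w : ℂ} (hw : |w.re| ≤ 1 / 200) (h : w.re = 0 ∨ 1 / 10 ≤ |y - w.im|) :
    |fld y w| ≤ 1 := by
  unfold fld
  rcases h with h | h
  · rw [h]
    simp
  · have hu2 : 1 / 100 ≤ (y - w.im) ^ 2 := by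
      rw [← sq_abs]
      nlinarith
    have hpos : 1 / 100 ≤ w.re ^ 2 + (y - w.im) ^ 2 := by nlinarith [sq_nonneg w.re]
    rw [abs_div, abs_mul, abs_of_pos (by norm_num : (0 : ℝ) < 2),
      abs_of_pos (by linarith : 0 < w.re ^ 2 + (y - w.im) ^ 2), div_le_one (by linarith)]
    linarith

theorem Setup.integrable_fld (h : Setup k₁ k₂ ε₁ ε₂ Γ D μ) {y : ℝ} (hy : |y| ≤ 8 / 10) :
    Integrable (fld y) μ := by
  have hμp := h.minim.mem.isProb
  refine (integrable_const (1 : ℝ)).mono' ?_ ?_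
  · have h1 := Complex.measurable_re
    have h2 := Complex.measurable_im
    have : Measurable (fld y) := by
      unfold fld
      fun_prop
    exact this.aestronglyMeasurable
  · filter_upwards [h.small] with w hw
    apply abs_fld_le hw.1
    by_cases h3 : w.re = 0
    · exact Or.inl h3
    · right
      by_contra h4
      apply h3
      apply hw.2.2
      push Not at h4
      have h5 := abs_sub_abs_le_abs_sub w.im y
      rw [abs_sub_comm] at h5
      linarith

/-- For small `ε₁, ε₂ > 0` no max-min continuum has the S-property. -/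
theorem maxmin_not_sProperty (hk₁ : 0 < k₁) (hk₂ : 0 < k₂) :
    ∃ ε₀ : ℝ, 0 < ε₀ ∧ ∀ ε₁ ε₂ : ℝ, 0 < ε₁ → ε₁ < ε₀ → 0 < ε₂ → ε₂ < ε₀ →
      ∀ Γ : Set ℂ, IsMaxMin k₁ k₂ ε₁ ε₂ Γ → ¬ HasSProperty k₁ k₂ Γ := by
  obtain ⟨ε₀, h0, hset⟩ := exists_setup hk₁ hk₂
  refine ⟨ε₀, h0, ?_⟩
  rintro ε₁ ε₂ a1 a2 a3 a4 Γ hM ⟨μ', hμ', A, hA, hS⟩
  obtain ⟨D, μ, h⟩ := hset ε₁ ε₂ a1 a2 a3 a4 Γ hM
  have hμeq : μ' = μ := by
    by_contra hne
    have h1 := (h.minim.isEquilibrium h.box).lt μ' hμ'.mem hne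
    have h2 := hμ'.lt μ h.minim.mem (fun h3 => hne h3.symm)
    exact lt_asymm h1 h2
  subst hμeq
  have hμp := h.minim.mem.isProb
  -- two points of the support in the middle part
  have hinf := h.infinite hk₁ hk₂
  have hAfin : {y : ℝ | (⟨0, y⟩ : ℂ) ∈ A}.Finite := by
    apply hA.preimage
    intro y _ y' _ hyy
    exact congrArg Complex.im hyy
  have hinf2 := hinf.sdiff hAfin
  obtain ⟨y, hy, y', hy', hne⟩ := hinf2.nontrivial
  have key : ∀ y₁ y₂ : ℝ, y₁ < y₂ →
      y₁ ∈ {y : ℝ | (⟨0, y⟩ : ℂ) ∈ μ'.support ∧ |y| ≤ 8 / 10} \ {y : ℝ | (⟨0, y⟩ : ℂ) ∈ A} →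
      y₂ ∈ {y : ℝ | (⟨0, y⟩ : ℂ) ∈ μ'.support ∧ |y| ≤ 8 / 10} \ {y : ℝ | (⟨0, y⟩ : ℂ) ∈ A} →
      False := by
    rintro y₁ y₂ h12 ⟨⟨b1, b2⟩, b3⟩ ⟨⟨c1, c2⟩, c3⟩
    obtain ⟨τ, harc, d, hd1, hd2⟩ := hS _ ⟨b1, b3⟩
    obtain ⟨τ', harc', d', hd1', hd2'⟩ := hS _ ⟨c1, c3⟩
    have e1 := h.identity b1 b2 harc hd1 hd2
    have e2 := h.identity c1 c2 harc' hd1' hd2'
    have i1 := h.integrable_fld b2
    have i2 := h.integrable_fld c2
    have hlt : ∀ᵐ w ∂μ', w.re ≠ 0 → fld y₂ w < fld y₁ w := by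
      filter_upwards [h.right, h.left] with w f1 f2 f3
      rcases lt_or_gt_of_ne f3 with f4 | f4
      · exact fld_lt_of_left h12 (abs_le.1 c2).2 f4 (f2 f4)
      · exact fld_lt_of_right h12 (abs_le.1 b2).1 f4 (f1 f4)
    have hnn : 0 ≤ᵐ[μ'] fun w => fld y₁ w - fld y₂ w := by
      filter_upwards [hlt] with w f1
      simp only [Pi.zero_apply]
      by_cases f2 : w.re = 0
      · have f3 : ∀ y, fld y w = 0 := by
          intro y
          unfold fld
          rw [f2]
          simp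
        rw [f3, f3, sub_self]
      · linarith [f1 f2]
    have hzero : ∫ w, (fld y₁ w - fld y₂ w) ∂μ' = 0 := by
      rw [integral_sub i1 i2, e1, e2, sub_self]
    have hae := (integral_eq_zero_iff_of_nonneg_ae hnn (i1.sub i2)).1 hzero
    apply h.off_axis hk₂
    filter_upwards [hae, hlt] with w f1 f2
    by_contra f3
    have f4 := f2 f3
    simp only [Pi.zero_apply] at f1
    linarith
  rcases lt_or_gt_of_ne hne with h3 | h3
  · exact key y y' h3 hy hy'
  · exact key y' y h3 hy' hy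

end

end Pool.Agent.Helper25.SCurve
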