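import Pool.Agent.Helper25.SCurve.Confine

/-!
# The inequality for the part of the equilibrium measure off the imaginary axis
-/

namespace Pool.Agent.Helper25.SCurve

open MeasureTheory Set Filter Topology
open scoped ENNReal

/-- The kernel `|x - x'| / |z - w|²`. -/
noncomputable def qk (p : ℂ × ℂ) : ℝ := |p.1.re - p.2.re| / ‖p.1 - p.2‖ ^ 2

theorem qk_nonneg (p : ℂ × ℂ) : 0 ≤ qk p := by unfold qk; positivity

@[fun_prop]
theorem measurable_qk : Measurable qk := by
  unfold qk
  fun_prop

theorem norm_sub_sq (z w : ℂ) : ‖z - w‖ ^ 2 = (z.re - w.re) ^ 2 + (z.im - w.im) ^ 2 := by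
  rw [← Complex.normSq_eq_norm_sq, Complex.normSq_apply, Complex.sub_re, Complex.sub_im]
  ring

theorem im_mul_qk_le (p : ℂ × ℂ) : |p.1.im - p.2.im| * qk p ≤ 1 / 2 := by
  unfold qk
  rcases eq_or_ne p.1 p.2 with h | h
  · rw [h]
    simp
  · have h1 : 0 < ‖p.1 - p.2‖ := norm_pos_iff.2 (sub_ne_zero.2 h)
    rw [← mul_div_assoc, div_le_iff₀ (by positivity), norm_sub_sq, ← sq_abs (p.1.re - p.2.re),
      ← sq_abs (p.1.im - p.2.im)]
    nlinarith [sq_nonneg (|p.1.im - p.2.im| - |p.1.re - p.2.re|)]

/-- The class of admissible test functions and the inequality. -/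
def RProp (k : ℝ) (R : Measure ℂ) : Prop :=
  ∀ (c : ℝ → ℝ) (C L : ℝ), (∀ y, 0 ≤ c y) → (∀ y, c y ≤ C) → (∀ y y', |c y - c y'| ≤ L * |y - y'|) →
    c (-1) = 0 →
    2 * k * (∫ z : ℂ, c z.im ∂(R)) ≤ ∫ p : ℂ × ℂ, |c p.1.im - c p.2.im| * qk p ∂(R.prod R)

theorem test_le {c : ℝ → ℝ} {L : ℝ} (hL : 0 ≤ L)
    (hc : ∀ y y', |c y - c y'| ≤ L * |y - y'|) (p : ℂ × ℂ) :
    |c p.1.im - c p.2.im| * qk p ≤ L / 2 := by
  calc |c p.1.im - c p.2.im| * qk p ≤ L * |p.1.im - p.2.im| * qk p :=
        mul_le_mul_of_nonneg_right (hc _ _) (qk_nonneg p)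
    _ = L * (|p.1.im - p.2.im| * qk p) := by ring
    _ ≤ L * (1 / 2) := mul_le_mul_of_nonneg_left (im_mul_qk_le p) hL
    _ = L / 2 := by ring

theorem continuous_test {c : ℝ → ℝ} {L : ℝ} (hc : ∀ y y', |c y - c y'| ≤ L * |y - y'|) :
    Continuous c := by
  have : LipschitzWith (Real.toNNReal L) c := by
    apply LipschitzWith.of_dist_le_mul
    intro z w
    rw [Real.dist_eq, Real.dist_eq]
    exact (hc z w).trans (mul_le_mul_of_nonneg_right (Real.le_coe_toNNReal L) (abs_nonneg _))
  exact this.continuous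

theorem lip_nonneg {c : ℝ → ℝ} {L : ℝ} (hc : ∀ y y', |c y - c y'| ≤ L * |y - y'|) : 0 ≤ L := by
  have := hc 0 1
  have h1 := abs_nonneg (c 0 - c 1)
  norm_num at this
  linarith

theorem integrable_test {c : ℝ → ℝ} {L : ℝ}
    (hc : ∀ y y', |c y - c y'| ≤ L * |y - y'|) (ρ : Measure (ℂ × ℂ)) [IsFiniteMeasure ρ] :
    Integrable (fun p => |c p.1.im - c p.2.im| * qk p) ρ := by
  have hcm := (continuous_test hc).measurable
  refine (integrable_const (L / 2)).mono' ?_ (ae_of_all _ fun p => ?_)
  · have : Measurable (fun p : ℂ × ℂ => |c p.1.im - c p.2.im| * qk p) := by fun_prop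
    exact this.aestronglyMeasurable
  · rw [Real.norm_of_nonneg (mul_nonneg (abs_nonneg _) (qk_nonneg p))]
    exact test_le (lip_nonneg hc) hc p

section

variable {D k₁ k₂ ε₁ ε₂ : ℝ} {Γ : Set ℂ} {μ : Measure ℂ}

/-- The cutoff in the horizontal direction. -/
noncomputable def psi (δ x : ℝ) : ℝ := min (max x 0 / δ) 1

theorem psi_nonneg {δ : ℝ} (hδ : 0 < δ) (x : ℝ) : 0 ≤ psi δ x :=
  le_min (div_nonneg (le_max_right _ _) hδ.le) zero_le_one

theorem psi_le_one (δ x : ℝ) : psi δ x ≤ 1 := min_le_right _ _

theorem psi_of_nonpos {δ x : ℝ} (hx : x ≤ 0) : psi δ x = 0 := by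
  unfold psi
  rw [max_eq_right hx, zero_div, min_eq_left zero_le_one]

theorem psi_mono {δ : ℝ} (hδ : 0 < δ) {x x' : ℝ} (h : x ≤ x') : psi δ x ≤ psi δ x' := by
  unfold psi
  gcongr

theorem abs_psi_sub_le {δ : ℝ} (hδ : 0 < δ) (x x' : ℝ) :
    |psi δ x - psi δ x'| ≤ 1 / δ * |x - x'| := by
  unfold psi
  refine (abs_min_sub_min_le_max _ _ _ _).trans ?_
  rw [sub_self, abs_zero, max_eq_left (abs_nonneg _), ← sub_div, abs_div, abs_of_pos hδ]
  have := abs_max_sub_max_le_abs x x' 0
  rw [div_eq_inv_mul, one_div]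
  gcongr

theorem rprop_of_var [IsProbabilityMeasure μ] (hvar : VarIneq k₁ k₂ ε₁ ε₂ μ)
    (hk₁ : 0 < k₁) (hε₁ : 0 < ε₁) :
    RProp k₁ (μ.restrict {z | 0 < z.re}) := by
  intro c C L hc0 hcC hcL hc1
  have hL := lip_nonneg hcL
  have hC : 0 ≤ C := (hc0 0).trans (hcC 0)
  have hcc := continuous_test hcL
  set S : Set ℂ := {z | 0 < z.re} with hS
  have hSm : MeasurableSet S := measurableSet_lt measurable_const Complex.measurable_re
  -- the inequality for the truncated field
  have hδ : ∀ δ : ℝ, 0 < δ → 2 * ∫ z, k₁ * (c z.im * psi δ z.re) ∂μ ≤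
      ∫ p, |c p.1.im - c p.2.im| * qk p ∂((μ.restrict S).prod (μ.restrict S)) := by
    intro δ hδ
    have hLip : ∀ z w : ℂ, ‖((-(c z.im * psi δ z.re) : ℝ) : ℂ) -
        ((-(c w.im * psi δ w.re) : ℝ) : ℂ)‖ ≤ (C / δ + L) * ‖z - w‖ := by
      intro z w
      rw [← Complex.ofReal_sub, Complex.norm_real, Real.norm_eq_abs]
      have e : -(c z.im * psi δ z.re) - -(c w.im * psi δ w.re) =
          -(c z.im * (psi δ z.re - psi δ w.re) + (c z.im - c w.im) * psi δ w.re) := by ring
      rw [e, abs_neg]
      refine (abs_add_le _ _).trans ?_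
      rw [abs_mul, abs_mul, abs_of_nonneg (hc0 _), abs_of_nonneg (psi_nonneg hδ _)]
      have h1 := abs_psi_sub_le hδ z.re w.re
      have h2 := Complex.abs_re_le_norm (z - w)
      have h3 := Complex.abs_im_le_norm (z - w)
      rw [Complex.sub_re] at h2
      rw [Complex.sub_im] at h3
      have h4 : c z.im * |psi δ z.re - psi δ w.re| ≤ C * (1 / δ * ‖z - w‖) := by
        apply mul_le_mul (hcC _) _ (abs_nonneg _) hC
        exact h1.trans (mul_le_mul_of_nonneg_left h2 (by positivity))
      have h5 : |c z.im - c w.im| * psi δ w.re ≤ (L * ‖z - w‖) * 1 := by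
        apply mul_le_mul _ (psi_le_one _ _) (psi_nonneg hδ _) (by positivity)
        exact (hcL _ _).trans (mul_le_mul_of_nonneg_left h3 hL)
      calc c z.im * |psi δ z.re - psi δ w.re| + |c z.im - c w.im| * psi δ w.re
          ≤ C * (1 / δ * ‖z - w‖) + (L * ‖z - w‖) * 1 := add_le_add h4 h5
        _ = _ := by ring
    have hpsic : Continuous (psi δ) := by
      unfold psi
      fun_prop
    have h1 := hvar (fun z => ((-(c z.im * psi δ z.re) : ℝ) : ℂ)) (C / δ + L)
      (fun z => k₁ * (c z.im * psi δ z.re)) (δ / (C + 1)) hLip (by positivity)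
      ?_ ?_ (by fun_prop) (by positivity) ?_
    · refine h1.trans ?_
      rw [Measure.prod_restrict, ← integral_indicator (hSm.prod hSm)]
      apply integral_mono (integrable_kerV hLip (by positivity) _)
        ((integrable_test hcL _).indicator (hSm.prod hSm))
      intro p
      simp only
      unfold kerV dot
      simp only [Complex.sub_re, Complex.sub_im, Complex.ofReal_re, Complex.ofReal_im, sub_self,
        mul_zero, add_zero]
      have hq := qk_nonneg p
      by_cases hp : p ∈ S ×ˢ S
      · rw [indicator_of_mem hp]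
        unfold qk
        rw [← mul_div_assoc]
        apply div_le_div_of_nonneg_right _ (by positivity)
        have e : (p.1.re - p.2.re) * (-(c p.1.im * psi δ p.1.re) - -(c p.2.im * psi δ p.2.re)) =
            -(c p.1.im * ((p.1.re - p.2.re) * (psi δ p.1.re - psi δ p.2.re))) +
            -((p.1.re - p.2.re) * (c p.1.im - c p.2.im)) * psi δ p.2.re := by ring
        rw [e]
        have h2 : 0 ≤ (p.1.re - p.2.re) * (psi δ p.1.re - psi δ p.2.re) := by
          rcases le_total p.1.re p.2.re with h | h
          · have := psi_mono hδ h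
            nlinarith
          · have := psi_mono hδ h
            nlinarith
        have h3 := mul_nonneg (hc0 p.1.im) h2
        have h4 : -((p.1.re - p.2.re) * (c p.1.im - c p.2.im)) * psi δ p.2.re ≤
            (|c p.1.im - c p.2.im| * |p.1.re - p.2.re|) * 1 := by
          apply mul_le_mul _ (psi_le_one _ _) (psi_nonneg hδ _) (by positivity)
          rw [← abs_mul]
          refine (neg_le_abs _).trans (le_of_eq ?_)
          rw [mul_comm]
        linarith
      · rw [indicator_of_notMem hp]
        apply div_nonpos_of_nonpos_of_nonneg _ (by positivity)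
        have hp' : p.1.re ≤ 0 ∨ p.2.re ≤ 0 := by
          by_contra hcon
          push Not at hcon
          exact hp ⟨hcon.1, hcon.2⟩
        rcases le_or_gt p.1.re 0 with ha | ha
        · rw [psi_of_nonpos ha]
          rcases le_or_gt p.2.re 0 with hb | hb
          · rw [psi_of_nonpos hb]
            simp
          · have h5 := mul_nonneg (hc0 p.2.im) (psi_nonneg hδ p.2.re)
            nlinarith
        · have hb : p.2.re ≤ 0 := by
            rcases hp' with h | h
            · linarith
            · exact h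
          rw [psi_of_nonpos hb]
          have h5 := mul_nonneg (hc0 p.1.im) (psi_nonneg hδ p.1.re)
          nlinarith
    · simp only [Complex.add_re, Complex.neg_re, Complex.ofReal_re, Complex.I_re, add_zero]
      rw [psi_of_nonpos (by linarith)]
      simp
    · simp only [Complex.sub_im, Complex.ofReal_im, Complex.I_im, zero_sub]
      rw [hc1]
      simp
    · intro t ht0 ht1 z
      unfold defo
      rw [phi_eq, phi_eq]
      simp only [Complex.add_re, Complex.mul_re, Complex.ofReal_re, Complex.ofReal_im, zero_mul,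
        sub_zero]
      rcases le_or_gt z.re 0 with hz | hz
      · rw [psi_of_nonpos hz]
        simp
      · have h2 : psi δ z.re ≤ z.re / δ := by
          unfold psi
          rw [max_eq_left hz.le]
          exact min_le_left _ _
        have h3 : t * (c z.im * psi δ z.re) ≤ z.re := by
          calc t * (c z.im * psi δ z.re) ≤ (δ / (C + 1)) * (C * (z.re / δ)) := by
                apply mul_le_mul ht1 _ (mul_nonneg (hc0 _) (psi_nonneg hδ _)) (by positivity)
                exact mul_le_mul (hcC _) h2 (psi_nonneg hδ _) hC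
            _ = (C / (C + 1)) * z.re := by field_simp
            _ ≤ 1 * z.re := by
                gcongr
                rw [div_le_one (by positivity)]
                linarith
            _ = z.re := one_mul _
        have h4 : 0 ≤ z.re + t * -(c z.im * psi δ z.re) := by linarith
        rw [max_eq_left h4, min_eq_right h4, max_eq_left hz.le, min_eq_right hz.le]
        linarith
  -- remove the truncation
  have hlim : Tendsto (fun n : ℕ => 2 * ∫ z, k₁ * (c z.im * psi (1 / ((n : ℝ) + 1)) z.re) ∂μ) atTop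
      (𝓝 (2 * ∫ z, S.indicator (fun z => k₁ * c z.im) z ∂μ)) := by
    apply Tendsto.const_mul
    apply tendsto_integral_of_dominated_convergence (fun _ => k₁ * C)
    · intro n
      have hpsic : Measurable (psi (1 / ((n : ℝ) + 1))) := by
        unfold psi
        fun_prop
      have hcm := hcc.measurable
      exact (by fun_prop : Measurable fun z : ℂ =>
        k₁ * (c z.im * psi (1 / ((n : ℝ) + 1)) z.re)).aestronglyMeasurable
    · exact integrable_const _
    · intro n
      refine ae_of_all _ fun z => ?_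
      have h1 : (0 : ℝ) < 1 / ((n : ℝ) + 1) := by positivity
      rw [Real.norm_of_nonneg (mul_nonneg hk₁.le (mul_nonneg (hc0 _) (psi_nonneg h1 _)))]
      apply mul_le_mul_of_nonneg_left _ hk₁.le
      calc c z.im * psi (1 / ((n : ℝ) + 1)) z.re ≤ C * 1 :=
            mul_le_mul (hcC _) (psi_le_one _ _) (psi_nonneg h1 _) hC
        _ = C := mul_one _
    · refine ae_of_all _ fun z => ?_
      by_cases hz : z ∈ S
      · rw [indicator_of_mem hz]
        have hz' : 0 < z.re := hz
        apply tendsto_const_nhds.congr'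
        obtain ⟨N, hN⟩ := exists_nat_gt (1 / z.re)
        filter_upwards [eventually_ge_atTop N] with n hn
        have h1 : psi (1 / ((n : ℝ) + 1)) z.re = 1 := by
          unfold psi
          rw [max_eq_left hz'.le]
          apply min_eq_right
          rw [div_div_eq_mul_div, div_one]
          have h2 : (N : ℝ) ≤ n := by exact_mod_cast hn
          have h3 : 1 < z.re * N := by
            rw [div_lt_iff₀ hz'] at hN
            linarith
          nlinarith
        rw [h1, mul_one]
      · rw [indicator_of_notMem hz]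
        have hz' : z.re ≤ 0 := not_lt.1 hz
        simp only [psi_of_nonpos hz', mul_zero]
        exact tendsto_const_nhds
  have h1 := le_of_tendsto' hlim (fun n => hδ (1 / ((n : ℝ) + 1)) (by positivity))
  rw [integral_indicator hSm, integral_const_mul] at h1
  linarith

theorem rprop_right (hM : IsMaxMin k₁ k₂ ε₁ ε₂ Γ) (hB : Box D Γ) (hμ : IsMinim D k₁ k₂ Γ μ)
    (hk₁ : 0 < k₁) (hε₁ : 0 < ε₁) :
    RProp k₁ (μ.restrict {z | 0 < z.re}) := by
  have hprob := hμ.mem.isProb
  exact rprop_of_var (varIneq_of_maxMin hM hB hμ) hk₁ hε₁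

end

end Pool.Agent.Helper25.SCurve
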