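import Pool.Agent.Helper25.SCurve.VarLimit

/-!
# Smearing a measure onto a nearby continuum by a radial selection
-/

namespace Pool.Agent.Helper25.SCurve

open MeasureTheory Set Filter Topology
open scoped ENNReal NNReal

/-- The point `z - s exp(i θ)` for `q = (z, s)`. -/
noncomputable def circ (q : ℂ × ℝ) (θ : ℝ) : ℂ := q.1 - q.2 * Complex.exp (θ * Complex.I)

/-- The largest angle in `[0, 2π]` at which the circle around `z` of radius `s` meets `Γ`. -/
noncomputable def ang (Γ : Set ℂ) (q : ℂ × ℝ) : ℝ :=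
  sSup {θ : ℝ | θ ∈ Icc 0 (2 * Real.pi) ∧ circ q θ ∈ Γ}

/-- The selected point of `Γ` on the circle. -/
noncomputable def radPt (Γ : Set ℂ) (q : ℂ × ℝ) : ℂ := circ q (ang Γ q)

theorem continuous_circ : Continuous (fun p : (ℂ × ℝ) × ℝ => circ p.1 p.2) := by
  unfold circ
  fun_prop

theorem norm_circ_sub (q : ℂ × ℝ) (θ : ℝ) : ‖circ q θ - q.1‖ = |q.2| := by
  unfold circ
  rw [sub_sub_cancel_left, norm_neg, norm_mul, Complex.norm_real, Complex.norm_exp_ofReal_mul_I,
    mul_one, Real.norm_eq_abs]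

theorem isCompact_fiber {Γ : Set ℂ} (hΓ : IsClosed Γ) (q : ℂ × ℝ) :
    IsCompact {θ : ℝ | θ ∈ Icc 0 (2 * Real.pi) ∧ circ q θ ∈ Γ} := by
  apply isCompact_Icc.inter_right (t := {θ | circ q θ ∈ Γ})
  exact hΓ.preimage (continuous_circ.comp (by fun_prop : Continuous fun θ : ℝ => (q, θ)))

theorem isClosed_proj {Γ : Set ℂ} (hΓ : IsClosed Γ) (a b : ℝ) :
    IsClosed {q : ℂ × ℝ | ∃ θ ∈ Icc a b, circ q θ ∈ Γ} := by
  have h1 : IsClosed {p : (ℂ × ℝ) × Icc a b | circ p.1 p.2 ∈ Γ} := by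
    apply hΓ.preimage
    exact continuous_circ.comp (by fun_prop : Continuous fun p : (ℂ × ℝ) × Icc a b =>
      (p.1, (p.2 : ℝ)))
  have h2 := (isClosedMap_fst_of_compactSpace (X := ℂ × ℝ) (Y := Icc a b)) _ h1
  convert h2 using 1
  ext q
  constructor
  · rintro ⟨θ, hθ, h⟩
    exact ⟨(q, ⟨θ, hθ⟩), h, rfl⟩
  · rintro ⟨⟨q', θ⟩, h, rfl⟩
    exact ⟨θ, θ.2, h⟩

theorem measurable_ang {Γ : Set ℂ} (hΓ : IsClosed Γ) : Measurable (ang Γ) := by
  apply measurable_of_Ici
  intro c
  have hnn : ∀ q, 0 ≤ ang Γ q := fun q => Real.sSup_nonneg fun θ hθ => hθ.1.1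
  rcases le_or_gt c 0 with hc | hc
  · have : ang Γ ⁻¹' Ici c = univ := by
      ext q
      simp only [mem_preimage, mem_Ici, mem_univ, iff_true]
      exact hc.trans (hnn q)
    rw [this]
    exact MeasurableSet.univ
  · have : ang Γ ⁻¹' Ici c = {q : ℂ × ℝ | ∃ θ ∈ Icc c (2 * Real.pi), circ q θ ∈ Γ} := by
      ext q
      simp only [mem_preimage, mem_Ici, mem_ofPred_eq]
      constructor
      · intro h
        have hne : {θ : ℝ | θ ∈ Icc 0 (2 * Real.pi) ∧ circ q θ ∈ Γ}.Nonempty := by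
          by_contra hemp
          rw [not_nonempty_iff_eq_empty] at hemp
          unfold ang at h
          rw [hemp, Real.sSup_empty] at h
          linarith
        have := (isCompact_fiber hΓ q).sSup_mem hne
        exact ⟨ang Γ q, ⟨h, this.1.2⟩, this.2⟩
      · rintro ⟨θ, hθ, h⟩
        refine hθ.1.trans ?_
        apply le_csSup (isCompact_fiber hΓ q).bddAbove
        exact ⟨⟨hc.le.trans hθ.1, hθ.2⟩, h⟩
    rw [this]
    exact (isClosed_proj hΓ _ _).measurableSet

theorem measurable_radPt {Γ : Set ℂ} (hΓ : IsClosed Γ) : Measurable (radPt Γ) := by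
  exact continuous_circ.measurable.comp (measurable_id.prodMk (measurable_ang hΓ))

theorem radPt_mem {Γ : Set ℂ} (hΓ : IsClosed Γ) {z : ℂ} {s : ℝ} (h : ∃ w ∈ Γ, ‖w - z‖ = s) :
    radPt Γ (z, s) ∈ Γ := by
  obtain ⟨w, hw, hs⟩ := h
  have hne : {θ : ℝ | θ ∈ Icc 0 (2 * Real.pi) ∧ circ (z, s) θ ∈ Γ}.Nonempty := by
    refine ⟨(w - z).arg + Real.pi, ⟨?_, ?_⟩, ?_⟩
    · have := Complex.neg_pi_lt_arg (w - z)
      linarith
    · have := Complex.arg_le_pi (w - z)
      linarith
    · have h1 : circ (z, s) ((w - z).arg + Real.pi) = w := by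
        unfold circ
        simp only
        push_cast
        rw [add_mul, Complex.exp_add, Complex.exp_pi_mul_I, ← hs]
        have := Complex.norm_mul_exp_arg_mul_I (w - z)
        linear_combination this
      rw [h1]
      exact hw
  exact ((isCompact_fiber hΓ (z, s)).sSup_mem hne).2

theorem norm_radPt_sub (Γ : Set ℂ) (z : ℂ) (s : ℝ) : ‖radPt Γ (z, s) - z‖ = |s| :=
  norm_circ_sub (z, s) _

/-- The normalised Lebesgue measure on `(r, 2r]`. -/
noncomputable def uni (r : ℝ) : Measure ℝ :=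
  (ENNReal.ofReal r)⁻¹ • volume.restrict (Ioc r (2 * r))

theorem isProb_uni {r : ℝ} (hr : 0 < r) : IsProbabilityMeasure (uni r) := by
  constructor
  unfold uni
  rw [Measure.smul_apply, Measure.restrict_apply_univ, Real.volume_Ioc, smul_eq_mul]
  rw [show 2 * r - r = r by ring]
  exact ENNReal.inv_mul_cancel (by simpa using hr) ENNReal.ofReal_ne_top

theorem uni_ae (r : ℝ) : ∀ᵐ s ∂(uni r), s ∈ Icc r (2 * r) := by
  unfold uni
  apply Measure.ae_smul_measure
  filter_upwards [ae_restrict_mem measurableSet_Ioc] with s hs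
  exact ⟨hs.1.le, hs.2⟩

/-- The average over the radius of the kernel with one argument a selected point. -/
theorem lintegral_kap_radPt_le {D r : ℝ} (hr : 0 < r) (hD : r ≤ D) (Γ : Set ℂ) (u w : ℂ) :
    ∫⁻ s, kap D u (radPt Γ (w, s)) ∂(uni r) ≤
      ENNReal.ofReal (Real.log D + 1 - Real.log (r / 2)) := by
  have hD0 : 0 < D := by linarith
  set y : ℝ := max r (min ‖u - w‖ (2 * r)) with hy_def
  have hy : y ∈ Icc r (2 * r) := ⟨le_max_left _ _, max_le (by linarith) (min_le_right _ _)⟩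
  have hi : IntervalIntegrable (fun u => Real.log |y - u|) volume r (2 * r) := by
    have h3 : IntervalIntegrable (fun x : ℝ => Real.log x) volume (y - r) (y - 2 * r) :=
      intervalIntegral.intervalIntegrable_log'
    have h4 := h3.comp_sub_left (c := y)
    simp only [sub_sub_cancel] at h4
    simpa only [Real.log_abs] using h4
  have hne : ∀ᵐ x : ℝ, x ∉ ({y} : Set ℝ) := (Set.countable_singleton y).ae_notMem _
  have h1 : ∀ᵐ s ∂(volume.restrict (Ioc r (2 * r))), kap D u (radPt Γ (w, s)) ≤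
      ENNReal.ofReal (Real.log D - Real.log |y - s|) := by
    filter_upwards [ae_restrict_of_ae hne, ae_restrict_mem measurableSet_Ioc] with s hs hs2
    have hs' : 0 < |y - s| := abs_pos.2 (sub_ne_zero.2 (Ne.symm hs))
    rw [← Real.log_div hD0.ne' hs'.ne']
    apply kap_le_of_le hs' _ hD0
    -- distance estimate
    have h2 : |y - s| ≤ |‖u - w‖ - s| := by
      rw [hy_def]
      rcases le_total ‖u - w‖ (2 * r) with h | h
      · rw [min_eq_left h]
        rcases le_total r ‖u - w‖ with h' | h'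
        · rw [max_eq_right h']
        · rw [max_eq_left h', abs_of_nonpos (by linarith [hs2.1]),
            abs_of_nonpos (by linarith [hs2.1])]
          linarith
      · rw [min_eq_right h, max_eq_right (by linarith), abs_of_nonneg (by linarith [hs2.2]),
          abs_of_nonneg (by linarith [hs2.2])]
        linarith
    have h3 := norm_radPt_sub Γ w s
    rw [abs_of_pos (by linarith [hs2.1] : 0 < s)] at h3
    have h4 := abs_norm_sub_norm_le (u - w) (radPt Γ (w, s) - w)
    rw [h3, sub_sub_sub_cancel_right] at h4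
    exact h2.trans h4
  have hint : IntegrableOn (fun u => Real.log D - Real.log |y - u|) (Ioc r (2 * r)) := by
    have := (intervalIntegrable_const (c := Real.log D)).sub hi
    rw [intervalIntegrable_iff_integrableOn_Ioc_of_le (by linarith)] at this
    exact this
  have hnn : ∀ᵐ u ∂(volume.restrict (Ioc r (2 * r))), 0 ≤ Real.log D - Real.log |y - u| := by
    filter_upwards [ae_restrict_of_ae hne, ae_restrict_mem measurableSet_Ioc] with u hu hu2
    have hu' : 0 < |y - u| := abs_pos.2 (sub_ne_zero.2 (Ne.symm hu))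
    have h3 : |y - u| ≤ D := by
      rw [abs_le]
      constructor <;> linarith [hy.1, hy.2, hu2.1, hu2.2]
    have := Real.log_le_log hu' h3
    linarith
  unfold uni
  rw [lintegral_smul_measure, smul_eq_mul]
  have h3 : ENNReal.ofReal r ≠ 0 := by simpa using hr
  have hbound : ∫⁻ s in Ioc r (2 * r), kap D u (radPt Γ (w, s)) ≤
      ENNReal.ofReal r * ENNReal.ofReal (Real.log D + 1 - Real.log (r / 2)) := by
    calc ∫⁻ s in Ioc r (2 * r), kap D u (radPt Γ (w, s))
        ≤ ∫⁻ u in Ioc r (2 * r), ENNReal.ofReal (Real.log D - Real.log |y - u|) :=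
          lintegral_mono_ae h1
      _ = ENNReal.ofReal (∫ u in Ioc r (2 * r), (Real.log D - Real.log |y - u|)) :=
          (ofReal_integral_eq_lintegral_ofReal hint hnn).symm
      _ ≤ _ := by
          rw [← ENNReal.ofReal_mul hr.le]
          apply ENNReal.ofReal_le_ofReal
          rw [← intervalIntegral.integral_of_le (by linarith), intervalIntegral.integral_sub
            intervalIntegrable_const hi, intervalIntegral.integral_const, smul_eq_mul]
          have := integral_log_abs hy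
          rw [show 2 * r - r = r by ring] at this ⊢
          linarith
  calc (ENNReal.ofReal r)⁻¹ * ∫⁻ s in Ioc r (2 * r), kap D u (radPt Γ (w, s))
      ≤ (ENNReal.ofReal r)⁻¹ *
        (ENNReal.ofReal r * ENNReal.ofReal (Real.log D + 1 - Real.log (r / 2))) := by gcongr
    _ = _ := by
        rw [← mul_assoc, ENNReal.inv_mul_cancel h3 ENNReal.ofReal_ne_top, one_mul]

/-- The smeared measure. -/
noncomputable def smear (Γ : Set ℂ) (r : ℝ) (ν : Measure ℂ) : Measure ℂ :=
  (ν.prod (uni r)).map (radPt Γ)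

section

variable {Γ Γ' B : Set ℂ} {r D M k₁ k₂ : ℝ} {ν : Measure ℂ}

theorem prod_uni_ae [IsProbabilityMeasure ν] (hr : 0 < r) (hν : ∀ᵐ z ∂ν, z ∈ Γ)
    (hcirc : ∀ z ∈ Γ, ∀ s ∈ Icc r (2 * r), ∃ w ∈ Γ', ‖w - z‖ = s) :
    ∀ᵐ q ∂(ν.prod (uni r)), q.2 ∈ Icc r (2 * r) ∧ q.1 ∈ Γ ∧
      ∃ w ∈ Γ', ‖w - q.1‖ = q.2 := by
  have := isProb_uni hr
  have a1 := (Measure.quasiMeasurePreserving_fst (μ := ν) (ν := uni r)).ae hν
  have a2 := (Measure.quasiMeasurePreserving_snd (μ := ν) (ν := uni r)).ae (uni_ae r)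
  filter_upwards [a1, a2] with q h1 h2
  exact ⟨h2, h1, hcirc _ h1 _ h2⟩

theorem isProbOn_smear (hΓ' : IsClosed Γ') (hr : 0 < r) (hν : IsProbOn Γ ν)
    (hcirc : ∀ z ∈ Γ, ∀ s ∈ Icc r (2 * r), ∃ w ∈ Γ', ‖w - z‖ = s) :
    IsProbOn Γ' (smear Γ' r ν) := by
  have := hν.isProb
  have := isProb_uni hr
  have hae : ∀ᵐ z ∂ν, z ∈ Γ := by
    rw [ae_iff]; exact hν.compl
  constructor
  · unfold smear
    exact Measure.isProbabilityMeasure_map (measurable_radPt hΓ').aemeasurable
  · unfold smear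
    rw [Measure.map_apply (measurable_radPt hΓ') hΓ'.measurableSet.compl]
    have h1 : ∀ᵐ q ∂(ν.prod (uni r)), radPt Γ' q ∈ Γ' := by
      filter_upwards [prod_uni_ae hr hae hcirc] with q hq
      exact radPt_mem hΓ' hq.2.2
    rw [ae_iff] at h1
    exact h1

/-- The pointwise bound of the averaged kernel. -/
noncomputable def smearBd (D M r : ℝ) (z w : ℂ) : ℝ≥0∞ :=
  (kap D z w + ENNReal.ofReal (8 / M)) +
    {q : ℂ × ℂ | ‖q.1 - q.2‖ < M * r}.indicator
      (fun _ => ENNReal.ofReal (Real.log (2 * M) + 1)) (z, w)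

theorem measurableSet_near (c : ℝ) : MeasurableSet {q : ℂ × ℂ | ‖q.1 - q.2‖ < c} := by
  apply measurableSet_lt _ measurable_const
  fun_prop

theorem kap_far (hr : 0 < r) (hM : 8 ≤ M) (hD : 0 < D) {z w : ℂ} (hzw : M * r ≤ ‖z - w‖)
    {s s' : ℝ} (hs : s ∈ Icc r (2 * r)) (hs' : s' ∈ Icc r (2 * r)) (Γ : Set ℂ) :
    kap D (radPt Γ (z, s)) (radPt Γ (w, s')) ≤ kap D z w + ENNReal.ofReal (8 / M) := by
  have hM0 : 0 < M := by linarith
  have hzw0 : 0 < ‖z - w‖ := lt_of_lt_of_le (by positivity) hzw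
  have h1 := norm_radPt_sub Γ z s
  have h2 := norm_radPt_sub Γ w s'
  rw [abs_of_pos (by linarith [hs.1])] at h1
  rw [abs_of_pos (by linarith [hs'.1])] at h2
  have h4r : 4 * r ≤ 4 / M * ‖z - w‖ := by
    rw [div_mul_eq_mul_div, le_div_iff₀ hM0]
    nlinarith
  have h3 : (1 - 4 / M) * ‖z - w‖ ≤ ‖radPt Γ (z, s) - radPt Γ (w, s')‖ := by
    have h5 : ‖z - w‖ ≤ ‖radPt Γ (z, s) - radPt Γ (w, s')‖ + ‖radPt Γ (z, s) - z‖ +
        ‖radPt Γ (w, s') - w‖ := by
      calc ‖z - w‖ = ‖(radPt Γ (z, s) - radPt Γ (w, s')) - (radPt Γ (z, s) - z) +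
            (radPt Γ (w, s') - w)‖ := by congr 1; ring
        _ ≤ ‖(radPt Γ (z, s) - radPt Γ (w, s')) - (radPt Γ (z, s) - z)‖ +
            ‖radPt Γ (w, s') - w‖ := norm_add_le _ _
        _ ≤ _ := by
            gcongr
            exact norm_sub_le _ _
    rw [h1, h2] at h5
    linarith [hs.2, hs'.2]
  have hq : 4 / M ≤ 1 / 2 := by
    rw [div_le_iff₀ hM0]
    linarith
  have hq0 : 0 < 4 / M := by positivity
  have hpos : 0 < (1 - 4 / M) * ‖z - w‖ := mul_pos (by linarith) hzw0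
  refine (kap_le_of_le hpos h3 hD).trans ?_
  rw [kap_eq_ofReal (sub_ne_zero.1 (norm_pos_iff.1 hzw0))]
  refine le_trans (ENNReal.ofReal_le_ofReal ?_) ENNReal.ofReal_add_le
  rw [Real.log_div hD.ne' hpos.ne', Real.log_div hD.ne' hzw0.ne',
    Real.log_mul (by linarith) hzw0.ne']
  have h6 := Real.one_sub_inv_le_log_of_pos (by linarith : 0 < 1 - 4 / M)
  have h7 : (1 - 4 / M)⁻¹ ≤ 1 + 8 / M := by
    rw [inv_le_iff_one_le_mul₀ (by linarith)]
    have : 8 / M = 2 * (4 / M) := by ring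
    rw [this]
    nlinarith
  linarith

theorem avg_le (hr : 0 < r) (hM : 8 ≤ M) (hD : r ≤ D) (Γ : Set ℂ) (z w : ℂ) {s : ℝ}
    (hs : s ∈ Icc r (2 * r)) :
    ∫⁻ s', kap D (radPt Γ (z, s)) (radPt Γ (w, s')) ∂(uni r) ≤ smearBd D M r z w := by
  have := isProb_uni hr
  have hD0 : 0 < D := by linarith
  have hM0 : 0 < M := by linarith
  by_cases hzw : ‖z - w‖ < M * r
  · refine (lintegral_kap_radPt_le hr hD Γ _ _).trans ?_
    unfold smearBd
    rw [indicator_of_mem (show ((z, w) : ℂ × ℂ) ∈ {q : ℂ × ℂ | ‖q.1 - q.2‖ < M * r} from hzw)]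
    have h1 := kap_ge_of_le (D := D) (by positivity : 0 < M * r) hzw.le hD0
    calc ENNReal.ofReal (Real.log D + 1 - Real.log (r / 2))
        ≤ ENNReal.ofReal (Real.log (D / (M * r)) + (Real.log (2 * M) + 1)) := by
          apply ENNReal.ofReal_le_ofReal
          rw [Real.log_div hD0.ne' (by positivity), Real.log_mul hM0.ne' hr.ne',
            Real.log_mul (by norm_num) hM0.ne', Real.log_div hr.ne' (by norm_num)]
          linarith
      _ ≤ ENNReal.ofReal (Real.log (D / (M * r))) + ENNReal.ofReal (Real.log (2 * M) + 1) :=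
          ENNReal.ofReal_add_le
      _ ≤ (kap D z w + ENNReal.ofReal (8 / M)) + ENNReal.ofReal (Real.log (2 * M) + 1) := by
          gcongr
          exact h1.trans le_self_add
  · calc ∫⁻ s', kap D (radPt Γ (z, s)) (radPt Γ (w, s')) ∂(uni r)
        ≤ ∫⁻ _, (kap D z w + ENNReal.ofReal (8 / M)) ∂(uni r) := by
          apply lintegral_mono_ae
          filter_upwards [uni_ae r] with s' hs'
          exact kap_far hr hM hD0 (not_lt.1 hzw) hs hs' Γ
      _ = kap D z w + ENNReal.ofReal (8 / M) := by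
          rw [lintegral_const, measure_univ, mul_one]
      _ ≤ _ := le_self_add

theorem ener_smear_le (hΓ : IsClosed Γ) (hr : 0 < r) (hM : 8 ≤ M) (hD : r ≤ D)
    [IsProbabilityMeasure ν] :
    ener D (smear Γ r ν) (smear Γ r ν) ≤ ener D ν ν + ENNReal.ofReal (8 / M) +
      ENNReal.ofReal (Real.log (2 * M) + 1) * (ν.prod ν) {q : ℂ × ℂ | ‖q.1 - q.2‖ < M * r} := by
  have := isProb_uni hr
  have hm := measurable_radPt hΓ
  have hG : Measurable (fun p : ℂ × ℂ => smearBd D M r p.1 p.2) := by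
    unfold smearBd
    apply ((measurable_kap D).add_const _).add
    exact (measurable_const.indicator (measurableSet_near _))
  have h1 : ener D (smear Γ r ν) (smear Γ r ν) =
      ∫⁻ q, ∫⁻ q', kap D (radPt Γ q) (radPt Γ q') ∂(ν.prod (uni r)) ∂(ν.prod (uni r)) := by
    unfold ener smear
    rw [lintegral_map _ hm]
    · apply lintegral_congr
      intro q
      rw [lintegral_map (measurable_kap_left D _) hm]
    · have : SFinite ((ν.prod (uni r)).map (radPt Γ)) := inferInstance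
      exact measurable_pot D _
  rw [h1]
  have h2 : ∀ᵐ q ∂(ν.prod (uni r)), ∫⁻ q', kap D (radPt Γ q) (radPt Γ q') ∂(ν.prod (uni r)) ≤
      ∫⁻ w, smearBd D M r q.1 w ∂ν := by
    have a2 := (Measure.quasiMeasurePreserving_snd (μ := ν) (ν := uni r)).ae (uni_ae r)
    filter_upwards [a2] with q hq
    have hm3 : Measurable (fun q' : ℂ × ℝ => kap D (radPt Γ q) (radPt Γ q')) :=
      (measurable_kap_left D _).comp hm
    rw [lintegral_prod _ hm3.aemeasurable]
    apply lintegral_mono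
    intro w
    exact avg_le hr hM hD Γ q.1 w hq
  refine (lintegral_mono_ae h2).trans ?_
  have h3 : ∫⁻ q, ∫⁻ w, smearBd D M r q.1 w ∂ν ∂(ν.prod (uni r)) =
      ∫⁻ z, ∫⁻ w, smearBd D M r z w ∂ν ∂ν := by
    have hm2 : Measurable (fun z => ∫⁻ w, smearBd D M r z w ∂ν) :=
      hG.lintegral_prod_right'
    have hm3 : Measurable (fun q : ℂ × ℝ => ∫⁻ w, smearBd D M r q.1 w ∂ν) :=
      hm2.comp measurable_fst
    rw [lintegral_prod _ hm3.aemeasurable]
    apply lintegral_congr
    intro z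
    change ∫⁻ _, (∫⁻ w, smearBd D M r z w ∂ν) ∂(uni r) = _
    rw [lintegral_const, measure_univ, mul_one]
  rw [h3, ← lintegral_prod _ hG.aemeasurable]
  unfold smearBd
  have h4 : Measurable (fun p : ℂ × ℂ => kap D p.1 p.2 + ENNReal.ofReal (8 / M)) :=
    (measurable_kap D).add_const _
  rw [lintegral_add_left h4, lintegral_add_left (measurable_kap D), lintegral_const, measure_univ,
    mul_one, ← ener_eq_prod]
  have h5 : ∫⁻ p : ℂ × ℂ, {q : ℂ × ℂ | ‖q.1 - q.2‖ < M * r}.indicator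
      (fun _ => ENNReal.ofReal (Real.log (2 * M) + 1)) (p.1, p.2) ∂(ν.prod ν) =
      ENNReal.ofReal (Real.log (2 * M) + 1) *
        (ν.prod ν) {q : ℂ × ℂ | ‖q.1 - q.2‖ < M * r} := by
    simp only [Prod.mk.eta]
    rw [lintegral_indicator (measurableSet_near _), setLIntegral_const]
  rw [h5]

theorem integral_phi_smear_le (hΓ : IsClosed Γ') (hr : 0 < r) (hB : Bornology.IsBounded Γ)
    (hB' : Bornology.IsBounded Γ') (hν : IsProbOn Γ ν)
    (hcirc : ∀ z ∈ Γ, ∀ s ∈ Icc r (2 * r), ∃ w ∈ Γ', ‖w - z‖ = s) :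
    ∫ z, phi k₁ k₂ z ∂(smear Γ' r ν) ≤ ∫ z, phi k₁ k₂ z ∂ν + (|k₁| + |k₂|) * (2 * r) := by
  have := hν.isProb
  have := isProb_uni hr
  have hae : ∀ᵐ z ∂ν, z ∈ Γ := by
    rw [ae_iff]; exact hν.compl
  have hm := measurable_radPt hΓ
  have hS := isProbOn_smear hΓ hr hν hcirc
  have hi1 := integrable_phi (k₁ := k₁) (k₂ := k₂) hB' hS
  have hi2 := integrable_phi (k₁ := k₁) (k₂ := k₂) hB hν
  unfold smear at hi1 ⊢
  rw [integrable_map_measure (measurable_phi k₁ k₂).aestronglyMeasurable hm.aemeasurable] at hi1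
  rw [integral_map hm.aemeasurable (measurable_phi k₁ k₂).aestronglyMeasurable]
  have hi3 : Integrable (fun q : ℂ × ℝ => phi k₁ k₂ q.1) (ν.prod (uni r)) := by
    have := hi2.mul_prod (integrable_const (μ := uni r) (1 : ℝ))
    simpa using this
  have h1 : ∫ q, phi k₁ k₂ (radPt Γ' q) ∂(ν.prod (uni r)) ≤
      ∫ q : ℂ × ℝ, (phi k₁ k₂ q.1 + (|k₁| + |k₂|) * (2 * r)) ∂(ν.prod (uni r)) := by
    apply integral_mono_ae hi1 (hi3.add (integrable_const _))
    filter_upwards [prod_uni_ae hr hae hcirc] with q hq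
    have h2 := abs_phi_sub_le k₁ k₂ (radPt Γ' q) q.1
    have h3 : ‖radPt Γ' q - q.1‖ = |q.2| := norm_radPt_sub Γ' q.1 q.2
    rw [h3, abs_of_pos (by linarith [hq.1.1] : 0 < q.2)] at h2
    have h4 : (|k₁| + |k₂|) * q.2 ≤ (|k₁| + |k₂|) * (2 * r) := by
      gcongr
      exact hq.1.2
    have h5 := le_abs_self (phi k₁ k₂ (radPt Γ' q) - phi k₁ k₂ q.1)
    simp only [Function.comp, Pi.add_apply]
    linarith
  refine h1.trans (le_of_eq ?_)
  rw [integral_add hi3 (integrable_const _), integral_const, probReal_univ, one_smul]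
  congr 1
  have h6 := integral_prod_mul (μ := ν) (ν := uni r) (fun z => phi k₁ k₂ z) (fun _ => (1 : ℝ))
  simpa using h6

end

end Pool.Agent.Helper25.SCurve
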