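import Pool.Agent.Helper25.SCurve.Variation

/-!
# The symmetry `z ↦ -z` of the problem
-/

namespace Pool.Agent.Helper25.SCurve

open MeasureTheory Set Filter Topology
open scoped ENNReal

section

variable {D k₁ k₂ ε₁ ε₂ : ℝ} {Γ : Set ℂ} {μ : Measure ℂ}

theorem phi_neg (k₁ k₂ : ℝ) (z : ℂ) : phi k₂ k₁ (-z) = phi k₁ k₂ z := by
  rw [phi_eq, phi_eq, Complex.neg_re]
  rcases le_total 0 z.re with h | h
  · rw [max_eq_right (by linarith), min_eq_left (by linarith), max_eq_left h, min_eq_right h]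
    ring
  · rw [max_eq_left (by linarith), min_eq_right (by linarith), max_eq_right h, min_eq_left h]
    ring

theorem kap_neg (D : ℝ) (z w : ℂ) : kap D (-z) (-w) = kap D z w := by
  unfold kap
  rw [show -z - -w = -(z - w) by ring, norm_neg]
  simp only [neg_inj]

/-- The image of a set under `z ↦ -z`. -/
def negSet (Γ : Set ℂ) : Set ℂ := (fun z => -z) '' Γ

theorem negSet_negSet (Γ : Set ℂ) : negSet (negSet Γ) = Γ := by
  unfold negSet
  rw [image_image]
  simp

theorem mem_negSet {Γ : Set ℂ} {z : ℂ} : z ∈ negSet Γ ↔ -z ∈ Γ := by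
  unfold negSet
  constructor
  · rintro ⟨w, hw, rfl⟩
    simpa using hw
  · intro h
    exact ⟨-z, h, by simp⟩

theorem IsJoining.neg (h : IsJoining ε₁ ε₂ Γ) : IsJoining ε₂ ε₁ (negSet Γ) where
  isCompact := h.isCompact.image continuous_neg
  isConnected := h.isConnected.image _ continuous_neg.continuousOn
  left_mem := by
    rw [mem_negSet]
    have := h.right_mem
    have e : -(-(ε₂ : ℂ) + Complex.I) = (ε₂ : ℂ) - Complex.I := by ring
    rwa [e]
  right_mem := by
    rw [mem_negSet]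
    have := h.left_mem
    have e : -((ε₁ : ℂ) - Complex.I) = -(ε₁ : ℂ) + Complex.I := by ring
    rwa [e]

theorem Box.neg (h : Box D Γ) : Box D (negSet Γ) := by
  refine ⟨h.one_le, ?_, ?_⟩
  · obtain ⟨M, hM⟩ := h.bdd.exists_norm_le
    apply (Metric.isBounded_closedBall (x := (0 : ℂ)) (r := M)).subset
    intro z hz
    rw [mem_closedBall_zero_iff]
    have := hM (-z) (mem_negSet.1 hz)
    rwa [norm_neg] at this
  · intro z hz w hw
    have := h.dist (-z) (mem_negSet.1 hz) (-w) (mem_negSet.1 hw)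
    rwa [show -z - -w = -(z - w) by ring, norm_neg] at this

/-- The image of a measure under `z ↦ -z`. -/
noncomputable def negM (μ : Measure ℂ) : Measure ℂ := μ.map (fun z => -z)

theorem negM_apply (μ : Measure ℂ) (s : Set ℂ) : negM μ s = μ (negSet s) := by
  unfold negM
  have : MeasurableEmbedding (fun z : ℂ => -z) := (MeasurableEquiv.neg ℂ).measurableEmbedding
  rw [this.map_apply]
  congr 1
  ext z
  rw [mem_negSet]
  rfl

theorem negM_negM (μ : Measure ℂ) : negM (negM μ) = μ := by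
  ext s _
  rw [negM_apply, negM_apply, negSet_negSet]

theorem negSet_compl (Γ : Set ℂ) : negSet Γᶜ = (negSet Γ)ᶜ := by
  ext z
  simp only [mem_negSet, mem_compl_iff]

theorem IsProbOn.neg (h : IsProbOn Γ μ) : IsProbOn (negSet Γ) (negM μ) := by
  have := h.isProb
  refine ⟨Measure.isProbabilityMeasure_map (by fun_prop), ?_⟩
  rw [negM_apply, negSet_compl, negSet_negSet]
  exact h.compl

theorem ener_neg (D : ℝ) (μ ν : Measure ℂ) [SFinite μ] [SFinite ν] :
    ener D (negM μ) (negM ν) = ener D μ ν := by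
  unfold ener negM
  have hm : Measurable (fun z : ℂ => -z) := measurable_neg
  rw [lintegral_map _ hm]
  · apply lintegral_congr
    intro z
    rw [lintegral_map (measurable_kap_left D _) hm]
    apply lintegral_congr
    intro w
    exact kap_neg D z w
  · exact measurable_pot D (ν.map fun z => -z)

theorem integral_negM (μ : Measure ℂ) (f : ℂ → ℝ) : ∫ z, f z ∂(negM μ) = ∫ z, f (-z) ∂μ := by
  unfold negM
  have : MeasurableEmbedding (fun z : ℂ => -z) := (MeasurableEquiv.neg ℂ).measurableEmbedding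
  rw [this.integral_map]

theorem ren_neg (D : ℝ) (μ : Measure ℂ) [SFinite μ] :
    ren D k₂ k₁ (negM μ) = ren D k₁ k₂ μ := by
  unfold ren
  rw [ener_neg, integral_negM]
  simp only [phi_neg]

theorem energy_neg (hB : Box D Γ) (hμ : IsProbOn Γ μ) :
    energy k₂ k₁ (negM μ) = energy k₁ k₂ μ := by
  have := hμ.isProb
  rcases eq_or_ne (ener D μ μ) ⊤ with h | h
  · rw [energy_top hB hμ h, energy_top hB.neg hμ.neg (by rw [ener_neg, h])]
  · rw [energy_real hB hμ h, energy_real hB.neg hμ.neg (by rw [ener_neg]; exact h), ren_neg]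

theorem eqEnergy_neg_le (hΓ : Bornology.IsBounded Γ) :
    eqEnergy k₂ k₁ (negSet Γ) ≤ eqEnergy k₁ k₂ Γ := by
  obtain ⟨D, hB⟩ := exists_box hΓ
  apply le_iInf₂
  intro μ hμ
  rw [← energy_neg hB hμ]
  exact iInf₂_le _ hμ.neg

theorem eqEnergy_neg (hΓ : Bornology.IsBounded Γ) :
    eqEnergy k₂ k₁ (negSet Γ) = eqEnergy k₁ k₂ Γ := by
  apply le_antisymm (eqEnergy_neg_le hΓ)
  obtain ⟨D, hB⟩ := exists_box hΓ
  have := eqEnergy_neg_le (k₁ := k₂) (k₂ := k₁) hB.neg.bdd
  rwa [negSet_negSet] at this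

theorem IsMaxMin.neg (h : IsMaxMin k₁ k₂ ε₁ ε₂ Γ) : IsMaxMin k₂ k₁ ε₂ ε₁ (negSet Γ) := by
  refine ⟨h.joining.neg, fun Γ' hΓ' => ?_⟩
  rw [eqEnergy_neg h.joining.isCompact.isBounded, ← eqEnergy_neg hΓ'.isCompact.isBounded]
  exact h.le _ hΓ'.neg

theorem IsMinim.neg (h : IsMinim D k₁ k₂ Γ μ) : IsMinim D k₂ k₁ (negSet Γ) (negM μ) := by
  have := h.mem.isProb
  refine ⟨h.mem.neg, by rw [ener_neg]; exact h.fin, fun ν hν hfin => ?_⟩
  have := hν.isProb
  have h1 := hν.neg
  rw [negSet_negSet] at h1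
  have h2 := h.le _ h1 (by rw [ener_neg]; exact hfin)
  rw [ren_neg]
  rwa [ren_neg] at h2

end

end Pool.Agent.Helper25.SCurve
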