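import Pool.Agent.Helper25.SCurve.Gap

/-!
# A max-min continuum contains a segment of the imaginary axis
-/

namespace Pool.Agent.Helper25.SCurve

open MeasureTheory Set Filter Topology
open scoped ENNReal

section

variable {D k₁ k₂ ε ε₁ ε₂ α β k : ℝ} {Γ : Set ℂ} {μ : Measure ℂ}

theorem phi_le_neg (h1 : k ≤ k₁) (h2 : k ≤ k₂) (z : ℂ) : phi k₁ k₂ z ≤ -(k * |z.re|) := by
  unfold phi
  split_ifs with h
  · rw [abs_of_pos h]
    nlinarith
  · push Not at h
    rw [abs_of_nonpos h]
    nlinarith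

theorem no_gap (hJ : IsJoining ε₁ ε₂ Γ) (hB : Box D Γ) (hD : 2 ≤ D) (h : IsMinim D k₁ k₂ Γ μ)
    (hF : 0 ≤ frost D k₁ k₂ μ)
    (hα : pot D μ ⟨0, α⟩ ≤ ENNReal.ofReal (frost D k₁ k₂ μ))
    (hβ : pot D μ ⟨0, β⟩ ≤ ENNReal.ofReal (frost D k₁ k₂ μ)) (hα' : -(8 / 10) ≤ α)
    (hβ' : β ≤ 8 / 10) (hε0 : 0 ≤ ε) (hε : ε ≤ 1 / 10) (hae : ∀ᵐ w ∂μ, GoodPt ε α β w)
    (hk : 100 * ε < k) (h1 : k ≤ k₁) (h2 : k ≤ k₂) {a b : ℝ} (hab : a < b) (ha : α ≤ a)
    (hb : b ≤ β) (hgap : ∀ y ∈ Icc a b, (⟨0, y⟩ : ℂ) ∉ Γ) : False := by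
  have hμp := h.mem.isProb
  have hy : ∀ y ∈ Icc a b, ∃ z ∈ Γ, z.im = y :=
    fun y hy => hJ.exists_im y ⟨by linarith [hy.1], by linarith [hy.2]⟩
  have hν := isProbOn_sel hJ.isCompact hab hy
  have hνae := sel_ae hJ.isCompact hy
  have hfin : ener D (sel Γ a b) (sel Γ a b) ≠ ⊤ :=
    ((ener_sel_le hJ.isCompact hab (by linarith)).trans_lt ENNReal.ofReal_lt_top).ne
  set ν := sel Γ a b with hν_def
  have hνp := hν.isProb
  have hfr := frostman hB h hν hfin
  have hi := integrable_pot hB h.mem h.fin hν hfin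
  have hiφ := integrable_phi (k₁ := k₁) (k₂ := k₂) hB.bdd hν
  rw [← integral_pot hB h.mem h.fin hν hfin, ← integral_add hi hiφ] at hfr
  have hpos : ∀ᵐ z ∂ν, (pot D μ z).toReal + phi k₁ k₂ z < frost D k₁ k₂ μ := by
    filter_upwards [hνae] with z hz
    have hz0 : z.re ≠ 0 := by
      intro h0
      apply hgap z.im hz.2
      have : (⟨0, z.im⟩ : ℂ) = z := by
        apply Complex.ext
        · exact h0.symm
        · rfl
      rw [this]
      exact hz.1
    have hx : 0 < |z.re| := abs_pos.2 hz0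
    have h3 := gap_pot_off_le hB.pos hα hβ (by linarith) hα' hβ' hε0 hε hae
      (z := z) ⟨by linarith [hz.2.1], by linarith [hz.2.2]⟩
    rw [← ENNReal.ofReal_add hF (by positivity)] at h3
    have h4 := ENNReal.toReal_mono ENNReal.ofReal_ne_top h3
    rw [ENNReal.toReal_ofReal (by positivity)] at h4
    have h5 := phi_le_neg h1 h2 z
    nlinarith
  have hi1 : Integrable (fun z => (pot D μ z).toReal + phi k₁ k₂ z) ν := hi.add hiφ
  have h4 : 0 < ∫ z, (frost D k₁ k₂ μ - ((pot D μ z).toReal + phi k₁ k₂ z)) ∂ν := by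
    rw [integral_pos_iff_support_of_nonneg_ae]
    · have h5 : ν (Function.support fun z =>
          frost D k₁ k₂ μ - ((pot D μ z).toReal + phi k₁ k₂ z)) = 1 := by
        rw [← measure_univ (μ := ν)]
        apply measure_congr
        filter_upwards [hpos] with z hz
        apply propext
        constructor
        · intro _; trivial
        · intro _
          change _ - _ ≠ (0 : ℝ)
          linarith
      rw [h5]
      exact one_pos
    · filter_upwards [hpos] with z hz
      simp only [Pi.zero_apply]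
      linarith
    · exact (integrable_const _).sub hi1
  rw [integral_sub (integrable_const _) hi1] at h4
  simp only [integral_const, probReal_univ, smul_eq_mul, one_mul] at h4
  unfold frost at h4
  linarith

/-- No atoms. -/
theorem measure_singleton_of_fin (hμ : IsProbOn Γ μ) (hfin : ener D μ μ ≠ ⊤) (z : ℂ) :
    μ {z} = 0 := by
  have := hμ.isProb
  obtain ⟨-, -, h⟩ := ener_toReal hμ hfin
  rw [ae_iff] at h
  have h2 : (μ.prod μ) ({z} ×ˢ {z}) = 0 := by
    refine measure_mono_null ?_ h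
    rintro ⟨a, b⟩ ⟨ha, hb⟩
    simp only [mem_singleton_iff] at ha hb
    simp only [mem_ofPred_eq, ha, hb, ne_eq, not_true_eq_false, not_false_eq_true]
  rw [Measure.prod_prod, mul_self_eq_zero] at h2
  exact h2

/-- The two-sided lower bound for the energy of a measure away from the middle part. -/
theorem ener_ge_of_split (hB : Box D Γ) (hμ : IsProbOn Γ μ) (hfin : ener D μ μ ≠ ⊤)
    (hae : ∀ᵐ z ∂μ, |z.re| ≤ 1 / 200 ∧ |z.im| ≤ 1 ∧ 8 / 10 < |z.im|) :
    Real.log D - 1 / 2 * (Real.log (21 / 100) + Real.log (201 / 100)) ≤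
      (ener D μ μ).toReal := by
  have := hμ.isProb
  obtain ⟨hi, heq, hne⟩ := ener_toReal hμ hfin
  rw [heq]
  set σ : ℂ → ℝ := fun z => if 0 < z.im then 1 else -1 with hσ
  have hσm : Measurable σ :=
    Measurable.ite (measurableSet_lt measurable_const Complex.measurable_im) measurable_const
      measurable_const
  have hσb : ∀ z, ‖σ z‖ ≤ 1 := by
    intro z
    rw [hσ]
    simp only
    split_ifs <;> simp
  set A : ℝ := -Real.log (21 / 100) with hA
  set B : ℝ := -Real.log (201 / 100) with hB'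
  have hAB : B ≤ A := by
    rw [hA, hB']
    have := Real.log_le_log (by norm_num : (0 : ℝ) < 21 / 100)
      (by norm_num : (21 / 100 : ℝ) ≤ 201 / 100)
    linarith
  have hiσ : Integrable σ μ :=
    (integrable_const (1 : ℝ)).mono' hσm.aestronglyMeasurable (ae_of_all _ hσb)
  have hprod : Integrable (fun p : ℂ × ℂ => σ p.1 * σ p.2) (μ.prod μ) := hiσ.mul_prod hiσ
  have hge : ∀ᵐ p ∂(μ.prod μ), (Real.log D + 1 / 2 * (A + B)) + 1 / 2 * (A - B) *
      (σ p.1 * σ p.2) ≤ (kap D p.1 p.2).toReal := by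
    have a1 := (Measure.quasiMeasurePreserving_fst (μ := μ) (ν := μ)).ae hae
    have a2 := (Measure.quasiMeasurePreserving_snd (μ := μ) (ν := μ)).ae hae
    filter_upwards [a1, a2, hne, hμ.prod_ae hμ] with p b1 b2 b3 b4
    rw [kap_toReal b3 (hB.dist _ b4.1 _ b4.2)]
    have h0 : 0 < ‖p.1 - p.2‖ := norm_pos_iff.2 (sub_ne_zero.2 b3)
    rw [Real.log_div hB.pos.ne' h0.ne']
    have hre : |(p.1 - p.2).re| ≤ 1 / 100 := by
      rw [Complex.sub_re]
      have := abs_sub (p.1.re) (p.2.re)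
      linarith [b1.1, b2.1]
    have hnorm := Complex.norm_le_abs_re_add_abs_im (p.1 - p.2)
    rw [Complex.sub_im] at hnorm
    by_cases h1 : 0 < p.1.im
    · by_cases h2 : 0 < p.2.im
      · have hs : σ p.1 * σ p.2 = 1 := by
          simp [hσ, h1, h2]
        rw [hs]
        have hn : ‖p.1 - p.2‖ ≤ 21 / 100 := by
          have b5 := b1.2
          have b6 := b2.2
          rw [abs_of_pos h1] at b5
          rw [abs_of_pos h2] at b6
          have : |p.1.im - p.2.im| ≤ 2 / 10 := by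
            rw [abs_le]
            constructor <;> linarith [b5.1, b5.2, b6.1, b6.2]
          linarith
        have := Real.log_le_log h0 hn
        linarith
      · have hs : σ p.1 * σ p.2 = -1 := by
          simp [hσ, h1, h2]
        rw [hs]
        have hn : ‖p.1 - p.2‖ ≤ 201 / 100 := by
          have := abs_sub (p.1.im) (p.2.im)
          linarith [b1.2.1, b2.2.1]
        have := Real.log_le_log h0 hn
        linarith
    · by_cases h2 : 0 < p.2.im
      · have hs : σ p.1 * σ p.2 = -1 := by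
          simp [hσ, h1, h2]
        rw [hs]
        have hn : ‖p.1 - p.2‖ ≤ 201 / 100 := by
          have := abs_sub (p.1.im) (p.2.im)
          linarith [b1.2.1, b2.2.1]
        have := Real.log_le_log h0 hn
        linarith
      · have hs : σ p.1 * σ p.2 = 1 := by
          simp [hσ, h1, h2]
        rw [hs]
        have hn : ‖p.1 - p.2‖ ≤ 21 / 100 := by
          have b5 := b1.2
          have b6 := b2.2
          push Not at h1 h2
          rw [abs_of_nonpos h1] at b5
          rw [abs_of_nonpos h2] at b6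
          have : |p.1.im - p.2.im| ≤ 2 / 10 := by
            rw [abs_le]
            constructor <;> linarith [b5.1, b5.2, b6.1, b6.2]
          linarith
        have := Real.log_le_log h0 hn
        linarith
  have hint : ∫ p : ℂ × ℂ, ((Real.log D + 1 / 2 * (A + B)) + 1 / 2 * (A - B) *
      (σ p.1 * σ p.2)) ∂(μ.prod μ) ≤ ∫ p : ℂ × ℂ, (kap D p.1 p.2).toReal ∂(μ.prod μ) :=
    integral_mono_ae ((integrable_const _).add (hprod.const_mul _)) hi hge
  rw [integral_add (integrable_const _) (hprod.const_mul _), integral_const,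
    integral_const_mul, integral_prod_mul (f := σ) (g := σ)] at hint
  simp only [probReal_univ, smul_eq_mul, one_mul] at hint
  have hsq : 0 ≤ 1 / 2 * (A - B) * ((∫ z, σ z ∂μ) * ∫ z, σ z ∂μ) := by
    have : 0 ≤ A - B := by linarith
    have := mul_self_nonneg (∫ z, σ z ∂μ)
    positivity
  rw [hA, hB'] at hint
  rw [hA, hB'] at hsq
  linarith

theorem frost_le_of_far (hJ : IsJoining ε₁ ε₂ Γ) (hB : Box D Γ) (hD : 2 ≤ D)
    (h : IsMinim D k₁ k₂ Γ μ) (hk₁ : 0 ≤ k₁) (hk₂ : 0 ≤ k₂)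
    (hae : ∀ᵐ z ∂μ, 8 / 10 < |z.im|) : frost D k₁ k₂ μ ≤ Real.log D - Real.log (3 / 4) := by
  have hμp := h.mem.isProb
  have hy : ∀ y ∈ Icc (-(1 / 20) : ℝ) (1 / 20), ∃ z ∈ Γ, z.im = y :=
    fun y hy => hJ.exists_im y ⟨by linarith [hy.1], by linarith [hy.2]⟩
  have hab : (-(1 / 20) : ℝ) < 1 / 20 := by norm_num
  have hν := isProbOn_sel hJ.isCompact hab hy
  have hνae := sel_ae hJ.isCompact hy
  have hfin : ener D (sel Γ (-(1 / 20)) (1 / 20)) (sel Γ (-(1 / 20)) (1 / 20)) ≠ ⊤ :=
    ((ener_sel_le hJ.isCompact hab (by linarith)).trans_lt ENNReal.ofReal_lt_top).ne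
  set ν := sel Γ (-(1 / 20)) (1 / 20) with hν_def
  have hνp := hν.isProb
  have hfr := frostman hB h hν hfin
  have hi := integrable_pot hB h.mem h.fin hν hfin
  have hiφ := integrable_phi (k₁ := k₁) (k₂ := k₂) hB.bdd hν
  rw [← integral_pot hB h.mem h.fin hν hfin, ← integral_add hi hiφ] at hfr
  have hlog : 0 ≤ Real.log D - Real.log (3 / 4) := by
    have := Real.log_le_log (by norm_num : (0 : ℝ) < 3 / 4) (by linarith : 3 / 4 ≤ D)
    linarith
  have hle : ∀ᵐ z ∂ν, (pot D μ z).toReal + phi k₁ k₂ z ≤ Real.log D - Real.log (3 / 4) := by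
    filter_upwards [hνae] with z hz
    have h1 : pot D μ z ≤ ENNReal.ofReal (Real.log D - Real.log (3 / 4)) := by
      have h2 : pot D μ z ≤ ∫⁻ _, ENNReal.ofReal (Real.log D - Real.log (3 / 4)) ∂μ := by
        apply lintegral_mono_ae
        filter_upwards [hae] with w hw
        rw [← Real.log_div (by linarith) (by norm_num)]
        apply kap_le_of_le (by norm_num) _ hB.pos
        refine le_trans ?_ (Complex.abs_im_le_norm _)
        rw [Complex.sub_im]
        rcases lt_abs.1 hw with h | h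
        · rw [abs_sub_comm]
          refine le_trans ?_ (le_abs_self _)
          linarith [hz.2.2]
        · refine le_trans ?_ (le_abs_self _)
          linarith [hz.2.1]
      rwa [lintegral_const, measure_univ, mul_one] at h2
    have h3 := ENNReal.toReal_mono ENNReal.ofReal_ne_top h1
    rw [ENNReal.toReal_ofReal hlog] at h3
    have h4 := phi_nonpos hk₁ hk₂ z
    linarith
  have hint := integral_mono_ae (hi.add hiφ) (integrable_const _) hle
  simp only [integral_const, probReal_univ, smul_eq_mul, one_mul] at hint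
  unfold frost
  exact hfr.trans hint

/-- The main theorem: for small `ε₁, ε₂ > 0` every max-min continuum contains a nondegenerate
segment of the imaginary axis. -/
theorem maxmin_segment (hk₁ : 0 < k₁) (hk₂ : 0 < k₂) :
    ∃ ε₀ : ℝ, 0 < ε₀ ∧ ∀ ε₁ ε₂ : ℝ, 0 < ε₁ → ε₁ < ε₀ → 0 < ε₂ → ε₂ < ε₀ →
      ∀ Γ : Set ℂ, IsMaxMin k₁ k₂ ε₁ ε₂ Γ →
        ∃ a b : ℝ, a < b ∧ ∀ y ∈ Icc a b, (⟨0, y⟩ : ℂ) ∈ Γ := by
  obtain ⟨e, he, hwin⟩ := window hk₁ hk₂ (t := 1 / 20) (by norm_num) (by norm_num)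
  set k := min k₁ k₂ with hk
  have hk0 : 0 < k := lt_min hk₁ hk₂
  refine ⟨min (min e (Real.exp (-2) / 2)) (min (min (1 / 200) (k / 200)) (1 / (16 * (k₁ + k₂)))),
    by positivity, ?_⟩
  intro ε₁ ε₂ hε₁ hε₁' hε₂ hε₂' Γ hM
  have a1 : ε₁ < e := lt_of_lt_of_le hε₁' ((min_le_left _ _).trans (min_le_left _ _))
  have a2 : ε₂ < e := lt_of_lt_of_le hε₂' ((min_le_left _ _).trans (min_le_left _ _))
  have b1 : ε₁ < Real.exp (-2) / 2 :=
    lt_of_lt_of_le hε₁' ((min_le_left _ _).trans (min_le_right _ _))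
  have b2 : ε₂ < Real.exp (-2) / 2 :=
    lt_of_lt_of_le hε₂' ((min_le_left _ _).trans (min_le_right _ _))
  have c1 : ε₁ < 1 / 200 :=
    lt_of_lt_of_le hε₁' ((min_le_right _ _).trans ((min_le_left _ _).trans (min_le_left _ _)))
  have c2 : ε₂ < 1 / 200 :=
    lt_of_lt_of_le hε₂' ((min_le_right _ _).trans ((min_le_left _ _).trans (min_le_left _ _)))
  have d1 : ε₁ < k / 200 :=
    lt_of_lt_of_le hε₁' ((min_le_right _ _).trans ((min_le_left _ _).trans (min_le_right _ _)))
  have d2 : ε₂ < k / 200 :=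
    lt_of_lt_of_le hε₂' ((min_le_right _ _).trans ((min_le_left _ _).trans (min_le_right _ _)))
  have e1 : ε₁ < 1 / (16 * (k₁ + k₂)) :=
    lt_of_lt_of_le hε₁' ((min_le_right _ _).trans (min_le_right _ _))
  have e2 : ε₂ < 1 / (16 * (k₁ + k₂)) :=
    lt_of_lt_of_le hε₂' ((min_le_right _ _).trans (min_le_right _ _))
  have hK : k₁ * ε₂ + k₂ * ε₁ ≤ 1 / 16 := by
    rw [lt_div_iff₀ (by positivity)] at e1 e2
    nlinarith
  have hsum : ε₁ + ε₂ < Real.exp (-2) := by linarith
  have hlogs : 2 < -Real.log (ε₁ + ε₂) := by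
    have := Real.log_lt_log (by linarith) hsum
    rw [Real.log_exp] at this
    linarith
  have hsmall : 1 + 2 * (k₁ * ε₂ + k₂ * ε₁) < -Real.log (ε₁ + ε₂) := by linarith
  have hJ := hM.joining
  -- a box and the minimiser
  obtain ⟨D, hB, hD⟩ : ∃ D, Box D Γ ∧ 2 ≤ D := by
    obtain ⟨D, hB⟩ := exists_box hJ.isCompact.isBounded
    exact ⟨max D 2, ⟨le_max_of_le_left hB.one_le, hB.bdd,
      fun z hz w hw => (hB.dist z hz w hw).trans (le_max_left _ _)⟩, le_max_right _ _⟩
  obtain ⟨μ, hμ⟩ := exists_isMinim_joining hJ hB hD k₁ k₂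
  have hμp := hμ.mem.isProb
  have hrect := rect_ae hM hB hD hμ hk₁ hk₂ hε₁ hε₂ hsmall
  have haxis := hwin ε₁ ε₂ Γ D μ hε₁ a1 hε₂ a2 hM hB hD hμ
  have hphi := integral_phi_ge hM hB hμ hk₁ hk₂ hε₁ hε₂
  set ε := max ε₁ ε₂ with hε
  have hε0 : 0 < ε := lt_max_of_lt_left hε₁
  have hε1 : ε < 1 / 200 := max_lt c1 c2
  have hεk : ε < k / 200 := max_lt d1 d2
  have hall : ∀ᵐ z ∂μ, |z.re| ≤ ε ∧ |z.im| ≤ 1 ∧ (|z.im| < 9 / 10 → z.re = 0) := by
    filter_upwards [hrect, haxis] with z h1 h2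
    refine ⟨abs_le.2 ⟨?_, ?_⟩, abs_le.2 ⟨h1.2.1, h1.2.2⟩, fun h3 => h2 (by linarith)⟩
    · have := le_max_left ε₁ ε₂
      linarith [h1.1.1]
    · exact h1.1.2.trans (le_max_right _ _)
  have hsupp : μ.support ⊆ Γ := by
    apply Measure.support_subset_of_isClosed hJ.isCompact.isClosed
    rw [mem_ae_iff]
    exact hμ.mem.compl
  -- suppose there is no segment
  by_contra hcon
  push Not at hcon
  -- the support on the axis
  set T : Set ℝ := {y | (⟨0, y⟩ : ℂ) ∈ μ.support} with hT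
  have hTcl : IsClosed T := by
    have hc : Continuous (fun y : ℝ => (⟨0, y⟩ : ℂ)) := by
      have : (fun y : ℝ => (⟨0, y⟩ : ℂ)) = fun y : ℝ => (y : ℂ) * Complex.I := by
        funext y
        apply Complex.ext <;> simp
      rw [this]
      fun_prop
    exact Measure.isClosed_support.preimage hc
  by_cases hcase : ∃ y₁ y₂ : ℝ, y₁ < y₂ ∧ -(8 / 10) ≤ y₁ ∧ y₂ ≤ 8 / 10 ∧ y₁ ∈ T ∧ y₂ ∈ T
  · obtain ⟨y₁, y₂, h12, hy₁, hy₂, hT1, hT2⟩ := hcase
    obtain ⟨y₀, hy₀, hy₀Γ⟩ := hcon ((2 * y₁ + y₂) / 3) ((y₁ + 2 * y₂) / 3) (by linarith)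
    have hy01 : y₁ < y₀ := by linarith [hy₀.1]
    have hy02 : y₀ < y₂ := by linarith [hy₀.2]
    -- the gap
    have hc1 : IsCompact (T ∩ Icc y₁ y₀) := isCompact_Icc.inter_left hTcl
    have hc2 : IsCompact (T ∩ Icc y₀ y₂) := isCompact_Icc.inter_left hTcl
    have hn1 : (T ∩ Icc y₁ y₀).Nonempty := ⟨y₁, hT1, le_refl _, hy01.le⟩
    have hn2 : (T ∩ Icc y₀ y₂).Nonempty := ⟨y₂, hT2, hy02.le, le_refl _⟩
    set α := sSup (T ∩ Icc y₁ y₀) with hα
    set β := sInf (T ∩ Icc y₀ y₂) with hβ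
    have hαT : α ∈ T ∩ Icc y₁ y₀ := hc1.sSup_mem hn1
    have hβT : β ∈ T ∩ Icc y₀ y₂ := hc2.sInf_mem hn2
    have hy₀T : y₀ ∉ T := fun h0 => hy₀Γ (hsupp h0)
    have hα0 : α < y₀ := lt_of_le_of_ne hαT.2.2 (fun h0 => hy₀T (h0 ▸ hαT.1))
    have hβ0 : y₀ < β := lt_of_le_of_ne hβT.2.1 (fun h0 => hy₀T (h0 ▸ hβT.1))
    have hαβ : α < β := hα0.trans hβ0
    have hgapT : ∀ y ∈ T, y ≤ α ∨ β ≤ y := by
      intro y hy
      by_contra hno
      push Not at hno
      rcases le_total y y₀ with h0 | h0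
      · have : y ≤ α := le_csSup hc1.bddAbove ⟨hy, by linarith [hαT.2.1, hno.1], h0⟩
        linarith [hno.1]
      · have : β ≤ y := csInf_le hc2.bddBelow ⟨hy, h0, by linarith [hβT.2.2, hno.2]⟩
        linarith [hno.2]
    have hgood : ∀ᵐ w ∂μ, GoodPt ε α β w := by
      filter_upwards [hall, (Measure.support_mem_ae : μ.support ∈ ae μ)] with w h1 h2
      refine ⟨h1.1, ?_⟩
      by_cases h3 : |w.im| < 9 / 10
      · left
        have h4 := h1.2.2 h3
        refine ⟨h4, hgapT w.im ?_⟩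
        have : (⟨0, w.im⟩ : ℂ) = w := by
          apply Complex.ext
          · exact h4.symm
          · rfl
        rw [hT, mem_ofPred_eq, this]
        exact h2
      · right
        exact not_lt.1 h3
    have hφ0 : ∀ y : ℝ, phi k₁ k₂ ⟨0, y⟩ = 0 := by
      intro y
      simp [phi]
    have hpα := pot_le_of_mem_support hB hμ hαT.1
    have hpβ := pot_le_of_mem_support hB hμ hβT.1
    rw [hφ0, sub_zero] at hpα hpβ
    have hF : 0 ≤ frost D k₁ k₂ μ := by
      by_contra hneg
      push Not at hneg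
      have h1 : pot D μ ⟨0, α⟩ = 0 := by
        rw [ENNReal.ofReal_of_nonpos hneg.le] at hpα
        exact le_antisymm hpα (by positivity)
      have h2 : ENNReal.ofReal (Real.log (D / (19 / 10))) ≤ pot D μ ⟨0, α⟩ := by
        have h3 : ∫⁻ _, ENNReal.ofReal (Real.log (D / (19 / 10))) ∂μ ≤ pot D μ ⟨0, α⟩ := by
          apply lintegral_mono_ae
          filter_upwards [hall] with w hw
          apply kap_ge_of_le (by norm_num) _ hB.pos
          refine (Complex.norm_le_abs_re_add_abs_im _).trans ?_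
          rw [Complex.sub_re, Complex.sub_im, zero_sub, abs_neg]
          have h4 := abs_sub α w.im
          have h5 : |α| ≤ 8 / 10 := by
            rw [abs_le]
            constructor
            · linarith [hαT.2.1]
            · linarith [hβT.2.2]
          linarith [hw.1, hw.2.1]
        rwa [lintegral_const, measure_univ, mul_one] at h3
      rw [h1] at h2
      have h3 : Real.log (D / (19 / 10)) ≤ 0 := by
        rwa [nonpos_iff_eq_zero, ENNReal.ofReal_eq_zero] at h2
      have h4 : 0 < Real.log (D / (19 / 10)) := by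
        apply Real.log_pos
        rw [lt_div_iff₀ (by norm_num)]
        linarith
      linarith
    -- a small interval around y₀
    have hop : IsOpen {y : ℝ | (⟨0, y⟩ : ℂ) ∉ Γ} := by
      have hc : Continuous (fun y : ℝ => (⟨0, y⟩ : ℂ)) := by
        have : (fun y : ℝ => (⟨0, y⟩ : ℂ)) = fun y : ℝ => (y : ℂ) * Complex.I := by
          funext y
          apply Complex.ext <;> simp
        rw [this]
        fun_prop
      exact (hJ.isCompact.isClosed.preimage hc).isOpen_compl
    have hnh : {y : ℝ | (⟨0, y⟩ : ℂ) ∉ Γ} ∩ Ioo α β ∈ 𝓝 y₀ :=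
      inter_mem (hop.mem_nhds hy₀Γ) (Ioo_mem_nhds hα0 hβ0)
    obtain ⟨δ, hδ, hball⟩ := Metric.mem_nhds_iff.1 hnh
    have hin : ∀ y ∈ Icc (y₀ - δ / 2) (y₀ + δ / 2), y ∈ {y : ℝ | (⟨0, y⟩ : ℂ) ∉ Γ} ∩ Ioo α β := by
      intro y hy
      apply hball
      rw [Metric.mem_ball, Real.dist_eq, abs_lt]
      constructor <;> linarith [hy.1, hy.2]
    exact no_gap hJ hB hD hμ hF hpα hpβ (by linarith [hαT.2.1]) (by linarith [hβT.2.2]) hε0.le
      (by linarith) hgood (by linarith) (min_le_left k₁ k₂) (min_le_right k₁ k₂)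
      (a := y₀ - δ / 2) (b := y₀ + δ / 2) (by linarith)
      (hin _ ⟨le_refl _, by linarith⟩).2.1.le (hin _ ⟨by linarith, le_refl _⟩).2.2.le
      (fun y hy => (hin y hy).1)
  · -- almost no mass in the middle part
    have hmid : ∀ᵐ z ∂μ, 8 / 10 < |z.im| := by
      have hsub : (T ∩ Icc (-(8 / 10)) (8 / 10)).Subsingleton := by
        intro y hy y' hy'
        by_contra hne
        rcases lt_or_gt_of_ne hne with h0 | h0
        · exact hcase ⟨y, y', h0, hy.2.1, hy'.2.2, hy.1, hy'.1⟩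
        · exact hcase ⟨y', y, h0, hy'.2.1, hy.2.2, hy'.1, hy.1⟩
      have hkey : ∀ w : ℂ, w ∈ μ.support → |w.im| ≤ 8 / 10 → w.re = 0 →
          w.im ∈ T ∩ Icc (-(8 / 10)) (8 / 10) := by
        intro w h1 h2 h3
        refine ⟨?_, abs_le.1 h2⟩
        have : (⟨0, w.im⟩ : ℂ) = w := by
          apply Complex.ext
          · exact h3.symm
          · rfl
        rw [hT, mem_ofPred_eq, this]
        exact h1
      rcases hsub.eq_empty_or_singleton with h0 | ⟨y, h0⟩
      · filter_upwards [hall, (Measure.support_mem_ae : μ.support ∈ ae μ)] with w h1 h2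
        by_contra h3
        have h4 := hkey w h2 (not_lt.1 h3) (h1.2.2 (by linarith [not_lt.1 h3]))
        rw [h0] at h4
        exact h4
      · have hatom : ∀ᵐ w ∂μ, w ≠ ⟨0, y⟩ := by
          rw [ae_iff]
          simpa using measure_singleton_of_fin hμ.mem hμ.fin ⟨0, y⟩
        filter_upwards [hall, (Measure.support_mem_ae : μ.support ∈ ae μ), hatom] with w h1 h2 h5
        by_contra h3
        have h6 := h1.2.2 (by linarith [not_lt.1 h3])
        have h4 := hkey w h2 (not_lt.1 h3) h6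
        rw [h0, mem_singleton_iff] at h4
        apply h5
        apply Complex.ext
        · exact h6
        · exact h4
    have hlow := ener_ge_of_split hB hμ.mem hμ.fin (by
      filter_upwards [hall, hmid] with z h1 h2
      exact ⟨by linarith [h1.1], h1.2.1, h2⟩)
    have hup := frost_le_of_far hJ hB hD hμ hk₁.le hk₂.le hmid
    unfold frost at hup
    have hnum : 1 / 8 < 2 * Real.log (3 / 4) - (Real.log (21 / 100) + Real.log (201 / 100)) := by
      have h1 := Real.one_sub_inv_le_log_of_pos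
        (by norm_num : (0 : ℝ) < (3 / 4) ^ 2 / (21 / 100 * (201 / 100)))
      rw [Real.log_div (by norm_num) (by norm_num), Real.log_pow,
        Real.log_mul (by norm_num) (by norm_num)] at h1
      norm_num at h1 ⊢
      linarith
    linarith

end

end Pool.Agent.Helper25.SCurve
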