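import Pool.Agent.Helper25.SCurve.Min

/-!
# Measures of finite energy on a continuum obtained from a measurable selection
-/

namespace Pool.Agent.Helper25.SCurve

open MeasureTheory Set Filter Topology
open scoped ENNReal NNReal

/-- The right-most abscissa of the points of `Γ` at height `y`. -/
noncomputable def top (Γ : Set ℂ) (y : ℝ) : ℝ := sSup {x : ℝ | (⟨x, y⟩ : ℂ) ∈ Γ}

/-- The right-most point of `Γ` at height `y`. -/
noncomputable def selPt (Γ : Set ℂ) (y : ℝ) : ℂ := ⟨top Γ y, y⟩

theorem isCompact_slice {Γ : Set ℂ} (hΓ : IsCompact Γ) (y : ℝ) :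
    IsCompact {x : ℝ | (⟨x, y⟩ : ℂ) ∈ Γ} := by
  have h1 : {x : ℝ | (⟨x, y⟩ : ℂ) ∈ Γ} = Complex.re '' (Γ ∩ {z | z.im = y}) := by
    ext x
    constructor
    · intro hx
      exact ⟨⟨x, y⟩, ⟨hx, rfl⟩, rfl⟩
    · rintro ⟨z, ⟨hz, hy⟩, rfl⟩
      have : (⟨z.re, y⟩ : ℂ) = z := Complex.ext rfl hy.symm
      change (⟨z.re, y⟩ : ℂ) ∈ Γ
      rwa [this]
  rw [h1]
  apply IsCompact.image _ Complex.continuous_re
  exact hΓ.inter_right (isClosed_eq Complex.continuous_im continuous_const)

theorem selPt_mem {Γ : Set ℂ} (hΓ : IsCompact Γ) {y : ℝ} (hy : ∃ z ∈ Γ, z.im = y) :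
    selPt Γ y ∈ Γ := by
  obtain ⟨z, hz, hzy⟩ := hy
  have hne : {x : ℝ | (⟨x, y⟩ : ℂ) ∈ Γ}.Nonempty := by
    refine ⟨z.re, ?_⟩
    have : (⟨z.re, y⟩ : ℂ) = z := Complex.ext rfl hzy.symm
    change (⟨z.re, y⟩ : ℂ) ∈ Γ
    rwa [this]
  exact (isCompact_slice hΓ y).sSup_mem hne

theorem measurable_top {Γ : Set ℂ} (hΓ : IsCompact Γ) : Measurable (top Γ) := by
  apply measurable_of_Ici
  intro c
  have hP : IsClosed (Complex.im '' Γ) := (hΓ.image Complex.continuous_im).isClosed
  have hQ : IsClosed (Complex.im '' (Γ ∩ {z | c ≤ z.re})) :=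
    ((hΓ.inter_right (isClosed_le continuous_const Complex.continuous_re)).image
      Complex.continuous_im).isClosed
  have h1 : top Γ ⁻¹' Ici c = (Complex.im '' (Γ ∩ {z | c ≤ z.re})) ∪
      ((Complex.im '' Γ)ᶜ ∩ {_y | c ≤ 0}) := by
    ext y
    simp only [mem_preimage, mem_Ici, mem_union, mem_inter_iff, mem_compl_iff, mem_ofPred_eq]
    constructor
    · intro hy
      by_cases h : y ∈ Complex.im '' Γ
      · left
        obtain ⟨z, hz, hzy⟩ := h
        exact ⟨selPt Γ y, ⟨selPt_mem hΓ ⟨z, hz, hzy⟩, hy⟩, rfl⟩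
      · right
        refine ⟨h, ?_⟩
        have hempty : {x : ℝ | (⟨x, y⟩ : ℂ) ∈ Γ} = ∅ := by
          ext x
          simp only [mem_ofPred_eq, mem_empty_iff_false, iff_false]
          intro hx
          exact h ⟨_, hx, rfl⟩
        unfold top at hy
        rwa [hempty, Real.sSup_empty] at hy
    · rintro (⟨z, ⟨hz, hc⟩, rfl⟩ | ⟨h, hc⟩)
      · refine le_trans hc ?_
        apply le_csSup (isCompact_slice hΓ _).bddAbove
        exact hz
      · have hempty : {x : ℝ | (⟨x, y⟩ : ℂ) ∈ Γ} = ∅ := by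
          ext x
          simp only [mem_ofPred_eq, mem_empty_iff_false, iff_false]
          intro hx
          exact h ⟨_, hx, rfl⟩
        unfold top
        rwa [hempty, Real.sSup_empty]
  rw [h1]
  exact hQ.measurableSet.union (hP.measurableSet.compl.inter (MeasurableSet.const _))

theorem measurable_selPt {Γ : Set ℂ} (hΓ : IsCompact Γ) : Measurable (selPt Γ) := by
  have : selPt Γ = fun y => ((top Γ y : ℝ) : ℂ) + (y : ℂ) * Complex.I := by
    funext y
    apply Complex.ext <;> simp [selPt]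
  rw [this]
  have := measurable_top hΓ
  fun_prop

/-- The image of the normalised Lebesgue measure of `(α, β]` under the selection. -/
noncomputable def sel (Γ : Set ℂ) (α β : ℝ) : Measure ℂ :=
  (ENNReal.ofReal (β - α))⁻¹ • (volume.restrict (Ioc α β)).map (selPt Γ)

section

variable {Γ : Set ℂ} {α β : ℝ}

theorem sel_ae (hΓ : IsCompact Γ) (hy : ∀ y ∈ Icc α β, ∃ z ∈ Γ, z.im = y) :
    ∀ᵐ z ∂(sel Γ α β), z ∈ Γ ∧ z.im ∈ Icc α β := by
  unfold sel
  apply Measure.ae_smul_measure
  rw [ae_map_iff (measurable_selPt hΓ).aemeasurable]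
  · filter_upwards [ae_restrict_mem measurableSet_Ioc] with y hy'
    exact ⟨selPt_mem hΓ (hy y ⟨hy'.1.le, hy'.2⟩), hy'.1.le, hy'.2⟩
  · exact hΓ.isClosed.measurableSet.inter (measurableSet_Icc.preimage Complex.measurable_im)

theorem isProbOn_sel (hΓ : IsCompact Γ) (hαβ : α < β) (hy : ∀ y ∈ Icc α β, ∃ z ∈ Γ, z.im = y) :
    IsProbOn Γ (sel Γ α β) := by
  constructor
  · constructor
    unfold sel
    rw [Measure.smul_apply, Measure.map_apply (measurable_selPt hΓ) MeasurableSet.univ]
    simp only [preimage_univ, Measure.restrict_apply_univ, Real.volume_Ioc, smul_eq_mul]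
    exact ENNReal.inv_mul_cancel (by simpa using hαβ) ENNReal.ofReal_ne_top
  · have := sel_ae hΓ hy
    rw [ae_iff] at this
    apply measure_mono_null _ this
    intro z hz
    simp only [mem_ofPred_eq, not_and_or]
    exact Or.inl hz

theorem kap_mono {D : ℝ} {z w z' w' : ℂ} (hD : 0 < D) (h : ‖z' - w'‖ ≤ ‖z - w‖) :
    kap D z w ≤ kap D z' w' := by
  rcases eq_or_ne z' w' with h1 | h1
  · rw [h1, kap_self]
    exact le_top
  · have h2 : 0 < ‖z' - w'‖ := norm_pos_iff.2 (sub_ne_zero.2 h1)
    have h3 : z ≠ w := by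
      rintro rfl
      rw [sub_self, norm_zero] at h
      linarith
    rw [kap_eq_ofReal h1, kap_eq_ofReal h3]
    apply ENNReal.ofReal_le_ofReal
    apply Real.log_le_log
    · have : 0 < ‖z - w‖ := lt_of_lt_of_le h2 h
      positivity
    · gcongr

theorem kap_le_of_le {D r : ℝ} {z w : ℂ} (hr : 0 < r) (h : r ≤ ‖z - w‖) (hD : 0 < D) :
    kap D z w ≤ ENNReal.ofReal (Real.log (D / r)) := by
  have h1 : z ≠ w := by
    rintro rfl
    rw [sub_self, norm_zero] at h
    linarith
  rw [kap_eq_ofReal h1]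
  apply ENNReal.ofReal_le_ofReal
  apply Real.log_le_log
  · have : 0 < ‖z - w‖ := lt_of_lt_of_le hr h
    positivity
  · gcongr

theorem kap_ge_of_le {D r : ℝ} {z w : ℂ} (hr : 0 < r) (h : ‖z - w‖ ≤ r) (hD : 0 < D) :
    ENNReal.ofReal (Real.log (D / r)) ≤ kap D z w := by
  rcases eq_or_ne z w with h1 | h1
  · rw [h1, kap_self]
    exact le_top
  · rw [kap_eq_ofReal h1]
    have h2 : 0 < ‖z - w‖ := norm_pos_iff.2 (sub_ne_zero.2 h1)
    apply ENNReal.ofReal_le_ofReal
    apply Real.log_le_log (by positivity)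
    gcongr

theorem mul_log_add_ge {u v : ℝ} (hu : 0 ≤ u) (hv : 0 ≤ v) :
    (u + v) * Real.log ((u + v) / 2) ≤ u * Real.log u + v * Real.log v := by
  have h := Real.convexOn_mul_log.2 (mem_Ici.2 hu) (mem_Ici.2 hv)
    (show (0 : ℝ) ≤ 1 / 2 by norm_num) (show (0 : ℝ) ≤ 1 / 2 by norm_num) (by norm_num)
  simp only [smul_eq_mul] at h
  have e : 1 / 2 * u + 1 / 2 * v = (u + v) / 2 := by ring
  rw [e] at h
  linarith

theorem integral_log_abs {y : ℝ} (hy : y ∈ Icc α β) :
    (β - α) * (Real.log ((β - α) / 2) - 1) ≤ ∫ u in α..β, Real.log |y - u| := by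
  have h1 : ∫ u in α..y, Real.log |y - u| = (y - α) * Real.log (y - α) - (y - α) := by
    have := intervalIntegral.integral_comp_sub_left (a := α) (b := y) (fun x => Real.log |x|) y
    rw [this]
    simp only [Real.log_abs, sub_self]
    rw [integral_log]
    ring
  have h2 : ∫ u in y..β, Real.log |y - u| = (β - y) * Real.log (β - y) - (β - y) := by
    have := intervalIntegral.integral_comp_sub_left (a := y) (b := β) (fun x => Real.log |x|) y
    rw [this]
    simp only [Real.log_abs, sub_self]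
    rw [integral_log]
    have : Real.log (y - β) = Real.log (β - y) := by
      rw [← Real.log_neg_eq_log, neg_sub]
    rw [this]
    ring
  have hi : ∀ a b : ℝ, IntervalIntegrable (fun u => Real.log |y - u|) volume a b := by
    intro a b
    have h3 : IntervalIntegrable (fun x : ℝ => Real.log x) volume (y - a) (y - b) :=
      intervalIntegral.intervalIntegrable_log'
    have h4 := h3.comp_sub_left (c := y)
    simp only [sub_sub_cancel] at h4
    simpa only [Real.log_abs] using h4
  rw [← intervalIntegral.integral_add_adjacent_intervals (hi α y) (hi y β), h1, h2]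
  have h5 := mul_log_add_ge (u := y - α) (v := β - y) (by linarith [hy.1]) (by linarith [hy.2])
  rw [show y - α + (β - y) = β - α by ring] at h5
  linarith

theorem ener_sel_le {D : ℝ} (hΓ : IsCompact Γ) (hαβ : α < β) (hD : β - α ≤ D) :
    ener D (sel Γ α β) (sel Γ α β) ≤
      ENNReal.ofReal (Real.log D + 1 - Real.log ((β - α) / 2)) := by
  have hL : 0 < β - α := by linarith
  have hD0 : 0 < D := by linarith
  have hm := measurable_selPt hΓ
  have hi : ∀ y : ℝ, IntervalIntegrable (fun u => Real.log |y - u|) volume α β := by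
    intro y
    have h3 : IntervalIntegrable (fun x : ℝ => Real.log x) volume (y - α) (y - β) :=
      intervalIntegral.intervalIntegrable_log'
    have h4 := h3.comp_sub_left (c := y)
    simp only [sub_sub_cancel] at h4
    simpa only [Real.log_abs] using h4
  have hc0 : 0 ≤ Real.log D + 1 - Real.log ((β - α) / 2) := by
    have h1 : Real.log ((β - α) / 2) ≤ Real.log D := by
      apply Real.log_le_log (by positivity)
      linarith
    linarith
  -- the inner integral
  have hinner : ∀ y ∈ Icc α β, ∫⁻ u in Ioc α β, kap D (selPt Γ y) (selPt Γ u) ≤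
      ENNReal.ofReal ((β - α) * (Real.log D + 1 - Real.log ((β - α) / 2))) := by
    intro y hy
    have h1 : ∀ᵐ u ∂(volume.restrict (Ioc α β)), kap D (selPt Γ y) (selPt Γ u) ≤
        ENNReal.ofReal (Real.log D - Real.log |y - u|) := by
      have : ∀ᵐ x : ℝ, x ∉ ({y} : Set ℝ) := (Set.countable_singleton y).ae_notMem _
      filter_upwards [ae_restrict_of_ae this] with u hu
      have hu' : 0 < |y - u| := abs_pos.2 (sub_ne_zero.2 (Ne.symm hu))
      rw [← Real.log_div hD0.ne' hu'.ne']
      apply kap_le_of_le hu' _ hD0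
      have h2 := Complex.abs_im_le_norm (selPt Γ y - selPt Γ u)
      simpa [selPt] using h2
    have hint : IntegrableOn (fun u => Real.log D - Real.log |y - u|) (Ioc α β) := by
      have := (intervalIntegrable_const (c := Real.log D)).sub (hi y)
      exact this.1
    have hnn : ∀ᵐ u ∂(volume.restrict (Ioc α β)), 0 ≤ Real.log D - Real.log |y - u| := by
      have : ∀ᵐ x : ℝ, x ∉ ({y} : Set ℝ) := (Set.countable_singleton y).ae_notMem _
      filter_upwards [ae_restrict_of_ae this, ae_restrict_mem measurableSet_Ioc] with u hu hu2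
      have hu' : 0 < |y - u| := abs_pos.2 (sub_ne_zero.2 (Ne.symm hu))
      have h3 : |y - u| ≤ D := by
        rw [abs_le]
        constructor <;> linarith [hy.1, hy.2, hu2.1, hu2.2]
      have := Real.log_le_log hu' h3
      linarith
    calc ∫⁻ u in Ioc α β, kap D (selPt Γ y) (selPt Γ u)
        ≤ ∫⁻ u in Ioc α β, ENNReal.ofReal (Real.log D - Real.log |y - u|) :=
          lintegral_mono_ae h1
      _ = ENNReal.ofReal (∫ u in Ioc α β, (Real.log D - Real.log |y - u|)) :=
          (ofReal_integral_eq_lintegral_ofReal hint hnn).symm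
      _ ≤ _ := by
          apply ENNReal.ofReal_le_ofReal
          rw [← intervalIntegral.integral_of_le hαβ.le, intervalIntegral.integral_sub
            intervalIntegrable_const (hi y), intervalIntegral.integral_const, smul_eq_mul]
          have := integral_log_abs hy
          linarith
  have hval : ener D (sel Γ α β) (sel Γ α β) = (ENNReal.ofReal (β - α))⁻¹ *
      ∫⁻ y in Ioc α β, (ENNReal.ofReal (β - α))⁻¹ *
        ∫⁻ u in Ioc α β, kap D (selPt Γ y) (selPt Γ u) := by
    unfold ener sel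
    simp only [lintegral_smul_measure, smul_eq_mul]
    rw [lintegral_map _ hm]
    · congr 1
      apply lintegral_congr
      intro y
      rw [lintegral_map (measurable_kap_left D _) hm]
    · apply Measurable.const_mul
      exact measurable_pot D _
  rw [hval]
  have h3 : ENNReal.ofReal (β - α) ≠ 0 := by simpa using hαβ
  calc (ENNReal.ofReal (β - α))⁻¹ * ∫⁻ y in Ioc α β, (ENNReal.ofReal (β - α))⁻¹ *
        ∫⁻ u in Ioc α β, kap D (selPt Γ y) (selPt Γ u)
      ≤ (ENNReal.ofReal (β - α))⁻¹ * ∫⁻ y in Ioc α β, (ENNReal.ofReal (β - α))⁻¹ *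
        ENNReal.ofReal ((β - α) * (Real.log D + 1 - Real.log ((β - α) / 2))) := by
        refine mul_le_mul' le_rfl ?_
        apply setLIntegral_mono' measurableSet_Ioc
        intro y hy
        gcongr
        exact hinner y ⟨hy.1.le, hy.2⟩
    _ = ENNReal.ofReal (Real.log D + 1 - Real.log ((β - α) / 2)) := by
        rw [ENNReal.ofReal_mul hL.le, ← mul_assoc, ENNReal.inv_mul_cancel h3 ENNReal.ofReal_ne_top,
          one_mul, lintegral_const, Measure.restrict_apply_univ, Real.volume_Ioc, mul_comm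
          (ENNReal.ofReal (Real.log D + 1 - _)), ← mul_assoc,
          ENNReal.inv_mul_cancel h3 ENNReal.ofReal_ne_top, one_mul]

end

theorem IsJoining.exists_im {ε₁ ε₂ : ℝ} {Γ : Set ℂ} (h : IsJoining ε₁ ε₂ Γ) :
    ∀ y ∈ Icc (-1 : ℝ) 1, ∃ z ∈ Γ, z.im = y := by
  have h1 : IsPreconnected (Complex.im '' Γ) :=
    h.isConnected.isPreconnected.image _ Complex.continuous_im.continuousOn
  have h2 : (1 : ℝ) ∈ Complex.im '' Γ := ⟨_, h.left_mem, by simp⟩
  have h3 : (-1 : ℝ) ∈ Complex.im '' Γ := ⟨_, h.right_mem, by simp⟩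
  intro y hy
  obtain ⟨z, hz, hzy⟩ := h1.Icc_subset h3 h2 hy
  exact ⟨z, hz, hzy⟩

end Pool.Agent.Helper25.SCurve
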