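import Pool.Agent.Helper25.SCurve.Segment

/-!
# The facts about the equilibrium measure of a max-min continuum for small parameters
-/

namespace Pool.Agent.Helper25.SCurve

open MeasureTheory Set Filter Topology
open scoped ENNReal

/-- The collected facts. -/
structure Setup (k₁ k₂ ε₁ ε₂ : ℝ) (Γ : Set ℂ) (D : ℝ) (μ : Measure ℂ) : Prop where
  maxMin : IsMaxMin k₁ k₂ ε₁ ε₂ Γ
  box : Box D Γ
  two_le : 2 ≤ D
  minim : IsMinim D k₁ k₂ Γ μ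
  phi_small : -(1 / 16) ≤ ∫ z, phi k₁ k₂ z ∂μ
  pos₁ : 0 < ε₁
  pos₂ : 0 < ε₂
  small₁ : ε₁ < 1 / 200
  small₂ : ε₂ < 1 / 200
  rect : ∀ᵐ z ∂μ, (-ε₁ ≤ z.re ∧ z.re ≤ ε₂) ∧ (-1 ≤ z.im ∧ z.im ≤ 1)
  right : ∀ᵐ z ∂μ, 0 < z.re → z.im ≤ -(9 / 10)
  left : ∀ᵐ z ∂μ, z.re < 0 → 9 / 10 ≤ z.im

theorem exists_setup {k₁ k₂ : ℝ} (hk₁ : 0 < k₁) (hk₂ : 0 < k₂) :
    ∃ ε₀ : ℝ, 0 < ε₀ ∧ ∀ ε₁ ε₂ : ℝ, 0 < ε₁ → ε₁ < ε₀ → 0 < ε₂ → ε₂ < ε₀ →
      ∀ Γ : Set ℂ, IsMaxMin k₁ k₂ ε₁ ε₂ Γ → ∃ D μ, Setup k₁ k₂ ε₁ ε₂ Γ D μ := by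
  obtain ⟨e, he, hR⟩ := window_right hk₁ hk₂ (t := 1 / 20) (by norm_num) (by norm_num)
  obtain ⟨e', he', hL⟩ := window_right hk₂ hk₁ (t := 1 / 20) (by norm_num) (by norm_num)
  refine ⟨min (min e e') (min (min (1 / 200) (Real.exp (-2) / 2)) (1 / (16 * (k₁ + k₂)))),
    by positivity, ?_⟩
  intro ε₁ ε₂ hε₁ hε₁' hε₂ hε₂' Γ hM
  have a1 : ε₁ < e := lt_of_lt_of_le hε₁' ((min_le_left _ _).trans (min_le_left _ _))
  have a2 : ε₂ < e := lt_of_lt_of_le hε₂' ((min_le_left _ _).trans (min_le_left _ _))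
  have b1 : ε₁ < e' := lt_of_lt_of_le hε₁' ((min_le_left _ _).trans (min_le_right _ _))
  have b2 : ε₂ < e' := lt_of_lt_of_le hε₂' ((min_le_left _ _).trans (min_le_right _ _))
  have c1 : ε₁ < 1 / 200 :=
    lt_of_lt_of_le hε₁' ((min_le_right _ _).trans ((min_le_left _ _).trans (min_le_left _ _)))
  have c2 : ε₂ < 1 / 200 :=
    lt_of_lt_of_le hε₂' ((min_le_right _ _).trans ((min_le_left _ _).trans (min_le_left _ _)))
  have d1 : ε₁ < Real.exp (-2) / 2 :=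
    lt_of_lt_of_le hε₁' ((min_le_right _ _).trans ((min_le_left _ _).trans (min_le_right _ _)))
  have d2 : ε₂ < Real.exp (-2) / 2 :=
    lt_of_lt_of_le hε₂' ((min_le_right _ _).trans ((min_le_left _ _).trans (min_le_right _ _)))
  have e1 : ε₁ < 1 / (16 * (k₁ + k₂)) :=
    lt_of_lt_of_le hε₁' ((min_le_right _ _).trans (min_le_right _ _))
  have e2 : ε₂ < 1 / (16 * (k₁ + k₂)) :=
    lt_of_lt_of_le hε₂' ((min_le_right _ _).trans (min_le_right _ _))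
  have hK : k₁ * ε₂ + k₂ * ε₁ ≤ 1 / 16 := by
    rw [lt_div_iff₀ (by positivity)] at e1 e2
    nlinarith
  have hsum : ε₁ + ε₂ < Real.exp (-2) := by linarith
  have hlogs : 2 < -Real.log (ε₁ + ε₂) := by
    have := Real.log_lt_log (by linarith) hsum
    rw [Real.log_exp] at this
    linarith
  have hsmall : 1 + 2 * (k₁ * ε₂ + k₂ * ε₁) < -Real.log (ε₁ + ε₂) := by linarith
  have hJ := hM.joining
  obtain ⟨D, hB, hD⟩ : ∃ D, Box D Γ ∧ 2 ≤ D := by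
    obtain ⟨D, hB⟩ := exists_box hJ.isCompact.isBounded
    exact ⟨max D 2, ⟨le_max_of_le_left hB.one_le, hB.bdd,
      fun z hz w hw => (hB.dist z hz w hw).trans (le_max_left _ _)⟩, le_max_right _ _⟩
  obtain ⟨μ, hμ⟩ := exists_isMinim_joining hJ hB hD k₁ k₂
  have hrect := rect_ae hM hB hD hμ hk₁ hk₂ hε₁ hε₂ hsmall
  have hphi := integral_phi_ge hM hB hμ hk₁ hk₂ hε₁ hε₂
  have h1 := hR ε₁ ε₂ Γ D μ hε₁ a1 hε₂ a2 hM hB hD hμ
  have h2 := hL ε₂ ε₁ (negSet Γ) D (negM μ) hε₂ b2 hε₁ b1 hM.neg hB.neg hD hμ.neg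
  rw [negM_apply] at h2
  have h3 : ∀ᵐ z ∂μ, ¬ (0 < z.re ∧ -1 + 2 * (1 / 20) < z.im) := by
    rw [ae_iff]
    simp only [not_not]
    exact h1
  have h4 : ∀ᵐ z ∂μ, ¬ (0 < -z.re ∧ -1 + 2 * (1 / 20) < -z.im) := by
    rw [ae_iff]
    simp only [not_not]
    have : negSet {z : ℂ | 0 < z.re ∧ -1 + 2 * (1 / 20) < z.im} =
        {z : ℂ | 0 < -z.re ∧ -1 + 2 * (1 / 20) < -z.im} := by
      ext z
      rw [mem_negSet]
      simp
    rwa [this] at h2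
  refine ⟨D, μ, hM, hB, hD, hμ, by linarith, hε₁, hε₂, c1, c2, hrect, ?_, ?_⟩
  · filter_upwards [h3] with z hz h0
    by_contra hcon
    exact hz ⟨h0, by linarith⟩
  · filter_upwards [h4] with z hz h0
    by_contra hcon
    exact hz ⟨by linarith, by linarith⟩

section

variable {k₁ k₂ ε₁ ε₂ D : ℝ} {Γ : Set ℂ} {μ : Measure ℂ}

theorem Setup.small (h : Setup k₁ k₂ ε₁ ε₂ Γ D μ) :
    ∀ᵐ z ∂μ, |z.re| ≤ 1 / 200 ∧ |z.im| ≤ 1 ∧ (|z.im| < 9 / 10 → z.re = 0) := by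
  filter_upwards [h.rect, h.right, h.left] with z h1 h2 h3
  have a1 := h.small₁
  have a2 := h.small₂
  refine ⟨abs_le.2 ⟨by linarith [h1.1.1], by linarith [h1.1.2]⟩,
    abs_le.2 ⟨h1.2.1, h1.2.2⟩, fun h4 => ?_⟩
  rw [abs_lt] at h4
  rcases lt_trichotomy z.re 0 with h5 | h5 | h5
  · have := h3 h5
    linarith
  · exact h5
  · have := h2 h5
    linarith

theorem Setup.support_subset (h : Setup k₁ k₂ ε₁ ε₂ Γ D μ) : μ.support ⊆ Γ := by
  apply Measure.support_subset_of_isClosed h.maxMin.joining.isCompact.isClosed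
  rw [mem_ae_iff]
  exact h.minim.mem.compl

/-- The middle part carries mass. -/
theorem Setup.mid (h : Setup k₁ k₂ ε₁ ε₂ Γ D μ) (hk₁ : 0 < k₁) (hk₂ : 0 < k₂) :
    ¬ ∀ᵐ z ∂μ, 8 / 10 < |z.im| := by
  intro hmid
  have hlow := ener_ge_of_split h.box h.minim.mem h.minim.fin (by
    filter_upwards [h.small, hmid] with z h1 h2
    exact ⟨h1.1, h1.2.1, h2⟩)
  have hup := frost_le_of_far h.maxMin.joining h.box h.two_le h.minim hk₁.le hk₂.le hmid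
  have hphi := h.phi_small
  unfold frost at hup
  have hnum : 1 / 8 < 2 * Real.log (3 / 4) - (Real.log (21 / 100) + Real.log (201 / 100)) := by
    have h1 := Real.one_sub_inv_le_log_of_pos
      (by norm_num : (0 : ℝ) < (3 / 4) ^ 2 / (21 / 100 * (201 / 100)))
    rw [Real.log_div (by norm_num) (by norm_num), Real.log_pow,
      Real.log_mul (by norm_num) (by norm_num)] at h1
    norm_num at h1 ⊢
    linarith
  linarith

/-- A point of the support in the middle part is on the axis. -/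
theorem Setup.re_eq_zero (h : Setup k₁ k₂ ε₁ ε₂ Γ D μ) {z : ℂ} (hz : z ∈ μ.support)
    (him : |z.im| < 9 / 10) : z.re = 0 := by
  by_contra hne
  have hopen : IsOpen {w : ℂ | |w.im| < 9 / 10 ∧ w.re ≠ 0} := by
    apply IsOpen.inter
    · exact isOpen_lt Complex.continuous_im.abs continuous_const
    · exact isOpen_ne_fun Complex.continuous_re continuous_const
  have h1 := (Measure.mem_support_iff_forall z).1 hz _ (hopen.mem_nhds ⟨him, hne⟩)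
  have h2 : ∀ᵐ w ∂μ, ¬ (|w.im| < 9 / 10 ∧ w.re ≠ 0) := by
    filter_upwards [h.small] with w hw h3
    exact h3.2 (hw.2.2 h3.1)
  rw [ae_iff] at h2
  simp only [not_not] at h2
  exact absurd h2 h1.ne'

/-- The support has infinitely many points in the middle part. -/
theorem Setup.infinite (h : Setup k₁ k₂ ε₁ ε₂ Γ D μ) (hk₁ : 0 < k₁) (hk₂ : 0 < k₂) :
    {y : ℝ | (⟨0, y⟩ : ℂ) ∈ μ.support ∧ |y| ≤ 8 / 10}.Infinite := by
  have hμp := h.minim.mem.isProb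
  intro hfin
  apply h.mid hk₁ hk₂
  have himg := hfin.image (fun y : ℝ => (⟨0, y⟩ : ℂ))
  have hnull : μ ((fun y : ℝ => (⟨0, y⟩ : ℂ)) ''
      {y : ℝ | (⟨0, y⟩ : ℂ) ∈ μ.support ∧ |y| ≤ 8 / 10}) = 0 := by
    have hcount := himg.countable
    rw [← biUnion_of_singleton ((fun y : ℝ => (⟨0, y⟩ : ℂ)) ''
      {y : ℝ | (⟨0, y⟩ : ℂ) ∈ μ.support ∧ |y| ≤ 8 / 10})]
    rw [measure_biUnion_null_iff hcount]
    intro z _
    exact measure_singleton_of_fin h.minim.mem h.minim.fin z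
  have hae : ∀ᵐ w ∂μ, w ∉ (fun y : ℝ => (⟨0, y⟩ : ℂ)) ''
      {y : ℝ | (⟨0, y⟩ : ℂ) ∈ μ.support ∧ |y| ≤ 8 / 10} := by
    rw [ae_iff]
    simp only [not_not]
    exact hnull
  filter_upwards [hae, (Measure.support_mem_ae : μ.support ∈ ae μ)] with w h1 h2
  by_contra h3
  have h4 := h.re_eq_zero h2 (by linarith [not_lt.1 h3])
  apply h1
  have h5 : (⟨0, w.im⟩ : ℂ) = w := by
    apply Complex.ext
    · exact h4.symm
    · rfl
  refine ⟨w.im, ⟨?_, not_lt.1 h3⟩, h5⟩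
  rw [h5]
  exact h2

end

end Pool.Agent.Helper25.SCurve
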