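import Pool.Agent.Helper25.SCurve.VarStep

/-!
# The variational inequality for a max-min continuum
-/

namespace Pool.Agent.Helper25.SCurve

open MeasureTheory Set Filter Topology
open scoped ENNReal NNReal BoundedContinuousFunction

section

variable {D D' k₁ k₂ ε₁ ε₂ : ℝ} {Γ B : Set ℂ} {μ ν : Measure ℂ}

theorem fin_iff (hB : Box D Γ) (hμ : IsProbOn Γ μ) :
    ener D μ μ = ⊤ ↔ energy 0 0 μ = ⊤ := by
  constructor
  · exact energy_top hB hμ
  · intro h
    by_contra hfin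
    rw [energy_real hB hμ hfin] at h
    exact EReal.coe_ne_top _ h

theorem ren_change (hB : Box D Γ) (hB' : Box D' Γ) (hμ : IsProbOn Γ μ) (hfin : ener D μ μ ≠ ⊤) :
    ener D' μ μ ≠ ⊤ ∧ ren D' k₁ k₂ μ - Real.log D' = ren D k₁ k₂ μ - Real.log D := by
  have h1 : ener D' μ μ ≠ ⊤ := by
    intro h
    exact hfin ((fin_iff hB hμ).2 ((fin_iff hB' hμ).1 h))
  refine ⟨h1, ?_⟩
  have h2 := energy_real (k₁ := k₁) (k₂ := k₂) hB hμ hfin
  rw [energy_real hB' hμ h1, EReal.coe_eq_coe_iff] at h2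
  exact h2

theorem IsMinim.change (hB : Box D Γ) (hB' : Box D' Γ) (h : IsMinim D k₁ k₂ Γ μ) :
    IsMinim D' k₁ k₂ Γ μ := by
  obtain ⟨h1, h2⟩ := ren_change (k₁ := k₁) (k₂ := k₂) hB hB' h.mem h.fin
  refine ⟨h.mem, h1, fun ν hν hνfin => ?_⟩
  obtain ⟨h3, h4⟩ := ren_change (k₁ := k₁) (k₂ := k₂) hB' hB hν hνfin
  have := h.le ν hν h3
  linarith

theorem abs_phi_sub_le (k₁ k₂ : ℝ) (z w : ℂ) :
    |phi k₁ k₂ z - phi k₁ k₂ w| ≤ (|k₁| + |k₂|) * ‖z - w‖ := by
  rw [phi_eq, phi_eq]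
  have h1 : |max z.re 0 - max w.re 0| ≤ ‖z - w‖ := by
    refine (abs_max_sub_max_le_abs _ _ _).trans ?_
    have := Complex.abs_re_le_norm (z - w)
    simpa using this
  have h2 : |min z.re 0 - min w.re 0| ≤ ‖z - w‖ := by
    refine (abs_min_sub_min_le_max _ _ _ _).trans ?_
    have := Complex.abs_re_le_norm (z - w)
    simp only [Complex.sub_re] at this
    simp only [sub_self, abs_zero]
    exact max_le this (norm_nonneg _)
  calc |-k₁ * max z.re 0 + k₂ * min z.re 0 - (-k₁ * max w.re 0 + k₂ * min w.re 0)|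
      = |-k₁ * (max z.re 0 - max w.re 0) + k₂ * (min z.re 0 - min w.re 0)| := by ring_nf
    _ ≤ |-k₁ * (max z.re 0 - max w.re 0)| + |k₂ * (min z.re 0 - min w.re 0)| := abs_add_le _ _
    _ = |k₁| * |max z.re 0 - max w.re 0| + |k₂| * |min z.re 0 - min w.re 0| := by
        rw [abs_mul, abs_mul, abs_neg]
    _ ≤ |k₁| * ‖z - w‖ + |k₂| * ‖z - w‖ := by gcongr
    _ = _ := by ring

/-- The scalar product of two complex numbers. -/
def dot (a b : ℂ) : ℝ := a.re * b.re + a.im * b.im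

theorem norm_add_smul_sq (a b : ℂ) (t : ℝ) :
    ‖a + t * b‖ ^ 2 = ‖a‖ ^ 2 + 2 * t * dot a b + t ^ 2 * ‖b‖ ^ 2 := by
  rw [← Complex.normSq_eq_norm_sq, ← Complex.normSq_eq_norm_sq, ← Complex.normSq_eq_norm_sq,
    Complex.normSq_apply, Complex.normSq_apply, Complex.normSq_apply]
  simp only [Complex.add_re, Complex.add_im, Complex.mul_re, Complex.mul_im, Complex.ofReal_re,
    Complex.ofReal_im, dot]
  ring

theorem abs_dot_le (a b : ℂ) : |dot a b| ≤ ‖a‖ * ‖b‖ := by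
  have h1 : dot a b ^ 2 ≤ (‖a‖ * ‖b‖) ^ 2 := by
    rw [mul_pow, ← Complex.normSq_eq_norm_sq, ← Complex.normSq_eq_norm_sq,
      Complex.normSq_apply, Complex.normSq_apply]
    unfold dot
    nlinarith [sq_nonneg (a.re * b.im - a.im * b.re)]
  exact abs_le_of_sq_le_sq h1 (by positivity)

/-- The kernel of the first variation of the logarithmic energy. -/
noncomputable def kerV (h : ℂ → ℂ) (p : ℂ × ℂ) : ℝ :=
  dot (p.1 - p.2) (h p.1 - h p.2) / ‖p.1 - p.2‖ ^ 2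

variable {h : ℂ → ℂ} {L t : ℝ}

theorem abs_kerV_le (hLip : ∀ z w, ‖h z - h w‖ ≤ L * ‖z - w‖) (hL : 0 ≤ L) (p : ℂ × ℂ) :
    |kerV h p| ≤ L := by
  unfold kerV
  rw [abs_div, abs_of_nonneg (a := ‖p.1 - p.2‖ ^ 2) (sq_nonneg _)]
  rcases eq_or_ne p.1 p.2 with h0 | h0
  · rw [h0, sub_self, norm_zero]
    simpa using hL
  · have h1 : 0 < ‖p.1 - p.2‖ := norm_pos_iff.2 (sub_ne_zero.2 h0)
    rw [div_le_iff₀ (by positivity)]
    calc |dot (p.1 - p.2) (h p.1 - h p.2)| ≤ ‖p.1 - p.2‖ * ‖h p.1 - h p.2‖ := abs_dot_le _ _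
      _ ≤ ‖p.1 - p.2‖ * (L * ‖p.1 - p.2‖) := by gcongr; exact hLip _ _
      _ = L * ‖p.1 - p.2‖ ^ 2 := by ring

theorem measurable_kerV (hLip : ∀ z w, ‖h z - h w‖ ≤ L * ‖z - w‖) : Measurable (kerV h) := by
  have := (continuous_of_lip hLip).measurable
  unfold kerV dot
  fun_prop

theorem integrable_kerV (hLip : ∀ z w, ‖h z - h w‖ ≤ L * ‖z - w‖) (hL : 0 ≤ L)
    (ρ : Measure (ℂ × ℂ)) [IsFiniteMeasure ρ] : Integrable (kerV h) ρ :=
  (integrable_const L).mono' (measurable_kerV hLip).aestronglyMeasurable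
    (ae_of_all _ fun p => by
      rw [Real.norm_eq_abs]
      exact abs_kerV_le hLip hL p)

theorem lr_le (hLip : ∀ z w, ‖h z - h w‖ ≤ L * ‖z - w‖) (ht : 0 ≤ t)
    (htL : t * L ≤ 1 / 2) (p : ℂ × ℂ) : lr h t p ≤ t * kerV h p + t ^ 2 * L ^ 2 / 2 := by
  rcases eq_or_ne p.1 p.2 with h0 | h0
  · unfold lr kerV
    rw [h0, sub_self, sub_self, norm_zero, div_zero, Real.log_zero]
    simp
    positivity
  · have h1 : 0 < ‖p.1 - p.2‖ := norm_pos_iff.2 (sub_ne_zero.2 h0)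
    have h2 : 0 < ‖defo h t p.1 - defo h t p.2‖ := by
      have := defo_lower hLip ht p.1 p.2
      have h3 : 0 < (1 - t * L) * ‖p.1 - p.2‖ := mul_pos (by linarith) h1
      linarith
    have h3 : (‖defo h t p.1 - defo h t p.2‖ / ‖p.1 - p.2‖) ^ 2 ≤
        1 + 2 * t * kerV h p + t ^ 2 * L ^ 2 := by
      rw [div_pow, defo_sub, norm_add_smul_sq]
      unfold kerV
      rw [div_le_iff₀ (by positivity)]
      have h4 : ‖h p.1 - h p.2‖ ^ 2 ≤ L ^ 2 * ‖p.1 - p.2‖ ^ 2 := by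
        rw [← mul_pow]
        exact pow_le_pow_left₀ (norm_nonneg _) (hLip _ _) 2
      have h5 : (1 + 2 * t * (dot (p.1 - p.2) (h p.1 - h p.2) / ‖p.1 - p.2‖ ^ 2) +
          t ^ 2 * L ^ 2) * ‖p.1 - p.2‖ ^ 2 = ‖p.1 - p.2‖ ^ 2 +
          2 * t * dot (p.1 - p.2) (h p.1 - h p.2) + t ^ 2 * (L ^ 2 * ‖p.1 - p.2‖ ^ 2) := by
        field_simp
      rw [h5]
      gcongr
    have h4 : 0 < ‖defo h t p.1 - defo h t p.2‖ / ‖p.1 - p.2‖ := by positivity
    have h5 := Real.log_le_sub_one_of_pos (pow_pos h4 2)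
    rw [Real.log_pow] at h5
    unfold lr
    push_cast at h5
    linarith

/-- The truncated kernel. -/
noncomputable def kerD (h : ℂ → ℂ) (δ : ℝ) (p : ℂ × ℂ) : ℝ :=
  kerV h p * min 1 (‖p.1 - p.2‖ / δ)

theorem continuous_kerD (hLip : ∀ z w, ‖h z - h w‖ ≤ L * ‖z - w‖) (hL : 0 ≤ L) {δ : ℝ}
    (hδ : 0 < δ) : Continuous (kerD h δ) := by
  have hc := continuous_of_lip hLip
  rw [continuous_iff_continuousAt]
  intro p
  rcases eq_or_ne p.1 p.2 with h0 | h0
  · have hval : kerD h δ p = 0 := by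
      unfold kerD
      rw [h0, sub_self, norm_zero, zero_div, min_eq_right zero_le_one, mul_zero]
    unfold ContinuousAt
    rw [hval]
    rw [tendsto_zero_iff_abs_tendsto_zero]
    have hlim : Tendsto (fun q : ℂ × ℂ => L * (‖q.1 - q.2‖ / δ)) (𝓝 p) (𝓝 0) := by
      have : Continuous (fun q : ℂ × ℂ => L * (‖q.1 - q.2‖ / δ)) := by fun_prop
      have h2 := this.tendsto p
      rwa [h0, sub_self, norm_zero, zero_div, mul_zero] at h2
    refine squeeze_zero (fun q => abs_nonneg _) (fun q => ?_) hlim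
    simp only [Function.comp_apply]
    unfold kerD
    have hnn : 0 ≤ ‖q.1 - q.2‖ / δ := by positivity
    rw [abs_mul, abs_of_nonneg (le_min zero_le_one hnn)]
    exact mul_le_mul (abs_kerV_le hLip hL q) (min_le_right _ _) (le_min zero_le_one hnn) hL
  · have h1 : ‖p.1 - p.2‖ ^ 2 ≠ 0 := by
      have := norm_pos_iff.2 (sub_ne_zero.2 h0)
      positivity
    unfold kerD kerV dot
    have hden : ContinuousAt (fun q : ℂ × ℂ => ‖q.1 - q.2‖ ^ 2) p := by fun_prop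
    have hnum : ContinuousAt (fun q : ℂ × ℂ => (q.1 - q.2).re * (h q.1 - h q.2).re +
        (q.1 - q.2).im * (h q.1 - h q.2).im) p := by fun_prop
    have hm : ContinuousAt (fun q : ℂ × ℂ => min 1 (‖q.1 - q.2‖ / δ)) p := by fun_prop
    exact (hnum.div hden h1).mul hm

theorem kerD_le (hLip : ∀ z w, ‖h z - h w‖ ≤ L * ‖z - w‖) (hL : 0 ≤ L) {δ : ℝ}
    (hδ : 0 < δ) (p : ℂ × ℂ) : |kerD h δ p| ≤ L := by
  unfold kerD
  have hnn : 0 ≤ ‖p.1 - p.2‖ / δ := by positivity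
  rw [abs_mul, abs_of_nonneg (le_min zero_le_one hnn)]
  calc |kerV h p| * min 1 (‖p.1 - p.2‖ / δ) ≤ L * 1 :=
        mul_le_mul (abs_kerV_le hLip hL p) (min_le_left _ _) (le_min zero_le_one hnn) hL
    _ = L := mul_one _

theorem abs_kerV_sub_kerD (hLip : ∀ z w, ‖h z - h w‖ ≤ L * ‖z - w‖) (hL : 0 ≤ L) {δ : ℝ}
    (hδ : 0 < δ) (p : ℂ × ℂ) :
    |kerV h p - kerD h δ p| ≤ {q : ℂ × ℂ | ‖q.1 - q.2‖ < δ}.indicator (fun _ => L) p := by
  unfold kerD
  by_cases hp : ‖p.1 - p.2‖ < δ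
  · rw [indicator_of_mem (show p ∈ {q : ℂ × ℂ | ‖q.1 - q.2‖ < δ} from hp)]
    have hnn : 0 ≤ ‖p.1 - p.2‖ / δ := by positivity
    have h1 : kerV h p - kerV h p * min 1 (‖p.1 - p.2‖ / δ) =
        kerV h p * (1 - min 1 (‖p.1 - p.2‖ / δ)) := by ring
    rw [h1, abs_mul, abs_of_nonneg (sub_nonneg.2 (min_le_left _ _))]
    calc |kerV h p| * (1 - min 1 (‖p.1 - p.2‖ / δ)) ≤ L * 1 := by
          apply mul_le_mul (abs_kerV_le hLip hL p) _ (sub_nonneg.2 (min_le_left _ _)) hL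
          have := le_min zero_le_one hnn
          linarith
      _ = L := mul_one _
  · rw [indicator_of_notMem (show p ∉ {q : ℂ × ℂ | ‖q.1 - q.2‖ < δ} from hp)]
    have h1 : min 1 (‖p.1 - p.2‖ / δ) = 1 := by
      apply min_eq_left
      rw [one_le_div hδ]
      exact not_lt.1 hp
    rw [h1, mul_one, sub_self, abs_zero]

/-- Markov's inequality for the mass near the diagonal. -/
theorem measure_near_diag (hB : Box D Γ) (hν : IsProbOn Γ ν) (hfin : ener D ν ν ≠ ⊤) {δ : ℝ}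
    (hδ : 0 < δ) (hδD : δ < D) :
    (ν.prod ν).real {q : ℂ × ℂ | ‖q.1 - q.2‖ < δ} ≤ (ener D ν ν).toReal / Real.log (D / δ) := by
  have := hν.isProb
  have hD := hB.pos
  have hlog : 0 < Real.log (D / δ) := Real.log_pos (by rwa [one_lt_div hδ])
  rw [le_div_iff₀ hlog, mul_comm]
  have h1 := mul_meas_ge_le_lintegral₀ (μ := ν.prod ν) (f := fun p : ℂ × ℂ => kap D p.1 p.2)
    (measurable_kap D).aemeasurable (ENNReal.ofReal (Real.log (D / δ)))
  rw [← ener_eq_prod] at h1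
  have h2 : ENNReal.ofReal (Real.log (D / δ)) * (ν.prod ν) {q : ℂ × ℂ | ‖q.1 - q.2‖ < δ} ≤
      ener D ν ν := by
    refine le_trans (mul_le_mul' le_rfl (measure_mono ?_)) h1
    intro q hq
    exact kap_ge_of_le hδ (le_of_lt hq) hD
  have h3 := ENNReal.toReal_mono hfin h2
  rwa [ENNReal.toReal_mul, ENNReal.toReal_ofReal hlog.le] at h3

theorem integral_kerV_sub_kerD (hLip : ∀ z w, ‖h z - h w‖ ≤ L * ‖z - w‖) (hL : 0 ≤ L) {δ : ℝ}
    (hδ : 0 < δ) (ρ : Measure (ℂ × ℂ)) [IsFiniteMeasure ρ] :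
    |∫ p, kerV h p ∂ρ - ∫ p, kerD h δ p ∂ρ| ≤ L * ρ.real {q : ℂ × ℂ | ‖q.1 - q.2‖ < δ} := by
  have hi1 := integrable_kerV hLip hL ρ
  have hi2 : Integrable (kerD h δ) ρ :=
    (integrable_const L).mono' (continuous_kerD hLip hL hδ).measurable.aestronglyMeasurable
      (ae_of_all _ fun p => by
        rw [Real.norm_eq_abs]
        exact kerD_le hLip hL hδ p)
  have hms : MeasurableSet {q : ℂ × ℂ | ‖q.1 - q.2‖ < δ} := by
    apply measurableSet_lt _ measurable_const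
    fun_prop
  rw [← integral_sub hi1 hi2]
  calc |∫ p, (kerV h p - kerD h δ p) ∂ρ| ≤ ∫ p, |kerV h p - kerD h δ p| ∂ρ :=
        abs_integral_le_integral_abs
    _ ≤ ∫ p, {q : ℂ × ℂ | ‖q.1 - q.2‖ < δ}.indicator (fun _ => L) p ∂ρ := by
        apply integral_mono (hi1.sub hi2).abs ((integrable_const L).indicator hms)
        exact fun p => abs_kerV_sub_kerD hLip hL hδ p
    _ = L * ρ.real {q : ℂ × ℂ | ‖q.1 - q.2‖ < δ} := by
        rw [integral_indicator hms, setIntegral_const, smul_eq_mul, mul_comm]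

/-- A minimising sequence converges weakly to the minimiser. -/
theorem tendsto_of_minimising (hΓ : IsCompact Γ) (hB : Box D Γ) (hμ : IsMinim D k₁ k₂ Γ μ)
    {νs : ℕ → ProbabilityMeasure ℂ} (hν : ∀ n, IsProbOn Γ (νs n : Measure ℂ))
    (hfin : ∀ n, ener D (νs n : Measure ℂ) (νs n : Measure ℂ) ≠ ⊤) {s : ℕ → ℝ}
    (hs : Tendsto s atTop (𝓝 0)) (hle : ∀ n, ren D k₁ k₂ (νs n) ≤ ren D k₁ k₂ μ + s n)
    (P : ProbabilityMeasure ℂ) (hP : (P : Measure ℂ) = μ) : Tendsto νs atTop (𝓝 P) := by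
  obtain ⟨M, hM⟩ := exists_bound_phi hB.bdd k₁ k₂
  have hJ : ∀ ν : Measure ℂ, IsProbOn Γ ν → ener D ν ν ≠ ⊤ →
      ∫⁻ p, kerM D k₁ k₂ M p ∂(ν.prod ν) = ENNReal.ofReal (ren D k₁ k₂ ν + 2 * M) := by
    intro ν hν hfin
    rw [lintegral_kerM hB hM hν, ← ENNReal.ofReal_toReal hfin, ← ENNReal.ofReal_add
      ENNReal.toReal_nonneg (two_phi_add_nonneg hB hM hν)]
    congr 1
    unfold ren
    ring
  refine (isCompact_probOn hΓ).le_nhds_of_unique_clusterPt
    (l := Filter.map νs atTop) ?_ ?_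
  · rw [mem_map]
    exact Filter.univ_mem' fun n => (hν n).compl
  · intro x hx hcl
    have hx' : IsProbOn Γ (x : Measure ℂ) := ⟨inferInstance, hx⟩
    -- the energy of the cluster point
    have hEx : ∫⁻ p, kerM D k₁ k₂ M p ∂((x : Measure ℂ).prod x) ≤
        ENNReal.ofReal (ren D k₁ k₂ μ + 2 * M) := by
      by_contra hcon
      push Not at hcon
      obtain ⟨c, hc1, hc2⟩ := exists_between hcon
      have h1 := (lsc_lintegral_prod (kerM D k₁ k₂ M) (continuous_kerM hB.pos M)) x c hc2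
      have h2 : ∀ᶠ n in atTop, ∫⁻ p, kerM D k₁ k₂ M p
          ∂((νs n : Measure ℂ).prod (νs n : Measure ℂ)) < c := by
        have h3 : Tendsto (fun n => ENNReal.ofReal (ren D k₁ k₂ μ + s n + 2 * M)) atTop
            (𝓝 (ENNReal.ofReal (ren D k₁ k₂ μ + 0 + 2 * M))) := by
          apply ENNReal.tendsto_ofReal
          exact (hs.const_add _).add_const _
        rw [add_zero] at h3
        filter_upwards [h3.eventually_lt_const hc1] with n hn
        rw [hJ _ (hν n) (hfin n)]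
        refine lt_of_le_of_lt (ENNReal.ofReal_le_ofReal ?_) hn
        have := hle n
        linarith
      have h4 : ∃ᶠ ρ : ProbabilityMeasure ℂ in Filter.map νs atTop,
          c < ∫⁻ p, kerM D k₁ k₂ M p ∂((ρ : Measure ℂ).prod (ρ : Measure ℂ)) := by
        rw [ClusterPt] at hcl
        rw [Filter.frequently_iff]
        intro U hU
        have h5 := hcl.nonempty_of_mem (Filter.inter_mem_inf h1 hU)
        obtain ⟨ρ, hρ1, hρ2⟩ := h5
        exact ⟨ρ, hρ2, hρ1⟩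
      obtain ⟨n, hn1, hn2⟩ := ((Filter.frequently_map.1 h4).and_eventually h2).exists
      exact absurd hn1 (not_lt.2 hn2.le)
    have hxfin : ener D (x : Measure ℂ) x ≠ ⊤ := by
      rw [lintegral_kerM hB hM hx'] at hEx
      exact (ENNReal.add_ne_top.1 (ne_top_of_le_ne_top ENNReal.ofReal_ne_top hEx)).1
    have hxle : ren D k₁ k₂ (x : Measure ℂ) ≤ ren D k₁ k₂ μ := by
      rw [hJ _ hx' hxfin] at hEx
      have h0 : 0 ≤ ren D k₁ k₂ μ + 2 * M := by
        have := two_phi_add_nonneg hB hM hμ.mem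
        have h1 : 0 ≤ (ener D μ μ).toReal := ENNReal.toReal_nonneg
        unfold ren
        linarith
      have := (ENNReal.ofReal_le_ofReal_iff h0).1 hEx
      linarith
    have heq := hμ.unique hB hx' hxfin hxle
    apply ProbabilityMeasure.toMeasure_injective
    rw [heq, hP]

end

end Pool.Agent.Helper25.SCurve
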