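import Pool.Agent.Helper25.SCurve.DeGiorgi

/-!
# Measures satisfying the variational inequality
-/

namespace Pool.Agent.Helper25.SCurve

open MeasureTheory Set Filter Topology
open scoped ENNReal

/-- A compactly supported probability measure without mass on the diagonal that satisfies the
variational inequality. -/
structure VarMeas (k₁ k₂ ε₁ ε₂ : ℝ) (μ : Measure ℂ) : Prop where
  isProb : IsProbabilityMeasure μ
  bdd : ∃ M : ℝ, ∀ᵐ z ∂μ, ‖z‖ ≤ M
  diag : ∀ᵐ p ∂(μ.prod μ), p.1 ≠ p.2
  var : VarIneq k₁ k₂ ε₁ ε₂ μ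

section

variable {k₁ k₂ ε₁ ε₂ : ℝ} {μ : Measure ℂ}

theorem prod_negM (μ : Measure ℂ) [IsProbabilityMeasure μ] :
    (negM μ).prod (negM μ) = (μ.prod μ).map (fun p : ℂ × ℂ => (-p.1, -p.2)) := by
  unfold negM
  rw [Measure.map_prod_map μ μ measurable_neg measurable_neg]
  rfl

theorem VarIneq.neg [IsProbabilityMeasure μ] (hv : VarIneq k₁ k₂ ε₁ ε₂ μ) :
    VarIneq k₂ k₁ ε₂ ε₁ (negM μ) := by
  intro h L g t₀ hLip hL h1 h2 hg ht₀ hineq
  have hLip' : ∀ z w, ‖-h (-z) - -h (-w)‖ ≤ L * ‖z - w‖ := by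
    intro z w
    have h3 := hLip (-z) (-w)
    rw [neg_sub_neg, norm_sub_rev]
    rwa [neg_sub_neg, norm_sub_rev w z] at h3
  have key := hv (fun z => -h (-z)) L (fun z => g (-z)) t₀ hLip' hL ?_ ?_
    (hg.comp continuous_neg) ht₀ ?_
  · rw [integral_negM, prod_negM]
    have hm : Measurable (fun p : ℂ × ℂ => (-p.1, -p.2)) :=
      (measurable_fst.neg).prodMk (measurable_snd.neg)
    rw [integral_map hm.aemeasurable (measurable_kerV hLip).aestronglyMeasurable]
    refine key.trans (le_of_eq ?_)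
    apply integral_congr_ae
    filter_upwards with p
    unfold kerV dot
    simp only [neg_sub_neg, Complex.sub_re, Complex.sub_im]
    rw [norm_sub_rev p.2 p.1]
    congr 1
    ring
  · rw [show -(-(ε₁ : ℂ) + Complex.I) = (ε₁ : ℂ) - Complex.I by ring, h2, neg_zero]
  · rw [show -((ε₂ : ℂ) - Complex.I) = -(ε₂ : ℂ) + Complex.I by ring, h1, neg_zero]
  · intro t ht ht' z
    have h3 := hineq t ht ht' (-z)
    have h4 : defo h t (-z) = -defo (fun z => -h (-z)) t z := by
      unfold defo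
      ring
    rwa [h4, phi_neg, phi_neg] at h3

theorem VarMeas.neg (hv : VarMeas k₁ k₂ ε₁ ε₂ μ) : VarMeas k₂ k₁ ε₂ ε₁ (negM μ) := by
  have hp := hv.isProb
  refine ⟨?_, ?_, ?_, hv.var.neg⟩
  · exact Measure.isProbabilityMeasure_map measurable_neg.aemeasurable
  · obtain ⟨M, hM⟩ := hv.bdd
    refine ⟨M, ?_⟩
    unfold negM
    rw [ae_map_iff measurable_neg.aemeasurable (measurableSet_le (by fun_prop) measurable_const)]
    filter_upwards [hM] with z hz
    rwa [norm_neg]
  · rw [prod_negM]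
    have hm : Measurable (fun p : ℂ × ℂ => (-p.1, -p.2)) :=
      (measurable_fst.neg).prodMk (measurable_snd.neg)
    have hms : MeasurableSet {p : ℂ × ℂ | p.1 ≠ p.2} :=
      (measurableSet_eq_fun measurable_fst measurable_snd).compl
    rw [ae_map_iff hm.aemeasurable hms]
    filter_upwards [hv.diag] with p hp h
    exact hp (neg_injective h)

/-- No mass to the right of `z₂`. -/
theorem VarMeas.right_ae (hv : VarMeas k₁ k₂ ε₁ ε₂ μ)
    (hk₁ : 0 < k₁) (hε₁ : 0 < ε₁) (hε₂ : 0 < ε₂) : ∀ᵐ z ∂μ, z.re ≤ ε₂ := by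
  have := hv.isProb
  have hLip : ∀ z w : ℂ, ‖((-(max (z.re - ε₂) 0) : ℝ) : ℂ) - ((-(max (w.re - ε₂) 0) : ℝ) : ℂ)‖ ≤
      1 * ‖z - w‖ := by
    intro z w
    rw [← Complex.ofReal_sub, Complex.norm_real, Real.norm_eq_abs, one_mul]
    have h1 : |-(max (z.re - ε₂) 0) - -(max (w.re - ε₂) 0)| ≤ |(z.re - ε₂) - (w.re - ε₂)| := by
      rw [show -(max (z.re - ε₂) 0) - -(max (w.re - ε₂) 0) =
        -(max (z.re - ε₂) 0 - max (w.re - ε₂) 0) by ring, abs_neg]
      exact abs_max_sub_max_le_abs _ _ _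
    refine h1.trans ?_
    have := Complex.abs_re_le_norm (z - w)
    rwa [Complex.sub_re, show z.re - w.re = (z.re - ε₂) - (w.re - ε₂) by ring] at this
  have h1 := hv.var (fun z => ((-(max (z.re - ε₂) 0) : ℝ) : ℂ)) 1
    (fun z => k₁ * max (z.re - ε₂) 0) 1 hLip (by norm_num) ?_ ?_
    (by fun_prop) one_pos ?_
  · have h2 : ∫ p, kerV (fun z => ((-(max (z.re - ε₂) 0) : ℝ) : ℂ)) p ∂(μ.prod μ) ≤ 0 := by
      apply integral_nonpos
      apply kerV_nonpos
      intro z w
      unfold dot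
      simp only [Complex.sub_re, Complex.sub_im, Complex.ofReal_re, Complex.ofReal_im, sub_self,
        mul_zero, add_zero]
      rcases le_total z.re w.re with h | h
      · have : max (z.re - ε₂) 0 ≤ max (w.re - ε₂) 0 := max_le_max (by linarith) le_rfl
        nlinarith
      · have : max (w.re - ε₂) 0 ≤ max (z.re - ε₂) 0 := max_le_max (by linarith) le_rfl
        nlinarith
    have h3 : ∫ z, k₁ * max (z.re - ε₂) 0 ∂μ ≤ 0 := by linarith
    have hnn : 0 ≤ᵐ[μ] fun z => k₁ * max (z.re - ε₂) 0 :=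
      ae_of_all _ fun z => mul_nonneg hk₁.le (le_max_right _ _)
    have hint : Integrable (fun z : ℂ => k₁ * max (z.re - ε₂) 0) μ := by
      obtain ⟨M, hMb⟩ := hv.bdd
      refine (integrable_const (k₁ * (M + ε₂))).mono'
        (by fun_prop : Measurable fun z : ℂ => k₁ * max (z.re - ε₂) 0).aestronglyMeasurable ?_
      filter_upwards [hMb] with z hz
      rw [Real.norm_of_nonneg (mul_nonneg hk₁.le (le_max_right _ _))]
      have h5 := Complex.abs_re_le_norm z
      have h6 := le_abs_self z.re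
      have h7 := norm_nonneg z
      apply mul_le_mul_of_nonneg_left _ hk₁.le
      exact max_le (by linarith) (by linarith)
    have h4 := (integral_eq_zero_iff_of_nonneg_ae hnn hint).1
      (le_antisymm h3 (integral_nonneg_of_ae hnn))
    filter_upwards [h4] with z hz
    by_contra hlt
    simp only [Pi.zero_apply] at hz
    have : 0 < k₁ * max (z.re - ε₂) 0 := mul_pos hk₁ (lt_max_of_lt_left (by linarith))
    linarith
  · simp only [Complex.add_re, Complex.neg_re, Complex.ofReal_re, Complex.I_re, add_zero]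
    rw [max_eq_right (by linarith)]
    simp
  · simp only [Complex.sub_re, Complex.ofReal_re, Complex.I_re, sub_zero, sub_self, max_self]
    simp
  · intro t ht0 ht1 z
    unfold defo
    rw [phi_eq, phi_eq]
    simp only [Complex.add_re, Complex.mul_re, Complex.ofReal_re, Complex.ofReal_im, zero_mul,
      sub_zero]
    rcases le_total z.re ε₂ with h | h
    · rw [max_eq_right (show z.re - ε₂ ≤ 0 by linarith)]
      simp
    · rw [max_eq_left (show (0 : ℝ) ≤ z.re - ε₂ by linarith)]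
      have h5 : 0 ≤ z.re + t * -(z.re - ε₂) := by nlinarith
      rw [max_eq_left h5, min_eq_right h5, max_eq_left (by linarith : 0 ≤ z.re),
        min_eq_right (by linarith : 0 ≤ z.re)]
      linarith

theorem ae_of_negM {p : ℂ → Prop} (hp : MeasurableSet {z | p z}) (h : ∀ᵐ z ∂(negM μ), p z) :
    ∀ᵐ z ∂μ, p (-z) := by
  unfold negM at h
  rwa [ae_map_iff measurable_neg.aemeasurable hp] at h

/-- Almost all points have abscissa in `[-ε₁, ε₂]`. -/
theorem VarMeas.re_ae (hv : VarMeas k₁ k₂ ε₁ ε₂ μ)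
    (hk₁ : 0 < k₁) (hk₂ : 0 < k₂) (hε₁ : 0 < ε₁) (hε₂ : 0 < ε₂) :
    ∀ᵐ z ∂μ, -ε₁ ≤ z.re ∧ z.re ≤ ε₂ := by
  have h1 := hv.right_ae hk₁ hε₁ hε₂
  have h2 := ae_of_negM (measurableSet_le Complex.measurable_re measurable_const)
    (hv.neg.right_ae hk₂ hε₂ hε₁)
  filter_upwards [h1, h2] with z a b
  rw [Complex.neg_re] at b
  exact ⟨by linarith, a⟩

/-- The clamp to `[-1, 1]`. -/
noncomputable def cl (x : ℝ) : ℝ := max (-1) (min x 1)

theorem abs_cl_sub_le (x y : ℝ) : |cl x - cl y| ≤ |x - y| := by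
  unfold cl
  refine (abs_max_sub_max_le_max _ _ _ _).trans ?_
  rw [sub_self, abs_zero, max_eq_right (abs_nonneg _)]
  refine (abs_min_sub_min_le_max _ _ _ _).trans ?_
  rw [sub_self, abs_zero, max_eq_left (abs_nonneg _)]

theorem cl_of_abs_le {x : ℝ} (h : |x| ≤ 1) : cl x = x := by
  rw [abs_le] at h
  unfold cl
  rw [min_eq_left h.2, max_eq_right h.1]

theorem abs_cl_le (x : ℝ) : |cl x| ≤ 1 := by
  unfold cl
  rw [abs_le]
  exact ⟨le_max_left _ _, max_le (by norm_num) (min_le_right _ _)⟩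

theorem continuous_cl : Continuous cl := by
  unfold cl
  fun_prop

/-- The test field `-(cl (x - a) + i cl (y - b)) χ(y)`. -/
noncomputable def contr (a b : ℝ) (χ : ℝ → ℝ) (z : ℂ) : ℂ :=
  ((-(cl (z.re - a) * χ z.im) : ℝ) : ℂ) + ((-(cl (z.im - b) * χ z.im) : ℝ) : ℂ) * Complex.I

theorem contr_re (a b : ℝ) (χ : ℝ → ℝ) (z : ℂ) :
    (contr a b χ z).re = -(cl (z.re - a) * χ z.im) := by
  simp [contr]

theorem contr_im (a b : ℝ) (χ : ℝ → ℝ) (z : ℂ) :
    (contr a b χ z).im = -(cl (z.im - b) * χ z.im) := by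
  simp [contr]

theorem lip_contr {a b Λ : ℝ} {χ : ℝ → ℝ} (h0 : ∀ y, 0 ≤ χ y) (h1 : ∀ y, χ y ≤ 1)
    (hχ : ∀ y y', |χ y - χ y'| ≤ Λ * |y - y'|) (z w : ℂ) :
    ‖contr a b χ z - contr a b χ w‖ ≤ 2 * (1 + Λ) * ‖z - w‖ := by
  have hΛ := lip_nonneg hχ
  have key : ∀ u u' y y' : ℝ, |u - u'| ≤ ‖z - w‖ → |y - y'| ≤ ‖z - w‖ →
      |cl u * χ y - cl u' * χ y'| ≤ (1 + Λ) * ‖z - w‖ := by
    intro u u' y y' hu hy
    have e : cl u * χ y - cl u' * χ y' = (cl u - cl u') * χ y + cl u' * (χ y - χ y') := by ring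
    rw [e]
    refine (abs_add_le _ _).trans ?_
    rw [abs_mul, abs_mul, abs_of_nonneg (h0 y)]
    have e1 : |cl u - cl u'| * χ y ≤ ‖z - w‖ * 1 :=
      mul_le_mul ((abs_cl_sub_le _ _).trans hu) (h1 y) (h0 y) (norm_nonneg _)
    have e2 : |cl u'| * |χ y - χ y'| ≤ 1 * (Λ * ‖z - w‖) :=
      mul_le_mul (abs_cl_le _) ((hχ _ _).trans (mul_le_mul_of_nonneg_left hy hΛ))
        (abs_nonneg _) (by norm_num)
    linarith
  have hre := Complex.abs_re_le_norm (z - w)
  have him := Complex.abs_im_le_norm (z - w)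
  rw [Complex.sub_re] at hre
  rw [Complex.sub_im] at him
  refine (Complex.norm_le_abs_re_add_abs_im _).trans ?_
  rw [Complex.sub_re, Complex.sub_im, contr_re, contr_re, contr_im, contr_im, neg_sub_neg,
    neg_sub_neg]
  have e1 := key (w.re - a) (z.re - a) w.im z.im
    (by rw [abs_sub_comm]; simpa using hre) (by rw [abs_sub_comm]; exact him)
  have e2 := key (w.im - b) (z.im - b) w.im z.im
    (by rw [abs_sub_comm]; simpa using him) (by rw [abs_sub_comm]; exact him)
  linarith

/-- No mass above the line `Im z = 1`. -/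
theorem VarMeas.top_ae (hv : VarMeas k₁ k₂ ε₁ ε₂ μ)
    (hk₁ : 0 < k₁) (hk₂ : 0 < k₂) (hre : ∀ᵐ z ∂μ, |z.re| ≤ 1) : ∀ᵐ z ∂μ, z.im ≤ 1 := by
  have hprob := hv.isProb
  have hLip : ∀ z w : ℂ, ‖((-(max (z.im - 1) 0) : ℝ) : ℂ) * Complex.I -
      ((-(max (w.im - 1) 0) : ℝ) : ℂ) * Complex.I‖ ≤ 1 * ‖z - w‖ := by
    intro z w
    rw [← sub_mul, ← Complex.ofReal_sub, norm_mul, Complex.norm_I, mul_one, Complex.norm_real,
      Real.norm_eq_abs, one_mul]
    have h1 : |-(max (z.im - 1) 0) - -(max (w.im - 1) 0)| ≤ |(z.im - 1) - (w.im - 1)| := by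
      rw [show -(max (z.im - 1) 0) - -(max (w.im - 1) 0) =
        -(max (z.im - 1) 0 - max (w.im - 1) 0) by ring, abs_neg]
      exact abs_max_sub_max_le_abs _ _ _
    refine h1.trans ?_
    have := Complex.abs_im_le_norm (z - w)
    rwa [Complex.sub_im, show z.im - w.im = (z.im - 1) - (w.im - 1) by ring] at this
  have hdot : ∀ z w : ℂ, dot (z - w) (((-(max (z.im - 1) 0) : ℝ) : ℂ) * Complex.I -
      ((-(max (w.im - 1) 0) : ℝ) : ℂ) * Complex.I) =
      -((z.im - w.im) * (max (z.im - 1) 0 - max (w.im - 1) 0)) := by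
    intro z w
    unfold dot
    simp
    ring
  have hmono : ∀ z w : ℂ, 0 ≤ (z.im - w.im) * (max (z.im - 1) 0 - max (w.im - 1) 0) := by
    intro z w
    rcases le_total z.im w.im with h | h
    · have : max (z.im - 1) 0 ≤ max (w.im - 1) 0 := max_le_max (by linarith) le_rfl
      nlinarith
    · have : max (w.im - 1) 0 ≤ max (z.im - 1) 0 := max_le_max (by linarith) le_rfl
      nlinarith
  have h1 := hv.var (fun z => ((-(max (z.im - 1) 0) : ℝ) : ℂ) * Complex.I) 1
    (fun _ => 0) 1 hLip (by norm_num) ?_ ?_ continuous_const one_pos ?_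
  · -- the kernel vanishes almost everywhere
    have hle : ∀ p, kerV (fun z => ((-(max (z.im - 1) 0) : ℝ) : ℂ) * Complex.I) p ≤ 0 := by
      apply kerV_nonpos
      intro z w
      rw [hdot]
      linarith [hmono z w]
    have hi := integrable_kerV hLip (by norm_num) (μ.prod μ)
    have h2 : ∀ᵐ p ∂(μ.prod μ),
        -kerV (fun z => ((-(max (z.im - 1) 0) : ℝ) : ℂ) * Complex.I) p = 0 := by
      have h3 : 0 ≤ᵐ[μ.prod μ]
          fun p => -kerV (fun z => ((-(max (z.im - 1) 0) : ℝ) : ℂ) * Complex.I) p :=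
        ae_of_all _ fun p => by
          have := hle p
          simp only [Pi.zero_apply]
          linarith
      have h4 := (integral_eq_zero_iff_of_nonneg_ae h3 hi.neg).1 (by
        apply le_antisymm
        · rw [integral_neg]
          simp only [integral_zero, mul_zero] at h1
          linarith
        · exact integral_nonneg_of_ae h3)
      filter_upwards [h4] with p hp using hp
    have h4 : ∀ᵐ p ∂(μ.prod μ), (p.1.im - p.2.im) *
        (max (p.1.im - 1) 0 - max (p.2.im - 1) 0) = 0 := by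
      filter_upwards [h2, hv.diag] with p hp hne
      have h5 : 0 < ‖p.1 - p.2‖ := norm_pos_iff.2 (sub_ne_zero.2 hne)
      unfold kerV at hp
      rw [hdot, neg_eq_zero, div_eq_zero_iff] at hp
      rcases hp with hp | hp
      · linarith
      · exact absurd hp (by positivity)
    by_contra hpos
    have h5 : ∀ᵐ z ∂μ, ∀ᵐ w ∂μ, (z.im - w.im) * (max (z.im - 1) 0 - max (w.im - 1) 0) = 0 :=
      Measure.ae_ae_of_ae_prod h4
    -- choose a point above the line
    obtain ⟨z, hz1, hz2⟩ : ∃ z : ℂ, 1 < z.im ∧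
        ∀ᵐ w ∂μ, (z.im - w.im) * (max (z.im - 1) 0 - max (w.im - 1) 0) = 0 := by
      by_contra hcon
      apply hpos
      filter_upwards [h5] with z hz
      by_contra hlt
      exact hcon ⟨z, not_le.1 hlt, hz⟩
    have h6 : ∀ᵐ w ∂μ, w.im = z.im := by
      filter_upwards [hz2] with w hw
      rcases mul_eq_zero.1 hw with h7 | h7
      · linarith
      · rw [max_eq_left (by linarith)] at h7
        rcases le_total w.im 1 with h8 | h8
        · rw [max_eq_right (by linarith)] at h7
          linarith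
        · rw [max_eq_left (by linarith)] at h7
          linarith
    -- contraction towards the axis at the height `z.im`
    set y₀ := z.im with hy₀
    have hcl := lip_contr (a := 0) (b := y₀) (χ := cut 1 y₀) (cut_nonneg 1 y₀)
      (cut_le_one 1 y₀) (abs_cut_sub_le hz1)
    have hΛ : 0 ≤ 1 / (y₀ - 1) := by
      have : 0 < y₀ - 1 := by linarith
      positivity
    have h7 := hv.var (contr 0 y₀ (cut 1 y₀)) (2 * (1 + 1 / (y₀ - 1))) (fun _ => 0) 1 hcl
      (by positivity) ?_ ?_ continuous_const one_pos ?_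
    · have h8 : ∫ p, kerV (contr 0 y₀ (cut 1 y₀)) p ∂(μ.prod μ) ≤ ∫ _p, (-1 : ℝ) ∂(μ.prod μ) := by
        apply integral_mono_ae (integrable_kerV hcl (by positivity) _) (integrable_const _)
        have a1 := (Measure.quasiMeasurePreserving_fst (μ := μ) (ν := μ)).ae h6
        have a2 := (Measure.quasiMeasurePreserving_snd (μ := μ) (ν := μ)).ae h6
        have a3 := (Measure.quasiMeasurePreserving_fst (μ := μ) (ν := μ)).ae hre
        have a4 := (Measure.quasiMeasurePreserving_snd (μ := μ) (ν := μ)).ae hre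
        filter_upwards [a1, a2, a3, a4, hv.diag] with p b1 b2 b3 b4 b5
        have b6 : 0 < ‖p.1 - p.2‖ := norm_pos_iff.2 (sub_ne_zero.2 b5)
        have hcut : cut 1 y₀ y₀ = 1 := cut_of_ge hz1 le_rfl
        have e1 : (contr 0 y₀ (cut 1 y₀) p.1).re = -p.1.re := by
          rw [contr_re, b1, hcut, sub_zero, cl_of_abs_le b3, mul_one]
        have e2 : (contr 0 y₀ (cut 1 y₀) p.2).re = -p.2.re := by
          rw [contr_re, b2, hcut, sub_zero, cl_of_abs_le b4, mul_one]
        unfold kerV dot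
        rw [div_le_iff₀ (by positivity), norm_sub_sq, Complex.sub_re, Complex.sub_re,
          Complex.sub_im, e1, e2, b1, b2]
        apply le_of_eq
        ring
      simp only [integral_zero, mul_zero, integral_const, probReal_univ, smul_eq_mul,
        one_mul] at h7 h8
      linarith
    · unfold contr
      simp only [Complex.add_im, Complex.neg_im, Complex.ofReal_im, Complex.I_im, neg_zero,
        zero_add]
      rw [cut_of_le hz1 le_rfl]
      simp
    · unfold contr
      simp only [Complex.sub_im, Complex.ofReal_im, Complex.I_im, zero_sub]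
      rw [cut_of_le hz1 (by norm_num)]
      simp
    · intro t ht ht1 w
      rw [mul_zero, sub_nonneg, phi_eq, phi_eq]
      unfold defo
      simp only [Complex.add_re, Complex.mul_re, Complex.ofReal_re, Complex.ofReal_im, zero_mul,
        sub_zero, contr_re]
      have hc0 := cut_nonneg 1 y₀ w.im
      have hc1 := cut_le_one 1 y₀ w.im
      have hs0 : 0 ≤ t * cut 1 y₀ w.im := by positivity
      have hs1 : t * cut 1 y₀ w.im ≤ 1 := by nlinarith
      rcases le_total 0 w.re with h9 | h9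
      · have hcl0 : 0 ≤ cl w.re := by
          unfold cl
          exact le_max_of_le_right (le_min h9 (by norm_num))
        have hcl1 : cl w.re ≤ w.re := by
          unfold cl
          exact max_le (by linarith) (min_le_left _ _)
        have e0 : 0 ≤ w.re + t * -(cl w.re * cut 1 y₀ w.im) := by nlinarith
        rw [max_eq_left h9, min_eq_right h9, max_eq_left e0, min_eq_right e0]
        have : 0 ≤ k₁ * (t * (cl w.re * cut 1 y₀ w.im)) := by positivity
        linarith
      · have hcl0 : cl w.re ≤ 0 := by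
          unfold cl
          exact max_le (by norm_num) (le_trans (min_le_left _ _) h9)
        have hcl1 : w.re ≤ cl w.re := by
          unfold cl
          rw [min_eq_left (by linarith)]
          exact le_max_right _ _
        have e0 : w.re + t * -(cl w.re * cut 1 y₀ w.im) ≤ 0 := by nlinarith
        rw [max_eq_right h9, min_eq_left h9, max_eq_right e0, min_eq_left e0]
        have : 0 ≤ k₂ * (t * (-cl w.re * cut 1 y₀ w.im)) := by
          have : 0 ≤ -cl w.re := by linarith
          positivity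
        linarith
  · simp
  · simp
  · intro t _ _ z
    have : phi k₁ k₂ (defo (fun z => ((-(max (z.im - 1) 0) : ℝ) : ℂ) * Complex.I) t z) =
        phi k₁ k₂ z := by
      unfold defo phi
      have : (z + (t : ℂ) * (((-(max (z.im - 1) 0) : ℝ) : ℂ) * Complex.I)).re = z.re := by simp
      rw [this]
    rw [this]
    simp

/-- The measure lives in the rectangle spanned by `z₁` and `z₂`. -/
theorem VarMeas.rect_ae (hv : VarMeas k₁ k₂ ε₁ ε₂ μ)
    (hk₁ : 0 < k₁) (hk₂ : 0 < k₂) (hε₁ : 0 < ε₁) (hε₂ : 0 < ε₂) (h1 : ε₁ ≤ 1) (h2 : ε₂ ≤ 1) :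
    ∀ᵐ z ∂μ, (-ε₁ ≤ z.re ∧ z.re ≤ ε₂) ∧ (-1 ≤ z.im ∧ z.im ≤ 1) := by
  have hre := hv.re_ae hk₁ hk₂ hε₁ hε₂
  have hre' := hv.neg.re_ae hk₂ hk₁ hε₂ hε₁
  have h3 := hv.top_ae hk₁ hk₂ (by
    filter_upwards [hre] with z hz
    rw [abs_le]
    constructor <;> linarith [hz.1, hz.2])
  have h4 := hv.neg.top_ae hk₂ hk₁ (by
    filter_upwards [hre'] with z hz
    rw [abs_le]
    constructor <;> linarith [hz.1, hz.2])
  have h5 := ae_of_negM (measurableSet_le Complex.measurable_im measurable_const) h4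
  filter_upwards [hre, h3, h5] with z a b c
  rw [Complex.neg_im] at c
  exact ⟨a, by linarith, b⟩

end

end Pool.Agent.Helper25.SCurve
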