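import Pool.Agent.Helper25.SCurve.MaxMinDefs
import Pool.Agent.Helper25.SCurve.Sel

/-!
# Deformations of a max-min continuum
-/

namespace Pool.Agent.Helper25.SCurve

open MeasureTheory Set Filter Topology
open scoped ENNReal NNReal

section

variable {D k₁ k₂ ε₁ ε₂ : ℝ} {Γ B : Set ℂ} {μ ν : Measure ℂ}

theorem eqEnergy_eq (hB : Box D Γ) (h : IsMinim D k₁ k₂ Γ μ) :
    eqEnergy k₁ k₂ Γ = ((ren D k₁ k₂ μ - Real.log D : ℝ) : EReal) := by
  rw [← energy_real hB h.mem h.fin]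
  apply le_antisymm
  · exact iInf₂_le μ h.mem
  · exact le_iInf₂ fun ν hν => h.energy_le hB hν

theorem exists_isMinim_joining (hJ : IsJoining ε₁ ε₂ Γ) (hB : Box D Γ) (hD : 2 ≤ D) (k₁ k₂ : ℝ) :
    ∃ μ, IsMinim D k₁ k₂ Γ μ := by
  apply exists_isMinim hJ.isCompact hB
  refine ⟨sel Γ (-1) 1, isProbOn_sel hJ.isCompact (by norm_num) hJ.exists_im, ?_⟩
  exact ne_top_of_le_ne_top ENNReal.ofReal_ne_top
    (ener_sel_le hJ.isCompact (by norm_num) (by linarith))

theorem ren_le_of_maxMin (hM : IsMaxMin k₁ k₂ ε₁ ε₂ Γ) {Γ' : Set ℂ} (hJ' : IsJoining ε₁ ε₂ Γ')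
    (hB : Box D Γ) (hB' : Box D Γ') (h : IsMinim D k₁ k₂ Γ μ) (h' : IsMinim D k₁ k₂ Γ' ν) :
    ren D k₁ k₂ ν ≤ ren D k₁ k₂ μ := by
  have h1 := hM.le Γ' hJ'
  rw [eqEnergy_eq hB h, eqEnergy_eq hB' h', EReal.coe_le_coe_iff] at h1
  linarith

/-- The deformation `z ↦ z + t h(z)`. -/
noncomputable def defo (h : ℂ → ℂ) (t : ℝ) (z : ℂ) : ℂ := z + t * h z

variable {h : ℂ → ℂ} {L t : ℝ}

theorem defo_sub (h : ℂ → ℂ) (t : ℝ) (z w : ℂ) :
    defo h t z - defo h t w = (z - w) + t * (h z - h w) := by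
  unfold defo
  ring

theorem defo_lower (hLip : ∀ z w, ‖h z - h w‖ ≤ L * ‖z - w‖) (ht : 0 ≤ t) (z w : ℂ) :
    (1 - t * L) * ‖z - w‖ ≤ ‖defo h t z - defo h t w‖ := by
  rw [defo_sub]
  have h1 := norm_sub_norm_le (z - w) (-(t * (h z - h w)))
  rw [sub_neg_eq_add, norm_neg, norm_mul, Complex.norm_real, Real.norm_of_nonneg ht] at h1
  have h2 := hLip z w
  nlinarith [mul_le_mul_of_nonneg_left h2 ht]

theorem defo_upper (hLip : ∀ z w, ‖h z - h w‖ ≤ L * ‖z - w‖) (ht : 0 ≤ t) (z w : ℂ) :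
    ‖defo h t z - defo h t w‖ ≤ (1 + t * L) * ‖z - w‖ := by
  rw [defo_sub]
  have h1 := norm_add_le (z - w) (t * (h z - h w))
  rw [norm_mul, Complex.norm_real, Real.norm_of_nonneg ht] at h1
  have h2 := hLip z w
  nlinarith [mul_le_mul_of_nonneg_left h2 ht]

theorem continuous_of_lip (hLip : ∀ z w, ‖h z - h w‖ ≤ L * ‖z - w‖) : Continuous h := by
  have : LipschitzWith (Real.toNNReal L) h := by
    apply LipschitzWith.of_dist_le_mul
    intro z w
    rw [dist_eq_norm, dist_eq_norm]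
    exact (hLip z w).trans (mul_le_mul_of_nonneg_right (Real.le_coe_toNNReal L) (norm_nonneg _))
  exact this.continuous

theorem continuous_defo (hLip : ∀ z w, ‖h z - h w‖ ≤ L * ‖z - w‖) (t : ℝ) :
    Continuous (defo h t) := by
  have := continuous_of_lip hLip
  unfold defo
  fun_prop

theorem injective_defo (hLip : ∀ z w, ‖h z - h w‖ ≤ L * ‖z - w‖) (ht : 0 ≤ t)
    (htL : t * L ≤ 1 / 2) : Function.Injective (defo h t) := by
  intro z w hzw
  have h1 := defo_lower hLip ht z w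
  rw [hzw, sub_self, norm_zero] at h1
  have h2 : ‖z - w‖ = 0 := by
    apply le_antisymm _ (norm_nonneg _)
    nlinarith [norm_nonneg (z - w)]
  exact sub_eq_zero.1 (norm_eq_zero.1 h2)

theorem isJoining_image (hJ : IsJoining ε₁ ε₂ Γ) (hLip : ∀ z w, ‖h z - h w‖ ≤ L * ‖z - w‖) (t : ℝ)
    (h1 : h (-(ε₁ : ℂ) + Complex.I) = 0) (h2 : h ((ε₂ : ℂ) - Complex.I) = 0) :
    IsJoining ε₁ ε₂ (defo h t '' Γ) where
  isCompact := hJ.isCompact.image (continuous_defo hLip t)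
  isConnected := hJ.isConnected.image _ (continuous_defo hLip t).continuousOn
  left_mem := ⟨_, hJ.left_mem, by unfold defo; rw [h1]; ring⟩
  right_mem := ⟨_, hJ.right_mem, by unfold defo; rw [h2]; ring⟩

/-- The pullback of a measure on the deformed continuum. -/
theorem exists_pullback (hLip : ∀ z w, ‖h z - h w‖ ≤ L * ‖z - w‖) (ht : 0 ≤ t)
    (htL : t * L ≤ 1 / 2) {ρ : Measure ℂ} (hρ : IsProbOn (defo h t '' Γ) ρ) :
    ∃ ν, IsProbOn Γ ν ∧ ρ = ν.map (defo h t) := by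
  have hinj := injective_defo hLip ht htL
  have hemb : MeasurableEmbedding (defo h t) := (continuous_defo hLip t).measurableEmbedding hinj
  have := hρ.isProb
  have hrange : ρ.restrict (range (defo h t)) = ρ := by
    apply Measure.restrict_eq_self_of_ae_mem
    have : ∀ᵐ z ∂ρ, z ∈ defo h t '' Γ := by
      rw [ae_iff]; exact hρ.compl
    filter_upwards [this] with z hz using image_subset_range _ _ hz
  have hmap : (ρ.comap (defo h t)).map (defo h t) = ρ := by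
    rw [hemb.map_comap, hrange]
  refine ⟨ρ.comap (defo h t), ⟨⟨?_⟩, ?_⟩, hmap.symm⟩
  · have h1 : (ρ.comap (defo h t)).map (defo h t) univ = 1 := by rw [hmap, measure_univ]
    rwa [hemb.map_apply, preimage_univ] at h1
  · rw [hemb.comap_apply]
    apply measure_mono_null _ hρ.compl
    rintro _ ⟨z, hz, rfl⟩ ⟨w, hw, hwz⟩
    exact hz (hinj hwz ▸ hw)

/-- The logarithmic distortion of the deformation. -/
noncomputable def lr (h : ℂ → ℂ) (t : ℝ) (p : ℂ × ℂ) : ℝ :=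
  Real.log (‖defo h t p.1 - defo h t p.2‖ / ‖p.1 - p.2‖)

theorem abs_lr_le (hLip : ∀ z w, ‖h z - h w‖ ≤ L * ‖z - w‖) (hL : 0 ≤ L) (ht : 0 ≤ t)
    (htL : t * L ≤ 1 / 2) (p : ℂ × ℂ) : |lr h t p| ≤ 2 * (t * L) := by
  unfold lr
  have htL0 : 0 ≤ t * L := mul_nonneg ht hL
  rcases eq_or_ne p.1 p.2 with h0 | h0
  · rw [h0, sub_self, sub_self, norm_zero, div_zero, Real.log_zero, abs_zero]
    positivity
  · have h1 : 0 < ‖p.1 - p.2‖ := norm_pos_iff.2 (sub_ne_zero.2 h0)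
    have h2 := defo_lower hLip ht p.1 p.2
    have h3 := defo_upper hLip ht p.1 p.2
    have h4 : 1 - t * L ≤ ‖defo h t p.1 - defo h t p.2‖ / ‖p.1 - p.2‖ := by
      rwa [le_div_iff₀ h1]
    have h5 : ‖defo h t p.1 - defo h t p.2‖ / ‖p.1 - p.2‖ ≤ 1 + t * L := by
      rwa [div_le_iff₀ h1]
    have h6 : 0 < 1 - t * L := by linarith
    rw [abs_le]
    constructor
    · have h7 := Real.log_le_log h6 h4
      have h8 := Real.one_sub_inv_le_log_of_pos h6
      have h9 : -(2 * (t * L)) ≤ 1 - (1 - t * L)⁻¹ := by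
        have : (1 - t * L)⁻¹ ≤ 1 + 2 * (t * L) := by
          rw [inv_le_iff_one_le_mul₀ h6]
          nlinarith
        linarith
      linarith
    · have h7 := Real.log_le_log (lt_of_lt_of_le h6 h4) h5
      have h8 := Real.log_le_sub_one_of_pos (show 0 < 1 + t * L by linarith)
      linarith

theorem measurable_lr (hLip : ∀ z w, ‖h z - h w‖ ≤ L * ‖z - w‖) (t : ℝ) :
    Measurable (lr h t) := by
  have := (continuous_defo hLip t).measurable
  unfold lr
  fun_prop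

theorem integrable_lr (hLip : ∀ z w, ‖h z - h w‖ ≤ L * ‖z - w‖) (hL : 0 ≤ L) (ht : 0 ≤ t)
    (htL : t * L ≤ 1 / 2) (ρ : Measure (ℂ × ℂ)) [IsFiniteMeasure ρ] : Integrable (lr h t) ρ :=
  (integrable_const (2 * (t * L))).mono' (measurable_lr hLip t).aestronglyMeasurable
    (ae_of_all _ fun p => by
      rw [Real.norm_eq_abs]
      exact abs_lr_le hLip hL ht htL p)

theorem ener_toReal (hμ : IsProbOn Γ μ) (hfin : ener D μ μ ≠ ⊤) :
    Integrable (fun p : ℂ × ℂ => (kap D p.1 p.2).toReal) (μ.prod μ) ∧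
      (ener D μ μ).toReal = ∫ p : ℂ × ℂ, (kap D p.1 p.2).toReal ∂(μ.prod μ) ∧
      ∀ᵐ p ∂(μ.prod μ), p.1 ≠ p.2 := by
  have := hμ.isProb
  have h1 := hfin
  rw [ener_eq_prod] at h1
  have h2 : ∀ᵐ p ∂(μ.prod μ), kap D p.1 p.2 < ⊤ := ae_lt_top (measurable_kap D) h1
  refine ⟨integrable_toReal_of_lintegral_ne_top (measurable_kap D).aemeasurable h1, ?_, ?_⟩
  · rw [ener_eq_prod, integral_toReal (measurable_kap D).aemeasurable h2]
  · filter_upwards [h2] with p hp h3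
    rw [h3, kap_self] at hp
    exact lt_irrefl _ hp

theorem kap_toReal {z w : ℂ} (hzw : z ≠ w) (hD : ‖z - w‖ ≤ D) :
    (kap D z w).toReal = Real.log (D / ‖z - w‖) := by
  rw [kap_eq_ofReal hzw, ENNReal.toReal_ofReal]
  have h1 : 0 < ‖z - w‖ := norm_pos_iff.2 (sub_ne_zero.2 hzw)
  apply Real.log_nonneg
  rwa [one_le_div h1]

/-- Comparison of the energies of `ν` and of its image. -/
theorem ener_map (hB : Box D B) (hΓB : Γ ⊆ B) (hTB : defo h t '' Γ ⊆ B)
    (hLip : ∀ z w, ‖h z - h w‖ ≤ L * ‖z - w‖) (hL : 0 ≤ L) (ht : 0 ≤ t)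
    (htL : t * L ≤ 1 / 2) (hν : IsProbOn Γ ν)
    (hfin : ener D (ν.map (defo h t)) (ν.map (defo h t)) ≠ ⊤) :
    ener D ν ν ≠ ⊤ ∧ (ener D ν ν).toReal =
      (ener D (ν.map (defo h t)) (ν.map (defo h t))).toReal +
        ∫ p, lr h t p ∂(ν.prod ν) := by
  have := hν.isProb
  have hT := (continuous_defo hLip t).measurable
  have hinj := injective_defo hLip ht htL
  have htL0 : 0 ≤ t * L := mul_nonneg ht hL
  have hD := hB.pos
  have hval : ener D (ν.map (defo h t)) (ν.map (defo h t)) =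
      ∫⁻ p : ℂ × ℂ, kap D (defo h t p.1) (defo h t p.2) ∂(ν.prod ν) := by
    have hpm : IsProbabilityMeasure (ν.map (defo h t)) :=
      Measure.isProbabilityMeasure_map hT.aemeasurable
    rw [ener_eq_prod, Measure.map_prod_map ν ν hT hT]
    rw [lintegral_map (measurable_kap D) (hT.prodMap hT)]
    rfl
  have hmeasT : Measurable (fun p : ℂ × ℂ => kap D (defo h t p.1) (defo h t p.2)) :=
    (measurable_kap D).comp (hT.prodMap hT)
  have hfin1 : ener D ν ν ≠ ⊤ := by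
    have h1 : ener D ν ν ≤ ∫⁻ p : ℂ × ℂ, (kap D (defo h t p.1) (defo h t p.2) +
        ENNReal.ofReal (Real.log (1 + t * L))) ∂(ν.prod ν) := by
      rw [ener_eq_prod]
      apply lintegral_mono_ae
      filter_upwards [hν.prod_ae hν] with p hp
      rcases eq_or_ne p.1 p.2 with h0 | h0
      · rw [h0, kap_self, kap_self, top_add]
      · have h2 : 0 < ‖p.1 - p.2‖ := norm_pos_iff.2 (sub_ne_zero.2 h0)
        have h3 : defo h t p.1 ≠ defo h t p.2 := fun h4 => h0 (hinj h4)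
        have h5 : 0 < ‖defo h t p.1 - defo h t p.2‖ := norm_pos_iff.2 (sub_ne_zero.2 h3)
        have h6 := defo_upper hLip ht p.1 p.2
        have h7 : ‖defo h t p.1 - defo h t p.2‖ ≤ D :=
          hB.dist _ (hTB ⟨_, hp.1, rfl⟩) _ (hTB ⟨_, hp.2, rfl⟩)
        rw [kap_eq_ofReal h0, kap_eq_ofReal h3, ← ENNReal.ofReal_add]
        · apply ENNReal.ofReal_le_ofReal
          rw [← Real.log_mul (by positivity) (by positivity)]
          apply Real.log_le_log (by positivity)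
          rw [div_mul_eq_mul_div, div_le_div_iff₀ h2 h5]
          nlinarith
        · apply Real.log_nonneg
          rwa [one_le_div h5]
        · apply Real.log_nonneg
          linarith
    apply ne_top_of_le_ne_top _ h1
    rw [lintegral_add_left hmeasT, ← hval, lintegral_const, measure_univ, mul_one]
    exact ENNReal.add_ne_top.2 ⟨hfin, ENNReal.ofReal_ne_top⟩
  refine ⟨hfin1, ?_⟩
  obtain ⟨hi1, he1, hne1⟩ := ener_toReal hν hfin1
  have h2 := hfin
  rw [hval] at h2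
  have h3 : ∀ᵐ p ∂(ν.prod ν), kap D (defo h t p.1) (defo h t p.2) < ⊤ := ae_lt_top hmeasT h2
  have hi2 : Integrable (fun p : ℂ × ℂ => (kap D (defo h t p.1) (defo h t p.2)).toReal)
      (ν.prod ν) := integrable_toReal_of_lintegral_ne_top hmeasT.aemeasurable h2
  rw [he1, hval, ← integral_toReal hmeasT.aemeasurable h3,
    ← integral_add hi2 (integrable_lr hLip hL ht htL _)]
  apply integral_congr_ae
  filter_upwards [hne1, hν.prod_ae hν] with p h0 hp
  have h3 : defo h t p.1 ≠ defo h t p.2 := fun h4 => h0 (hinj h4)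
  have h2 : 0 < ‖p.1 - p.2‖ := norm_pos_iff.2 (sub_ne_zero.2 h0)
  have h5 : 0 < ‖defo h t p.1 - defo h t p.2‖ := norm_pos_iff.2 (sub_ne_zero.2 h3)
  have h7 : ‖defo h t p.1 - defo h t p.2‖ ≤ D :=
    hB.dist _ (hTB ⟨_, hp.1, rfl⟩) _ (hTB ⟨_, hp.2, rfl⟩)
  rw [kap_toReal h0 (hB.dist _ (hΓB hp.1) _ (hΓB hp.2)), kap_toReal h3 h7]
  unfold lr
  rw [← Real.log_mul (by positivity) (by positivity)]
  congr 1
  field_simp

/-- The basic inequality obtained from the maximality of `Γ`. -/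
theorem var_step (hM : IsMaxMin k₁ k₂ ε₁ ε₂ Γ) (hμ : IsMinim D k₁ k₂ Γ μ) (hD2 : 2 ≤ D)
    (hB : Box D B) (hΓB : Γ ⊆ B) (hTB : defo h t '' Γ ⊆ B)
    (hLip : ∀ z w, ‖h z - h w‖ ≤ L * ‖z - w‖) (hL : 0 ≤ L) (ht : 0 ≤ t) (htL : t * L ≤ 1 / 2)
    (h1 : h (-(ε₁ : ℂ) + Complex.I) = 0) (h2 : h ((ε₂ : ℂ) - Complex.I) = 0) :
    ∃ ν, IsProbOn Γ ν ∧ ener D ν ν ≠ ⊤ ∧
      ren D k₁ k₂ ν + 2 * ∫ z, (phi k₁ k₂ (defo h t z) - phi k₁ k₂ z) ∂ν ≤
        ren D k₁ k₂ μ + ∫ p, lr h t p ∂(ν.prod ν) := by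
  have hJ' := isJoining_image hM.joining hLip t h1 h2
  have hBΓ := hB.mono hΓB
  have hBT := hB.mono hTB
  obtain ⟨ρ, hρ⟩ := exists_isMinim_joining hJ' hBT hD2 k₁ k₂
  obtain ⟨ν, hν, hρν⟩ := exists_pullback hLip ht htL hρ.mem
  have hle := ren_le_of_maxMin hM hJ' hBΓ hBT hμ hρ
  have hfin := hρ.fin
  rw [hρν] at hfin
  obtain ⟨hfin', he⟩ := ener_map hB hΓB hTB hLip hL ht htL hν hfin
  refine ⟨ν, hν, hfin', ?_⟩
  have := hν.isProb
  have hT := (continuous_defo hLip t).measurable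
  have hphi : ∫ z, phi k₁ k₂ z ∂ρ = ∫ z, phi k₁ k₂ (defo h t z) ∂ν := by
    rw [hρν, integral_map hT.aemeasurable (measurable_phi k₁ k₂).aestronglyMeasurable]
  have hi1 := integrable_phi (k₁ := k₁) (k₂ := k₂) hBΓ.bdd hν
  have hi2 : Integrable (fun z => phi k₁ k₂ (defo h t z)) ν := by
    have h3 := integrable_phi (k₁ := k₁) (k₂ := k₂) hBT.bdd hρ.mem
    rw [hρν, integrable_map_measure (measurable_phi k₁ k₂).aestronglyMeasurable
      hT.aemeasurable] at h3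
    exact h3
  rw [integral_sub hi2 hi1]
  unfold ren at hle ⊢
  rw [hphi, hρν] at hle
  linarith

end

end Pool.Agent.Helper25.SCurve
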