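import Pool.Agent.Helper25.SCurve.VarMeas

/-!
# Off-axis mass of a measure satisfying the variational inequality
-/

namespace Pool.Agent.Helper25.SCurve

open MeasureTheory Set Filter Topology
open scoped ENNReal

/-- The kernel `(x - x')² / |z - w|²`. -/
noncomputable def sk (p : ℂ × ℂ) : ℝ := (p.1.re - p.2.re) ^ 2 / ‖p.1 - p.2‖ ^ 2

theorem sk_nonneg (p : ℂ × ℂ) : 0 ≤ sk p := by unfold sk; positivity

theorem sk_le_one (p : ℂ × ℂ) : sk p ≤ 1 := by
  unfold sk
  rcases eq_or_ne p.1 p.2 with h | h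
  · rw [h]
    simp
  · have h1 : 0 < ‖p.1 - p.2‖ := norm_pos_iff.2 (sub_ne_zero.2 h)
    rw [div_le_one (by positivity), norm_sub_sq]
    nlinarith [sq_nonneg (p.1.im - p.2.im)]

@[fun_prop]
theorem measurable_sk : Measurable sk := by
  unfold sk
  fun_prop

theorem im_mul_qk_sq_le (p : ℂ × ℂ) : (|p.1.im - p.2.im| * qk p) ^ 2 ≤ sk p := by
  unfold qk sk
  rcases eq_or_ne p.1 p.2 with h | h
  · rw [h]
    simp
  · have h1 : 0 < ‖p.1 - p.2‖ := norm_pos_iff.2 (sub_ne_zero.2 h)
    have h2 : 0 < ‖p.1 - p.2‖ ^ 2 := by positivity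
    rw [← mul_div_assoc, div_pow, div_le_div_iff₀ (by positivity) h2, mul_pow, sq_abs, sq_abs]
    have h3 : (p.1.im - p.2.im) ^ 2 ≤ ‖p.1 - p.2‖ ^ 2 := by
      rw [norm_sub_sq]
      nlinarith [sq_nonneg (p.1.re - p.2.re)]
    calc (p.1.im - p.2.im) ^ 2 * (p.1.re - p.2.re) ^ 2 * ‖p.1 - p.2‖ ^ 2
        ≤ ‖p.1 - p.2‖ ^ 2 * (p.1.re - p.2.re) ^ 2 * ‖p.1 - p.2‖ ^ 2 := by gcongr
      _ = (p.1.re - p.2.re) ^ 2 * (‖p.1 - p.2‖ ^ 2) ^ 2 := by ring

section

variable {k₁ k₂ ε₁ ε₂ t : ℝ} {μ : Measure ℂ}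

theorem VarMeas.base_sk (hv : VarMeas k₁ k₂ ε₁ ε₂ μ) (hk₁ : 0 < k₁) (hε₁ : 0 < ε₁)
    (hε₂ : 0 < ε₂) (h2 : ε₂ ≤ 1) {b : ℝ → ℝ} {Λ : ℝ} (hb0 : ∀ y, 0 ≤ b y) (hb1 : ∀ y, b y ≤ 1)
    (hbΛ : ∀ y y', |b y - b y'| ≤ Λ * |y - y'|) (hbm : b (-1) = 0) :
    ∫ p : ℂ × ℂ, b p.1.im * sk p
      ∂((μ.restrict {z | 0 < z.re}).prod (μ.restrict {z | 0 < z.re})) ≤ ε₂ * (Λ / 2) := by
  have hprob := hv.isProb
  have hΛ := lip_nonneg hbΛ
  have hbc := continuous_test hbΛ
  set S : Set ℂ := {z | 0 < z.re} with hS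
  have hSm : MeasurableSet S := measurableSet_lt measurable_const Complex.measurable_re
  have hright := hv.right_ae hk₁ hε₁ hε₂
  have hLip : ∀ z w : ℂ, ‖((-(b z.im * psi 1 z.re) : ℝ) : ℂ) -
      ((-(b w.im * psi 1 w.re) : ℝ) : ℂ)‖ ≤ (1 + Λ) * ‖z - w‖ := by
    intro z w
    rw [← Complex.ofReal_sub, Complex.norm_real, Real.norm_eq_abs]
    have e : -(b z.im * psi 1 z.re) - -(b w.im * psi 1 w.re) =
        -(b z.im * (psi 1 z.re - psi 1 w.re) + (b z.im - b w.im) * psi 1 w.re) := by ring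
    rw [e, abs_neg]
    refine (abs_add_le _ _).trans ?_
    rw [abs_mul, abs_mul, abs_of_nonneg (hb0 _), abs_of_nonneg (psi_nonneg one_pos _)]
    have h1 := abs_psi_sub_le one_pos z.re w.re
    have h2 := Complex.abs_re_le_norm (z - w)
    have h3 := Complex.abs_im_le_norm (z - w)
    rw [Complex.sub_re] at h2
    rw [Complex.sub_im] at h3
    have h4 : b z.im * |psi 1 z.re - psi 1 w.re| ≤ 1 * ‖z - w‖ := by
      apply mul_le_mul (hb1 _) _ (abs_nonneg _) zero_le_one
      rw [div_one, one_mul] at h1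
      exact h1.trans h2
    have h5 : |b z.im - b w.im| * psi 1 w.re ≤ (Λ * ‖z - w‖) * 1 := by
      apply mul_le_mul _ (psi_le_one _ _) (psi_nonneg one_pos _) (by positivity)
      exact (hbΛ _ _).trans (mul_le_mul_of_nonneg_left h3 hΛ)
    linarith
  have hpsic : Continuous (psi 1) := by
    unfold psi
    fun_prop
  have h1 := hv.var (fun z => ((-(b z.im * psi 1 z.re) : ℝ) : ℂ)) (1 + Λ)
    (fun _ => 0) 1 hLip (by positivity) ?_ ?_ continuous_const one_pos ?_
  · have hi1 : Integrable (fun p : ℂ × ℂ => b p.1.im * sk p) (μ.prod μ) := by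
      refine (integrable_const (1 : ℝ)).mono'
        (by fun_prop : Measurable fun p : ℂ × ℂ => b p.1.im * sk p).aestronglyMeasurable
        (ae_of_all _ fun p => ?_)
      rw [Real.norm_of_nonneg (mul_nonneg (hb0 _) (sk_nonneg p))]
      nlinarith [hb0 p.1.im, hb1 p.1.im, sk_nonneg p, sk_le_one p]
    have hi2 := integrable_test hbΛ (μ.prod μ)
    have h3 : ∫ p, kerV (fun z => ((-(b z.im * psi 1 z.re) : ℝ) : ℂ)) p ∂(μ.prod μ) ≤
        ∫ p, (S ×ˢ S).indicator (fun p : ℂ × ℂ =>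
          -(b p.1.im * sk p) + ε₂ * (|b p.1.im - b p.2.im| * qk p)) p ∂(μ.prod μ) := by
      apply integral_mono_ae (integrable_kerV hLip (by positivity) _)
        ((hi1.neg.add (hi2.const_mul ε₂)).indicator (hSm.prod hSm))
      have a1 := (Measure.quasiMeasurePreserving_fst (μ := μ) (ν := μ)).ae hright
      have a2 := (Measure.quasiMeasurePreserving_snd (μ := μ) (ν := μ)).ae hright
      filter_upwards [a1, a2] with p c1 c2
      unfold kerV dot
      simp only [Complex.sub_re, Complex.sub_im, Complex.ofReal_re, Complex.ofReal_im, sub_self,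
        mul_zero, add_zero]
      by_cases hp : p ∈ S ×ˢ S
      · rw [indicator_of_mem hp]
        have d1 : 0 < p.1.re := hp.1
        have d2 : 0 < p.2.re := hp.2
        have e1 : psi 1 p.1.re = p.1.re := by
          unfold psi
          rw [max_eq_left d1.le, div_one, min_eq_left (by linarith)]
        have e2 : psi 1 p.2.re = p.2.re := by
          unfold psi
          rw [max_eq_left d2.le, div_one, min_eq_left (by linarith)]
        rw [e1, e2]
        unfold sk qk
        have e3 : -(b p.1.im * ((p.1.re - p.2.re) ^ 2 / ‖p.1 - p.2‖ ^ 2)) +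
            ε₂ * (|b p.1.im - b p.2.im| * (|p.1.re - p.2.re| / ‖p.1 - p.2‖ ^ 2)) =
            (-(b p.1.im * (p.1.re - p.2.re) ^ 2) +
              ε₂ * (|b p.1.im - b p.2.im| * |p.1.re - p.2.re|)) / ‖p.1 - p.2‖ ^ 2 := by ring
        change _ ≤ -(b p.1.im * ((p.1.re - p.2.re) ^ 2 / ‖p.1 - p.2‖ ^ 2)) +
            ε₂ * (|b p.1.im - b p.2.im| * (|p.1.re - p.2.re| / ‖p.1 - p.2‖ ^ 2))
        rw [e3]
        apply div_le_div_of_nonneg_right _ (by positivity)
        have e4 : (p.1.re - p.2.re) * (-(b p.1.im * p.1.re) - -(b p.2.im * p.2.re)) =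
            -(b p.1.im * (p.1.re - p.2.re) ^ 2) +
              p.2.re * (-((b p.1.im - b p.2.im) * (p.1.re - p.2.re))) := by ring
        rw [e4]
        have e5 : p.2.re * (-((b p.1.im - b p.2.im) * (p.1.re - p.2.re))) ≤
            ε₂ * (|b p.1.im - b p.2.im| * |p.1.re - p.2.re|) := by
          rw [← abs_mul]
          calc p.2.re * (-((b p.1.im - b p.2.im) * (p.1.re - p.2.re)))
              ≤ p.2.re * |(b p.1.im - b p.2.im) * (p.1.re - p.2.re)| := by
                gcongr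
                exact neg_le_abs _
            _ ≤ _ := by gcongr
        linarith
      · rw [indicator_of_notMem hp]
        apply div_nonpos_of_nonpos_of_nonneg _ (by positivity)
        have hp' : p.1.re ≤ 0 ∨ p.2.re ≤ 0 := by
          by_contra hcon
          push Not at hcon
          exact hp ⟨hcon.1, hcon.2⟩
        rcases le_or_gt p.1.re 0 with ha | ha
        · rw [psi_of_nonpos ha]
          rcases le_or_gt p.2.re 0 with hb | hb
          · rw [psi_of_nonpos hb]
            simp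
          · have h5 := mul_nonneg (hb0 p.2.im) (psi_nonneg one_pos p.2.re)
            nlinarith
        · have hb : p.2.re ≤ 0 := by
            rcases hp' with h | h
            · linarith
            · exact h
          rw [psi_of_nonpos hb]
          have h5 := mul_nonneg (hb0 p.1.im) (psi_nonneg one_pos p.1.re)
          nlinarith
    rw [integral_indicator (hSm.prod hSm), ← Measure.prod_restrict] at h3
    set ρ := (μ.restrict S).prod (μ.restrict S) with hρ
    have hi1' : Integrable (fun p : ℂ × ℂ => b p.1.im * sk p) ρ := by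
      rw [hρ, Measure.prod_restrict]
      exact hi1.restrict
    have hi2' := integrable_test hbΛ ρ
    have hneg : Integrable (fun p : ℂ × ℂ => -(b p.1.im * sk p)) ρ := hi1'.neg
    rw [integral_add hneg (hi2'.const_mul ε₂), integral_neg, integral_const_mul] at h3
    have h4 : ∫ p : ℂ × ℂ, |b p.1.im - b p.2.im| * qk p ∂ρ ≤ Λ / 2 := by
      have h5 : ∫ p : ℂ × ℂ, |b p.1.im - b p.2.im| * qk p ∂ρ ≤ ∫ _p : ℂ × ℂ, Λ / 2 ∂ρ :=
        integral_mono hi2' (integrable_const _) (fun p => test_le hΛ hbΛ p)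
      rw [integral_const, smul_eq_mul] at h5
      have h6 : ρ.real univ ≤ 1 := by
        rw [hρ, Measure.prod_restrict, measureReal_restrict_apply_univ]
        exact measureReal_le_one
      have h7 : ρ.real univ * (Λ / 2) ≤ 1 * (Λ / 2) := by gcongr
      linarith
    have h8 : ε₂ * ∫ p : ℂ × ℂ, |b p.1.im - b p.2.im| * qk p ∂ρ ≤ ε₂ * (Λ / 2) := by gcongr
    simp only [integral_zero, mul_zero] at h1
    linarith
  · simp only [Complex.add_re, Complex.neg_re, Complex.ofReal_re, Complex.I_re, add_zero]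
    rw [psi_of_nonpos (by linarith)]
    simp
  · simp only [Complex.sub_im, Complex.ofReal_im, Complex.I_im, zero_sub]
    rw [hbm]
    simp
  · intro s hs0 hs1 z
    rw [mul_zero, sub_nonneg]
    unfold defo
    rw [phi_eq, phi_eq]
    simp only [Complex.add_re, Complex.mul_re, Complex.ofReal_re, Complex.ofReal_im, zero_mul,
      sub_zero]
    rcases le_or_gt z.re 0 with hz | hz
    · rw [psi_of_nonpos hz]
      simp
    · have h2 : psi 1 z.re ≤ z.re := by
        unfold psi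
        rw [max_eq_left hz.le, div_one]
        exact min_le_left _ _
      have hp0 := psi_nonneg one_pos z.re
      have h3 : s * (b z.im * psi 1 z.re) ≤ z.re := by
        calc s * (b z.im * psi 1 z.re) ≤ 1 * (1 * z.re) := by
              apply mul_le_mul hs1 _ (mul_nonneg (hb0 _) hp0) (by norm_num)
              exact mul_le_mul (hb1 _) h2 hp0 zero_le_one
          _ = z.re := by ring
      have h4 : 0 ≤ z.re + s * -(b z.im * psi 1 z.re) := by linarith
      rw [max_eq_left h4, min_eq_right h4, max_eq_left hz.le, min_eq_right hz.le]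
      have h5 : 0 ≤ k₁ * (s * (b z.im * psi 1 z.re)) :=
        mul_nonneg hk₁.le (mul_nonneg hs0.le (mul_nonneg (hb0 _) hp0))
      linarith

theorem VarMeas.base (hv : VarMeas k₁ k₂ ε₁ ε₂ μ) (hk₁ : 0 < k₁) (hε₁ : 0 < ε₁)
    (hε₂ : 0 < ε₂) (h2 : ε₂ ≤ 1) (ht : 0 < t) {θ : ℝ} (hθ : 0 < θ) :
    2 * k₁ * mass (μ.restrict {z | 0 < z.re}) t 0 ≤ θ / t + 2 * ε₂ / (t ^ 2 * θ) := by
  have hprob := hv.isProb
  set R : Measure ℂ := μ.restrict {z | 0 < z.re} with hR
  have hRuniv : R.real univ ≤ 1 := by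
    rw [hR, measureReal_restrict_apply_univ]
    exact measureReal_le_one
  have hRP : RProp k₁ R := rprop_of_var hv.var hk₁ hε₁
  set a : ℝ → ℝ := cut (-1 + t / 2) (-1 + t) with ha
  set b : ℝ → ℝ := cut (-1) (-1 + t / 2) with hb
  have haΛ : ∀ y y', |a y - a y'| ≤ 2 / t * |y - y'| := by
    intro y y'
    have h3 := abs_cut_sub_le (show -1 + t / 2 < -1 + t by linarith) y y'
    have h4 : 1 / (-1 + t - (-1 + t / 2)) = 2 / t := by
      rw [show -1 + t - (-1 + t / 2) = t / 2 by ring, one_div_div]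
    rwa [h4] at h3
  have hbΛ : ∀ y y', |b y - b y'| ≤ 2 / t * |y - y'| := by
    intro y y'
    have h3 := abs_cut_sub_le (show (-1 : ℝ) < -1 + t / 2 by linarith) y y'
    have h4 : 1 / (-1 + t / 2 - -1) = 2 / t := by
      rw [show -1 + t / 2 - -1 = t / 2 by ring, one_div_div]
    rwa [h4] at h3
  have hbase := hv.base_sk hk₁ hε₁ hε₂ h2 (b := b) (Λ := 2 / t) (cut_nonneg _ _) (cut_le_one _ _)
    hbΛ (cut_of_le (by linarith) le_rfl)
  have hbc := continuous_test hbΛ
  have h3 := hRP a 1 (2 / t) (cut_nonneg _ _) (cut_le_one _ _) haΛ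
    (cut_of_le (by linarith) (by linarith))
  -- integrability
  have hi1 : Integrable (fun p : ℂ × ℂ => b p.1.im * sk p) (R.prod R) := by
    refine (integrable_const (1 : ℝ)).mono'
      (by fun_prop : Measurable fun p : ℂ × ℂ => b p.1.im * sk p).aestronglyMeasurable
      (ae_of_all _ fun p => ?_)
    have e0 := cut_nonneg (-1) (-1 + t / 2) p.1.im
    have e1 := cut_le_one (-1) (-1 + t / 2) p.1.im
    rw [Real.norm_of_nonneg (mul_nonneg e0 (sk_nonneg p))]
    nlinarith [sk_nonneg p, sk_le_one p]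
  have hswap : ∀ p : ℂ × ℂ, sk p.swap = sk p := by
    intro p
    unfold sk
    simp only [Prod.fst_swap, Prod.snd_swap]
    rw [norm_sub_rev]
    congr 1
    ring
  have hi2 : Integrable (fun p : ℂ × ℂ => b p.2.im * sk p) (R.prod R) := by
    have h4 := hi1.swap
    refine h4.congr (ae_of_all _ fun p => ?_)
    simp only [Function.comp, Prod.fst_swap, hswap]
  have heq : ∫ p : ℂ × ℂ, b p.2.im * sk p ∂(R.prod R) =
      ∫ p : ℂ × ℂ, b p.1.im * sk p ∂(R.prod R) := by
    have h4 := integral_prod_swap (μ := R) (ν := R) (fun p : ℂ × ℂ => b p.1.im * sk p)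
    rw [← h4]
    apply integral_congr_ae
    filter_upwards with p
    simp only [Prod.fst_swap, hswap]
  -- the pointwise bound
  have hpt : ∀ p : ℂ × ℂ, |a p.1.im - a p.2.im| * qk p ≤
      2 / t * (θ / 2 + (b p.1.im * sk p + b p.2.im * sk p) / (2 * θ)) := by
    intro p
    have b1 := cut_nonneg (-1) (-1 + t / 2) p.1.im
    have b2 := cut_nonneg (-1) (-1 + t / 2) p.2.im
    have s0 := sk_nonneg p
    have hrhs : 0 ≤ (b p.1.im * sk p + b p.2.im * sk p) / (2 * θ) := by
      apply div_nonneg _ (by positivity)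
      exact add_nonneg (mul_nonneg b1 s0) (mul_nonneg b2 s0)
    by_cases hcase : p.1.im ≤ -1 + t / 2 ∧ p.2.im ≤ -1 + t / 2
    · have e1 : a p.1.im = 0 := cut_of_le (by linarith) hcase.1
      have e2 : a p.2.im = 0 := cut_of_le (by linarith) hcase.2
      rw [e1, e2, sub_self, abs_zero, zero_mul]
      positivity
    · have hb1 : 1 ≤ b p.1.im + b p.2.im := by
        rw [not_and_or, not_le, not_le] at hcase
        rcases hcase with h | h
        · have : b p.1.im = 1 := cut_of_ge (by linarith) h.le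
          rw [this]
          linarith
        · have : b p.2.im = 1 := cut_of_ge (by linarith) h.le
          rw [this]
          linarith
      have e3 := im_mul_qk_sq_le p
      set m := |p.1.im - p.2.im| * qk p with hm
      have e4 : m ≤ θ / 2 + m ^ 2 / (2 * θ) := by
        have : θ / 2 + m ^ 2 / (2 * θ) - m = (m - θ) ^ 2 / (2 * θ) := by
          field_simp
          ring
        have h5 : 0 ≤ (m - θ) ^ 2 / (2 * θ) := by positivity
        linarith
      have e5 : m ^ 2 ≤ b p.1.im * sk p + b p.2.im * sk p := by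
        rw [← add_mul]
        nlinarith
      calc |a p.1.im - a p.2.im| * qk p ≤ 2 / t * |p.1.im - p.2.im| * qk p :=
            mul_le_mul_of_nonneg_right (haΛ _ _) (qk_nonneg p)
        _ = 2 / t * m := by rw [hm]; ring
        _ ≤ 2 / t * (θ / 2 + (b p.1.im * sk p + b p.2.im * sk p) / (2 * θ)) := by
            gcongr
            refine e4.trans ?_
            gcongr
  have hadd : Integrable (fun p : ℂ × ℂ => b p.1.im * sk p + b p.2.im * sk p) (R.prod R) :=
    hi1.add hi2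
  have hi3 : Integrable (fun p : ℂ × ℂ =>
      2 / t * (θ / 2 + (b p.1.im * sk p + b p.2.im * sk p) / (2 * θ))) (R.prod R) :=
    ((integrable_const _).add (hadd.div_const _)).const_mul _
  have h4 := integral_mono (integrable_test haΛ (R.prod R)) hi3 hpt
  rw [integral_const_mul, integral_add (integrable_const _) (hadd.div_const _),
    integral_const, smul_eq_mul, integral_div, integral_add hi1 hi2, heq] at h4
  have h5 : (R.prod R).real univ ≤ 1 := by
    rw [← univ_prod_univ, measureReal_prod_prod]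
    have : 0 ≤ R.real univ := by positivity
    nlinarith
  have h6 : mass R t 0 ≤ ∫ z : ℂ, a z.im ∂(R) := by
    have h7 : ∫ z, {z : ℂ | lev t 0 < z.im}.indicator (fun _ => (1 : ℝ)) z ∂(R) =
        mass R t 0 := by
      rw [integral_indicator (measurableSet_above _), setIntegral_const, smul_eq_mul, mul_one]
      rfl
    rw [← h7]
    have hac := continuous_test haΛ
    apply integral_mono ((integrable_const _).indicator (measurableSet_above _))
    · refine (integrable_const (1 : ℝ)).mono' ?_ (ae_of_all _ fun z => ?_)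
      · exact (by fun_prop : Measurable fun z : ℂ => a z.im).aestronglyMeasurable
      · rw [Real.norm_of_nonneg (cut_nonneg _ _ _)]
        exact cut_le_one _ _ _
    · intro z
      simp only
      by_cases hz : z ∈ {z : ℂ | lev t 0 < z.im}
      · rw [indicator_of_mem hz]
        have hz' : lev t 0 < z.im := hz
        have hl0 : lev t 0 = -1 + t := by
          unfold lev
          norm_num
        rw [hl0] at hz'
        rw [ha, cut_of_ge (by linarith) hz'.le]
      · rw [indicator_of_notMem hz]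
        exact cut_nonneg _ _ _
  have h7 : 2 * k₁ * mass R t 0 ≤ 2 * k₁ * ∫ z : ℂ, a z.im ∂(R) := by gcongr
  refine h7.trans (h3.trans (h4.trans ?_))
  have h8 : (R.prod R).real univ * (θ / 2) ≤ 1 * (θ / 2) := by gcongr
  have h9 : (∫ p : ℂ × ℂ, b p.1.im * sk p ∂(R.prod R) +
      ∫ p : ℂ × ℂ, b p.1.im * sk p ∂(R.prod R)) / (2 * θ) ≤
      (ε₂ * (2 / t / 2) + ε₂ * (2 / t / 2)) / (2 * θ) := by gcongr
  calc 2 / t * ((R.prod R).real univ * (θ / 2) + (∫ p : ℂ × ℂ, b p.1.im * sk p ∂(R.prod R) +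
      ∫ p : ℂ × ℂ, b p.1.im * sk p ∂(R.prod R)) / (2 * θ))
      ≤ 2 / t * (1 * (θ / 2) + (ε₂ * (2 / t / 2) + ε₂ * (2 / t / 2)) / (2 * θ)) := by gcongr
    _ = θ / t + 2 * ε₂ / (t ^ 2 * θ) := by
        field_simp
        ring

theorem varWindow_right (hk₁ : 0 < k₁) (ht : 0 < t) :
    ∃ ε₀ : ℝ, 0 < ε₀ ∧ ∀ (k₂ ε₁ ε₂ : ℝ) (μ : Measure ℂ), 0 < ε₁ → 0 < ε₂ → ε₂ < ε₀ →
      VarMeas k₁ k₂ ε₁ ε₂ μ → ∀ᵐ z ∂μ, 0 < z.re → z.im ≤ -1 + 2 * t := by
  obtain ⟨δ, hδ0, hδ1, hδ2⟩ : ∃ δ : ℝ, 0 < δ ∧ δ ≤ 1 ∧ 2 * δ / t ≤ k₁ / 32 := by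
    refine ⟨min 1 (k₁ * t / 64), by positivity, min_le_left _ _, ?_⟩
    rw [div_le_iff₀ ht]
    have := min_le_right 1 (k₁ * t / 64)
    linarith
  set θ : ℝ := k₁ * t * δ / 16 with hθ
  have hθ0 : 0 < θ := by positivity
  refine ⟨min 1 (min (k₁ * δ * t ^ 2 * θ / 32) (k₁ * t ^ 2 / 832)), by positivity, ?_⟩
  intro k₂ ε₁ ε₂ μ hε₁ hε₂ hε₂' hv
  have e1 : ε₂ < 1 := lt_of_lt_of_le hε₂' (min_le_left _ _)
  have e2 : ε₂ < k₁ * δ * t ^ 2 * θ / 32 :=
    lt_of_lt_of_le hε₂' ((min_le_right _ _).trans (min_le_left _ _))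
  have e3 : ε₂ < k₁ * t ^ 2 / 832 :=
    lt_of_lt_of_le hε₂' ((min_le_right _ _).trans (min_le_right _ _))
  have hprob := hv.isProb
  have hSm : MeasurableSet {z : ℂ | 0 < z.re} :=
    measurableSet_lt measurable_const Complex.measurable_re
  have hb := hv.base hk₁ hε₁ hε₂ e1.le ht hθ0
  have h1 : θ / t = k₁ * (δ / 16) := by
    rw [hθ]
    field_simp
  have h2 : 2 * ε₂ / (t ^ 2 * θ) ≤ k₁ * (δ / 16) := by
    rw [div_le_iff₀ (by positivity)]
    linarith
  have h3 : mass (μ.restrict {z | 0 < z.re}) t 0 ≤ δ / 16 := by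
    have h4 : 2 * k₁ * mass (μ.restrict {z | 0 < z.re}) t 0 ≤ 2 * k₁ * (δ / 16) := by linarith
    exact le_of_mul_le_mul_left h4 (by positivity)
  have hRuniv : (μ.restrict {z : ℂ | 0 < z.re}).real univ ≤ 1 := by
    rw [measureReal_restrict_apply_univ]
    exact measureReal_le_one
  have hRae : ∀ᵐ z ∂(μ.restrict {z : ℂ | 0 < z.re}), 0 ≤ z.re ∧ z.re ≤ ε₂ := by
    have h4 : ∀ᵐ z ∂(μ.restrict {z : ℂ | 0 < z.re}), 0 < z.re := ae_restrict_mem hSm
    have h5 : ∀ᵐ z ∂(μ.restrict {z : ℂ | 0 < z.re}), z.re ≤ ε₂ :=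
      ae_restrict_of_ae (hv.right_ae hk₁ hε₁ hε₂)
    filter_upwards [h4, h5] with z a b using ⟨a.le, b⟩
  have hfinal := degiorgi (rprop_of_var hv.var hk₁ hε₁) hk₁ ht hε₂.le hRuniv hRae hδ0.le hδ1 (by
    have : 26 * ε₂ / t ^ 2 ≤ k₁ / 32 := by
      rw [div_le_iff₀ (by positivity)]
      linarith
    linarith) h3
  rw [Measure.restrict_apply (measurableSet_above _)] at hfinal
  have h4 : ∀ᵐ z ∂μ, ¬ (z ∈ {z : ℂ | -1 + 2 * t < z.im} ∩ {z | 0 < z.re}) := by
    rw [ae_iff]
    simp only [not_not]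
    exact hfinal
  filter_upwards [h4] with z hz h5
  by_contra h6
  exact hz ⟨not_le.1 h6, h5⟩

end

end Pool.Agent.Helper25.SCurve
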