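import Pool.Agent.Helper25.SCurve.VarLimit

/-!
# The variational inequality for a max-min continuum: conclusion
-/

namespace Pool.Agent.Helper25.SCurve

open MeasureTheory Set Filter Topology
open scoped ENNReal NNReal BoundedContinuousFunction

section

variable {D k₁ k₂ ε₁ ε₂ : ℝ} {Γ : Set ℂ} {μ : Measure ℂ} {h : ℂ → ℂ} {L : ℝ}

theorem abs_integral_phi_le {B : Set ℂ} {M : ℝ} (hM : ∀ z ∈ B, |phi k₁ k₂ z| ≤ M)
    {ν : Measure ℂ} (hν : IsProbOn B ν) : |∫ z, phi k₁ k₂ z ∂ν| ≤ M := by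
  have := hν.isProb
  have h2 : ∀ᵐ w ∂ν, w ∈ B := by
    rw [ae_iff]; exact hν.compl
  have h3 : ‖∫ z, phi k₁ k₂ z ∂ν‖ ≤ M * ν.real univ := by
    apply norm_integral_le_of_norm_le_const
    filter_upwards [h2] with w hw
    rw [Real.norm_eq_abs]
    exact hM w hw
  simpa using h3

theorem variation (hM : IsMaxMin k₁ k₂ ε₁ ε₂ Γ) (hBΓ : Box D Γ) (hμ : IsMinim D k₁ k₂ Γ μ)
    (hLip : ∀ z w, ‖h z - h w‖ ≤ L * ‖z - w‖) (hL : 0 ≤ L)
    (h1 : h (-(ε₁ : ℂ) + Complex.I) = 0) (h2 : h ((ε₂ : ℂ) - Complex.I) = 0)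
    {g : ℂ → ℝ} (hg : Continuous g) {t₀ : ℝ} (ht₀ : 0 < t₀)
    (hineq : ∀ t, 0 < t → t ≤ t₀ → ∀ z, t * g z ≤ phi k₁ k₂ (defo h t z) - phi k₁ k₂ z) :
    2 * ∫ z, g z ∂μ ≤ ∫ p, kerV h p ∂(μ.prod μ) := by
  have hΓc := hM.joining.isCompact
  have hhc := continuous_of_lip hLip
  have hprobμ := hμ.mem.isProb
  obtain ⟨M, hMb⟩ := hΓc.isBounded.exists_norm_le
  obtain ⟨H, hH⟩ := hΓc.exists_bound_of_continuousOn hhc.continuousOn
  have hne : Γ.Nonempty := ⟨_, hM.joining.left_mem⟩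
  have hM0 : 0 ≤ M := by
    obtain ⟨z, hz⟩ := hne
    exact (norm_nonneg z).trans (hMb z hz)
  have hH0 : 0 ≤ H := by
    obtain ⟨z, hz⟩ := hne
    exact (norm_nonneg _).trans (hH z hz)
  set B : Set ℂ := Metric.closedBall 0 (M + 1) with hBdef
  set D' : ℝ := 2 * (M + 1) with hD'
  have hB : Box D' B := by
    refine ⟨by linarith, Metric.isBounded_closedBall, fun z hz w hw => ?_⟩
    rw [hBdef, mem_closedBall_zero_iff] at hz hw
    calc ‖z - w‖ ≤ ‖z‖ + ‖w‖ := norm_sub_le _ _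
      _ ≤ D' := by linarith
  have hΓB : Γ ⊆ B := by
    intro z hz
    rw [hBdef, mem_closedBall_zero_iff]
    have := hMb z hz
    linarith
  have hBΓ' := hB.mono hΓB
  have hμ' := hμ.change hBΓ hBΓ'
  obtain ⟨t₁, ht₁0, ht₁t₀, ht₁L, ht₁H⟩ : ∃ t₁ : ℝ, 0 < t₁ ∧ t₁ ≤ t₀ ∧ t₁ * L ≤ 1 / 2 ∧
      t₁ * H ≤ 1 := by
    refine ⟨min t₀ (min (1 / (2 * (L + 1))) (1 / (H + 1))), by positivity, min_le_left _ _, ?_, ?_⟩
    · calc min t₀ (min (1 / (2 * (L + 1))) (1 / (H + 1))) * L ≤ (1 / (2 * (L + 1))) * L := by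
            gcongr
            exact (min_le_right _ _).trans (min_le_left _ _)
        _ ≤ 1 / 2 := by
            rw [div_mul_eq_mul_div, one_mul, div_le_div_iff₀ (by positivity) (by norm_num)]
            linarith
    · calc min t₀ (min (1 / (2 * (L + 1))) (1 / (H + 1))) * H ≤ (1 / (H + 1)) * H := by
            gcongr
            exact (min_le_right _ _).trans (min_le_right _ _)
        _ ≤ 1 := by
            rw [div_mul_eq_mul_div, one_mul, div_le_one (by positivity)]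
            linarith
  set τ : ℕ → ℝ := fun n => t₁ / (n + 1) with hτ
  have hτ0 : ∀ n, 0 < τ n := fun n => by simp only [hτ]; positivity
  have hτ1 : ∀ n, τ n ≤ t₁ := fun n => by
    simp only [hτ]
    rw [div_le_iff₀ (by positivity)]
    have : (0 : ℝ) ≤ n := Nat.cast_nonneg n
    nlinarith
  have hτlim : Tendsto τ atTop (𝓝 0) := by
    simp only [hτ]
    have := tendsto_one_div_add_atTop_nhds_zero_nat (𝕜 := ℝ)
    have h3 := this.const_mul t₁
    rw [mul_zero] at h3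
    refine h3.congr fun n => ?_
    rw [mul_one_div]
  have hτL : ∀ n, τ n * L ≤ 1 / 2 := fun n =>
    (mul_le_mul_of_nonneg_right (hτ1 n) hL).trans ht₁L
  have hTB : ∀ n, defo h (τ n) '' Γ ⊆ B := by
    rintro n _ ⟨z, hz, rfl⟩
    rw [hBdef, mem_closedBall_zero_iff]
    unfold defo
    calc ‖z + (τ n) * h z‖ ≤ ‖z‖ + ‖((τ n : ℝ) : ℂ) * h z‖ := norm_add_le _ _
      _ = ‖z‖ + τ n * ‖h z‖ := by
          rw [norm_mul, Complex.norm_real, Real.norm_of_nonneg (hτ0 n).le]
      _ ≤ M + t₁ * H := by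
          gcongr
          · exact hMb z hz
          · exact hτ1 n
          · exact hH z hz
      _ ≤ M + 1 := by linarith
  have hstep := fun n => var_step hM hμ' (by linarith : (2 : ℝ) ≤ D') hB hΓB (hTB n) hLip hL
    (hτ0 n).le (hτL n) h1 h2
  choose ν hν hfin hK using hstep
  have hprob := fun n => (hν n).isProb
  obtain ⟨Mφ, hMφ⟩ := exists_bound_phi hBΓ'.bdd k₁ k₂
  -- bounds on the error terms
  have hlrb : ∀ n, ∫ p, lr h (τ n) p ∂((ν n).prod (ν n)) ≤ 2 * (τ n * L) := by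
    intro n
    have h3 : ∫ p, lr h (τ n) p ∂((ν n).prod (ν n)) ≤
        ∫ p, 2 * (τ n * L) ∂((ν n).prod (ν n)) := by
      apply integral_mono (integrable_lr hLip hL (hτ0 n).le (hτL n) _) (integrable_const _)
      exact fun p => (abs_le.1 (abs_lr_le hLip hL (hτ0 n).le (hτL n) p)).2
    simpa using h3
  have hphib : ∀ n, -((|k₁| + |k₂|) * (τ n * H)) ≤
      ∫ z, (phi k₁ k₂ (defo h (τ n) z) - phi k₁ k₂ z) ∂(ν n) := by
    intro n
    have hae : ∀ᵐ z ∂(ν n), z ∈ Γ := by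
      rw [ae_iff]; exact (hν n).compl
    have h3 : ‖∫ z, (phi k₁ k₂ (defo h (τ n) z) - phi k₁ k₂ z) ∂(ν n)‖ ≤
        ((|k₁| + |k₂|) * (τ n * H)) * (ν n).real univ := by
      apply norm_integral_le_of_norm_le_const
      filter_upwards [hae] with z hz
      rw [Real.norm_eq_abs]
      refine (abs_phi_sub_le k₁ k₂ _ _).trans ?_
      have : ‖defo h (τ n) z - z‖ ≤ τ n * H := by
        unfold defo
        rw [add_sub_cancel_left, norm_mul, Complex.norm_real, Real.norm_of_nonneg (hτ0 n).le]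
        exact mul_le_mul_of_nonneg_left (hH z hz) (hτ0 n).le
      gcongr
    rw [probReal_univ, mul_one, Real.norm_eq_abs] at h3
    exact (abs_le.1 h3).1
  set C : ℝ := 2 * L + 2 * ((|k₁| + |k₂|) * H) with hC
  have hC0 : 0 ≤ C := by positivity
  have hren : ∀ n, ren D' k₁ k₂ (ν n) ≤ ren D' k₁ k₂ μ + C * τ n := by
    intro n
    have := hK n
    have := hlrb n
    have := hphib n
    rw [hC]
    nlinarith
  -- weak convergence
  set P : ℕ → ProbabilityMeasure ℂ := fun n => ⟨ν n, hprob n⟩ with hP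
  set Pμ : ProbabilityMeasure ℂ := ⟨μ, hprobμ⟩ with hPμ
  have hconv : Tendsto P atTop (𝓝 Pμ) := by
    have hs : Tendsto (fun n => C * τ n) atTop (𝓝 0) := by
      simpa using hτlim.const_mul C
    exact tendsto_of_minimising (νs := P) (s := fun n => C * τ n) hΓc hBΓ' hμ' (fun n => hν n)
      (fun n => hfin n) hs (fun n => hren n) Pμ rfl
  -- the inequality for `ν n`
  obtain ⟨G, hG⟩ := hΓc.exists_bound_of_continuousOn hg.continuousOn
  have hG0 : 0 ≤ G := by
    obtain ⟨z, hz⟩ := hne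
    exact (norm_nonneg _).trans (hG z hz)
  let gb : ℂ →ᵇ ℝ := BoundedContinuousFunction.ofNormedAddCommGroup
    (fun z => max (min (g z) G) (-G)) (by fun_prop) G (fun z => by
      rw [Real.norm_eq_abs, abs_le]
      refine ⟨le_max_right _ _, max_le (min_le_right _ _) (by linarith)⟩)
  have hgb : ∀ z ∈ Γ, gb z = g z := by
    intro z hz
    have h3 := hG z hz
    rw [Real.norm_eq_abs, abs_le] at h3
    change max (min (g z) G) (-G) = g z
    rw [min_eq_left h3.2, max_eq_left h3.1]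
  have hgbint : ∀ ρ : Measure ℂ, IsProbOn Γ ρ → ∫ z, g z ∂ρ = ∫ z, gb z ∂ρ := by
    intro ρ hρ
    have hae : ∀ᵐ z ∂ρ, z ∈ Γ := by
      rw [ae_iff]; exact hρ.compl
    apply integral_congr_ae
    filter_upwards [hae] with z hz
    exact (hgb z hz).symm
  have hgi : ∀ ρ : Measure ℂ, IsProbOn Γ ρ → Integrable g ρ := by
    intro ρ hρ
    have := hρ.isProb
    have hae : ∀ᵐ z ∂ρ, z ∈ Γ := by
      rw [ae_iff]; exact hρ.compl
    refine (integrable_const G).mono' hg.measurable.aestronglyMeasurable ?_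
    filter_upwards [hae] with z hz using hG z hz
  have hA : ∀ n, 2 * ∫ z, gb z ∂(ν n) ≤
      ∫ p, kerV h p ∂((ν n).prod (ν n)) + τ n * (L ^ 2 / 2) := by
    intro n
    have hge := hμ'.le (ν n) (hν n) (hfin n)
    have hKn := hK n
    have h3 : τ n * ∫ z, g z ∂(ν n) ≤
        ∫ z, (phi k₁ k₂ (defo h (τ n) z) - phi k₁ k₂ z) ∂(ν n) := by
      rw [← integral_const_mul]
      apply integral_mono_ae ((hgi _ (hν n)).const_mul _)
      · have hi1 := integrable_phi (k₁ := k₁) (k₂ := k₂) hBΓ.bdd (hν n)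
        have hae : ∀ᵐ z ∂(ν n), z ∈ Γ := by
          rw [ae_iff]; exact (hν n).compl
        refine (integrable_const ((|k₁| + |k₂|) * (τ n * H))).mono' ?_ ?_
        · have := (continuous_defo hLip (τ n)).measurable
          exact (((measurable_phi k₁ k₂).comp this).sub
            (measurable_phi k₁ k₂)).aestronglyMeasurable
        · filter_upwards [hae] with z hz
          rw [Real.norm_eq_abs]
          refine (abs_phi_sub_le k₁ k₂ _ _).trans ?_
          have : ‖defo h (τ n) z - z‖ ≤ τ n * H := by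
            unfold defo
            rw [add_sub_cancel_left, norm_mul, Complex.norm_real, Real.norm_of_nonneg (hτ0 n).le]
            exact mul_le_mul_of_nonneg_left (hH z hz) (hτ0 n).le
          gcongr
      · exact ae_of_all _ fun z => hineq (τ n) (hτ0 n) ((hτ1 n).trans ht₁t₀) z
    have h4 : ∫ p, lr h (τ n) p ∂((ν n).prod (ν n)) ≤
        τ n * ∫ p, kerV h p ∂((ν n).prod (ν n)) + τ n ^ 2 * L ^ 2 / 2 := by
      have h5 : ∫ p, lr h (τ n) p ∂((ν n).prod (ν n)) ≤
          ∫ p, (τ n * kerV h p + τ n ^ 2 * L ^ 2 / 2) ∂((ν n).prod (ν n)) := by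
        apply integral_mono (integrable_lr hLip hL (hτ0 n).le (hτL n) _)
          (((integrable_kerV hLip hL _).const_mul _).add (integrable_const _))
        exact fun p => lr_le hLip (hτ0 n).le (hτL n) p
      rw [integral_add ((integrable_kerV hLip hL _).const_mul _) (integrable_const _),
        integral_const_mul, integral_const, probReal_univ, one_smul] at h5
      exact h5
    rw [← hgbint _ (hν n)]
    have h6 : τ n * (2 * ∫ z, g z ∂(ν n)) ≤
        τ n * (∫ p, kerV h p ∂((ν n).prod (ν n)) + τ n * (L ^ 2 / 2)) := by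
      nlinarith
    exact le_of_mul_le_mul_left h6 (hτ0 n)
  -- uniform bound on the energies
  set CE : ℝ := ren D' k₁ k₂ μ + C * t₁ + 2 * Mφ with hCE
  have henb : ∀ ρ : Measure ℂ, IsProbOn Γ ρ → ren D' k₁ k₂ ρ ≤ ren D' k₁ k₂ μ + C * t₁ →
      (ener D' ρ ρ).toReal ≤ CE := by
    intro ρ hρ hle
    have h3 := abs_integral_phi_le hMφ hρ
    have h4 := (abs_le.1 h3).1
    unfold ren at hle
    rw [hCE]
    unfold ren
    linarith
  have hCE0 : 0 ≤ CE := by
    refine le_trans ENNReal.toReal_nonneg (henb μ hμ'.mem ?_)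
    have : 0 ≤ C * t₁ := by positivity
    linarith
  have hEn : ∀ n, (ener D' (ν n) (ν n)).toReal ≤ CE := by
    intro n
    apply henb _ (hν n)
    have h3 := hren n
    have h4 := mul_le_mul_of_nonneg_left (hτ1 n) hC0
    linarith
  have hEμ : (ener D' μ μ).toReal ≤ CE := by
    apply henb μ hμ'.mem
    have : 0 ≤ C * t₁ := by positivity
    linarith
  have hD'0 : 0 < D' := hB.pos
  -- for each truncation parameter
  have hmain : ∀ N : ℝ, 0 < N → 2 * ∫ z, g z ∂μ ≤ ∫ p, kerV h p ∂(μ.prod μ) +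
      2 * (L * (CE / N)) := by
    intro N hN
    set δ : ℝ := D' * Real.exp (-N) with hδ
    have hδ0 : 0 < δ := by positivity
    have hδD : δ < D' := by
      have : Real.exp (-N) < 1 := Real.exp_lt_one_iff.2 (by linarith)
      rw [hδ]
      nlinarith
    have hlog : Real.log (D' / δ) = N := by
      rw [hδ, div_mul_cancel_left₀ hD'0.ne', ← Real.exp_neg, Real.log_exp, neg_neg]
    have hdiff : ∀ ρ : Measure ℂ, IsProbOn Γ ρ → ener D' ρ ρ ≠ ⊤ → (ener D' ρ ρ).toReal ≤ CE →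
        |∫ p, kerV h p ∂(ρ.prod ρ) - ∫ p, kerD h δ p ∂(ρ.prod ρ)| ≤ L * (CE / N) := by
      intro ρ hρ hρfin hρE
      have := hρ.isProb
      refine (integral_kerV_sub_kerD hLip hL hδ0 (ρ.prod ρ)).trans ?_
      have h3 := measure_near_diag hBΓ' hρ hρfin hδ0 hδD
      rw [hlog] at h3
      have h4 : (ener D' ρ ρ).toReal / N ≤ CE / N := by gcongr
      exact mul_le_mul_of_nonneg_left (h3.trans h4) hL
    let kb : ℂ × ℂ →ᵇ ℝ := BoundedContinuousFunction.ofNormedAddCommGroup (kerD h δ)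
      (continuous_kerD hLip hL hδ0) L (fun p => by
        rw [Real.norm_eq_abs]
        exact kerD_le hLip hL hδ0 p)
    have hlim1 : Tendsto (fun n => ∫ z, gb z ∂(ν n)) atTop (𝓝 (∫ z, gb z ∂μ)) :=
      ((ProbabilityMeasure.continuous_integral_boundedContinuousFunction gb).tendsto Pμ).comp hconv
    have hlim2 : Tendsto (fun n => ∫ p, kerD h δ p ∂((ν n).prod (ν n))) atTop
        (𝓝 (∫ p, kerD h δ p ∂(μ.prod μ))) := by
      have h3 := (ProbabilityMeasure.continuous_integral_boundedContinuousFunction kb).comp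
        continuous_prod_self
      exact (h3.tendsto Pμ).comp hconv
    have h5 : ∀ n, 2 * ∫ z, gb z ∂(ν n) ≤
        ∫ p, kerD h δ p ∂((ν n).prod (ν n)) + L * (CE / N) + τ n * (L ^ 2 / 2) := by
      intro n
      have h6 := hA n
      have h7 := (abs_le.1 (hdiff (ν n) (hν n) (hfin n) (hEn n))).2
      linarith
    have h6 : 2 * ∫ z, gb z ∂μ ≤
        ∫ p, kerD h δ p ∂(μ.prod μ) + L * (CE / N) + 0 * (L ^ 2 / 2) := by
      refine le_of_tendsto_of_tendsto' (hlim1.const_mul 2) ?_ h5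
      exact (hlim2.add_const _).add (hτlim.mul_const _)
    have h7 := (abs_le.1 (hdiff μ hμ'.mem hμ'.fin hEμ)).1
    rw [hgbint μ hμ'.mem]
    linarith
  apply le_of_forall_pos_le_add
  intro η hη
  have h3 := hmain (2 * (L * CE) / η + 1) (by positivity)
  have h4 : 2 * (L * (CE / (2 * (L * CE) / η + 1))) ≤ η := by
    have h5 : 0 < 2 * (L * CE) / η + 1 := by positivity
    rw [show 2 * (L * (CE / (2 * (L * CE) / η + 1))) = 2 * (L * CE) / (2 * (L * CE) / η + 1) by
      ring, div_le_iff₀ h5]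
    have h6 : η * (2 * (L * CE) / η + 1) = 2 * (L * CE) + η := by
      field_simp
    rw [h6]
    linarith
  linarith

/-- The variational inequality satisfied by the equilibrium measure of a max-min continuum. -/
def VarIneq (k₁ k₂ ε₁ ε₂ : ℝ) (μ : Measure ℂ) : Prop :=
  ∀ (h : ℂ → ℂ) (L : ℝ) (g : ℂ → ℝ) (t₀ : ℝ), (∀ z w, ‖h z - h w‖ ≤ L * ‖z - w‖) → 0 ≤ L →
    h (-(ε₁ : ℂ) + Complex.I) = 0 → h ((ε₂ : ℂ) - Complex.I) = 0 → Continuous g → 0 < t₀ →
    (∀ t, 0 < t → t ≤ t₀ → ∀ z, t * g z ≤ phi k₁ k₂ (defo h t z) - phi k₁ k₂ z) →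
    2 * ∫ z, g z ∂μ ≤ ∫ p, kerV h p ∂(μ.prod μ)

theorem varIneq_of_maxMin (hM : IsMaxMin k₁ k₂ ε₁ ε₂ Γ) (hBΓ : Box D Γ)
    (hμ : IsMinim D k₁ k₂ Γ μ) : VarIneq k₁ k₂ ε₁ ε₂ μ :=
  fun _ _ _ _ hLip hL h1 h2 hg ht₀ hineq => variation hM hBΓ hμ hLip hL h1 h2 hg ht₀ hineq

end

end Pool.Agent.Helper25.SCurve
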