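import Pool.Agent.Helper25.SCurve.DeGiorgi

/-!
# In the middle part the equilibrium measure lives on the imaginary axis
-/

namespace Pool.Agent.Helper25.SCurve

open MeasureTheory Set Filter Topology
open scoped ENNReal

/-- The rectangle spanned by `z₁` and `z₂`. -/
def rect (ε₁ ε₂ : ℝ) : Set ℂ := {z | (-ε₁ ≤ z.re ∧ z.re ≤ ε₂) ∧ (-1 ≤ z.im ∧ z.im ≤ 1)}

section

variable {D k₁ k₂ ε₁ ε₂ t : ℝ} {Γ : Set ℂ} {μ : Measure ℂ}

theorem isProbOn_rect (hμ : IsProbOn Γ μ)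
    (hae : ∀ᵐ z ∂μ, (-ε₁ ≤ z.re ∧ z.re ≤ ε₂) ∧ (-1 ≤ z.im ∧ z.im ≤ 1)) :
    IsProbOn (Γ ∩ rect ε₁ ε₂) μ := by
  refine ⟨hμ.isProb, ?_⟩
  have h1 : ∀ᵐ z ∂μ, z ∈ Γ := by
    rw [ae_iff]; exact hμ.compl
  have h2 : ∀ᵐ z ∂μ, z ∈ Γ ∩ rect ε₁ ε₂ := by
    filter_upwards [h1, hae] with z a b using ⟨a, b⟩
  rw [ae_iff] at h2
  exact h2

theorem box_rect (hΓ : Bornology.IsBounded Γ) (h : ε₁ + ε₂ ≤ 1) :
    Box 3 (Γ ∩ rect ε₁ ε₂) := by
  refine ⟨by norm_num, hΓ.subset inter_subset_left, ?_⟩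
  rintro z ⟨_, ⟨hz1, hz2⟩, hz3, hz4⟩ w ⟨_, ⟨hw1, hw2⟩, hw3, hw4⟩
  calc ‖z - w‖ ≤ |(z - w).re| + |(z - w).im| := Complex.norm_le_abs_re_add_abs_im _
    _ ≤ 1 + 2 := by
        rw [Complex.sub_re, Complex.sub_im]
        apply add_le_add
        · rw [abs_le]; constructor <;> linarith
        · rw [abs_le]; constructor <;> linarith
    _ = 3 := by norm_num

theorem test_mass_le {R : Measure ℂ} [IsFiniteMeasure R] {ρ ε : ℝ} (hρ : 0 < ρ) (hε : 0 ≤ ε)
    (hR : R.real univ ≤ 1) (hae : ∀ᵐ z ∂(R), 0 ≤ z.re ∧ z.re ≤ ε) {c : ℝ → ℝ}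
    (hc : ∀ y y', |c y - c y'| ≤ 1 * |y - y'|) :
    ∫ p : ℂ × ℂ, |c p.1.im - c p.2.im| * qk p ∂(R.prod R) ≤
      1 / 2 * (R.prod R).real {q : ℂ × ℂ | ‖q.1 - q.2‖ < ρ} + ε / ρ := by
  have hms : MeasurableSet {q : ℂ × ℂ | ‖q.1 - q.2‖ < ρ} := by
    apply measurableSet_lt _ measurable_const
    fun_prop
  have h1 : ∫ p : ℂ × ℂ, |c p.1.im - c p.2.im| * qk p ∂(R.prod R) ≤
      ∫ p : ℂ × ℂ, ({q : ℂ × ℂ | ‖q.1 - q.2‖ < ρ}.indicator (fun _ => (1 / 2 : ℝ)) p + ε / ρ)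
        ∂(R.prod R) := by
    apply integral_mono_ae (integrable_test hc _)
      (((integrable_const _).indicator hms).add (integrable_const _))
    have a1 := (Measure.quasiMeasurePreserving_fst (μ := R) (ν := R)).ae hae
    have a2 := (Measure.quasiMeasurePreserving_snd (μ := R) (ν := R)).ae hae
    filter_upwards [a1, a2] with p b1 b2
    by_cases hp : ‖p.1 - p.2‖ < ρ
    · simp only [Pi.add_apply]
      rw [indicator_of_mem (show p ∈ {q : ℂ × ℂ | ‖q.1 - q.2‖ < ρ} from hp)]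
      have h2 := test_le (by norm_num) hc p
      have h3 : 0 ≤ ε / ρ := by positivity
      linarith
    · simp only [Pi.add_apply]
      rw [indicator_of_notMem (show p ∉ {q : ℂ × ℂ | ‖q.1 - q.2‖ < ρ} from hp), zero_add]
      have hp' : ρ ≤ ‖p.1 - p.2‖ := not_lt.1 hp
      have hp0 : 0 < ‖p.1 - p.2‖ := lt_of_lt_of_le hρ hp'
      have h2 : |c p.1.im - c p.2.im| ≤ ‖p.1 - p.2‖ := by
        refine (hc _ _).trans ?_
        have := Complex.abs_im_le_norm (p.1 - p.2)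
        rw [Complex.sub_im] at this
        linarith
      have h3 : |p.1.re - p.2.re| ≤ ε := by
        rw [abs_le]
        constructor <;> linarith [b1.1, b1.2, b2.1, b2.2]
      calc |c p.1.im - c p.2.im| * qk p ≤ ‖p.1 - p.2‖ * (ε / ‖p.1 - p.2‖ ^ 2) := by
            unfold qk
            gcongr
        _ = ε / ‖p.1 - p.2‖ := by field_simp
        _ ≤ ε / ρ := by gcongr
  refine h1.trans ?_
  rw [integral_add ((integrable_const _).indicator hms) (integrable_const _),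
    integral_indicator hms, setIntegral_const, smul_eq_mul, integral_const, smul_eq_mul]
  have h2 : (R.prod R).real univ ≤ 1 := by
    rw [← univ_prod_univ, measureReal_prod_prod]
    have : 0 ≤ R.real univ := by positivity
    nlinarith
  have h3 : (R.prod R).real univ * (ε / ρ) ≤ 1 * (ε / ρ) := by gcongr
  linarith

theorem window_right (hk₁ : 0 < k₁) (hk₂ : 0 < k₂) (ht : 0 < t) (ht1 : t ≤ 1) :
    ∃ ε₀ : ℝ, 0 < ε₀ ∧ ∀ (ε₁ ε₂ : ℝ) (Γ : Set ℂ) (D : ℝ) (μ : Measure ℂ), 0 < ε₁ → ε₁ < ε₀ →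
      0 < ε₂ → ε₂ < ε₀ → IsMaxMin k₁ k₂ ε₁ ε₂ Γ → Box D Γ → 2 ≤ D → IsMinim D k₁ k₂ Γ μ →
      μ {z : ℂ | 0 < z.re ∧ -1 + 2 * t < z.im} = 0 := by
  obtain ⟨δ, hδ0, hδ1, hδ2⟩ : ∃ δ : ℝ, 0 < δ ∧ δ ≤ 1 ∧ 2 * δ / t ≤ k₁ / 32 := by
    refine ⟨min 1 (k₁ * t / 64), by positivity, min_le_left _ _, ?_⟩
    rw [div_le_iff₀ ht]
    have := min_le_right 1 (k₁ * t / 64)
    linarith
  set η : ℝ := 2 * k₁ * t * (δ / 16) with hη
  have hη0 : 0 < η := by positivity
  have hlog3 : 0 < Real.log 3 := Real.log_pos (by norm_num)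
  set ρ : ℝ := 3 * Real.exp (-((Real.log 3 + 2) / η)) with hρ
  have hρ0 : 0 < ρ := by positivity
  have hρ3 : ρ < 3 := by
    have : Real.exp (-((Real.log 3 + 2) / η)) < 1 := by
      rw [Real.exp_lt_one_iff]
      have : 0 < (Real.log 3 + 2) / η := by positivity
      linarith
    linarith
  have hlogρ : Real.log (3 / ρ) = (Real.log 3 + 2) / η := by
    rw [hρ, div_mul_cancel_left₀ (by norm_num), ← Real.exp_neg, Real.log_exp, neg_neg]
  refine ⟨min (min (1 / (4 * (k₁ + k₂))) (Real.exp (-2) / 2)) (min (ρ * η / 2)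
    (k₁ * t ^ 2 / 832)), by positivity, ?_⟩
  intro ε₁ ε₂ Γ D μ hε₁ hε₁' hε₂ hε₂' hM hB hD hμ
  have e1 : ε₁ < 1 / (4 * (k₁ + k₂)) :=
    lt_of_lt_of_le hε₁' ((min_le_left _ _).trans (min_le_left _ _))
  have e2 : ε₂ < 1 / (4 * (k₁ + k₂)) :=
    lt_of_lt_of_le hε₂' ((min_le_left _ _).trans (min_le_left _ _))
  have e3 : ε₁ < Real.exp (-2) / 2 :=
    lt_of_lt_of_le hε₁' ((min_le_left _ _).trans (min_le_right _ _))
  have e4 : ε₂ < Real.exp (-2) / 2 :=
    lt_of_lt_of_le hε₂' ((min_le_left _ _).trans (min_le_right _ _))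
  have e5 : ε₂ < ρ * η / 2 := lt_of_lt_of_le hε₂' ((min_le_right _ _).trans (min_le_left _ _))
  have e6 : ε₂ < k₁ * t ^ 2 / 832 :=
    lt_of_lt_of_le hε₂' ((min_le_right _ _).trans (min_le_right _ _))
  have hprob := hμ.mem.isProb
  -- consequences of the smallness
  have hK : k₁ * ε₂ + k₂ * ε₁ ≤ 1 / 4 := by
    rw [lt_div_iff₀ (by positivity)] at e1 e2
    nlinarith
  have hexp2 : Real.exp (-2) < 1 := Real.exp_lt_one_iff.2 (by norm_num)
  have hsum : ε₁ + ε₂ < Real.exp (-2) := by linarith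
  have hsum1 : ε₁ + ε₂ ≤ 1 := by linarith
  have hlogs : 2 < -Real.log (ε₁ + ε₂) := by
    have := Real.log_lt_log (by linarith) hsum
    rw [Real.log_exp] at this
    linarith
  have hsmall : 1 + 2 * (k₁ * ε₂ + k₂ * ε₁) < -Real.log (ε₁ + ε₂) := by linarith
  have hrect := rect_ae hM hB hD hμ hk₁ hk₂ hε₁ hε₂ hsmall
  have hprobR := isProbOn_rect hμ.mem hrect
  have hBR := hB.mono (inter_subset_left (s := Γ) (t := rect ε₁ ε₂))
  have hB3 := box_rect hB.bdd hsum1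
  obtain ⟨hfin3, hren3⟩ := ren_change (k₁ := k₁) (k₂ := k₂) hBR hB3 hprobR hμ.fin
  have hren := ren_le hM.joining hD hk₁.le hk₂.le hμ
  have hphi := integral_phi_ge hM hB hμ hk₁ hk₂ hε₁ hε₂
  have hE3 : (ener 3 μ μ).toReal ≤ Real.log 3 + 2 := by
    unfold ren at hren3 hren
    linarith
  -- the measure on the right
  set R : Measure ℂ := μ.restrict {z | 0 < z.re} with hR_def
  have hSm : MeasurableSet {z : ℂ | 0 < z.re} :=
    measurableSet_lt measurable_const Complex.measurable_re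
  have hRP : RProp k₁ R := rprop_right hM hB hμ hk₁ hε₁
  have hRuniv : R.real univ ≤ 1 := by
    rw [hR_def, measureReal_restrict_apply_univ]
    exact measureReal_le_one
  have hRae : ∀ᵐ z ∂(R), 0 ≤ z.re ∧ z.re ≤ ε₂ := by
    have h1 : ∀ᵐ z ∂(R), 0 < z.re := ae_restrict_mem hSm
    have h2 : ∀ᵐ z ∂(R), (-ε₁ ≤ z.re ∧ z.re ≤ ε₂) ∧ (-1 ≤ z.im ∧ z.im ≤ 1) :=
      ae_restrict_of_ae hrect
    filter_upwards [h1, h2] with z a b using ⟨a.le, b.1.2⟩
  have hprodle : (R.prod R).real {q : ℂ × ℂ | ‖q.1 - q.2‖ < ρ} ≤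
      (μ.prod μ).real {q : ℂ × ℂ | ‖q.1 - q.2‖ < ρ} := by
    rw [hR_def, Measure.prod_restrict]
    exact ENNReal.toReal_mono (measure_ne_top _ _) (Measure.restrict_apply_le _ _)
  -- base of the iteration
  have hbase : mass R t 0 ≤ δ / 16 := by
    have hlip : ∀ y y' : ℝ, |min (max (y + 1) 0) 2 - min (max (y' + 1) 0) 2| ≤
        1 * |y - y'| := by
      intro y y'
      refine (abs_min_sub_min_le_max _ _ _ _).trans ?_
      rw [sub_self, abs_zero, max_eq_left (abs_nonneg _), one_mul]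
      refine (abs_max_sub_max_le_abs _ _ _).trans ?_
      rw [show y + 1 - (y' + 1) = y - y' by ring]
    have h1 := hRP (fun y => min (max (y + 1) 0) 2) 2 1
      (fun y => le_min (le_max_right _ _) (by norm_num)) (fun y => min_le_right _ _) hlip
      (by norm_num)
    have h2 := test_mass_le hρ0 hε₂.le hRuniv hRae hlip
    have h3 := measure_near_diag hB3 hprobR hfin3 hρ0 hρ3
    rw [hlogρ] at h3
    have h4 : (ener 3 μ μ).toReal / ((Real.log 3 + 2) / η) ≤ η := by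
      rw [div_div_eq_mul_div, div_le_iff₀ (by positivity)]
      nlinarith
    have h5 : ε₂ / ρ ≤ η / 2 := by
      rw [div_le_iff₀ hρ0]
      linarith
    have h6 : t * mass R t 0 ≤ ∫ z : ℂ, min (max (z.im + 1) 0) 2 ∂(R) := by
      have h7 : ∫ z, {z : ℂ | lev t 0 < z.im}.indicator (fun _ => t) z ∂(R) =
          t * mass R t 0 := by
        rw [integral_indicator (measurableSet_above _), setIntegral_const, smul_eq_mul, mul_comm]
        rfl
      rw [← h7]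
      apply integral_mono ((integrable_const _).indicator (measurableSet_above _))
      · refine (integrable_const (2 : ℝ)).mono' ?_ (ae_of_all _ fun z => ?_)
        · exact (by fun_prop : Measurable fun z : ℂ =>
            min (max (z.im + 1) 0) 2).aestronglyMeasurable
        · rw [Real.norm_of_nonneg (le_min (le_max_right _ _) (by norm_num))]
          exact min_le_right _ _
      · intro z
        simp only
        by_cases hz : z ∈ {z : ℂ | lev t 0 < z.im}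
        · rw [indicator_of_mem hz]
          have hz' : lev t 0 < z.im := hz
          have hl0 : lev t 0 = -1 + t := by
            unfold lev
            norm_num
          rw [hl0] at hz'
          apply le_min _ (by linarith)
          apply le_max_of_le_left
          linarith
        · rw [indicator_of_notMem hz]
          exact le_min (le_max_right _ _) (by norm_num)
    have h8 : 2 * k₁ * (t * mass R t 0) ≤ 2 * k₁ * (t * (δ / 16)) := by
      calc 2 * k₁ * (t * mass R t 0) ≤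
            2 * k₁ * ∫ z : ℂ, min (max (z.im + 1) 0) 2 ∂(R) := by gcongr
        _ ≤ 1 / 2 * (R.prod R).real {q : ℂ × ℂ | ‖q.1 - q.2‖ < ρ} + ε₂ / ρ := h1.trans h2
        _ ≤ 1 / 2 * η + η / 2 := by
            have := hprodle.trans (h3.trans h4)
            linarith
        _ = 2 * k₁ * (t * (δ / 16)) := by
            rw [hη]
            ring
    have h9 : t * mass R t 0 ≤ t * (δ / 16) := le_of_mul_le_mul_left h8 (by positivity)
    exact le_of_mul_le_mul_left h9 ht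
  have hfinal := degiorgi hRP hk₁ ht hε₂.le hRuniv hRae hδ0.le hδ1 (by
    have : 26 * ε₂ / t ^ 2 ≤ k₁ / 32 := by
      rw [div_le_iff₀ (by positivity)]
      linarith
    linarith) hbase
  rw [hR_def, Measure.restrict_apply (measurableSet_above _)] at hfinal
  have : {z : ℂ | 0 < z.re ∧ -1 + 2 * t < z.im} = {z : ℂ | -1 + 2 * t < z.im} ∩ {z | 0 < z.re} := by
    ext z
    exact ⟨fun h => ⟨h.2, h.1⟩, fun h => ⟨h.2, h.1⟩⟩
  rw [this]
  exact hfinal

/-- For small `ε₁, ε₂` the equilibrium measure has no mass off the imaginary axis in the strip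
`|Im z| < 1 - 2t`. -/
theorem window (hk₁ : 0 < k₁) (hk₂ : 0 < k₂) (ht : 0 < t) (ht1 : t ≤ 1) :
    ∃ ε₀ : ℝ, 0 < ε₀ ∧ ∀ (ε₁ ε₂ : ℝ) (Γ : Set ℂ) (D : ℝ) (μ : Measure ℂ), 0 < ε₁ → ε₁ < ε₀ →
      0 < ε₂ → ε₂ < ε₀ → IsMaxMin k₁ k₂ ε₁ ε₂ Γ → Box D Γ → 2 ≤ D → IsMinim D k₁ k₂ Γ μ →
      ∀ᵐ z ∂μ, |z.im| < 1 - 2 * t → z.re = 0 := by
  obtain ⟨a, ha, hA⟩ := window_right hk₁ hk₂ ht ht1
  obtain ⟨b, hb, hB'⟩ := window_right hk₂ hk₁ ht ht1
  refine ⟨min a b, lt_min ha hb, ?_⟩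
  intro ε₁ ε₂ Γ D μ hε₁ hε₁' hε₂ hε₂' hM hB hD hμ
  have h1 := hA ε₁ ε₂ Γ D μ hε₁ (lt_of_lt_of_le hε₁' (min_le_left _ _)) hε₂
    (lt_of_lt_of_le hε₂' (min_le_left _ _)) hM hB hD hμ
  have h2 := hB' ε₂ ε₁ (negSet Γ) D (negM μ) hε₂ (lt_of_lt_of_le hε₂' (min_le_right _ _)) hε₁
    (lt_of_lt_of_le hε₁' (min_le_right _ _)) hM.neg hB.neg hD hμ.neg
  rw [negM_apply] at h2
  have h3 : ∀ᵐ z ∂μ, ¬ (0 < z.re ∧ -1 + 2 * t < z.im) := by
    rw [ae_iff]
    simp only [not_not]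
    exact h1
  have h4 : ∀ᵐ z ∂μ, ¬ (0 < -z.re ∧ -1 + 2 * t < -z.im) := by
    rw [ae_iff]
    simp only [not_not]
    have : negSet {z : ℂ | 0 < z.re ∧ -1 + 2 * t < z.im} =
        {z : ℂ | 0 < -z.re ∧ -1 + 2 * t < -z.im} := by
      ext z
      rw [mem_negSet]
      simp
    rwa [this] at h2
  filter_upwards [h3, h4] with z h5 h6 habs
  rw [abs_lt] at habs
  by_contra hne
  rcases lt_or_gt_of_ne hne with h | h
  · exact h6 ⟨by linarith, by linarith⟩
  · exact h5 ⟨h, by linarith⟩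

end

end Pool.Agent.Helper25.SCurve
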